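import Pool.Agent.P.MP_923088_al.AG.Defs

/-!
Row AG-LawL. Finite sums: elementary facts on laws. No geometry.
Hints: `Fintype.sum_prod_type`, `Finset.sum_comm`, `Finset.mul_sum`, `split_ifs`; `blk_succ` and
`lev_succ` hold by `rfl`; division by zero is zero, and `L.rc χ ω = 0` forces `L.r ω = 0`.
-/

namespace Pool.Agent.P.MP_923088_al.AG

open MeasureTheory Real
open scoped Classical Quaternion

theorem LawL_ite_nonneg {p : Prop} {_ : Decidable p} {a : ℝ} (ha : 0 ≤ a) :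
    0 ≤ if p then a else 0 := by
  split_ifs
  · exact ha
  · exact le_rfl

theorem LawL_ite_le_self {p : Prop} {_ : Decidable p} {a : ℝ} (ha : 0 ≤ a) :
    (if p then a else 0) ≤ a := by
  split_ifs
  · exact le_rfl
  · exact ha

theorem LawL_ite_le {p q : Prop} {_ : Decidable p} {_ : Decidable q} {a : ℝ} (ha : 0 ≤ a)
    (h : p → q) : (if p then a else 0) ≤ if q then a else 0 := by
  by_cases hp : p
  · rw [if_pos hp, if_pos (h hp)]
  · rw [if_neg hp]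
    exact LawL_ite_nonneg ha

theorem LawL_ite_or {p q : Prop} {_ : Decidable p} {_ : Decidable q} {_ : Decidable (p ∨ q)}
    {a : ℝ} (ha : 0 ≤ a) :
    (if p ∨ q then a else 0) ≤ (if p then a else 0) + if q then a else 0 := by
  by_cases hp : p <;> by_cases hq : q <;> simp [hp, hq, ha]

theorem LawL_avg (ι : Type) [Fintype ι] {ε : ℝ} (hε : 0 ≤ ε) :
    ∑ _K : ι, ε / (Fintype.card ι : ℝ) ≤ ε := by
  rw [Finset.sum_const, Finset.card_univ, nsmul_eq_mul, ← mul_div_assoc, mul_div_right_comm]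
  exact mul_le_of_le_one_left hε (div_self_le_one _)

namespace Law

theorem LawL_wsum {L : Law} (h : L.Ok) {f : L.Ω → ℝ} {ε : ℝ} (hf : ∀ ω, f ω ≤ ε) (hε : 0 ≤ ε) :
    ∑ ω, L.r ω * f ω ≤ ε := by
  refine (Finset.sum_le_sum fun ω _ => mul_le_mul_of_nonneg_left (hf ω) (h.nn ω)).trans ?_
  rw [← Finset.sum_mul]
  exact mul_le_of_le_one_left hε h.le

theorem LawL_sum_one : ∑ ω, Law.one.r ω = 1 := by simp

theorem LawL_sum_chain (L₁ L₂ : Law) :
    ∑ ω, (L₁.chain L₂).r ω = (∑ ω, L₁.r ω) * ∑ ω, L₂.r ω := by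
  rw [Finset.sum_mul_sum]
  exact Fintype.sum_prod_type fun ω : L₁.Ω × L₂.Ω => L₁.r ω.1 * L₂.r ω.2

theorem LawL_Lc_eq (L : Law) (F : CF) : L.Lc F = ∑ ω, (L.r ω : ℂ) • Lt (L.Y ω) F := by
  unfold Lc
  rw [LinearMap.sum_apply]
  rfl

theorem P_nonneg {L : Law} (h : L.Ok) (E : L.Ω → Prop) : 0 ≤ L.P E :=
  Finset.sum_nonneg fun ω _ => LawL_ite_nonneg (h.nn ω)
theorem P_mono {L : Law} (h : L.Ok) {E E' : L.Ω → Prop} (hE : ∀ ω, E ω → E' ω) :
    L.P E ≤ L.P E' := Finset.sum_le_sum fun ω _ => LawL_ite_le (h.nn ω) (hE ω)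
theorem P_le_one {L : Law} (h : L.Ok) (E : L.Ω → Prop) : L.P E ≤ 1 :=
  (Finset.sum_le_sum fun ω _ => LawL_ite_le_self (h.nn ω)).trans h.le
theorem P_or {L : Law} (h : L.Ok) (E E' : L.Ω → Prop) :
    L.P (fun ω => E ω ∨ E' ω) ≤ L.P E + L.P E' := by
  unfold P
  rw [← Finset.sum_add_distrib]
  exact Finset.sum_le_sum fun ω _ => LawL_ite_or (h.nn ω)
theorem P_exists {L : Law} (h : L.Ok) {ι : Type} (T : Finset ι) (E : ι → L.Ω → Prop) :
    L.P (fun ω => ∃ i ∈ T, E i ω) ≤ ∑ i ∈ T, L.P (E i) := by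
  unfold P
  rw [Finset.sum_comm]
  refine Finset.sum_le_sum fun ω _ => ?_
  by_cases hω : ∃ i ∈ T, E i ω
  · rw [if_pos hω]
    obtain ⟨i, hi, he⟩ := hω
    have h1 := Finset.single_le_sum (f := fun i => if E i ω then L.r ω else 0)
      (fun i _ => LawL_ite_nonneg (h.nn ω)) hi
    rwa [if_pos he] at h1
  · rw [if_neg hω]
    exact Finset.sum_nonneg fun i _ => LawL_ite_nonneg (h.nn ω)
theorem P_true (L : Law) : L.P (fun _ => True) = ∑ ω, L.r ω :=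
  Finset.sum_congr rfl fun _ _ => if_pos trivial
theorem P_false (L : Law) {E : L.Ω → Prop} (h : ∀ ω, ¬ E ω) : L.P E = 0 :=
  Finset.sum_eq_zero fun ω _ => if_neg (h ω)
theorem P_congr (L : Law) {E E' : L.Ω → Prop} (h : ∀ ω, E ω ↔ E' ω) : L.P E = L.P E' := by
  rw [show E = E' from funext fun ω => propext (h ω)]

theorem rc_nonneg {L : Law} (h : L.Ok) {X : Type} (χ : L.Ω → X) (ω : L.Ω) : 0 ≤ L.rc χ ω :=
  Finset.sum_nonneg fun ω' _ => LawL_ite_nonneg (h.nn ω')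
theorem r_le_rc {L : Law} (h : L.Ok) {X : Type} (χ : L.Ω → X) (ω : L.Ω) : L.r ω ≤ L.rc χ ω := by
  have h1 := Finset.single_le_sum (f := fun ω' => if χ ω' = χ ω then L.r ω' else 0)
    (fun ω' _ => LawL_ite_nonneg (h.nn ω')) (Finset.mem_univ ω)
  rwa [if_pos rfl] at h1
theorem rc_congr (L : Law) {X : Type} (χ : L.Ω → X) {ω ω' : L.Ω} (h : χ ω = χ ω') :
    L.rc χ ω = L.rc χ ω' := by
  unfold rc
  rw [h]
theorem pr_nonneg {L : Law} (h : L.Ok) {X : Type} (χ : L.Ω → X) (ω ω' : L.Ω) :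
    0 ≤ L.pr χ ω ω' :=
  LawL_ite_nonneg (div_nonneg (mul_nonneg (h.nn ω) (h.nn ω')) (rc_nonneg h χ ω))
theorem pr_symm (L : Law) {X : Type} (χ : L.Ω → X) (ω ω' : L.Ω) :
    L.pr χ ω ω' = L.pr χ ω' ω := by
  unfold pr
  by_cases h : χ ω = χ ω'
  · rw [if_pos h, if_pos h.symm, L.rc_congr χ h, mul_comm]
  · rw [if_neg h, if_neg fun h' => h h'.symm]
theorem sum_pr {L : Law} (h : L.Ok) {X : Type} (χ : L.Ω → X) (ω : L.Ω) :
    ∑ ω', L.pr χ ω ω' = L.r ω := by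
  have h1 : ∑ ω', L.pr χ ω ω' = L.r ω / L.rc χ ω * L.rc χ ω := by
    conv_rhs => rw [rc.eq_def L χ ω, Finset.mul_sum, ← rc.eq_def L χ ω]
    refine Finset.sum_congr rfl fun ω' _ => ?_
    unfold pr
    by_cases hω : χ ω = χ ω'
    · rw [if_pos hω, if_pos hω.symm]
      ring
    · rw [if_neg hω, if_neg fun h' => hω h'.symm, mul_zero]
  rw [h1]
  by_cases h0 : L.rc χ ω = 0
  · rw [h0, mul_zero]
    exact le_antisymm (h.nn ω) (h0 ▸ r_le_rc h χ ω)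
  · exact div_mul_cancel₀ _ h0
theorem PP_nonneg {L : Law} (h : L.Ok) {X : Type} (χ : L.Ω → X) (E : L.Ω → L.Ω → Prop) :
    0 ≤ L.PP χ E :=
  Finset.sum_nonneg fun ω _ => Finset.sum_nonneg fun ω' _ => LawL_ite_nonneg (pr_nonneg h χ ω ω')
theorem PP_mono {L : Law} (h : L.Ok) {X : Type} (χ : L.Ω → X) {E E' : L.Ω → L.Ω → Prop}
    (hE : ∀ ω ω', χ ω = χ ω' → E ω ω' → E' ω ω') : L.PP χ E ≤ L.PP χ E' := by
  refine Finset.sum_le_sum fun ω _ => Finset.sum_le_sum fun ω' _ => ?_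
  by_cases hχ : χ ω = χ ω'
  · exact LawL_ite_le (pr_nonneg h χ ω ω') (hE ω ω' hχ)
  · have h0 : L.pr χ ω ω' = 0 := if_neg hχ
    rw [h0, ite_self, ite_self]
theorem PP_le_one {L : Law} (h : L.Ok) {X : Type} (χ : L.Ω → X) (E : L.Ω → L.Ω → Prop) :
    L.PP χ E ≤ 1 := by
  refine le_trans (Finset.sum_le_sum fun ω _ => ?_) h.le
  rw [← sum_pr h χ ω]
  exact Finset.sum_le_sum fun ω' _ => LawL_ite_le_self (pr_nonneg h χ ω ω')
theorem PP_or {L : Law} (h : L.Ok) {X : Type} (χ : L.Ω → X) (E E' : L.Ω → L.Ω → Prop) :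
    L.PP χ (fun ω ω' => E ω ω' ∨ E' ω ω') ≤ L.PP χ E + L.PP χ E' := by
  unfold PP
  rw [← Finset.sum_add_distrib]
  refine Finset.sum_le_sum fun ω _ => ?_
  rw [← Finset.sum_add_distrib]
  exact Finset.sum_le_sum fun ω' _ => LawL_ite_or (pr_nonneg h χ ω ω')
theorem PP_fst {L : Law} (h : L.Ok) {X : Type} (χ : L.Ω → X) (E : L.Ω → Prop) :
    L.PP χ (fun ω _ => E ω) = L.P E := by
  refine Finset.sum_congr rfl fun ω _ => ?_
  by_cases hω : E ω
  · rw [if_pos hω, ← sum_pr h χ ω]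
    exact Finset.sum_congr rfl fun ω' _ => if_pos hω
  · rw [if_neg hω]
    exact Finset.sum_eq_zero fun ω' _ => if_neg hω

theorem ok_one : Law.one.Ok := ⟨fun _ => zero_le_one, LawL_sum_one.le⟩
theorem Ok.chain {L₁ L₂ : Law} (h₁ : L₁.Ok) (h₂ : L₂.Ok) : (L₁.chain L₂).Ok :=
  ⟨fun ω => mul_nonneg (h₁.nn ω.1) (h₂.nn ω.2), (LawL_sum_chain L₁ L₂).le.trans
    (mul_le_one₀ h₁.le (Finset.sum_nonneg fun ω _ => h₂.nn ω) h₂.le)⟩
theorem Ok.cj {L : Law} (h : L.Ok) (c : SU2) : (L.cj c).Ok := ⟨h.nn, h.le⟩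
theorem Ok.conjRef {L₁ L₂ : Law} (h₁ : L₁.Ok) (h₂ : L₂.Ok) {X : Type} (χ : L₂.Ω → X) :
    (L₁.conjRef L₂ χ).Ok := by
  refine ⟨fun ω => mul_nonneg (h₁.nn ω.1) (pr_nonneg h₂ χ _ _), ?_⟩
  have h1 : ∑ ω : L₁.Ω × L₂.Ω × L₂.Ω, L₁.r ω.1 * L₂.pr χ ω.2.1 ω.2.2 =
      (∑ ω, L₁.r ω) * ∑ ω, L₂.r ω := by
    rw [Fintype.sum_prod_type, Finset.sum_mul]
    refine Finset.sum_congr rfl fun ω₁ _ => ?_
    rw [Fintype.sum_prod_type, Finset.mul_sum]
    refine Finset.sum_congr rfl fun ω _ => ?_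
    rw [← sum_pr h₂ χ ω, Finset.mul_sum]
  exact h1.le.trans (mul_le_one₀ h₁.le (Finset.sum_nonneg fun ω _ => h₂.nn ω) h₂.le)
theorem ok_mix {ι : Type} [Fintype ι] {L : ι → Law} (h : ∀ K, (L K).Ok)
    (A : ∀ K, (L K).Ω → Prop) : (Law.mix L A).Ok := by
  refine ⟨fun ω => LawL_ite_nonneg (div_nonneg ((h ω.1).nn ω.2) (Nat.cast_nonneg _)), ?_⟩
  have h1 : ∑ ω : (Σ K, (L K).Ω), (if A ω.1 ω.2 then (L ω.1).r ω.2 / (Fintype.card ι : ℝ) else 0)
      ≤ 1 := by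
    rw [Fintype.sum_sigma]
    refine le_trans (Finset.sum_le_sum fun K _ => ?_) (LawL_avg ι zero_le_one)
    refine le_trans ?_ (div_le_div_of_nonneg_right (h K).le (Nat.cast_nonneg _))
    rw [Finset.sum_div]
    exact Finset.sum_le_sum fun ω _ =>
      LawL_ite_le_self (div_nonneg ((h K).nn ω) (Nat.cast_nonneg _))
  exact h1

theorem P_chain (L₁ L₂ : Law) (E : (L₁.chain L₂).Ω → Prop) :
    (L₁.chain L₂).P E = ∑ ω₁, L₁.r ω₁ * L₂.P (fun ω₂ => E (ω₁, ω₂)) := by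
  refine (Fintype.sum_prod_type
    (fun ω : L₁.Ω × L₂.Ω => if E ω then L₁.r ω.1 * L₂.r ω.2 else 0)).trans ?_
  refine Finset.sum_congr rfl fun ω₁ _ => ?_
  unfold P
  rw [Finset.mul_sum]
  exact Finset.sum_congr rfl fun ω₂ _ => by rw [mul_ite, mul_zero]
theorem P_chain' (L₁ L₂ : Law) (E : (L₁.chain L₂).Ω → Prop) :
    (L₁.chain L₂).P E = ∑ ω₂, L₂.r ω₂ * L₁.P (fun ω₁ => E (ω₁, ω₂)) := by
  refine (Fintype.sum_prod_type_right
    (fun ω : L₁.Ω × L₂.Ω => if E ω then L₁.r ω.1 * L₂.r ω.2 else 0)).trans ?_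
  refine Finset.sum_congr rfl fun ω₂ _ => ?_
  unfold P
  rw [Finset.mul_sum]
  exact Finset.sum_congr rfl fun ω₁ _ => by rw [mul_ite, mul_zero, mul_comm]
theorem P_chain_le {L₁ L₂ : Law} (h₁ : L₁.Ok) (h₂ : L₂.Ok) {E : (L₁.chain L₂).Ω → Prop} {ε : ℝ}
    (h : ∀ ω₁, L₂.P (fun ω₂ => E (ω₁, ω₂)) ≤ ε) (hε : 0 ≤ ε) : (L₁.chain L₂).P E ≤ ε := by
  have _ := h₂
  rw [P_chain]
  exact LawL_wsum h₁ h hε
theorem P_chain_le' {L₁ L₂ : Law} (h₁ : L₁.Ok) (h₂ : L₂.Ok) {E : (L₁.chain L₂).Ω → Prop} {ε : ℝ}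
    (h : ∀ ω₂, L₁.P (fun ω₁ => E (ω₁, ω₂)) ≤ ε) (hε : 0 ≤ ε) : (L₁.chain L₂).P E ≤ ε := by
  have _ := h₁
  rw [P_chain']
  exact LawL_wsum h₂ h hε
theorem P_conjRef (L₁ L₂ : Law) {X : Type} (χ : L₂.Ω → X) (E : (L₁.conjRef L₂ χ).Ω → Prop) :
    (L₁.conjRef L₂ χ).P E =
      ∑ ω₁, L₁.r ω₁ * L₂.PP χ (fun ω ω' => E (ω₁, ω, ω')) := by
  refine (Fintype.sum_prod_type (fun ω : L₁.Ω × L₂.Ω × L₂.Ω =>
    if E ω then L₁.r ω.1 * L₂.pr χ ω.2.1 ω.2.2 else 0)).trans ?_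
  refine Finset.sum_congr rfl fun ω₁ _ => ?_
  unfold PP
  rw [Fintype.sum_prod_type, Finset.mul_sum]
  refine Finset.sum_congr rfl fun ω _ => ?_
  rw [Finset.mul_sum]
  exact Finset.sum_congr rfl fun ω' _ => by rw [mul_ite, mul_zero]
theorem P_conjRef' (L₁ L₂ : Law) {X : Type} (χ : L₂.Ω → X) (E : (L₁.conjRef L₂ χ).Ω → Prop) :
    (L₁.conjRef L₂ χ).P E =
      ∑ ω, ∑ ω', L₂.pr χ ω ω' * L₁.P (fun ω₁ => E (ω₁, ω, ω')) := by
  refine (Fintype.sum_prod_type_right (fun ω : L₁.Ω × L₂.Ω × L₂.Ω =>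
    if E ω then L₁.r ω.1 * L₂.pr χ ω.2.1 ω.2.2 else 0)).trans ?_
  rw [Fintype.sum_prod_type]
  refine Finset.sum_congr rfl fun ω _ => Finset.sum_congr rfl fun ω' _ => ?_
  unfold P
  rw [Finset.mul_sum]
  exact Finset.sum_congr rfl fun ω₁ _ => by rw [mul_ite, mul_zero, mul_comm]
theorem P_conjRef_le {L₁ L₂ : Law} (h₁ : L₁.Ok) (h₂ : L₂.Ok) {X : Type} (χ : L₂.Ω → X)
    (E : L₂.Ω → L₂.Ω → Prop) :
    (L₁.conjRef L₂ χ).P (fun ω => E ω.2.1 ω.2.2) ≤ L₂.PP χ E := by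
  rw [P_conjRef]
  exact LawL_wsum h₁ (fun _ => le_rfl) (PP_nonneg h₂ χ E)
theorem P_mix {ι : Type} [Fintype ι] (L : ι → Law) (A : ∀ K, (L K).Ω → Prop)
    (E : (Law.mix L A).Ω → Prop) :
    (Law.mix L A).P E = ∑ K, (L K).P (fun ω => A K ω ∧ E ⟨K, ω⟩) / Fintype.card ι := by
  refine (Fintype.sum_sigma (fun ω : (Σ K, (L K).Ω) => if E ω then
    (if A ω.1 ω.2 then (L ω.1).r ω.2 / (Fintype.card ι : ℝ) else 0) else 0)).trans ?_
  refine Finset.sum_congr rfl fun K _ => ?_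
  unfold P
  rw [Finset.sum_div]
  refine Finset.sum_congr rfl fun ω _ => ?_
  by_cases h1 : E ⟨K, ω⟩ <;> by_cases h2 : A K ω <;> simp [h1, h2]
theorem LawL_rc_mix {ι : Type} [Fintype ι] {L : ι → Law} (A : ∀ K, (L K).Ω → Prop)
    {X : ι → Type} (χ : ∀ K, (L K).Ω → X K) (hA : ∀ K ω ω', χ K ω = χ K ω' → A K ω → A K ω')
    (K : ι) (ω : (L K).Ω) (hω : A K ω) :
    (Law.mix L A).rc (fun ω => (⟨ω.1, χ ω.1 ω.2⟩ : Σ K, X K)) ⟨K, ω⟩ =
      (L K).rc (χ K) ω / Fintype.card ι := by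
  refine (Fintype.sum_sigma (α := fun K => (L K).Ω) _).trans ?_
  rw [Finset.sum_eq_single K]
  · unfold rc
    rw [Finset.sum_div]
    refine Finset.sum_congr rfl fun ω' _ => ?_
    by_cases he : χ K ω' = χ K ω
    · rw [if_pos he, if_pos (congrArg (Sigma.mk K) he)]
      exact if_pos (hA K ω ω' he.symm hω)
    · rw [if_neg he, if_neg fun h' => he (sigma_mk_injective h'), zero_div]
  · intro K' _ hK
    exact Finset.sum_eq_zero fun ω' _ => if_neg fun he => hK (congrArg Sigma.fst he)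
  · intro hK
    exact absurd (Finset.mem_univ K) hK

theorem LawL_pr_mix {ι : Type} [Fintype ι] {L : ι → Law} (h : ∀ K, (L K).Ok)
    (A : ∀ K, (L K).Ω → Prop) {X : ι → Type} (χ : ∀ K, (L K).Ω → X K)
    (hA : ∀ K ω ω', χ K ω = χ K ω' → A K ω → A K ω') (K : ι) (ω ω' : (L K).Ω) :
    (Law.mix L A).pr (fun ω => (⟨ω.1, χ ω.1 ω.2⟩ : Σ K, X K)) ⟨K, ω⟩ ⟨K, ω'⟩ ≤
      (L K).pr (χ K) ω ω' / Fintype.card ι := by
  have h0 : 0 ≤ (L K).pr (χ K) ω ω' / Fintype.card ι :=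
    div_nonneg (pr_nonneg (h K) _ _ _) (Nat.cast_nonneg _)
  have hr : ∀ x : (L K).Ω, (Law.mix L A).r ⟨K, x⟩ =
      if A K x then (L K).r x / (Fintype.card ι : ℝ) else 0 := fun _ => rfl
  by_cases he : χ K ω = χ K ω'
  · have h1 : (Law.mix L A).pr (fun ω => (⟨ω.1, χ ω.1 ω.2⟩ : Σ K, X K)) ⟨K, ω⟩ ⟨K, ω'⟩ =
        (Law.mix L A).r ⟨K, ω⟩ * (Law.mix L A).r ⟨K, ω'⟩ /
          (Law.mix L A).rc (fun ω => (⟨ω.1, χ ω.1 ω.2⟩ : Σ K, X K)) ⟨K, ω⟩ :=
      if_pos (congrArg (Sigma.mk K) he)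
    rw [h1, hr, hr]
    by_cases hω : A K ω
    · have h2 : (L K).pr (χ K) ω ω' = (L K).r ω * (L K).r ω' / (L K).rc (χ K) ω := if_pos he
      have hc : (Fintype.card ι : ℝ) ≠ 0 :=
        Nat.cast_ne_zero.2 (Fintype.card_pos_iff.2 ⟨K⟩).ne'
      rw [LawL_rc_mix A χ hA K ω hω, if_pos hω, if_pos (hA K ω ω' he hω), h2]
      refine le_of_eq ?_
      by_cases hz : (L K).rc (χ K) ω = 0
      · simp [hz]
      · field_simp
    · rw [if_neg hω, zero_mul, zero_div]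
      exact h0
  · have h1 : (Law.mix L A).pr (fun ω => (⟨ω.1, χ ω.1 ω.2⟩ : Σ K, X K)) ⟨K, ω⟩ ⟨K, ω'⟩ = 0 :=
      if_neg fun h' => he (sigma_mk_injective h')
    rw [h1]
    exact h0

/-- Pairs in a mixture, when the events `A K` only depend on the modes. -/
theorem PP_mix_le {ι : Type} [Fintype ι] {L : ι → Law} (h : ∀ K, (L K).Ok)
    (A : ∀ K, (L K).Ω → Prop) {X : ι → Type} (χ : ∀ K, (L K).Ω → X K)
    (hA : ∀ K ω ω', χ K ω = χ K ω' → A K ω → A K ω')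
    (E : (Law.mix L A).Ω → (Law.mix L A).Ω → Prop) {ε : ℝ} (hε : 0 ≤ ε)
    (hE : ∀ K, (L K).PP (χ K) (fun ω ω' => E ⟨K, ω⟩ ⟨K, ω'⟩) ≤ ε) :
    (Law.mix L A).PP (fun ω => (⟨ω.1, χ ω.1 ω.2⟩ : Σ K, X K)) E ≤ ε := by
  refine le_trans ?_ (LawL_avg ι hε)
  refine (Fintype.sum_sigma (fun ω : (Σ K, (L K).Ω) => ∑ ω' : (Σ K, (L K).Ω), if E ω ω' then
    (Law.mix L A).pr (fun ω => (⟨ω.1, χ ω.1 ω.2⟩ : Σ K, X K)) ω ω' else 0)).le.trans ?_
  refine Finset.sum_le_sum fun K _ => ?_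
  refine le_trans ?_ (div_le_div_of_nonneg_right (hE K) (Nat.cast_nonneg _))
  unfold PP
  rw [Finset.sum_div]
  refine Finset.sum_le_sum fun ω _ => ?_
  rw [Fintype.sum_sigma, Finset.sum_eq_single K, Finset.sum_div]
  · refine Finset.sum_le_sum fun ω' _ => ?_
    by_cases he : E ⟨K, ω⟩ ⟨K, ω'⟩
    · rw [if_pos he, if_pos he]
      exact LawL_pr_mix h A χ hA K ω ω'
    · rw [if_neg he, if_neg he, zero_div]
  · intro K' _ hK
    refine Finset.sum_eq_zero fun ω' _ => ?_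
    have h0 : (Law.mix L A).pr (fun ω => (⟨ω.1, χ ω.1 ω.2⟩ : Σ K, X K)) ⟨K, ω⟩ ⟨K', ω'⟩ = 0 :=
      if_neg fun he => hK (congrArg Sigma.fst he).symm
    rw [h0, ite_self]
  · intro hK
    exact absurd (Finset.mem_univ K) hK

theorem Lc_apply (L : Law) (F : CF) (x : SU2) :
    L.Lc F x = ∑ ω, (L.r ω : ℂ) * F (L.Y ω * x) := by
  rw [LawL_Lc_eq, ContinuousMap.sum_apply]
  rfl
theorem Lc_eq (L : Law) (F : CF) : L.Lc F = ∑ ω, (L.r ω : ℂ) • Lt (L.Y ω) F := LawL_Lc_eq L F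
theorem Lc_one : Law.one.Lc = 1 := by
  ext F x
  rw [Lc_apply]
  simp
theorem Lc_chain (L₁ L₂ : Law) : (L₁.chain L₂).Lc = L₁.Lc * L₂.Lc := by
  ext F x
  rw [Module.End.mul_apply, Lc_apply, Lc_apply]
  refine (Fintype.sum_prod_type (fun ω : L₁.Ω × L₂.Ω =>
    ((L₁.r ω.1 * L₂.r ω.2 : ℝ) : ℂ) * F (L₂.Y ω.2 * L₁.Y ω.1 * x))).trans ?_
  refine Finset.sum_congr rfl fun ω₁ _ => ?_
  rw [Lc_apply, Finset.mul_sum]
  refine Finset.sum_congr rfl fun ω₂ _ => ?_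
  rw [Complex.ofReal_mul, mul_assoc, mul_assoc]
theorem Lc_Rt (L : Law) (g : SU2) (F : CF) : L.Lc (Rt g F) = Rt g (L.Lc F) := by
  ext x
  rw [Rt_apply, Lc_apply, Lc_apply]
  exact Finset.sum_congr rfl fun ω _ => by rw [Rt_apply, mul_assoc]
theorem Lc_mem_V (L : Law) {k : ℕ} {F : CF} (h : F ∈ V k) : L.Lc F ∈ V k := by
  rw [Lc_eq]
  exact Submodule.sum_mem _ fun ω _ => Submodule.smul_mem _ _ (Lt_mem _ h)
theorem Lc_mem_W (L : Law) {D : ℕ} {F : CF} (h : F ∈ W D) : L.Lc F ∈ W D := by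
  induction h using Submodule.span_induction with
  | mem F hF =>
    obtain ⟨k, hk, g, f, hf, rfl⟩ := hF
    exact Submodule.subset_span ⟨k, hk, g, L.Lc f, L.Lc_mem_V hf, L.Lc_Rt g f⟩
  | zero => rw [map_zero]; exact zero_mem _
  | add a b _ _ ha hb => rw [map_add]; exact add_mem ha hb
  | smul c a _ ha => rw [map_smul]; exact Submodule.smul_mem _ _ ha
theorem op_chain (L₁ L₂ : Law) (F : SU2 → ℝ) : (L₁.chain L₂).op F = L₁.op (L₂.op F) := by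
  funext x
  refine (Fintype.sum_prod_type (fun ω : L₁.Ω × L₂.Ω =>
    L₁.r ω.1 * L₂.r ω.2 * F (L₂.Y ω.2 * L₁.Y ω.1 * x))).trans ?_
  refine Finset.sum_congr rfl fun ω₁ _ => ?_
  unfold op
  rw [Finset.mul_sum]
  refine Finset.sum_congr rfl fun ω₂ _ => ?_
  rw [mul_assoc, mul_assoc]

theorem col_nonneg {L : Law} (h : L.Ok) (ρ : ℝ) : 0 ≤ L.col ρ :=
  Finset.sum_nonneg fun ω _ => Finset.sum_nonneg fun ω' _ =>
    LawL_ite_nonneg (mul_nonneg (h.nn ω) (h.nn ω'))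
theorem col_le_one {L : Law} (h : L.Ok) (ρ : ℝ) : L.col ρ ≤ 1 := by
  refine le_trans ?_ (mul_le_one₀ h.le (Finset.sum_nonneg fun ω _ => h.nn ω) h.le)
  rw [Finset.sum_mul_sum]
  exact Finset.sum_le_sum fun ω _ => Finset.sum_le_sum fun ω' _ =>
    LawL_ite_le_self (mul_nonneg (h.nn ω) (h.nn ω'))
theorem col_mono {L : Law} (h : L.Ok) {ρ ρ' : ℝ} (hρ : ρ ≤ ρ') : L.col ρ ≤ L.col ρ' :=
  Finset.sum_le_sum fun ω _ => Finset.sum_le_sum fun ω' _ =>
    LawL_ite_le (mul_nonneg (h.nn ω) (h.nn ω')) fun hs => hs.trans hρ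
theorem AX.mono {L : Law} (h : L.Ok) {ζ ζ' ε ε' : ℝ} (ha : L.AX ζ ε) (hζ : ζ' ≤ ζ) (hε : ε ≤ ε') :
    L.AX ζ' ε' := fun l l' hl =>
  ((P_mono h fun _ hω => hω.trans hζ).trans (ha l l' hl)).trans hε
theorem Conc.mono {L : Law} (h : L.Ok) {ρ ρ' ε ε' : ℝ} (ha : L.Conc ρ ε) (hρ : ρ' ≤ ρ)
    (hε : ε ≤ ε') : L.Conc ρ' ε' := fun y =>
  ((P_mono h fun _ hω => hω.trans hρ).trans (ha y)).trans hε

end Law

theorem LawL_sum_bark {ι : Type} [Fintype ι] (w : ι → SU2) :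
    ∑ ω, (bark w).r ω = (Fintype.card ι : ℝ) / Fintype.card ι := by
  have h : ∑ _ω : ι × Bool × Bool, 1 / (4 * (Fintype.card ι : ℝ)) =
      (Fintype.card ι : ℝ) / Fintype.card ι := by
    rw [Finset.sum_const, Finset.card_univ, Fintype.card_prod, Fintype.card_prod,
      Fintype.card_bool, nsmul_eq_mul]
    push_cast
    ring
  exact h

theorem LawL_cj_one (L : Law) (n : ℕ) : L.cj (1 ^ n) = L := by
  unfold Law.cj
  simp only [one_pow, inv_one, one_mul, mul_one]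

theorem LawL_pwY_mem {Ω : Type} {Y : Ω → SU2} {h : SU2} (K : Subgroup SU2) (hY : ∀ ω, Y ω ∈ K)
    (hh : h ∈ K) (i : ℕ) (u : Pw Ω i) : pwY Y h i u ∈ K := by
  induction i with
  | zero => exact one_mem K
  | succ i ih =>
    exact mul_mem (mul_mem (mul_mem (inv_mem (pow_mem hh i)) (hY u.2)) (pow_mem hh i)) (ih u.1)

theorem ok_bark {ι : Type} [Fintype ι] (w : ι → SU2) : (bark w).Ok := by
  refine ⟨fun _ => by positivity, (LawL_sum_bark w).le.trans ?_⟩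
  exact div_self_le_one _
theorem sum_bark {ι : Type} [Fintype ι] [Nonempty ι] (w : ι → SU2) :
    ∑ ω, (bark w).r ω = 1 := by
  rw [LawL_sum_bark]
  exact div_self (Nat.cast_ne_zero.2 Fintype.card_ne_zero)
theorem ok_blk {L : Law} (hL : L.Ok) (h : SU2) (i : ℕ) : (blk L h i).Ok := by
  induction i with
  | zero => exact Law.ok_one
  | succ i ih => exact ih.chain (hL.cj (h ^ i))
theorem sum_blk {L : Law} (hL : ∑ ω, L.r ω = 1) (h : SU2) (i : ℕ) :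
    ∑ ω, (blk L h i).r ω = 1 := by
  induction i with
  | zero => exact Law.LawL_sum_one
  | succ i ih =>
    refine (Law.LawL_sum_chain (blk L h i) (L.cj (h ^ i))).trans ?_
    rw [ih, one_mul]
    exact hL
theorem ok_lev (H : ℕ → SU2) (B j : ℕ) : (lev H B j).Ok := by
  induction j with
  | zero => exact ok_bark fun _ : Unit => H 0
  | succ j ih => exact ok_blk ih (H (j + 1)) B
theorem sum_lev (H : ℕ → SU2) (B j : ℕ) : ∑ ω, (lev H B j).r ω = 1 := by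
  induction j with
  | zero => exact sum_bark fun _ : Unit => H 0
  | succ j ih => exact sum_blk ih (H (j + 1)) B
theorem Lc_blk_one (L : Law) (n : ℕ) : (blk L 1 n).Lc = L.Lc ^ n := by
  induction n with
  | zero => exact Law.Lc_one
  | succ n ih => rw [blk_succ, Law.Lc_chain, ih, LawL_cj_one, pow_succ]
theorem op_blk_one (L : Law) (n : ℕ) (F : SU2 → ℝ) : (blk L 1 n).op F = L.op^[n] F := by
  induction n generalizing F with
  | zero =>
    funext x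
    rw [blk_zero]
    simp [Law.op]
  | succ n ih => rw [blk_succ, Law.op_chain, ih, LawL_cj_one, Function.iterate_succ_apply]
theorem levY_congr {H H' : ℕ → SU2} (B j : ℕ) (h : ∀ i ≤ j, H i = H' i) :
    levY H B j = levY H' B j := by
  induction j with
  | zero =>
    funext ω
    simp only [levY, h 0 le_rfl]
  | succ j ih =>
    simp only [levY]
    rw [ih fun i hi => h i (hi.trans (Nat.le_succ j)), h (j + 1) le_rfl]
theorem lev_congr {H H' : ℕ → SU2} (B j : ℕ) (h : ∀ i ≤ j, H i = H' i) :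
    lev H B j = lev H' B j := by
  unfold lev
  rw [levY_congr B j h]
theorem levY_mem {H : ℕ → SU2} (K : Subgroup SU2) (B j : ℕ) (h : ∀ i ≤ j, H i ∈ K)
    (ω : levΩ B j) : levY H B j ω ∈ K := by
  induction j with
  | zero =>
    simp only [levY]
    split_ifs
    · exact h 0 le_rfl
    · exact inv_mem (h 0 le_rfl)
    · exact one_mem K
  | succ j ih =>
    exact LawL_pwY_mem K (fun ω => ih (fun i hi => h i (hi.trans (Nat.le_succ j))) ω)
      (h (j + 1) le_rfl) B ω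
theorem continuous_pwY {T Ω : Type} [TopologicalSpace T] {Y : T → Ω → SU2} {h : T → SU2}
    (hY : ∀ ω, Continuous fun t => Y t ω) (hh : Continuous h) (i : ℕ) (u : Pw Ω i) :
    Continuous fun t => pwY (Y t) (h t) i u := by
  induction i with
  | zero => exact continuous_const
  | succ i ih => exact (((hh.pow i).inv.mul (hY u.2)).mul (hh.pow i)).mul (ih u.1)
theorem continuous_levY (B j : ℕ) (ω : levΩ B j) :
    Continuous fun H : ℕ → SU2 => levY H B j ω := by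
  induction j with
  | zero =>
    simp only [levY]
    split_ifs
    · exact continuous_apply 0
    · exact (continuous_apply 0).inv
    · exact continuous_const
  | succ j ih =>
    exact continuous_pwY (Y := fun H : ℕ → SU2 => levY H B j) (h := fun H : ℕ → SU2 => H (j + 1))
      ih (continuous_apply (j + 1)) B ω
theorem continuous_ext (k : ℕ) : Continuous fun w : Fin (k + 1) → SU2 => ext w := by
  refine continuous_pi fun n => ?_
  unfold ext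
  split_ifs with hn
  · exact continuous_apply _
  · exact continuous_const
theorem ext_fin {k : ℕ} (w : Fin (k + 1) → SU2) (i : Fin (k + 1)) : ext w i = w i := dif_pos i.2
theorem ext_update {k : ℕ} (w : Fin (k + 1) → SU2) (i : Fin (k + 1)) (h : SU2) (n : ℕ) :
    ext (Function.update w i h) n = if n = i then h else ext w n := by
  unfold ext
  by_cases hn : n < k + 1
  · rw [dif_pos hn, dif_pos hn, Function.update_apply]
    exact if_congr Fin.ext_iff rfl rfl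
  · rw [dif_neg hn, dif_neg hn, if_neg]
    rintro rfl
    exact hn i.2

end Pool.Agent.P.MP_923088_al.AG
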