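import Pool.Agent.P.MP_923088_al.AG.Geo1
import Pool.Agent.P.MP_923088_al.AG.LawL

/-!
Row AG-AxD. The deterministic part of the axis estimate.
The values of `blk L h 2` are `h⁻¹ X₁ h X₀`; index them by `a : L.Ω × L.Ω` with `X₀ = L.Y a.1`,
`X₁ = L.Y a.2`. For three copies `Ya, Yb, Yc` in the event put `A = Ya⁻¹ Yb`, `C = Ya⁻¹ Yc`. Then
`cr A l ≤ 2ζ`, `cr C l ≤ 2ζ` (`cr_eq_ds`, triangle inequality), so `sz (A C A⁻¹ C⁻¹) ≤ 4ζ`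
(`sz_comm_le`, `cr_tri`), and `A C A⁻¹ C⁻¹` is conjugate by `L.Y a.1` to `wd h (axl L a b c)`. Either
`ρ^7 ≤ wt (axl ..)` (the product of the sizes of the first seven blocks) or one of the seven blocks
has size at most `ρ`; each such event has weight at most `L.col ρ` (`sz_comm`, `sz_inv`).
-/

namespace Pool.Agent.P.MP_923088_al.AG

open MeasureTheory Real
open scoped Classical Quaternion

theorem AxD_ds_conj (g x y : SU2) : ds (g * x * g⁻¹) y = ds x (g⁻¹ * y * g) := by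
  rw [← ds_mul_left g⁻¹, ← ds_mul_right g]
  congr 1
  group

theorem AxD_cr {x y l l' : SU2} {ζ : ℝ} (hx : ds (x * l * x⁻¹) l' ≤ ζ)
    (hy : ds (y * l * y⁻¹) l' ≤ ζ) : cr (x⁻¹ * y) l ≤ 2 * ζ := by
  have h1 : x⁻¹ * y * l * (x⁻¹ * y)⁻¹ = x⁻¹ * (y * l * y⁻¹) * x⁻¹⁻¹ := by group
  rw [cr_eq_ds, h1, AxD_ds_conj, inv_inv]
  have h2 := ds_triangle (y * l * y⁻¹) l' (x * l * x⁻¹)
  rw [ds_comm l'] at h2
  linarith

/-- The value of two conjugated copies. -/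
noncomputable def AxD_Y (L : Law) (h : SU2) (a : L.Ω × L.Ω) : SU2 := h⁻¹ * L.Y a.2 * h * L.Y a.1

/-- A collision. -/
def AxD_K (L : Law) (ρ : ℝ) (x y : L.Ω) : Prop := sz ((L.Y y)⁻¹ * L.Y x) ≤ ρ

theorem AxD_sz (x y : SU2) : sz (x⁻¹ * y) = sz (y⁻¹ * x) := by
  rw [← sz_inv, mul_inv_rev, inv_inv]

theorem AxD_word {L : Law} {h l l' : SU2} {ζ : ℝ} (hl : hc l = 0) {a b c : L.Ω × L.Ω}
    (ha : ds (AxD_Y L h a * l * (AxD_Y L h a)⁻¹) l' ≤ ζ)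
    (hb : ds (AxD_Y L h b * l * (AxD_Y L h b)⁻¹) l' ≤ ζ)
    (hc : ds (AxD_Y L h c * l * (AxD_Y L h c)⁻¹) l' ≤ ζ) : sz (wd h (axl L a b c)) ≤ 4 * ζ := by
  have h1 := AxD_cr ha hb
  have h2 := AxD_cr ha hc
  have h3 := (sz_comm_le _ _).trans (cr_tri ((AxD_Y L h a)⁻¹ * AxD_Y L h b)
    ((AxD_Y L h a)⁻¹ * AxD_Y L h c) l hl)
  have h4 : (AxD_Y L h a)⁻¹ * AxD_Y L h b * ((AxD_Y L h a)⁻¹ * AxD_Y L h c) *
      ((AxD_Y L h a)⁻¹ * AxD_Y L h b)⁻¹ * ((AxD_Y L h a)⁻¹ * AxD_Y L h c)⁻¹ =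
      (L.Y a.1)⁻¹ * wd h (axl L a b c) * L.Y a.1 := by
    simp only [AxD_Y, axl, wd, if_true, Bool.false_eq_true, if_false]
    group
  rw [h4, sz_conj] at h3
  linarith

theorem AxD_wt {L : Law} {ρ : ℝ} (hρ : 0 ≤ ρ) {a b c : L.Ω × L.Ω} (h1 : ¬ AxD_K L ρ a.2 b.2)
    (h2 : ¬ AxD_K L ρ a.1 b.1) (h3 : ¬ AxD_K L ρ a.2 c.2) (h4 : ¬ AxD_K L ρ a.1 c.1)
    (h5 : ¬ AxD_K L ρ b.1 c.1) : ρ ^ 7 ≤ wt (axl L a b c) := by
  simp only [AxD_K, not_le] at h1 h2 h3 h4 h5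
  have e1 : ρ ≤ sz ((L.Y a.2)⁻¹ * L.Y b.2) := by rw [AxD_sz]; exact h1.le
  have e2 : ρ ≤ sz (L.Y b.1 * (L.Y a.1)⁻¹) := by rw [sz_comm, AxD_sz]; exact h2.le
  have e3 : ρ ≤ sz ((L.Y a.2)⁻¹ * L.Y c.2) := by rw [AxD_sz]; exact h3.le
  have e4 : ρ ≤ sz (L.Y c.1 * (L.Y b.1)⁻¹) := by rw [sz_comm, AxD_sz]; exact h5.le
  have e6 : ρ ≤ sz (L.Y a.1 * (L.Y c.1)⁻¹) := by rw [sz_comm]; exact h4.le
  have e : ρ ^ 7 = ρ * (ρ * (ρ * (ρ * (ρ * (ρ * (ρ * 1)))))) := by ring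
  have h1' := h1.le
  have h3' := h3.le
  simp only [axl, wt, Bool.false_eq_true, Bool.true_eq_false, if_false]
  rw [e]
  gcongr <;> first | exact sz_nonneg _ | skip

section Sums

variable {A Ω : Type} [Fintype A] [Fintype Ω] {w : A → ℝ} {r : Ω → ℝ}

/-- The weight of an event for three independent copies. -/
noncomputable def AxD_T (w : A → ℝ) (G : A → A → A → Prop) : ℝ :=
  ∑ a, ∑ b, ∑ c, if G a b c then w a * w b * w c else 0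

/-- The weight of an event for two independent copies. -/
noncomputable def AxD_S (w : A → ℝ) (D : A → A → Prop) : ℝ :=
  ∑ a, ∑ b, if D a b then w a * w b else 0

theorem AxD_cube (w : A → ℝ) (E : A → Prop) :
    (∑ a, if E a then w a else 0) ^ 3 = AxD_T w fun a b c => E a ∧ E b ∧ E c := by
  rw [pow_three', Finset.sum_mul_sum, Finset.sum_mul]
  refine Finset.sum_congr rfl fun a _ => ?_
  rw [Finset.sum_mul_sum]
  refine Finset.sum_congr rfl fun b _ => Finset.sum_congr rfl fun c _ => ?_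
  by_cases ha : E a <;> by_cases hb : E b <;> by_cases hc : E c <;> simp [ha, hb, hc]

theorem AxD_T_or (hw : ∀ a, 0 ≤ w a) {G G₁ G₂ : A → A → A → Prop}
    (h : ∀ a b c, G a b c → ¬ G₁ a b c → G₂ a b c) : AxD_T w G ≤ AxD_T w G₁ + AxD_T w G₂ := by
  simp only [AxD_T, ← Finset.sum_add_distrib]
  refine Finset.sum_le_sum fun a _ => Finset.sum_le_sum fun b _ => Finset.sum_le_sum fun c _ => ?_
  have h0 : 0 ≤ w a * w b * w c := mul_nonneg (mul_nonneg (hw a) (hw b)) (hw c)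
  have := h a b c
  by_cases h1 : G a b c <;> by_cases h2 : G₁ a b c <;> by_cases h3 : G₂ a b c <;>
    simp_all

theorem AxD_T12 (hw : ∀ a, 0 ≤ w a) (h1 : ∑ a, w a ≤ 1) (D : A → A → Prop) :
    AxD_T w (fun a b _ => D a b) ≤ AxD_S w D := by
  refine Finset.sum_le_sum fun a _ => Finset.sum_le_sum fun b _ => ?_
  by_cases h : D a b
  · simp only [h, if_true, ← Finset.mul_sum]
    exact mul_le_of_le_one_right (mul_nonneg (hw a) (hw b)) h1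
  · simp [h]

theorem AxD_T13 (hw : ∀ a, 0 ≤ w a) (h1 : ∑ a, w a ≤ 1) (D : A → A → Prop) :
    AxD_T w (fun a _ c => D a c) ≤ AxD_S w D := by
  refine le_trans (le_of_eq ?_) (AxD_T12 hw h1 D)
  refine Finset.sum_congr rfl fun a _ => ?_
  rw [Finset.sum_comm]
  refine Finset.sum_congr rfl fun b _ => Finset.sum_congr rfl fun c _ => ?_
  rw [mul_right_comm]

theorem AxD_T23 (hw : ∀ a, 0 ≤ w a) (h1 : ∑ a, w a ≤ 1) (D : A → A → Prop) :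
    AxD_T w (fun _ b c => D b c) ≤ AxD_S w D := by
  refine le_trans (le_of_eq ?_) (AxD_T13 hw h1 D)
  unfold AxD_T
  rw [Finset.sum_comm]
  refine Finset.sum_congr rfl fun a _ => Finset.sum_congr rfl fun b _ =>
    Finset.sum_congr rfl fun c _ => ?_
  rw [mul_comm (w b)]

theorem AxD_S_eq (w : A → ℝ) (D : A → A → Prop) :
    AxD_S w D = ∑ a, w a * ∑ b, w b * if D a b then 1 else 0 := by
  refine Finset.sum_congr rfl fun a _ => ?_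
  rw [Finset.mul_sum]
  refine Finset.sum_congr rfl fun b _ => ?_
  by_cases h : D a b <;> simp [h]

theorem AxD_S_proj (hw : ∀ a, 0 ≤ w a) (hr : ∀ x, 0 ≤ r x) {pj : A → Ω}
    (hpj : ∀ f : Ω → ℝ, (∀ x, 0 ≤ f x) → ∑ a, w a * f (pj a) ≤ ∑ x, r x * f x)
    (F : Ω → Ω → Prop) : AxD_S w (fun a b => F (pj a) (pj b)) ≤ AxD_S r F := by
  rw [AxD_S_eq, AxD_S_eq]
  have h0 : ∀ x y, (0 : ℝ) ≤ if F x y then 1 else 0 := fun x y => by split_ifs <;> norm_num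
  refine le_trans (Finset.sum_le_sum fun a _ => mul_le_mul_of_nonneg_left
    (hpj (fun y => if F (pj a) y then 1 else 0) (h0 _)) (hw a)) ?_
  exact hpj (fun x => ∑ y, r y * if F x y then 1 else 0) fun x =>
    Finset.sum_nonneg fun y _ => mul_nonneg (hr y) (h0 x y)

theorem AxD_fst (hr : ∀ x, 0 ≤ r x) (h1 : ∑ x, r x ≤ 1) (f : Ω → ℝ) (hf : ∀ x, 0 ≤ f x) :
    ∑ a : Ω × Ω, r a.1 * r a.2 * f a.1 ≤ ∑ x, r x * f x := by
  rw [Fintype.sum_prod_type]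
  refine Finset.sum_le_sum fun x _ => ?_
  have : ∀ y, r x * r y * f x = r x * f x * r y := fun y => by ring
  simp only [this, ← Finset.mul_sum]
  exact mul_le_of_le_one_right (mul_nonneg (hr x) (hf x)) h1

theorem AxD_snd (hr : ∀ x, 0 ≤ r x) (h1 : ∑ x, r x ≤ 1) (f : Ω → ℝ) (hf : ∀ x, 0 ≤ f x) :
    ∑ a : Ω × Ω, r a.1 * r a.2 * f a.2 ≤ ∑ x, r x * f x := by
  rw [Fintype.sum_prod_type_right]
  refine Finset.sum_le_sum fun x _ => ?_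
  simp only [mul_assoc, ← Finset.sum_mul]
  exact mul_le_of_le_one_left (mul_nonneg (hr x) (hf x)) h1

end Sums

theorem AxD_P (L : Law) (h : SU2) (E : SU2 → Prop) :
    (blk L h 2).P (fun ω => E ((blk L h 2).Y ω)) =
      ∑ a : L.Ω × L.Ω, if E (AxD_Y L h a) then L.r a.1 * L.r a.2 else 0 := by
  let e : (Unit × L.Ω) × L.Ω ≃ L.Ω × L.Ω := (Equiv.uniqueProd L.Ω Unit).prodCongr (Equiv.refl _)
  refine Fintype.sum_equiv e _ _ ?_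
  rintro ⟨⟨u, x⟩, y⟩
  have h1 : (blk L h 2).Y ((u, x), y) = AxD_Y L h (x, y) := by
    change (h ^ 1)⁻¹ * L.Y y * h ^ 1 * ((h ^ 0)⁻¹ * L.Y x * h ^ 0 * 1) = h⁻¹ * L.Y y * h * L.Y x
    group
  have h2 : (blk L h 2).r ((u, x), y) = L.r x * L.r y := by
    change 1 * L.r x * L.r y = _
    rw [one_mul]
  exact if_congr (iff_of_eq (congrArg E h1)) h2 rfl

theorem ax_cube {L : Law} (hL : L.Ok) (h : SU2) {ζ ρ : ℝ} (hρ : 0 ≤ ρ) {l : SU2} (hl : hc l = 0)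
    (l' : SU2) :
    (blk L h 2).P (fun ω => ds ((blk L h 2).Y ω * l * ((blk L h 2).Y ω)⁻¹) l' ≤ ζ) ^ 3 ≤
      7 * L.col ρ + Ra L h ζ ρ := by
  rw [AxD_P L h fun y => ds (y * l * y⁻¹) l' ≤ ζ, AxD_cube]
  have hw : ∀ a : L.Ω × L.Ω, 0 ≤ L.r a.1 * L.r a.2 := (hL.chain hL).nn
  have hw1 : ∑ a : L.Ω × L.Ω, L.r a.1 * L.r a.2 ≤ 1 := (hL.chain hL).le
  have s1 : AxD_S (fun a : L.Ω × L.Ω => L.r a.1 * L.r a.2) (fun a b => AxD_K L ρ a.1 b.1)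
      ≤ L.col ρ := AxD_S_proj hw hL.nn (AxD_fst hL.nn hL.le) (AxD_K L ρ)
  have s2 : AxD_S (fun a : L.Ω × L.Ω => L.r a.1 * L.r a.2) (fun a b => AxD_K L ρ a.2 b.2)
      ≤ L.col ρ := AxD_S_proj hw hL.nn (AxD_snd hL.nn hL.le) (AxD_K L ρ)
  have t1 := (AxD_T12 hw hw1 _).trans s2
  have t2 := (AxD_T12 hw hw1 _).trans s1
  have t3 := (AxD_T13 hw hw1 _).trans s2
  have t4 := (AxD_T13 hw hw1 _).trans s1
  have t5 := (AxD_T23 hw hw1 _).trans s1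
  have t0 := Law.col_nonneg hL ρ
  set G : L.Ω × L.Ω → L.Ω × L.Ω → L.Ω × L.Ω → Prop := fun a b c =>
    ds (AxD_Y L h a * l * (AxD_Y L h a)⁻¹) l' ≤ ζ ∧ ds (AxD_Y L h b * l * (AxD_Y L h b)⁻¹) l' ≤ ζ ∧
      ds (AxD_Y L h c * l * (AxD_Y L h c)⁻¹) l' ≤ ζ
  have u1 := AxD_T_or hw (G := G) (G₁ := fun a b _ => AxD_K L ρ a.2 b.2) fun _ _ _ => And.intro
  have u2 := AxD_T_or hw (G := fun a b c => G a b c ∧ ¬ AxD_K L ρ a.2 b.2)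
    (G₁ := fun a b _ => AxD_K L ρ a.1 b.1) fun _ _ _ => And.intro
  have u3 := AxD_T_or hw (G := fun a b c => (G a b c ∧ ¬ AxD_K L ρ a.2 b.2) ∧ ¬ AxD_K L ρ a.1 b.1)
    (G₁ := fun a _ c => AxD_K L ρ a.2 c.2) fun _ _ _ => And.intro
  have u4 := AxD_T_or hw (G := fun a b c => ((G a b c ∧ ¬ AxD_K L ρ a.2 b.2) ∧
    ¬ AxD_K L ρ a.1 b.1) ∧ ¬ AxD_K L ρ a.2 c.2)
    (G₁ := fun a _ c => AxD_K L ρ a.1 c.1) fun _ _ _ => And.intro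
  have u5 := AxD_T_or hw (G := fun a b c => (((G a b c ∧ ¬ AxD_K L ρ a.2 b.2) ∧
    ¬ AxD_K L ρ a.1 b.1) ∧ ¬ AxD_K L ρ a.2 c.2) ∧ ¬ AxD_K L ρ a.1 c.1)
    (G₁ := fun _ b c => AxD_K L ρ b.1 c.1)
    (G₂ := fun a b c => ρ ^ 7 ≤ wt (axl L a b c) ∧ sz (wd h (axl L a b c)) ≤ 4 * ζ)
    fun _ _ _ H h5 => ⟨AxD_wt hρ H.1.1.1.2 H.1.1.2 H.1.2 H.2 h5,
      AxD_word hl H.1.1.1.1.1 H.1.1.1.1.2.1 H.1.1.1.1.2.2⟩
  have u6 : AxD_T (fun a : L.Ω × L.Ω => L.r a.1 * L.r a.2)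
      (fun a b c => ρ ^ 7 ≤ wt (axl L a b c) ∧ sz (wd h (axl L a b c)) ≤ 4 * ζ) = Ra L h ζ ρ := by
    unfold AxD_T Ra
    congr!
  linarith

theorem Law.AX.chain {L₁ L₂ : Law} (h₁ : L₁.Ok) (h₂ : L₂.Ok) {ζ ε : ℝ} (hε : 0 ≤ ε)
    (ha : L₁.AX ζ ε) : (L₁.chain L₂).AX ζ ε := by
  intro l l' hl
  refine Law.P_chain_le' h₁ h₂ (fun ω₂ => ?_) hε
  refine le_trans (le_of_eq (L₁.P_congr fun ω₁ => ?_)) (ha l ((L₂.Y ω₂)⁻¹ * l' * L₂.Y ω₂) hl)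
  have : L₂.Y ω₂ * L₁.Y ω₁ * l * (L₂.Y ω₂ * L₁.Y ω₁)⁻¹ =
      L₂.Y ω₂ * (L₁.Y ω₁ * l * (L₁.Y ω₁)⁻¹) * (L₂.Y ω₂)⁻¹ := by group
  rw [← AxD_ds_conj, ← this]

theorem ax_blk {L : Law} (hL : L.Ok) (h : SU2) {ζ ε : ℝ} (hε : 0 ≤ ε) (ha : (blk L h 2).AX ζ ε)
    {B : ℕ} (hB : 2 ≤ B) : (blk L h B).AX ζ ε := by
  induction B, hB using Nat.le_induction with
  | base => exact ha
  | succ n _ ih => exact Law.AX.chain (ok_blk hL h n) (hL.cj (h ^ n)) hε ih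

theorem ax_of_col {L : Law} (hL : L.Ok) (h : SU2) {ζ ρ ε : ℝ} (hρ : 0 ≤ ρ) (hε : 0 ≤ ε)
    (he : 7 * L.col ρ + Ra L h ζ ρ ≤ ε ^ 3) {B : ℕ} (hB : 2 ≤ B) : (blk L h B).AX ζ ε := by
  refine ax_blk hL h hε (fun l l' hl => ?_) hB
  exact (pow_le_pow_iff_left₀ (Law.P_nonneg (ok_blk hL h 2) _) hε three_ne_zero).1
    ((ax_cube hL h hρ hl l').trans he)

end Pool.Agent.P.MP_923088_al.AG
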