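import Pool.Agent.P.MP_923088_al.AG.Ent1

/-!
Row AG-Bark. The Hellinger displacement and the pattern of one lazy step.
`Hel_mul_le` is the triangle inequality in `L²` (expand the square and use Cauchy-Schwarz, or
`MeasureTheory.Lp`): `√p (u v a) - √p a = (√p (u (v a)) - √p (v a)) + (√p (v a) - √p a)`.
`hasPat_bark`: with `g = w i` or its inverse according to `s`, and `n = card ι`, put
`q a (i,s,true) = p a * p (g a) / (p a + p (g a)) / (2n)` and
`q a (i,s,false) = p a * p a / (p a + p (g a)) / (2n)`. For `bwd` exchange the two values of `s` in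
the first kind of terms. With `α = y/(x+y)`: `α log (2α) + (1-α) log (2(1-α)) ≤ (2α-1)^2` (use
`log u ≤ u - 1`) and `x (2α-1)^2 ≤ 2 (√y - √x)^2`.
-/

namespace Pool.Agent.P.MP_923088_al.AG

open MeasureTheory Real
open scoped Classical Quaternion

variable [MeasurableSpace SU2] [BorelSpace SU2] {m : Measure SU2} [m.IsHaarMeasure]
  [IsProbabilityMeasure m] {p : SU2 → ℝ}

set_option linter.unusedSectionVars false

theorem Hel_nonneg (w : SU2) : 0 ≤ Hel m p w := by
  exact Real.sqrt_nonneg _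

theorem Hel_one : Hel m p 1 = 0 := by
  simp [Hel]

theorem Hel_inv (w : SU2) : Hel m p w⁻¹ = Hel m p w := by
  rw [Hel, Hel, ← integral_mul_left_eq_self (fun a => (√(p (w⁻¹ * a)) - √(p a)) ^ 2) w]
  congr 2
  funext a
  rw [inv_mul_cancel_left]
  ring

theorem Bark_int {f g : SU2 → ℝ} (hf : Measurable f) (hg : Measurable g) {C : ℝ}
    (bf : ∀ a, |f a| ≤ C) (bg : ∀ a, |g a| ≤ C) : Integrable (fun a => f a * g a) m :=
  integrable_of_bdd (hf.mul hg) (C := C * C) fun a => by
    rw [abs_mul]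
    exact mul_le_mul (bf a) (bg a) (abs_nonneg _) ((abs_nonneg _).trans (bf a))

theorem Bark_mink {f g : SU2 → ℝ} (hf : Measurable f) (hg : Measurable g) {C : ℝ}
    (bf : ∀ a, |f a| ≤ C) (bg : ∀ a, |g a| ≤ C) :
    √(∫ a, (f a + g a) ^ 2 ∂m) ≤ √(∫ a, f a ^ 2 ∂m) + √(∫ a, g a ^ 2 ∂m) := by
  have iff' := Bark_int (m := m) hf hf bf bf
  have ifg := Bark_int (m := m) hf hg bf bg
  have igg := Bark_int (m := m) hg hg bg bg
  have e : ∀ t : ℝ, ∫ a, (t * f a + g a) ^ 2 ∂m =
      (∫ a, f a * f a ∂m) * (t * t) + 2 * (∫ a, f a * g a ∂m) * t + ∫ a, g a * g a ∂m := by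
    intro t
    have e1 : (fun a => (t * f a + g a) ^ 2) =
        fun a => (f a * f a * (t * t) + f a * g a * (2 * t)) + g a * g a := by
      funext a
      ring
    have i1 : Integrable (fun a => f a * f a * (t * t) + f a * g a * (2 * t)) m :=
      (iff'.mul_const _).add (ifg.mul_const _)
    rw [e1, integral_add i1 igg,
      integral_add (iff'.mul_const _) (ifg.mul_const _), integral_mul_const, integral_mul_const]
    ring
  have hd := discrim_le_zero fun t => (integral_nonneg fun a => sq_nonneg _).trans_eq (e t)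
  have e1 := e 1
  simp only [one_mul, mul_one] at e1
  simp only [sq] at e1 ⊢
  have hA : 0 ≤ ∫ a, f a * f a ∂m := integral_nonneg fun a => mul_self_nonneg _
  have hB : 0 ≤ ∫ a, g a * g a ∂m := integral_nonneg fun a => mul_self_nonneg _
  rw [e1]
  set A := ∫ a, f a * f a ∂m
  set B := ∫ a, g a * g a ∂m
  set X := ∫ a, f a * g a ∂m
  have h1 : X ≤ √A * √B := by
    rw [← Real.sqrt_mul hA]
    refine Real.le_sqrt_of_sq_le ?_
    rw [discrim] at hd
    nlinarith
  refine Real.sqrt_le_iff.2 ⟨by positivity, ?_⟩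
  nlinarith [Real.mul_self_sqrt hA, Real.mul_self_sqrt hB]

theorem Bark_bdd (hp : IsDens m p) : ∃ C, ∀ a b, |√(p a) - √(p b)| ≤ C := by
  obtain ⟨C, hC⟩ := hp.hi
  refine ⟨√C, fun a b => abs_le.2 ⟨?_, ?_⟩⟩
  · linarith [Real.sqrt_nonneg (p a), Real.sqrt_le_sqrt (hC b)]
  · linarith [Real.sqrt_nonneg (p b), Real.sqrt_le_sqrt (hC a)]

theorem Bark_meas (hp : IsDens m p) (u : SU2) : Measurable fun a => √(p (u * a)) - √(p a) :=
  (hp.meas.comp (measurable_const_mul u)).sqrt.sub hp.meas.sqrt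

theorem Hel_mul_le (hp : IsDens m p) (u v : SU2) : Hel m p (u * v) ≤ Hel m p u + Hel m p v := by
  obtain ⟨C, hC⟩ := Bark_bdd hp
  have h := Bark_mink (m := m) (f := fun a => √(p (u * (v * a))) - √(p (v * a)))
    (g := fun a => √(p (v * a)) - √(p a))
    ((Bark_meas hp u).comp (measurable_const_mul v)) (Bark_meas hp v) (fun a => hC _ _)
    fun a => hC _ _
  rw [integral_mul_left_eq_self (fun a => (√(p (u * a)) - √(p a)) ^ 2) v] at h
  simpa only [Hel, mul_assoc, sub_add_sub_cancel] using h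

theorem Hel_pow_le (hp : IsDens m p) (u : SU2) (n : ℕ) : Hel m p (u ^ n) ≤ n * Hel m p u := by
  induction n with
  | zero => simp [Hel_one]
  | succ n ih =>
    rw [pow_succ]
    have := Hel_mul_le hp (u ^ n) u
    push_cast
    linarith

theorem Hel_conj_le (hp : IsDens m p) (c u : SU2) :
    Hel m p (c⁻¹ * u * c) ≤ Hel m p u + 2 * Hel m p c := by
  have h1 := Hel_mul_le hp (c⁻¹ * u) c
  have h2 := Hel_mul_le hp c⁻¹ u
  rw [Hel_inv] at h2
  linarith


/-- The pattern of the lazy step. -/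
noncomputable def Bark_q (p : SU2 → ℝ) {ι : Type} [Fintype ι] (w : ι → SU2) (a : SU2)
    (ω : ι × Bool × Bool) : ℝ :=
  p a * (if ω.2.2 then p ((if ω.2.1 then w ω.1 else (w ω.1)⁻¹) * a) else p a) /
    (p a + p ((if ω.2.1 then w ω.1 else (w ω.1)⁻¹) * a)) / (2 * Fintype.card ι)

theorem Bark_isPat (hp : IsDens m p) {ι : Type} [Fintype ι] [Nonempty ι] (w : ι → SU2) :
    IsPat p (bark w) (Bark_q p w) := by
  have hn : (0 : ℝ) < Fintype.card ι := by exact_mod_cast Fintype.card_pos
  have hs : ∀ x : ℝ, ∑ _i : ι, x / Fintype.card ι = x := fun x => by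
    rw [Finset.sum_const, Finset.card_univ, nsmul_eq_mul]
    field_simp
  refine ⟨⟨fun _ => by positivity, ?_⟩, fun ω => ?_, fun a ω => ?_, fun a ω h => ?_,
    fun a => ?_, fun b => ?_⟩
  · simp only [Finset.sum_const, Finset.card_univ, Fintype.card_prod, Fintype.card_bool,
      nsmul_eq_mul]
    refine le_of_eq ?_
    push_cast
    field_simp
  · have h1 := fun g : SU2 => hp.meas.comp (measurable_const_mul g)
    refine ((hp.meas.mul ?_).div (hp.meas.add (h1 _))).div_const _
    split_ifs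
    exacts [h1 _, h1 _, hp.meas]
  · have h1 := hp.pos a
    have h2 := hp.pos ((if ω.2.1 then w ω.1 else (w ω.1)⁻¹) * a)
    rw [Bark_q]
    refine div_nonneg (div_nonneg (mul_nonneg h1.le ?_) (by positivity)) (by positivity)
    split_ifs <;> exact (hp.pos _).le
  · exact absurd h (by positivity)
  · simp only [Fintype.sum_prod_type, Fintype.sum_bool, Bark_q, if_true, Bool.false_eq_true,
      if_false]
    rw [← hs (p a)]
    refine Finset.sum_congr rfl fun i _ => ?_
    have h1 := hp.pos a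
    have h2 := hp.pos (w i * a)
    have h3 := hp.pos ((w i)⁻¹ * a)
    rw [hs]
    field_simp
    ring
  · simp only [Fintype.sum_prod_type, Fintype.sum_bool, Bark_q, if_true, Bool.false_eq_true,
      if_false, inv_one, one_mul, inv_inv, mul_inv_cancel_left]
    rw [← hs (p b)]
    refine Finset.sum_congr rfl fun i _ => ?_
    have h1 := hp.pos b
    have h2 := hp.pos (w i * b)
    have h3 := hp.pos ((w i)⁻¹ * b)
    rw [hs]
    field_simp
    ring

theorem Bark_pt {x y n : ℝ} (hx : 0 < x) (hy : 0 < y) (hn : 0 < n) :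
    x * y / (x + y) / (2 * n) * log (x * y / (x + y) / (2 * n) / (x * (1 / (4 * n)))) +
      x * x / (x + y) / (2 * n) * log (x * x / (x + y) / (2 * n) / (x * (1 / (4 * n)))) ≤
      (√y - √x) ^ 2 / n := by
  have e1 : x * y / (x + y) / (2 * n) / (x * (1 / (4 * n))) = 2 * y / (x + y) := by
    field_simp
    ring
  have e2 : x * x / (x + y) / (2 * n) / (x * (1 / (4 * n))) = 2 * x / (x + y) := by
    field_simp
    ring
  rw [e1, e2]
  have h1 := Real.log_le_sub_one_of_pos (x := 2 * y / (x + y)) (by positivity)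
  have h2 := Real.log_le_sub_one_of_pos (x := 2 * x / (x + y)) (by positivity)
  refine (add_le_add (mul_le_mul_of_nonneg_left h1 (by positivity))
    (mul_le_mul_of_nonneg_left h2 (by positivity))).trans ?_
  have e3 : x * y / (x + y) / (2 * n) * (2 * y / (x + y) - 1) +
      x * x / (x + y) / (2 * n) * (2 * x / (x + y) - 1) =
      x * (y - x) ^ 2 / (2 * (x + y) ^ 2) / n := by
    field_simp
    ring
  rw [e3]
  refine div_le_div_of_nonneg_right ?_ hn.le
  rw [div_le_iff₀ (by positivity)]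
  have a := Real.mul_self_sqrt hx.le
  have b := Real.mul_self_sqrt hy.le
  have e4 : (y - x) ^ 2 = (√y - √x) ^ 2 * (√y + √x) ^ 2 := by
    rw [← mul_pow]
    congr 1
    linarith
  have h3 : (√y + √x) ^ 2 ≤ 2 * (x + y) := by nlinarith [sq_nonneg (√y - √x)]
  have h4 : x * (√y + √x) ^ 2 ≤ 2 * (x + y) ^ 2 := by
    nlinarith [mul_le_mul_of_nonneg_left h3 hx.le]
  rw [e4, mul_left_comm]
  exact mul_le_mul_of_nonneg_left h4 (sq_nonneg _)

theorem hasPat_bark (hp : IsDens m p) {ι : Type} [Fintype ι] [Nonempty ι] (w : ι → SU2) {e : ℝ}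
    (he : ∀ i, Hel m p (w i) ≤ e) : HasPat m p (bark w) (2 * e ^ 2) := by
  have hn : (0 : ℝ) < Fintype.card ι := by exact_mod_cast Fintype.card_pos
  have hq := Bark_isPat hp w
  obtain ⟨C, hC⟩ := Bark_bdd hp
  refine ⟨_, hq, ?_⟩
  have hi : ∀ g : SU2, Integrable (fun a => (√(p (g * a)) - √(p a)) ^ 2) m := fun g => by
    simp only [sq]
    exact Bark_int (Bark_meas hp g) (Bark_meas hp g) (fun a => hC _ _) fun a => hC _ _
  have hH : ∀ g : SU2, Hel m p g ≤ e → ∫ a, (√(p (g * a)) - √(p a)) ^ 2 ∂m ≤ e ^ 2 := by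
    intro g hg
    rw [← Real.sq_sqrt (integral_nonneg fun a => sq_nonneg (√(p (g * a)) - √(p a)))]
    exact pow_le_pow_left₀ (Real.sqrt_nonneg _) hg 2
  have hj : ∀ i, Integrable (fun a => ((√(p (w i * a)) - √(p a)) ^ 2 +
      (√(p ((w i)⁻¹ * a)) - √(p a)) ^ 2) / Fintype.card ι) m := fun i =>
    ((hi _).add (hi _)).div_const _
  refine (integral_mono (integrable_finsetSum _ fun ω _ => hq.integrable_cost hp ω)
    (integrable_finsetSum Finset.univ fun i _ => hj i) fun a => ?_).trans ?_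
  · simp only [Fintype.sum_prod_type, Fintype.sum_bool, Bark_q, if_true, Bool.false_eq_true,
      if_false]
    refine Finset.sum_le_sum fun i _ => ?_
    rw [add_div]
    exact add_le_add (Bark_pt (hp.pos _) (hp.pos _) hn) (Bark_pt (hp.pos _) (hp.pos _) hn)
  · rw [integral_finsetSum _ fun i _ => hj i]
    refine (Finset.sum_le_card_nsmul _ _ (2 * e ^ 2 / Fintype.card ι) fun i _ => ?_).trans_eq ?_
    · rw [integral_div, integral_add (hi _) (hi _)]
      refine div_le_div_of_nonneg_right ?_ hn.le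
      linarith [hH _ (he i), hH (w i)⁻¹ (by rw [Hel_inv]; exact he i)]
    · rw [nsmul_eq_mul, Finset.card_univ]
      field_simp


end Pool.Agent.P.MP_923088_al.AG
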