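import Pool.Agent.P.MP_923088_al.AG.Geo1
import Pool.Agent.P.MP_923088_al.AG.LawL

/-!
Row AG-Base. A tuple with the non-concentration property fixes no polynomial of positive degree.
Plan. Let `v = ∑ c i • mono j i ≠ 0`, and `Q = ∑ c i X^i`, a non-zero polynomial of degree at most `j`
(`linInd_mono`). For `x` with first column `(a,b)`: `v x = b^j Q (a/b)` if `b ≠ 0`. So `v` has a zero
`x₀` (a root of `Q` if the degree is positive; else `v = c b^j` vanishes at `1`), and for a zero `x`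
either `b = 0` or `a/b` is a root of `Q`. With `l₀ = dg I`, the element `x l₀ x⁻¹` only depends on
`a/b` (two unit columns with the same ratio differ by a unit scalar: `x' = x * dg z`, which commutes
with `l₀`). So `{x l₀ x⁻¹ | v x = 0}` lies in a finite set `T`. The elements `g` with `Lt g v = v` form a
subgroup that contains all values of `lev (ext w) B 4` (`levY_mem`). Hence, with `l = x₀ l₀ x₀⁻¹`,
`1 = P (∃ l' ∈ T, ds (Y l Y⁻¹) l' ≤ ζ) ≤ T.card * exp (-B)` (`sum_lev`, `P_exists`, `NC` with `i = 1`),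
false for large `B`.
-/

namespace Pool.Agent.P.MP_923088_al.AG

open MeasureTheory Real
open scoped Classical Quaternion

theorem Base_ext {x y : SU2} (h0 : x.1 0 0 = y.1 0 0) (h1 : x.1 1 0 = y.1 1 0) : x = y :=
  qt_inj (by rw [qt, qt, h0, h1])

/-- The chosen axis. -/
noncomputable def Base_l : SU2 := dg Complex.I (by simp)

theorem Base_hc : hc Base_l = 0 := by
  rw [Base_l, hc_dg, Complex.I_re]

theorem Base_same {x x' : SU2} (h : x.1 0 0 * x'.1 1 0 = x.1 1 0 * x'.1 0 0) :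
    x * Base_l * x⁻¹ = x' * Base_l * x'⁻¹ := by
  obtain ⟨y, rfl⟩ : ∃ y, x' = x * y := ⟨x⁻¹ * x', by group⟩
  have h1 : y.1 1 0 = 0 := by
    rw [mul_entry, mul_entry] at h
    linear_combination h - y.1 1 0 * det_entries x
  have h2 : y * Base_l = Base_l * y := by
    refine Base_ext ?_ ?_
    · rw [mul_entry, mul_entry, h1, Base_l, dg_00, dg_10]
      ring
    · rw [mul_entry, mul_entry, h1, Base_l, dg_10]
      ring
  rw [mul_assoc x y, h2]
  group

/-- The polynomial attached to the coefficients. -/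
noncomputable def Base_Q {j : ℕ} (c : Fin (j + 1) → ℂ) : Polynomial ℂ :=
  ∑ i : Fin (j + 1), Polynomial.monomial (i : ℕ) (c i)

theorem Base_coeff {j : ℕ} (c : Fin (j + 1) → ℂ) (i : Fin (j + 1)) :
    (Base_Q c).coeff i = c i := by
  rw [Base_Q, Polynomial.finsetSum_coeff, Finset.sum_eq_single i]
  · simp
  · intro b _ hb
    rw [Polynomial.coeff_monomial, if_neg fun h => hb (Fin.ext h)]
  · simp

theorem Base_apply {j : ℕ} (c : Fin (j + 1) → ℂ) (x : SU2) :
    (∑ i, c i • mono j i) x = ∑ i, c i * (x.1 0 0 ^ (i : ℕ) * x.1 1 0 ^ (j - i)) := by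
  rw [ContinuousMap.sum_apply]
  rfl

theorem Base_eval {j : ℕ} (c : Fin (j + 1) → ℂ) {x : SU2} (hx : x.1 1 0 ≠ 0) :
    (∑ i, c i • mono j i) x = x.1 1 0 ^ j * (Base_Q c).eval (x.1 0 0 / x.1 1 0) := by
  rw [Base_apply, Base_Q, Polynomial.eval_finsetSum, Finset.mul_sum]
  refine Finset.sum_congr rfl fun i _ => ?_
  rw [Polynomial.eval_monomial, div_pow, ← pow_sub_mul_pow (x.1 1 0) (Nat.lt_succ_iff.1 i.2)]
  field_simp

theorem Base_zero {j : ℕ} (hj : 1 ≤ j) (c : Fin (j + 1) → ℂ) :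
    ∃ x : SU2, (∑ i, c i • mono j i) x = 0 := by
  by_cases hc : c (Fin.last j) = 0
  · refine ⟨1, ?_⟩
    rw [Base_apply]
    refine Finset.sum_eq_zero fun i _ => ?_
    by_cases hi : i = Fin.last j
    · rw [hi, hc, zero_mul]
    · have h1 : j - i ≠ 0 := by
        have := Fin.val_lt_last hi
        omega
      simp [h1]
  · have hd : 0 < (Base_Q c).degree := by
      refine lt_of_lt_of_le ?_ (Polynomial.le_degree_of_ne_zero (n := j) ?_)
      · exact_mod_cast hj
      · rwa [← Base_coeff c] at hc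
    obtain ⟨z, hz⟩ := Complex.exists_root hd
    have h1 : 0 < 1 + Complex.normSq z := by linarith [Complex.normSq_nonneg z]
    have h2 : (√(1 + Complex.normSq z) : ℂ) ≠ 0 := by
      exact_mod_cast (Real.sqrt_pos.2 h1).ne'
    have h3 : (√(1 + Complex.normSq z) : ℂ) * √(1 + Complex.normSq z) =
        1 + z * (starRingEnd ℂ) z := by
      rw [← Complex.ofReal_mul, Real.mul_self_sqrt h1.le, Complex.mul_conj]
      push_cast
      rfl
    refine ⟨mkU (z / √(1 + Complex.normSq z)) (1 / √(1 + Complex.normSq z)) ?_, ?_⟩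
    · rw [map_div₀, map_div₀, Complex.conj_ofReal, map_one]
      field_simp
      linear_combination -h3
    · rw [Base_eval c (by rw [mkU_10]; exact one_div_ne_zero h2), mkU_00, mkU_10,
        div_div_div_cancel_right₀ h2, div_one, hz.eq_zero, mul_zero]

theorem Base_finite {j : ℕ} {c : Fin (j + 1) → ℂ} (hc : Base_Q c ≠ 0) :
    ((fun x => x * Base_l * x⁻¹) '' {x : SU2 | (∑ i, c i • mono j i) x = 0}).Finite := by
  have h1 : ((fun x => x * Base_l * x⁻¹) '' {x : SU2 | x.1 1 0 = 0}).Finite := by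
    refine Set.Subsingleton.finite ?_
    rintro _ ⟨x, hx, rfl⟩ _ ⟨x', hx', rfl⟩
    exact Base_same (by rw [hx, hx', mul_zero, zero_mul])
  have h2 : ∀ z : ℂ, ((fun x => x * Base_l * x⁻¹) ''
      {x : SU2 | x.1 1 0 ≠ 0 ∧ x.1 0 0 / x.1 1 0 = z}).Finite := fun z => by
    refine Set.Subsingleton.finite ?_
    rintro _ ⟨x, hx, rfl⟩ _ ⟨x', hx', rfl⟩
    refine Base_same ?_
    rw [mul_comm (x.1 1 0), ← div_eq_div_iff hx.1 hx'.1, hx.2, hx'.2]
  refine (h1.union ((Polynomial.finite_setOfPred_isRoot hc).biUnion fun z _ => h2 z)).subset ?_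
  rintro _ ⟨x, hx, rfl⟩
  by_cases h0 : x.1 1 0 = 0
  · exact Or.inl ⟨x, h0, rfl⟩
  · refine Or.inr (Set.mem_biUnion (x := x.1 0 0 / x.1 1 0) ?_ ⟨x, ⟨h0, rfl⟩, rfl⟩)
    have h3 : (∑ i, c i • mono j i) x = 0 := hx
    rw [Base_eval c h0] at h3
    exact (mul_eq_zero.1 h3).resolve_left (pow_ne_zero _ h0)

/-- The stabiliser of a function. -/
def Base_stab (v : CF) : Subgroup SU2 where
  carrier := {g | ∀ x, v (g * x) = v x}
  mul_mem' := fun {a b} ha hb x => by rw [mul_assoc, ha, hb]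
  one_mem' := fun x => by rw [one_mul]
  inv_mem' := fun {a} ha x => by rw [← ha, mul_inv_cancel_left]

theorem no_fixed {k : ℕ} {w : Fin (k + 1) → SU2} (hw : NC w) (hk : 4 ≤ k) {j : ℕ} (hj : 1 ≤ j) :
    ∀ v ∈ V j, (∀ i, Lt (w i) v = v) → v = 0 := by
  intro v hv hfix
  obtain ⟨c, rfl⟩ := (Submodule.mem_span_range_iff_exists_fun ℂ).1 hv
  by_contra hne
  have hQ : Base_Q c ≠ 0 := fun h => hne (Finset.sum_eq_zero fun i _ => by
    rw [← Base_coeff c i, h, Polynomial.coeff_zero, zero_smul])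
  obtain ⟨x₀, hx₀⟩ := Base_zero hj c
  have hT := Base_finite hQ
  have hK : ∀ i, ext w i ∈ Base_stab (∑ i, c i • mono j i) := fun i => by
    rw [ext]
    split_ifs with hi
    · intro x
      rw [← Lt_apply, hfix]
    · exact one_mem _
  obtain ⟨B₀, hB⟩ := hw
  have key : ∀ B, B₀ ≤ B → 1 ≤ (hT.toFinset.card : ℝ) * exp (-(B : ℝ)) := fun B hBB => by
    have h1 := hB B hBB 1 (by omega) (x₀ * Base_l * x₀⁻¹)
    rw [hc_conj, Base_hc, pow_one] at h1
    have h2 := Law.P_exists (ok_lev (ext w) B (1 + 3)) hT.toFinset fun l' ω =>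
      ds ((lev (ext w) B (1 + 3)).Y ω * (x₀ * Base_l * x₀⁻¹) * ((lev (ext w) B (1 + 3)).Y ω)⁻¹) l'
        ≤ exp (-(B : ℝ) ^ (1 + 6))
    rw [Law.P_congr _ (E' := fun _ => True), Law.P_true, sum_lev] at h2
    · refine h2.trans ((Finset.sum_le_sum fun l' _ => h1 l' rfl).trans ?_)
      rw [Finset.sum_const, nsmul_eq_mul]
    · intro ω
      refine iff_true_intro ⟨_, hT.mem_toFinset.2 ⟨(lev (ext w) B (1 + 3)).Y ω * x₀, ?_, rfl⟩, ?_⟩
      · exact (levY_mem _ B (1 + 3) (fun i _ => hK i) ω x₀).trans hx₀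
      · rw [show (lev (ext w) B (1 + 3)).Y ω * (x₀ * Base_l * x₀⁻¹) *
            ((lev (ext w) B (1 + 3)).Y ω)⁻¹ = (lev (ext w) B (1 + 3)).Y ω * x₀ * Base_l *
            ((lev (ext w) B (1 + 3)).Y ω * x₀)⁻¹ by group, ds_self]
        exact (exp_pos _).le
  have hlim : Filter.Tendsto (fun B : ℕ => (hT.toFinset.card : ℝ) * exp (-(B : ℝ)))
      Filter.atTop (nhds 0) := by
    simpa using (Real.tendsto_exp_neg_atTop_nhds_zero.comp
      tendsto_natCast_atTop_atTop).const_mul (hT.toFinset.card : ℝ)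
  have := ge_of_tendsto hlim (Filter.eventually_atTop.2 ⟨B₀, key⟩)
  linarith

end Pool.Agent.P.MP_923088_al.AG
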