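import Pool.Agent.P.MP_923088_al.AG.Ent1

/-!
Row AG-Chain. Patterns of chains and of mixtures.
Chain: where `q₁ q₂ ≠ 0` the logarithm splits as
`log (q₁ / (p a r₁)) + log (q₂ (Y₁ a) / (p (Y₁ a) r₂))`; sum over `ω₂` with `fwd` for the first part,
and use `IsPat.int_bwd` of the first pattern with `f c = (∑ ω₂, q₂ c ω₂ log ..) / p c` for the second.
Mixture: on `A K` the logarithm is `log (q / (p r)) + log (card ι)`; the terms outside `A K` are at
least `q - p r` (`xlog_ge`), so removing them costs at most `1` for each `K`.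
-/

namespace Pool.Agent.P.MP_923088_al.AG

open MeasureTheory Real
open scoped Classical Quaternion

variable [MeasurableSpace SU2] [BorelSpace SU2] {m : Measure SU2} [m.IsHaarMeasure]
  [IsProbabilityMeasure m] {p : SU2 → ℝ}

theorem Chain_bwd (hp : IsDens m p) {L : Law} {q : SU2 → L.Ω → ℝ} (h : IsPat p L q) {g : SU2 → ℝ}
    (hg : Measurable g) {C : ℝ} (hC : ∀ a, |g a| ≤ C) :
    Integrable (fun a => ∑ ω, q a ω / p (L.Y ω * a) * g (L.Y ω * a)) m ∧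
      ∫ a, ∑ ω, q a ω / p (L.Y ω * a) * g (L.Y ω * a) ∂m = ∫ a, g a ∂m := by
  obtain ⟨c, hc, hc'⟩ := hp.lo
  have h1 : Measurable fun a => g a / p a := hg.div hp.meas
  have h2 : ∀ a, |g a / p a| ≤ C / c := fun a => by
    rw [abs_div, abs_of_pos (hp.pos a)]
    exact div_le_div₀ ((abs_nonneg _).trans (hC a)) (hC a) hc (hc' a)
  have h3 : ∀ ω, Integrable (fun a => q a ω * (g (L.Y ω * a) / p (L.Y ω * a))) m := fun ω =>
    h.integrable_mul hp ω (h1.comp (measurable_const_mul _)) fun a => h2 _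
  simp only [div_mul_comm (q _ _), mul_comm _ (q _ _)]
  refine ⟨integrable_finsetSum _ fun ω _ => h3 ω, ?_⟩
  rw [integral_finsetSum _ fun ω _ => h3 ω, h.int_bwd hp h1 h2]
  exact integral_congr_ae (ae_of_all _ fun a => mul_div_cancel₀ _ (hp.pos a).ne')

omit [MeasurableSpace SU2] [BorelSpace SU2] in
theorem Chain_log {x₁ x₂ a b r₁ r₂ : ℝ} (ha : a ≠ 0) (hb : b ≠ 0) (h₁ : r₁ = 0 → x₁ = 0)
    (h₂ : r₂ = 0 → x₂ = 0) :
    x₁ * x₂ / b * log (x₁ * x₂ / b / (a * (r₁ * r₂))) =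
      x₁ * log (x₁ / (a * r₁)) / b * x₂ + x₁ / b * (x₂ * log (x₂ / (b * r₂))) := by
  by_cases e₁ : x₁ = 0
  · simp [e₁]
  by_cases e₂ : x₂ = 0
  · simp [e₂]
  have h3 := mt h₁ e₁
  have h4 := mt h₂ e₂
  rw [show x₁ * x₂ / b / (a * (r₁ * r₂)) = x₁ / (a * r₁) * (x₂ / (b * r₂)) by field_simp,
    log_mul (by positivity) (by positivity)]
  ring

theorem IsPat.chain (hp : IsDens m p) {L₁ L₂ : Law} {q₁ : SU2 → L₁.Ω → ℝ} {q₂ : SU2 → L₂.Ω → ℝ}
    (h₁ : IsPat p L₁ q₁) (h₂ : IsPat p L₂ q₂) :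
    IsPat p (L₁.chain L₂) (chainQ p L₁ L₂ q₁ q₂) := by
  refine ⟨h₁.ok.chain h₂.ok, fun ω => ?_, fun a ω => ?_, fun a ω h => ?_, fun a => ?_, fun b => ?_⟩
  · exact ((h₁.meas ω.1).mul ((h₂.meas ω.2).comp (measurable_const_mul _))).div
      (hp.meas.comp (measurable_const_mul _))
  · exact div_nonneg (mul_nonneg (h₁.nn _ _) (h₂.nn _ _)) (hp.pos _).le
  · rcases mul_eq_zero.1 h with h | h
    · rw [chainQ, h₁.ac _ _ h, zero_mul, zero_div]
    · rw [chainQ, h₂.ac _ _ h, mul_zero, zero_div]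
  · rw [Fintype.sum_prod_type, ← h₁.fwd a]
    refine Finset.sum_congr rfl fun ω₁ _ => ?_
    simp only [chainQ]
    rw [← Finset.sum_div, ← Finset.mul_sum, h₂.fwd, mul_div_cancel_right₀ _ (hp.pos _).ne']
  · rw [Fintype.sum_prod_type_right, ← h₂.bwd b]
    refine Finset.sum_congr rfl fun ω₂ _ => ?_
    simp only [chainQ, mul_inv_rev, mul_assoc, mul_inv_cancel_left]
    rw [← Finset.sum_div, ← Finset.sum_mul, h₁.bwd, mul_div_cancel_left₀ _ (hp.pos _).ne']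

theorem cost_chain (hp : IsDens m p) {L₁ L₂ : Law} {q₁ : SU2 → L₁.Ω → ℝ} {q₂ : SU2 → L₂.Ω → ℝ}
    (h₁ : IsPat p L₁ q₁) (h₂ : IsPat p L₂ q₂) :
    cost m p (L₁.chain L₂) (chainQ p L₁ L₂ q₁ q₂) = cost m p L₁ q₁ + cost m p L₂ q₂ := by
  obtain ⟨C, hC⟩ := h₂.cost_bdd hp
  obtain ⟨h3, h4⟩ := Chain_bwd hp h₁ (g := fun c => ∑ ω, q₂ c ω * log (q₂ c ω / (p c * L₂.r ω)))
    (Finset.measurable_fun_sum _ fun ω _ =>
      (h₂.meas ω).mul ((h₂.meas ω).div (hp.meas.mul_const _)).log)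
    fun a => (Finset.abs_sum_le_sum_abs _ _).trans (Finset.sum_le_sum fun ω _ => hC a ω)
  rw [cost, cost, cost, ← h4,
    ← integral_add (integrable_finsetSum _ fun ω _ => h₁.integrable_cost hp ω) h3]
  refine integral_congr_ae (ae_of_all _ fun a => ?_)
  dsimp only
  rw [Fintype.sum_prod_type, ← Finset.sum_add_distrib]
  refine Finset.sum_congr rfl fun ω₁ _ => ?_
  simp only [chainQ, fun ω₂ => Chain_log (hp.pos a).ne' (hp.pos (L₁.Y ω₁ * a)).ne' (h₁.ac a ω₁)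
    (h₂.ac (L₁.Y ω₁ * a) ω₂)]
  rw [Finset.sum_add_distrib, ← Finset.mul_sum, ← Finset.mul_sum, h₂.fwd,
    div_mul_cancel₀ _ (hp.pos _).ne']

omit [MeasurableSpace SU2] [BorelSpace SU2] in
theorem qm_chain (p : SU2 → ℝ) (L₁ L₂ : Law) (q₁ : SU2 → L₁.Ω → ℝ) (q₂ : SU2 → L₂.Ω → ℝ) (a : SU2)
    (E : (L₁.chain L₂).Ω → Prop) :
    qm (L₁.chain L₂) (chainQ p L₁ L₂ q₁ q₂) a E = ∑ ω₁, q₁ a ω₁ / p (L₁.Y ω₁ * a) *
      qm L₂ q₂ (L₁.Y ω₁ * a) (fun ω₂ => E (ω₁, ω₂)) := by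
  rw [qm, Fintype.sum_prod_type]
  refine Finset.sum_congr rfl fun ω₁ _ => ?_
  rw [qm, Finset.mul_sum]
  refine Finset.sum_congr rfl fun ω₂ _ => ?_
  split_ifs
  · rw [chainQ]
    ring
  · rw [mul_zero]

theorem qm_chain_fst (hp : IsDens m p) {L₁ L₂ : Law} (q₁ : SU2 → L₁.Ω → ℝ) {q₂ : SU2 → L₂.Ω → ℝ}
    (h₂ : IsPat p L₂ q₂) (a : SU2) (E : L₁.Ω → Prop) :
    qm (L₁.chain L₂) (chainQ p L₁ L₂ q₁ q₂) a (fun ω => E ω.1) = qm L₁ q₁ a E := by
  rw [qm_chain, qm]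
  refine Finset.sum_congr rfl fun ω₁ _ => ?_
  by_cases h : E ω₁
  · simp only [qm, h, if_true]
    rw [h₂.fwd, div_mul_cancel₀ _ (hp.pos _).ne']
  · simp [qm, h]

theorem Pq_chain_fst (hp : IsDens m p) {L₁ L₂ : Law} (q₁ : SU2 → L₁.Ω → ℝ) {q₂ : SU2 → L₂.Ω → ℝ}
    (h₂ : IsPat p L₂ q₂) (E : L₁.Ω → Prop) :
    Pq m (L₁.chain L₂) (chainQ p L₁ L₂ q₁ q₂) (fun ω => E ω.1) = Pq m L₁ q₁ E := by
  simp only [Pq, qm_chain_fst hp q₁ h₂]

theorem Pq_chain_snd (hp : IsDens m p) {L₁ L₂ : Law} {q₁ : SU2 → L₁.Ω → ℝ} {q₂ : SU2 → L₂.Ω → ℝ}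
    (h₁ : IsPat p L₁ q₁) (h₂ : IsPat p L₂ q₂) (E : L₂.Ω → Prop) :
    Pq m (L₁.chain L₂) (chainQ p L₁ L₂ q₁ q₂) (fun ω => E ω.2) = Pq m L₂ q₂ E := by
  obtain ⟨C, hC⟩ := hp.hi
  simp only [Pq, qm_chain]
  exact (Chain_bwd hp h₁ (h₂.measurable_qm E) fun a =>
    (abs_of_nonneg (h₂.qm_nonneg a E)).trans_le ((h₂.qm_le a E).trans (hC a))).2

theorem HasPat.chain (hp : IsDens m p) {L₁ L₂ : Law} {κ₁ κ₂ : ℝ} (h₁ : HasPat m p L₁ κ₁)
    (h₂ : HasPat m p L₂ κ₂) : HasPat m p (L₁.chain L₂) (κ₁ + κ₂) := by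
  obtain ⟨q₁, h₁, e₁⟩ := h₁
  obtain ⟨q₂, h₂, e₂⟩ := h₂
  exact ⟨_, h₁.chain hp h₂, (cost_chain hp h₁ h₂).trans_le (add_le_add e₁ e₂)⟩

theorem isPat_mix {ι : Type} [Fintype ι] [Nonempty ι] {L : ι → Law}
    {q : ∀ K, SU2 → (L K).Ω → ℝ} (h : ∀ K, IsPat p (L K) (q K)) (A : ∀ K, (L K).Ω → Prop)
    (hf : ∀ a, ∑ K, qm (L K) (q K) a (A K) = p a)
    (hb : ∀ b, ∑ K, ∑ ω, (if A K ω then q K (((L K).Y ω)⁻¹ * b) ω else 0) = p b) :
    IsPat p (Law.mix L A) (mixQ L A q) := by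
  refine ⟨Law.ok_mix (fun K => (h K).ok) A, fun ω => ?_, fun a ω => ?_, fun a ω e => ?_,
    fun a => ?_, fun b => ?_⟩
  · simp only [mixQ]
    split_ifs
    exacts [(h _).meas _, measurable_const]
  · exact ite_nonneg ((h _).nn _ _) le_rfl
  · refine ite_eq_right_iff.2 fun hA => (h _).ac _ _ ?_
    exact (div_eq_zero_iff.1 ((if_pos hA).symm.trans e)).resolve_right
      (Nat.cast_ne_zero.2 Fintype.card_ne_zero)
  · rw [Fintype.sum_sigma]
    exact hf a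
  · rw [Fintype.sum_sigma]
    exact hb b

theorem cost_mix (hp : IsDens m p) {ι : Type} [Fintype ι] [Nonempty ι] {L : ι → Law}
    {q : ∀ K, SU2 → (L K).Ω → ℝ} (h : ∀ K, IsPat p (L K) (q K)) (A : ∀ K, (L K).Ω → Prop)
    (hf : ∀ a, ∑ K, qm (L K) (q K) a (A K) = p a) :
    cost m p (Law.mix L A) (mixQ L A q) ≤
      ∑ K, (cost m p (L K) (q K) + 1) + log (Fintype.card ι) := by
  have h0 : (Fintype.card ι : ℝ) ≠ 0 := Nat.cast_ne_zero.2 Fintype.card_ne_zero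
  have h1 : ∀ a, ∑ ω, mixQ L A q a ω * log (mixQ L A q a ω / (p a * (Law.mix L A).r ω)) =
      ∑ K, ∑ ω, (if A K ω then q K a ω * log (q K a ω / (p a * (L K).r ω)) else 0) +
        p a * log (Fintype.card ι) := fun a => by
    rw [Fintype.sum_sigma, ← congrArg (· * log (Fintype.card ι)) (hf a)]
    simp only [qm, Finset.sum_mul, ← Finset.sum_add_distrib]
    refine Finset.sum_congr rfl fun K _ => Finset.sum_congr rfl fun ω _ => ?_
    simp only [mixQ]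
    split_ifs
    · by_cases e : q K a ω = 0
      · simp [e]
      · have h2 := mt ((h K).ac a ω) e
        have h3 := (hp.pos a).ne'
        rw [← mul_add, ← log_mul (by positivity) h0]
        congr 2
        field_simp
    · simp
  have h2 : ∀ K, Integrable (fun a => ∑ ω, q K a ω * log (q K a ω / (p a * (L K).r ω))) m :=
    fun K => integrable_finsetSum _ fun ω _ => (h K).integrable_cost hp ω
  have h3 := hp.integrable.mul_const (log (Fintype.card ι))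
  have h4 : ∀ K, Integrable (fun a => ∑ ω, q K a ω * log (q K a ω / (p a * (L K).r ω)) + p a) m :=
    fun K => (h2 K).add hp.integrable
  have h5 : ∑ K, (cost m p (L K) (q K) + 1) + log (Fintype.card ι) =
      ∫ a, (∑ K, (∑ ω, q K a ω * log (q K a ω / (p a * (L K).r ω)) + p a) +
        p a * log (Fintype.card ι)) ∂m := by
    rw [integral_add (integrable_finsetSum _ fun K _ => h4 K) h3, integral_mul_const,
      integral_finsetSum _ fun K _ => h4 K]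
    simp only [integral_add (h2 _) hp.integrable, hp.int, one_mul, cost]
  rw [h5, cost]
  simp only [h1]
  refine integral_mono (Integrable.add (integrable_finsetSum _ fun K _ =>
    integrable_finsetSum _ fun ω _ => ?_) h3) ((integrable_finsetSum _ fun K _ => h4 K).add h3)
    fun a => add_le_add_left (Finset.sum_le_sum fun K _ => ?_) _
  · split_ifs
    exacts [(h K).integrable_cost hp ω, integrable_zero _ _ _]
  · refine le_trans ?_ (add_le_add_right (mul_le_of_le_one_right (hp.pos a).le (h K).ok.le) _)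
    rw [Finset.mul_sum, ← Finset.sum_add_distrib]
    refine Finset.sum_le_sum fun ω _ => ?_
    have h6 := mul_nonneg (hp.pos a).le ((h K).ok.nn ω)
    have h7 := (h K).nn a ω
    have h8 := xlog_ge h7 h6 fun e => (h K).ac a ω
      ((mul_eq_zero.1 e).resolve_left (hp.pos a).ne')
    split_ifs <;> linarith

end Pool.Agent.P.MP_923088_al.AG
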