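import Pool.Agent.P.MP_923088_al.AG.Defs

/-!
Row AG-Disc. The upper left entry of a Haar distributed element is uniform on the unit disc.
Plan. (1) `∫ a^i conj(a)^j b^k conj(b)^l = 0` unless `i = j` and `k = l`, for the first column
`(a, b)`: multiply on the left and on the right by diagonal elements `dg z` (Haar measure is
invariant on both sides, instance `haar_right`). (2) Let `I j = ∫ |a|^(2j)`. Left invariance under
`mkU` gives `∫ |a + t b|^(2j) = (1 + t^2)^j I j` for real `t`; comparing coefficients of `t^2` (or of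
all powers) gives `j ∫ |a|^(2j-2) |b|^2 = I j`, and `|b|^2 = 1 - |a|^2`, so `I j = 1/(j+1)`.
(3) The moments of normalised area on the disc are the same (`Complex.integral_comp_polarCoord_symm`).
(4) Two finite measures on the closed disc with the same moments in `z`, `conj z` agree
(Stone-Weierstrass, for example `ContinuousMap.starSubalgebra_topologicalClosure_eq_top_of_separatesPoints`
or `MeasureTheory.ext_of_forall_mem_subalgebra_integral_eq_of_polish`, or
`ContinuousMap.induction_on` on the compact set `closedBall 0 1`).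
Any other proof is welcome.
-/

namespace Pool.Agent.P.MP_923088_al.AG

open MeasureTheory Real
open scoped Classical Quaternion

section helpers
open ComplexConjugate

/-- Integration is a continuous linear functional on the continuous functions. -/
theorem Disc_int {X : Type} [TopologicalSpace X] [CompactSpace X] [MeasurableSpace X]
    [BorelSpace X] (μ : Measure X) [IsFiniteMeasure μ] :
    ∃ Λ : C(X, ℂ) →L[ℂ] ℂ, ∀ f : C(X, ℂ), Λ f = ∫ x, f x ∂μ := by
  have hi : ∀ f : C(X, ℂ), Integrable (fun x => f x) μ := fun f =>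
    (BoundedContinuousFunction.mkOfCompact f).integrable μ
  refine ⟨LinearMap.mkContinuous
    { toFun := fun f => ∫ x, f x ∂μ
      map_add' := fun f g => integral_add (hi f) (hi g)
      map_smul' := fun c f => integral_smul c fun x => f x } (μ.real Set.univ) fun f => ?_,
    fun f => rfl⟩
  have := norm_integral_le_of_norm_le_const (μ := μ) (f := fun x => f x) (C := ‖f‖)
    (.of_forall fun x => f.norm_coe_le_norm x)
  rw [mul_comm] at this
  exact this

/-- A finite measure on the closed disc is determined by its moments. -/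
theorem Disc_ext {P Q : Measure (Metric.closedBall (0 : ℂ) 1)} [IsFiniteMeasure P]
    [IsFiniteMeasure Q]
    (h : ∀ i j : ℕ, ∫ z, (z : ℂ) ^ i * conj (z : ℂ) ^ j ∂P = ∫ z, (z : ℂ) ^ i * conj (z : ℂ) ^ j ∂Q) :
    P = Q := by
  obtain ⟨Λ, hΛ⟩ := Disc_int P
  obtain ⟨Λ', hΛ'⟩ := Disc_int Q
  set Z : C(Metric.closedBall (0 : ℂ) 1, ℂ) :=
    ContinuousMap.restrict (Metric.closedBall (0 : ℂ) 1) (.id ℂ) with hZ
  have key : ∀ f : C(Metric.closedBall (0 : ℂ) 1, ℂ), ∀ g : C(Metric.closedBall (0 : ℂ) 1, ℂ),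
      (∀ i j : ℕ, (Λ - Λ') (g * (Z ^ i * star Z ^ j)) = 0) →
      ∀ i j : ℕ, (Λ - Λ') (f * g * (Z ^ i * star Z ^ j)) = 0 := by
    intro f
    induction f using ContinuousMap.induction_on_of_compact with
    | const r =>
      intro g hg i j
      have e : ContinuousMap.const (Metric.closedBall (0 : ℂ) 1) r * g * (Z ^ i * star Z ^ j) =
          r • (g * (Z ^ i * star Z ^ j)) := by
        ext x; simp [mul_assoc]
      rw [e, map_smul, hg, smul_zero]
    | id =>
      intro g hg i j
      refine Eq.trans ?_ (hg (i + 1) j)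
      congr 1
      rw [← hZ]; ring
    | star_id =>
      intro g hg i j
      refine Eq.trans ?_ (hg i (j + 1))
      congr 1
      rw [← hZ]; ring
    | add f f' hf hf' =>
      intro g hg i j
      rw [add_mul, add_mul, map_add, hf g hg, hf' g hg, add_zero]
    | mul f f' hf hf' =>
      intro g hg i j
      rw [mul_assoc f]
      exact hf _ (hf' g hg) i j
    | frequently f hf =>
      intro g hg i j
      have hc : IsClosed {f : C(Metric.closedBall (0 : ℂ) 1, ℂ) |
          (Λ - Λ') (f * g * (Z ^ i * star Z ^ j)) = 0} :=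
        isClosed_eq ((Λ - Λ').continuous.comp (by fun_prop)) continuous_const
      exact isClosed_iff_frequently.1 hc f (hf.mono fun f' h' => h' g hg i j)
  have h1 : ∀ i j : ℕ, (Λ - Λ') (1 * (Z ^ i * star Z ^ j)) = 0 := fun i j => by
    rw [one_mul, sub_apply, hΛ, hΛ', sub_eq_zero]
    exact h i j
  refine ext_of_forall_integral_eq_of_IsFiniteMeasure fun f => ?_
  have h2 := key ⟨fun x => (f x : ℂ), Complex.continuous_ofReal.comp f.continuous⟩ 1 h1 0 0
  rw [pow_zero, pow_zero, mul_one, mul_one, mul_one, sub_apply, hΛ, hΛ',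
    sub_eq_zero] at h2
  have h3 : ((∫ x, f x ∂P : ℝ) : ℂ) = ((∫ x, f x ∂Q : ℝ) : ℂ) := by
    rw [← integral_complex_ofReal, ← integral_complex_ofReal]; exact h2
  exact_mod_cast h3

theorem Disc_unit {i j : ℕ} (h : i ≠ j) : ∃ u : ℂ, u * conj u = 1 ∧ u ^ i * conj u ^ j = -1 := by
  have hd : (i : ℂ) - j ≠ 0 := sub_ne_zero.2 (by exact_mod_cast h)
  have e : conj (Complex.exp (π * Complex.I / (i - j))) = Complex.exp (-(π * Complex.I / (i - j))) := by
    rw [← Complex.exp_conj]
    congr 1
    simp [neg_div]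
  refine ⟨Complex.exp (π * Complex.I / (i - j)), ?_, ?_⟩
  · rw [e, ← Complex.exp_add, add_neg_cancel, Complex.exp_zero]
  · rw [e, ← Complex.exp_nat_mul, ← Complex.exp_nat_mul, ← Complex.exp_add, ← Complex.exp_pi_mul_I]
    congr 1
    field_simp
    ring

theorem Disc_diag (z : ℂ) (j : ℕ) : z ^ j * conj z ^ j = ((‖z‖ ^ (2 * j) : ℝ) : ℂ) := by
  rw [← mul_pow, Complex.mul_conj', ← pow_mul]
  push_cast
  rfl

/-- Moments of the area measure on the disc. -/
theorem Disc_area (i j : ℕ) : ∫ z in Metric.closedBall (0 : ℂ) 1, z ^ i * conj z ^ j =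
    if i = j then (π : ℂ) * (1 / ((i : ℂ) + 1)) else 0 := by
  split_ifs with h
  · subst h
    simp only [Disc_diag]
    rw [integral_complex_ofReal, ← integral_indicator measurableSet_closedBall]
    have e : (Metric.closedBall (0 : ℂ) 1).indicator (fun z => ‖z‖ ^ (2 * i)) =
        fun z => (Set.Iic (1 : ℝ)).indicator (fun r => r ^ (2 * i)) ‖z‖ := by
      funext z
      simp only [Set.indicator, mem_closedBall_zero_iff, Set.mem_Iic]
    have e2 : ∫ y in Set.Ioi (0 : ℝ), y ^ (2 - 1) • (Set.Iic (1 : ℝ)).indicator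
        (fun r => r ^ (2 * i)) y = 1 / (2 * i + 2) := by
      have e3 : (fun y : ℝ => y ^ (2 - 1) • (Set.Iic (1 : ℝ)).indicator (fun r => r ^ (2 * i)) y) =
          (Set.Iic (1 : ℝ)).indicator fun y => y ^ (2 * i + 1) := by
        funext y
        by_cases hy : y ∈ Set.Iic (1 : ℝ)
        · rw [Set.indicator_of_mem hy, Set.indicator_of_mem hy, smul_eq_mul]; ring
        · rw [Set.indicator_of_notMem hy, Set.indicator_of_notMem hy, smul_zero]
      rw [e3, setIntegral_indicator measurableSet_Iic, Set.Ioi_inter_Iic,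
        ← intervalIntegral.integral_of_le zero_le_one, integral_pow]
      push_cast
      simp only [one_pow, ne_eq, Nat.add_eq_zero_iff, one_ne_zero, and_false, not_false_eq_true,
        zero_pow, sub_zero]
      congr 1
      ring
    have e4 : volume.real (Metric.ball (0 : ℂ) 1) = π := by
      simp [Measure.real, Complex.volume_ball]
    rw [e, integral_fun_norm_addHaar, Complex.finrank_real_complex, e2, e4]
    simp only [smul_eq_mul, nsmul_eq_mul]
    push_cast
    have : (i : ℂ) + 1 ≠ 0 := Nat.cast_add_one_ne_zero i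
    have : 2 * (i : ℂ) + 2 ≠ 0 := by
      rw [show 2 * (i : ℂ) + 2 = 2 * (i + 1) by ring]; exact mul_ne_zero two_ne_zero this
    field_simp
  · obtain ⟨u, hu, hu'⟩ := Disc_unit h
    have hn : ‖u‖ = 1 := by
      have h1 := congrArg norm hu
      rw [norm_mul, RCLike.norm_conj, norm_one] at h1
      nlinarith [norm_nonneg u]
    set v : Circle := ⟨u, mem_sphere_zero_iff_norm.2 hn⟩ with hv
    rw [← integral_indicator measurableSet_closedBall]
    have h1 := (rotation v).measurePreserving.integral_comp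
      (rotation v).toHomeomorph.measurableEmbedding
      ((Metric.closedBall (0 : ℂ) 1).indicator fun z => z ^ i * conj z ^ j)
    have h2 : ∀ z, (Metric.closedBall (0 : ℂ) 1).indicator (fun z => z ^ i * conj z ^ j)
        (rotation v z) = -(Metric.closedBall (0 : ℂ) 1).indicator (fun z => z ^ i * conj z ^ j) z := by
      intro z
      have h3 : rotation v z = u * z := rfl
      simp only [Set.indicator, mem_closedBall_zero_iff, h3, norm_mul, hn, one_mul]
      split_ifs
      · rw [map_mul, mul_pow, mul_pow]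
        linear_combination z ^ i * conj z ^ j * hu'
      · rw [neg_zero]
    simp only [h2, integral_neg] at h1
    exact self_eq_neg.1 h1.symm

/-- The derivative of the test function along a one-parameter group. -/
theorem Disc_deriv {R : Type} [NormedCommRing R] [NormedAlgebra ℝ R] (A B A' B' C D : R) (k : ℕ) :
    HasDerivAt (fun θ : ℝ => (cos θ • A - sin θ • B) ^ (k + 1) * (cos θ • A' - sin θ • B') ^ k *
      (cos θ • C + sin θ • D))
      (A ^ (k + 1) * A' ^ k * D - ((k : R) + 1) * (A ^ k * B * A' ^ k * C) -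
        (k : R) * (A ^ (k + 1) * A' ^ (k - 1) * B' * C)) 0 := by
  have h : ∀ A B : R, HasDerivAt (fun θ : ℝ => cos θ • A - sin θ • B) (-B) 0 := fun A B => by
    have := ((hasDerivAt_cos 0).smul_const A).fun_sub ((hasDerivAt_sin 0).smul_const B)
    simpa using this
  have h' : HasDerivAt (fun θ : ℝ => cos θ • C + sin θ • D) D 0 := by
    have := ((hasDerivAt_cos 0).smul_const C).fun_add ((hasDerivAt_sin 0).smul_const D)
    simpa using this
  have h1 := (((h A B).fun_pow (k + 1)).fun_mul ((h A' B').fun_pow k)).fun_mul h'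
  refine h1.congr_deriv ?_
  simp only [cos_zero, sin_zero, one_smul, zero_smul, sub_zero, add_zero, Nat.add_sub_cancel]
  push_cast
  ring

end helpers

variable [MeasurableSpace SU2] [BorelSpace SU2] (m : Measure SU2) [m.IsHaarMeasure]
  [IsProbabilityMeasure m]

section haarMoments
open ComplexConjugate

omit [IsProbabilityMeasure m] in
theorem Disc_step (Λ : CF →L[ℂ] ℂ) (hΛ : ∀ f : CF, Λ f = ∫ x, f x ∂m) (k : ℕ) (u : ℂ)
    (hu : u * conj u = 1) :
    conj u * Λ (ent 0 0 ^ (k + 1) * star (ent 0 0) ^ (k + 1)) -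
      (k + 1) * (conj u * Λ (ent 0 0 ^ k * star (ent 0 0) ^ k * (ent 1 0 * star (ent 1 0)))) -
      k * (u * Λ (ent 0 0 ^ (k + 1) * star (ent 0 0) ^ (k - 1) * star (ent 1 0) * star (ent 1 0))) =
      0 := by
  have hd := Disc_deriv (ent 0 0) (conj u • ent 1 0) (star (ent 0 0)) (u • star (ent 1 0))
    (star (ent 1 0)) (conj u • star (ent 0 0)) k
  have h1 := (Λ.restrictScalars ℝ).hasFDerivAt.comp_hasDerivAt (0 : ℝ) hd
  have h2 : (Λ.restrictScalars ℝ) ∘ (fun θ : ℝ =>
      (cos θ • ent 0 0 - sin θ • (conj u • ent 1 0)) ^ (k + 1) *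
        (cos θ • star (ent 0 0) - sin θ • (u • star (ent 1 0))) ^ k *
        (cos θ • star (ent 1 0) + sin θ • (conj u • star (ent 0 0)))) =
      fun _ => Λ (ent 0 0 ^ (k + 1) * star (ent 0 0) ^ k * star (ent 1 0)) := by
    funext θ
    have hg : ((cos θ : ℝ) : ℂ) * conj ((cos θ : ℝ) : ℂ) +
        (((sin θ : ℝ) : ℂ) * u) * conj (((sin θ : ℝ) : ℂ) * u) = 1 := by
      have h3 : ((cos θ : ℝ) : ℂ) ^ 2 + ((sin θ : ℝ) : ℂ) ^ 2 = 1 := by
        exact_mod_cast cos_sq_add_sin_sq θ
      rw [map_mul, Complex.conj_ofReal, Complex.conj_ofReal]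
      linear_combination h3 + ((sin θ : ℝ) : ℂ) ^ 2 * hu
    rw [Function.comp_apply, ContinuousLinearMap.coe_restrictScalars', hΛ, hΛ,
      ← integral_mul_left_eq_self (fun x => (ent 0 0 ^ (k + 1) * star (ent 0 0) ^ k *
        star (ent 1 0) : CF) x) (mkU _ _ hg)]
    refine integral_congr_ae (.of_forall fun x => ?_)
    simp only [ContinuousMap.mul_apply, ContinuousMap.pow_apply, ContinuousMap.sub_apply,
      ContinuousMap.add_apply, ContinuousMap.smul_apply, ContinuousMap.star_apply, ent_apply,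
      mul_entry, mkU_00, mkU_01, mkU_10, mkU_11, RCLike.star_def, map_add, map_mul, map_neg,
      Complex.conj_ofReal, Complex.conj_conj, smul_eq_mul, Complex.real_smul]
    ring
  rw [h2] at h1
  have h4 := h1.unique (hasDerivAt_const _ _)
  rw [ContinuousLinearMap.coe_restrictScalars'] at h4
  rw [← h4]
  have e1 : ∀ f : CF, ((k : CF) + 1) * f = ((k : ℂ) + 1) • f := fun f => by
    ext x; simp
  have e2 : ∀ f : CF, (k : CF) * f = (k : ℂ) • f := fun f => by
    ext x; simp
  simp only [e1, e2, map_sub, map_smul, mul_smul_comm, smul_mul_assoc, smul_eq_mul]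
  congr 2
  · rw [pow_succ (star (ent 0 0)), mul_assoc]
  · congr 3
    ring

theorem Disc_haar_diag (k : ℕ) :
    ∫ x : SU2, x.1 0 0 ^ k * conj (x.1 0 0) ^ k ∂m = 1 / ((k : ℂ) + 1) := by
  obtain ⟨Λ, hΛ⟩ := Disc_int m
  have e : ∀ k : ℕ, ∫ x : SU2, x.1 0 0 ^ k * conj (x.1 0 0) ^ k ∂m =
      Λ (ent 0 0 ^ k * star (ent 0 0) ^ k) := fun k =>
    (hΛ (ent 0 0 ^ k * star (ent 0 0) ^ k)).symm
  have hb : (ent 1 0 * star (ent 1 0) : CF) = 1 - ent 0 0 * star (ent 0 0) := by
    ext x
    have := col_norm x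
    simp only [ContinuousMap.mul_apply, ContinuousMap.sub_apply, ContinuousMap.star_apply,
      ContinuousMap.one_apply, ent_apply, RCLike.star_def]
    linear_combination this
  induction k with
  | zero => simp
  | succ k ih =>
    have h1 := Disc_step m Λ hΛ k 1 (by simp)
    have h2 := Disc_step m Λ hΛ k Complex.I (by simp)
    have h3 : (ent 0 0 ^ k * star (ent 0 0) ^ k * (ent 1 0 * star (ent 1 0)) : CF) =
        ent 0 0 ^ k * star (ent 0 0) ^ k - ent 0 0 ^ (k + 1) * star (ent 0 0) ^ (k + 1) := by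
      rw [hb]; ring
    rw [h3, map_sub, ← e, ← e, ih] at h1 h2
    rw [map_one] at h1
    rw [Complex.conj_I] at h2
    have hk : (k : ℂ) + 1 ≠ 0 := Nat.cast_add_one_ne_zero k
    have hk' : ((k + 1 : ℕ) : ℂ) + 1 ≠ 0 := Nat.cast_add_one_ne_zero _
    have h5 : ((k : ℂ) + 1) * (1 / ((k : ℂ) + 1)) = 1 := mul_one_div_cancel hk
    rw [eq_div_iff hk']
    push_cast
    linear_combination (1 / 2) * h1 + (Complex.I / 2) * h2 + h5 +
      ((∫ x : SU2, x.1 0 0 ^ (k + 1) * conj (x.1 0 0) ^ (k + 1) ∂m) * (k + 2) / 2 -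
        ((k : ℂ) + 1) * (1 / ((k : ℂ) + 1)) / 2 + k * Λ (ent 0 0 ^ (k + 1) *
          star (ent 0 0) ^ (k - 1) * star (ent 1 0) * star (ent 1 0)) / 2) * Complex.I_mul_I

theorem Disc_haar (i j : ℕ) :
    ∫ x : SU2, x.1 0 0 ^ i * conj (x.1 0 0) ^ j ∂m = if i = j then 1 / ((i : ℂ) + 1) else 0 := by
  split_ifs with h
  · subst h
    exact Disc_haar_diag m i
  · obtain ⟨u, hu, hu'⟩ := Disc_unit h
    have h1 := integral_mul_left_eq_self (μ := m)
      (fun x : SU2 => x.1 0 0 ^ i * conj (x.1 0 0) ^ j) (dg u hu)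
    have h2 : ∀ x : SU2, (dg u hu * x).1 0 0 ^ i * conj ((dg u hu * x).1 0 0) ^ j =
        -(x.1 0 0 ^ i * conj (x.1 0 0) ^ j) := fun x => by
      have h3 : (dg u hu * x).1 0 0 = u * x.1 0 0 := by
        rw [mul_entry, dg, mkU_00, mkU_01, map_zero, neg_zero, zero_mul, add_zero]
      rw [h3, map_mul, mul_pow, mul_pow]
      linear_combination x.1 0 0 ^ i * conj (x.1 0 0) ^ j * hu'
    simp only [h2, integral_neg] at h1
    exact self_eq_neg.1 h1.symm

end haarMoments

theorem int_norm_pow (j : ℕ) : ∫ x : SU2, ‖x.1 0 0‖ ^ (2 * j) ∂m = 1 / ((j : ℝ) + 1) := by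
  have h := Disc_haar_diag m j
  simp only [Disc_diag] at h
  rw [integral_complex_ofReal] at h
  refine Complex.ofReal_injective (h.trans ?_)
  push_cast
  rfl

theorem disc_law {A : Set ℂ} (hA : MeasurableSet A) :
    m.real {x : SU2 | x.1 0 0 ∈ A} = volume.real (A ∩ Metric.closedBall 0 1) / π := by
  have hmem : ∀ x : SU2, x.1 0 0 ∈ Metric.closedBall (0 : ℂ) 1 := fun x =>
    mem_closedBall_zero_iff.2 (entry_norm_bound_of_unitary
      (Matrix.mem_specialUnitaryGroup_iff.mp x.2).1 0 0)
  set a : SU2 → Metric.closedBall (0 : ℂ) 1 := fun x => ⟨x.1 0 0, hmem x⟩ with ha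
  have hac : Continuous a := (continuous_entry 0 0).subtype_mk _
  have hemb : MeasurableEmbedding (Subtype.val : Metric.closedBall (0 : ℂ) 1 → ℂ) :=
    MeasurableEmbedding.subtype_coe measurableSet_closedBall
  have : IsFiniteMeasure (Measure.comap (Subtype.val : Metric.closedBall (0 : ℂ) 1 → ℂ) volume) :=
    ⟨by
      rw [hemb.comap_apply, Set.image_univ, Subtype.range_coe]
      exact (isCompact_closedBall _ _).measure_lt_top⟩
  have key : NNReal.pi • m.map a =
      Measure.comap (Subtype.val : Metric.closedBall (0 : ℂ) 1 → ℂ) volume := by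
    refine Disc_ext fun i j => ?_
    rw [integral_subtype_comap measurableSet_closedBall
      (fun z : ℂ => z ^ i * (starRingEnd ℂ) z ^ j), Disc_area, integral_smul_nnreal_measure,
      integral_map hac.measurable.aemeasurable (Continuous.aestronglyMeasurable (by fun_prop))]
    have h := Disc_haar m i j
    change (π : ℝ) • ∫ x : SU2, x.1 0 0 ^ i * (starRingEnd ℂ) (x.1 0 0) ^ j ∂m = _
    rw [h, Complex.real_smul]
    split_ifs <;> simp
  have h1 := congrArg (fun μ : Measure (Metric.closedBall (0 : ℂ) 1) =>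
    μ.real (Subtype.val ⁻¹' A)) key
  simp only [measureReal_nnreal_smul_apply] at h1
  rw [map_measureReal_apply hac.measurable (hemb.measurable hA),
    measureReal_def (Measure.comap _ _), hemb.comap_apply, Subtype.image_preimage_coe, Set.inter_comm] at h1
  rw [eq_div_iff pi_ne_zero, mul_comm]
  exact h1

end Pool.Agent.P.MP_923088_al.AG
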