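import Pool.Agent.P.MP_923088_al.AG.Geo1
import Pool.Agent.P.MP_923088_al.AG.Disc
import Pool.Agent.P.MP_923088_al.AG.LawL

/-!
Row AG-Coh. The matrix coefficient of an eigenvector.
`ψ g = re ⟪v, Lt g v⟫ / ‖v‖^2` with the `L²` inner product (`inner_io`).
(1) `Lt (y * x) v = Lt x (Lt y v)`, so `L.op ψ = lam ψ`.
(2) `inner_Rt`: for `u, v ∈ V d`, `⟪u, Rt h v⟫ = (h 0 0)^d ⟪u, v⟫`. Indeed `Rt h` sends `mono` to a
product of powers of `h 0 0 • ent i 0 + h 1 0 • ent i 1`; all terms but one have a weight smaller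
than `d` for the right action of `dg z`, so they are orthogonal to `V d`. One way: for `t` on the
unit circle `⟪u, Rt h v⟫ = t^(-d) ⟪u, Rt (dg t * h) v⟫` and the right side is a polynomial in `t⁻¹`
(the entries of the first column of `dg t * h` are `t h₀₀`, `t⁻¹ h₁₀`), so it equals its constant term.
(3) With `Ψ g = ∫ v (g x) conj (v x) dx`, Fubini gives
`∫ |Ψ|^2 = ∫∫ conj (v x) v y conj ⟪Rt x v, Rt y v⟫`-type integrand of modulus
`|v x| |v y| |(x⁻¹ y) 0 0|^d ‖v‖^2`; by `2|v x||v y| ≤ |v x|^2 + |v y|^2` and `int_norm_pow`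
(`|a|^d ≤ |a|^(2 (d/2))`) it is at most `‖v‖^4 * 2/(d+1)`.
(4) `norm_Lt_sub`: conjugate to `dg z` (`exists_conj`, `norm_Lt`, `Lt_mem`); the `mono d i` are
orthogonal (`Lt_dg`, `inner_Lt`, `exists_prim`) and `|z^i conj(z)^(d-i) - 1| ≤ d |z - 1|` (`ds_dg`).
-/

namespace Pool.Agent.P.MP_923088_al.AG

open MeasureTheory Real
open scoped Classical Quaternion

variable [MeasurableSpace SU2] [BorelSpace SU2] (m : Measure SU2) [m.IsHaarMeasure]
  [IsProbabilityMeasure m]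

/-- Weight `(p, q)` for the right action of the diagonal torus. -/
def Coh_Wt (p q : ℕ) (f : CF) : Prop :=
  ∀ (z : ℂ) (hz : z * (starRingEnd ℂ) z = 1),
    Rt (dg z hz) f = (z ^ p * (starRingEnd ℂ) z ^ q) • f

/-- The span of the functions of total degree `k` whose weight is not the top one. -/
noncomputable def Coh_Low (k : ℕ) : Submodule ℂ CF :=
  Submodule.span ℂ {f | ∃ p q, p + q = k ∧ 0 < q ∧ Coh_Wt p q f}

omit [MeasurableSpace SU2] [BorelSpace SU2] in
theorem Coh_Wt_mul {p q p' q' : ℕ} {f g : CF} (hf : Coh_Wt p q f) (hg : Coh_Wt p' q' g) :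
    Coh_Wt (p + p') (q + q') (f * g) := by
  intro z hz
  rw [map_mul, hf z hz, hg z hz, smul_mul_smul_comm]
  congr 1
  ring

omit [MeasurableSpace SU2] [BorelSpace SU2] in
theorem Coh_Wt_ent0 (i : Fin 2) : Coh_Wt 1 0 (ent i 0) := by
  intro z hz
  rw [Rt_ent, dg_00, dg_10]
  simp

omit [MeasurableSpace SU2] [BorelSpace SU2] in
theorem Coh_Wt_ent1 (i : Fin 2) : Coh_Wt 0 1 (ent i 1) := by
  intro z hz
  rw [Rt_ent, dg_01, dg_11]
  simp

omit [MeasurableSpace SU2] [BorelSpace SU2] in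
theorem Coh_Wt_V {k : ℕ} {f : CF} (hf : f ∈ V k) : Coh_Wt k 0 f := by
  intro z hz
  rw [Rt_dg z hz hf]
  simp

omit [MeasurableSpace SU2] [BorelSpace SU2] in
theorem Coh_Low_mul {p q k : ℕ} {e F : CF} (he : Coh_Wt p q e) (hF : F ∈ Coh_Low k) :
    e * F ∈ Coh_Low (p + q + k) := by
  induction hF using Submodule.span_induction with
  | mem f hf =>
    obtain ⟨p', q', h1, h2, h3⟩ := hf
    exact Submodule.subset_span ⟨p + p', q + q', by omega, by omega, Coh_Wt_mul he h3⟩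
  | zero => rw [mul_zero]; exact zero_mem _
  | add f g _ _ hf hg => rw [mul_add]; exact add_mem hf hg
  | smul c f _ hf => rw [mul_smul_comm]; exact Submodule.smul_mem _ _ hf

omit [MeasurableSpace SU2] [BorelSpace SU2] in
theorem Coh_step (h : SU2) (i : Fin 2) {k : ℕ} {f : CF} (hf : Coh_Wt k 0 f)
    (H : Rt h f - (h.1 0 0) ^ k • f ∈ Coh_Low k) :
    Rt h (ent i 0 * f) - (h.1 0 0) ^ (k + 1) • (ent i 0 * f) ∈ Coh_Low (k + 1) := by
  have e : Rt h (ent i 0 * f) - (h.1 0 0) ^ (k + 1) • (ent i 0 * f) =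
      h.1 0 0 • (ent i 0 * (Rt h f - (h.1 0 0) ^ k • f)) +
        h.1 1 0 • (ent i 1 * (Rt h f - (h.1 0 0) ^ k • f)) +
        (h.1 1 0 * (h.1 0 0) ^ k) • (ent i 1 * f) := by
    rw [map_mul, Rt_ent]
    simp only [Algebra.smul_def, map_mul, map_pow]
    ring
  rw [e]
  have h1 := Coh_Low_mul (Coh_Wt_ent0 i) H
  have h2 := Coh_Low_mul (Coh_Wt_ent1 i) H
  have e1 : 1 + 0 + k = k + 1 := by omega
  have e2 : 0 + 1 + k = k + 1 := by omega
  rw [e1] at h1
  rw [e2] at h2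
  refine add_mem (add_mem (Submodule.smul_mem _ _ h1) (Submodule.smul_mem _ _ h2))
    (Submodule.smul_mem _ _ (Submodule.subset_span ⟨0 + k, 1 + 0, by omega, by omega, ?_⟩))
  exact Coh_Wt_mul (Coh_Wt_ent1 i) hf

omit [MeasurableSpace SU2] [BorelSpace SU2] in
theorem Coh_mono_low (h : SU2) (a b : ℕ) :
    Rt h (ent 0 0 ^ a * ent 1 0 ^ b) - (h.1 0 0) ^ (a + b) • (ent 0 0 ^ a * ent 1 0 ^ b) ∈
      Coh_Low (a + b) := by
  induction a with
  | zero =>
    simp only [pow_zero, one_mul, zero_add]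
    induction b with
    | zero => simp
    | succ b ih =>
      have hw : Coh_Wt b 0 (ent 1 0 ^ b) := by
        have := Coh_Wt_V (mono_mem (i := 0) (j := b) (k := b) (by omega))
        simpa using this
      have := Coh_step h 1 hw ih
      rwa [← pow_succ'] at this
  | succ a ih =>
    have hw : Coh_Wt (a + b) 0 (ent 0 0 ^ a * ent 1 0 ^ b) := Coh_Wt_V (mono_mem rfl)
    have := Coh_step h 0 hw ih
    have e : a + 1 + b = a + b + 1 := by omega
    rw [e, pow_succ' (ent 0 0), mul_assoc]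
    exact this

omit [MeasurableSpace SU2] [BorelSpace SU2] in
theorem Coh_V_low (h : SU2) {d : ℕ} {v : CF} (hv : v ∈ V d) :
    Rt h v - (h.1 0 0) ^ d • v ∈ Coh_Low d := by
  induction hv using Submodule.span_induction with
  | mem f hf =>
    obtain ⟨i, rfl⟩ := hf
    have hi := i.2
    have := Coh_mono_low h i (d - i)
    have e : (i : ℕ) + (d - i) = d := by omega
    rw [e] at this
    exact this
  | zero => simp
  | add f g _ _ hf hg =>
    have e : Rt h (f + g) - (h.1 0 0) ^ d • (f + g) =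
        (Rt h f - (h.1 0 0) ^ d • f) + (Rt h g - (h.1 0 0) ^ d • g) := by
      rw [map_add, smul_add]; abel
    rw [e]; exact add_mem hf hg
  | smul c f _ hf =>
    have e : Rt h (c • f) - (h.1 0 0) ^ d • (c • f) = c • (Rt h f - (h.1 0 0) ^ d • f) := by
      rw [map_smul, smul_sub, smul_comm c]
    rw [e]; exact Submodule.smul_mem _ _ hf

theorem Coh_inner_RR (s : SU2) (f g : CF) :
    inner ℂ (io m (Rt s f)) (io m (Rt s g)) = inner ℂ (io m f) (io m g) := by
  rw [inner_io, inner_io,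
    ← integral_mul_right_eq_self (fun x => g x * (starRingEnd ℂ) (f x)) s]
  simp only [Rt_apply]

theorem Coh_orth {d : ℕ} {u F : CF} (hu : u ∈ V d) (hF : F ∈ Coh_Low d) :
    inner ℂ (io m u) (io m F) = 0 := by
  induction hF using Submodule.span_induction with
  | mem f hf =>
    obtain ⟨p, q, h1, h2, h3⟩ := hf
    obtain ⟨z, hz, hp⟩ := exists_prim (2 * q + 1) (by omega)
    have e := Coh_inner_RR m (dg z hz) u f
    rw [Rt_dg z hz hu, h3 z hz, map_smul, map_smul, inner_smul_left, inner_smul_right] at e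
    have hne : z ^ (2 * q) ≠ 1 := hp.pow_ne_one_of_pos_of_lt (by omega) (by omega)
    have e1 : z ^ (2 * q) * ((starRingEnd ℂ) (z ^ d) * (z ^ p * (starRingEnd ℂ) z ^ q)) = 1 := by
      rw [← h1, map_pow]
      have : z ^ (2 * q) * ((starRingEnd ℂ) z ^ (p + q) * (z ^ p * (starRingEnd ℂ) z ^ q)) =
          (z * (starRingEnd ℂ) z) ^ (p + 2 * q) := by ring
      rw [this, hz, one_pow]
    have e2 : (z ^ (2 * q) - 1) * inner ℂ (io m u) (io m f) = 0 := by
      linear_combination (-(z ^ (2 * q))) * e + inner ℂ (io m u) (io m f) * e1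
    exact (mul_eq_zero.1 e2).resolve_left (sub_ne_zero.2 hne)
  | zero => simp
  | add f g _ _ hf hg => rw [map_add, inner_add_right, hf, hg, add_zero]
  | smul c f _ hf => rw [map_smul, inner_smul_right, hf, mul_zero]

theorem inner_Rt {d : ℕ} {u v : CF} (hu : u ∈ V d) (hv : v ∈ V d) (h : SU2) :
    inner ℂ (io m u) (io m (Rt h v)) = (h.1 0 0) ^ d * inner ℂ (io m u) (io m v) := by
  have e := Coh_orth m hu (Coh_V_low h hv)
  rw [map_sub, map_smul, inner_sub_right, inner_smul_right] at e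
  exact sub_eq_zero.1 e

theorem Coh_inner_LL (s : SU2) (f g : CF) :
    inner ℂ (io m (Lt s f)) (io m (Lt s g)) = inner ℂ (io m f) (io m g) := by
  rw [inner_Lt]
  congr 2
  ext x
  simp only [Lt_apply, mul_inv_cancel_left]

theorem Coh_mono_orth (k : ℕ) {i j : Fin (k + 1)} (hij : i ≠ j) :
    inner ℂ (io m (mono k i)) (io m (mono k j)) = 0 := by
  obtain ⟨z, hz, hp⟩ := exists_prim (2 * (k + 1)) (by omega)
  have hp2 : IsPrimitiveRoot (z ^ 2) (k + 1) := hp.pow (by omega) rfl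
  have e := Coh_inner_LL m (dg z hz) (mono k i) (mono k j)
  rw [Lt_dg, Lt_dg, map_smul, map_smul, inner_smul_left, inner_smul_right] at e
  have a : ∀ i : Fin (k + 1),
      z ^ (i : ℕ) * (starRingEnd ℂ) z ^ (k - i) * z ^ k = (z ^ 2) ^ (i : ℕ) := by
    intro i
    have hi := i.2
    obtain ⟨d, hd⟩ : ∃ d, k = i + d := ⟨k - i, by omega⟩
    have e1 : k - i = d := by omega
    rw [e1]
    have e2 : z ^ k = z ^ (i : ℕ) * z ^ d := by rw [← pow_add, ← hd]
    have e3 : z ^ d * (starRingEnd ℂ) z ^ d = 1 := by rw [← mul_pow, hz, one_pow]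
    rw [e2]
    linear_combination (z ^ (i : ℕ)) ^ 2 * e3
  have b : (z ^ (i : ℕ) * (starRingEnd ℂ) z ^ (k - i)) *
      (starRingEnd ℂ) (z ^ (i : ℕ) * (starRingEnd ℂ) z ^ (k - i)) = 1 := by
    rw [map_mul, map_pow, map_pow, Complex.conj_conj]
    have : z ^ (i : ℕ) * (starRingEnd ℂ) z ^ (k - i) * ((starRingEnd ℂ) z ^ (i : ℕ) * z ^ (k - i)) =
        (z * (starRingEnd ℂ) z) ^ ((i : ℕ) + (k - i)) := by ring
    rw [this, hz, one_pow]
  have hne : (z ^ 2) ^ (j : ℕ) ≠ (z ^ 2) ^ (i : ℕ) := fun h =>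
    hij (Fin.ext (hp2.pow_inj j.2 i.2 h)).symm
  have e2 : ((z ^ 2) ^ (j : ℕ) - (z ^ 2) ^ (i : ℕ)) *
      inner ℂ (io m (mono k i)) (io m (mono k j)) = 0 := by
    rw [← a i, ← a j]
    linear_combination (z ^ (i : ℕ) * (starRingEnd ℂ) z ^ (k - i) * z ^ k) * e -
      (z ^ (j : ℕ) * (starRingEnd ℂ) z ^ (k - j) * z ^ k *
        inner ℂ (io m (mono k i)) (io m (mono k j))) * b
  exact (mul_eq_zero.1 e2).resolve_left (sub_ne_zero.2 hne)

omit [MeasurableSpace SU2] [BorelSpace SU2] in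
theorem Coh_norm_sum {E : Type*} [NormedAddCommGroup E] [InnerProductSpace ℂ E] {ι : Type*}
    [Fintype ι] (e : ι → E) (he : ∀ i j, i ≠ j → inner ℂ (e i) (e j) = 0) (c : ι → ℂ) :
    ‖∑ i, c i • e i‖ ^ 2 = ∑ i, ‖c i‖ ^ 2 * ‖e i‖ ^ 2 := by
  rw [@norm_sq_eq_re_inner ℂ, sum_inner, map_sum]
  refine Finset.sum_congr rfl fun i _ => ?_
  rw [inner_sum, Finset.sum_eq_single i]
  · rw [← @norm_sq_eq_re_inner ℂ, norm_smul, mul_pow]
  · intro j _ hj
    rw [inner_smul_left, inner_smul_right, he i j hj.symm, mul_zero, mul_zero]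
  · intro h
    exact absurd (Finset.mem_univ i) h

omit [MeasurableSpace SU2] [BorelSpace SU2] in
theorem Coh_pow_sub {z : ℂ} (hz : ‖z‖ = 1) (n : ℕ) : ‖z ^ n - 1‖ ≤ n * ‖z - 1‖ := by
  induction n with
  | zero => simp
  | succ n ih =>
    have e : z ^ (n + 1) - 1 = z * (z ^ n - 1) + (z - 1) := by ring
    rw [e]
    refine (norm_add_le _ _).trans ?_
    rw [norm_mul, hz, one_mul]
    push_cast
    linarith

omit [MeasurableSpace SU2] [BorelSpace SU2] in
theorem Coh_eig_sub {z : ℂ} (hz : z * (starRingEnd ℂ) z = 1) (a b : ℕ) :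
    ‖z ^ a * (starRingEnd ℂ) z ^ b - 1‖ ≤ ((a : ℝ) + b) * ‖z - 1‖ := by
  have h1 : ‖z‖ = 1 := by
    have := congrArg norm hz
    rw [norm_mul, Complex.norm_conj, norm_one, ← sq] at this
    exact (pow_eq_one_iff_of_nonneg (norm_nonneg _) two_ne_zero).1 this
  have h2 : ‖(starRingEnd ℂ) z‖ = 1 := by rw [Complex.norm_conj, h1]
  have h3 : ‖(starRingEnd ℂ) z - 1‖ = ‖z - 1‖ := by
    rw [← Complex.norm_conj (z - 1), map_sub, map_one]
  have e : z ^ a * (starRingEnd ℂ) z ^ b - 1 =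
      z ^ a * ((starRingEnd ℂ) z ^ b - 1) + (z ^ a - 1) := by ring
  rw [e]
  refine (norm_add_le _ _).trans ?_
  rw [norm_mul, norm_pow, h1, one_pow, one_mul]
  have h4 := Coh_pow_sub h1 a
  have h5 := Coh_pow_sub h2 b
  rw [h3] at h5
  linarith

theorem Coh_diag {d : ℕ} {v : CF} (hv : v ∈ V d) (z : ℂ) (hz : z * (starRingEnd ℂ) z = 1) :
    ‖io m (Lt (dg z hz) v - v)‖ ≤ d * ‖z - 1‖ * ‖io m v‖ := by
  obtain ⟨c, rfl⟩ := (Submodule.mem_span_range_iff_exists_fun ℂ).1 hv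
  have e1 : io m (∑ i, c i • mono d i) = ∑ i, c i • io m (mono d i) := by
    rw [map_sum]; simp only [map_smul]
  have e2 : io m (Lt (dg z hz) (∑ i, c i • mono d i) - ∑ i, c i • mono d i) =
      ∑ i : Fin (d + 1), (c i * (z ^ (i : ℕ) * (starRingEnd ℂ) z ^ (d - i) - 1)) •
        io m (mono d i) := by
    rw [map_sum (Lt (dg z hz)), ← Finset.sum_sub_distrib, map_sum]
    refine Finset.sum_congr rfl fun i _ => ?_
    rw [map_smul (Lt (dg z hz)), Lt_dg, ← map_smul, mul_sub, mul_one, sub_smul, mul_smul (c i)]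
  refine (pow_le_pow_iff_left₀ (norm_nonneg _) (by positivity) two_ne_zero).1 ?_
  rw [e2, e1, mul_pow, Coh_norm_sum _ (fun i j h => Coh_mono_orth m d h),
    Coh_norm_sum _ (fun i j h => Coh_mono_orth m d h), Finset.mul_sum]
  refine Finset.sum_le_sum fun i _ => ?_
  have hi := i.2
  have h := Coh_eig_sub hz i (d - i)
  have e3 : (((i : ℕ) : ℝ) + ((d - i : ℕ) : ℝ)) = d := by
    rw [← Nat.cast_add]; congr 1; omega
  rw [e3] at h
  have h2 : ‖z ^ (i : ℕ) * (starRingEnd ℂ) z ^ (d - i) - 1‖ ^ 2 ≤ (d * ‖z - 1‖) ^ 2 :=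
    pow_le_pow_left₀ (norm_nonneg _) h 2
  rw [norm_mul, mul_pow]
  have h3 : 0 ≤ ‖c i‖ ^ 2 * ‖io m (mono d i)‖ ^ 2 := by positivity
  nlinarith [mul_le_mul_of_nonneg_left h2 h3]

theorem norm_Lt_sub {d : ℕ} {v : CF} (hv : v ∈ V d) (g : SU2) :
    ‖io m (Lt g v - v)‖ ≤ d * ds g 1 * ‖io m v‖ := by
  obtain ⟨z, hz, h, rfl⟩ := exists_conj g
  have e : Lt (h * dg z hz * h⁻¹) v - v = Lt h⁻¹ (Lt (dg z hz) (Lt h v) - Lt h v) := by
    ext x
    simp only [ContinuousMap.sub_apply, Lt_apply, mul_assoc, mul_inv_cancel_left]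
  have e2 : ds (h * dg z hz * h⁻¹) 1 = ‖z - 1‖ := by
    have := ds_conj_one h⁻¹ (dg z hz)
    rw [inv_inv] at this
    rw [this, ds_dg]
  rw [e, norm_Lt, e2, ← norm_Lt m h v]
  exact Coh_diag m (Lt_mem h hv) z hz

omit [m.IsHaarMeasure] in
theorem Coh_integrable {E : Type*} [NormedAddCommGroup E] {f : SU2 → E} (hf : Continuous f) :
    Integrable f m :=
  hf.integrable_of_hasCompactSupport (HasCompactSupport.of_compactSpace f)

omit [m.IsHaarMeasure] in
theorem Coh_swap {E : Type*} [NormedAddCommGroup E] [NormedSpace ℝ E] {f : SU2 → SU2 → E}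
    (hf : Continuous (Function.uncurry f)) :
    ∫ x, ∫ y, f x y ∂m ∂m = ∫ y, ∫ x, f x y ∂m ∂m :=
  integral_integral_swap (hf.integrable_of_hasCompactSupport (HasCompactSupport.of_compactSpace _))

omit [m.IsHaarMeasure] in
theorem Coh_cont_int {E : Type*} [NormedAddCommGroup E] [NormedSpace ℝ E] {f : SU2 → SU2 → E}
    (hf : Continuous (Function.uncurry f)) : Continuous fun x => ∫ y, f x y ∂m := by
  have := continuous_parametric_integral_of_continuous (μ := m) hf isCompact_univ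
  simpa using this

omit [m.IsHaarMeasure] in
theorem Coh_norm_sq (v : CF) : ‖io m v‖ ^ 2 = ∫ x, ‖v x‖ ^ 2 ∂m := by
  rw [norm_io, Real.sq_sqrt (integral_nonneg fun x => by positivity)]

theorem Coh_ker {d : ℕ} {v : CF} (hv : v ∈ V d) (x y : SU2) :
    ∫ g, v (g * x) * (starRingEnd ℂ) (v (g * y)) ∂m =
      ((y⁻¹ * x).1 0 0) ^ d * ((‖io m v‖ ^ 2 : ℝ) : ℂ) := by
  have e1 : ∫ g, v (g * x) * (starRingEnd ℂ) (v (g * y)) ∂m =
      inner ℂ (io m (Rt y v)) (io m (Rt y (Rt (y⁻¹ * x) v))) := by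
    rw [inner_io]
    simp only [Rt_apply, mul_assoc, mul_inv_cancel_left]
  rw [e1, Coh_inner_RR, inner_Rt m hv hv, inner_self_eq_norm_sq_to_K]
  simp

omit [m.IsHaarMeasure] in
theorem Coh_cont_Psi (v : CF) : Continuous fun g : SU2 => inner ℂ (io m v) (io m (Lt g v)) := by
  simp only [inner_io, Lt_apply]
  refine Coh_cont_int m (f := fun g x => v (g * x) * (starRingEnd ℂ) (v x)) ?_
  exact (v.continuous.comp continuous_mul).mul
    (Complex.continuous_conj.comp (v.continuous.comp continuous_snd))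

theorem Coh_expand {d : ℕ} {v : CF} (hv : v ∈ V d) :
    ((∫ g, ‖inner ℂ (io m v) (io m (Lt g v))‖ ^ 2 ∂m : ℝ) : ℂ) =
      ∫ x, ∫ y, (starRingEnd ℂ) (v x) * v y *
        (((y⁻¹ * x).1 0 0) ^ d * ((‖io m v‖ ^ 2 : ℝ) : ℂ)) ∂m ∂m := by
  have hc := Coh_cont_Psi m v
  have e1 : ∀ g : SU2, ((‖inner ℂ (io m v) (io m (Lt g v))‖ ^ 2 : ℝ) : ℂ) =
      ∫ x, v (g * x) * (starRingEnd ℂ) (v x) *
        (starRingEnd ℂ) (inner ℂ (io m v) (io m (Lt g v))) ∂m := by
    intro g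
    rw [integral_mul_const, ← Complex.normSq_eq_norm_sq, ← Complex.mul_conj]
    congr 1
    rw [inner_io]
    simp only [Lt_apply]
  rw [← integral_complex_ofReal]
  simp only [e1]
  rw [Coh_swap m (f := fun g x => v (g * x) * (starRingEnd ℂ) (v x) *
    (starRingEnd ℂ) (inner ℂ (io m v) (io m (Lt g v))))
    (((v.continuous.comp continuous_mul).mul
      (Complex.continuous_conj.comp (v.continuous.comp continuous_snd))).mul
      (Complex.continuous_conj.comp (hc.comp continuous_fst)))]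
  refine integral_congr_ae (Filter.Eventually.of_forall fun x => ?_)
  have e2 : ∀ g : SU2, v (g * x) * (starRingEnd ℂ) (v x) *
      (starRingEnd ℂ) (inner ℂ (io m v) (io m (Lt g v))) =
      ∫ y, (starRingEnd ℂ) (v x) * v y * (v (g * x) * (starRingEnd ℂ) (v (g * y))) ∂m := by
    intro g
    rw [inner_io, ← integral_conj, ← integral_const_mul]
    refine integral_congr_ae (Filter.Eventually.of_forall fun y => ?_)
    simp only [Lt_apply, map_mul, Complex.conj_conj]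
    ring
  simp only [e2]
  rw [Coh_swap m (f := fun g y => (starRingEnd ℂ) (v x) * v y *
    (v (g * x) * (starRingEnd ℂ) (v (g * y))))
    ((continuous_const.mul (v.continuous.comp continuous_snd)).mul
      ((v.continuous.comp (continuous_fst.mul continuous_const)).mul
        (Complex.continuous_conj.comp (v.continuous.comp continuous_mul))))]
  refine integral_congr_ae (Filter.Eventually.of_forall fun y => ?_)
  simp only []
  rw [integral_const_mul, Coh_ker m hv]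

theorem Coh_schur (v : CF) {κ : SU2 → ℝ} (hκ : Continuous κ) (h0 : ∀ x, 0 ≤ κ x) :
    ∫ x, ∫ y, ‖v x‖ * ‖v y‖ * κ (y⁻¹ * x) ∂m ∂m ≤ ‖io m v‖ ^ 2 * ∫ x, κ x ∂m := by
  have hv : Continuous fun x => ‖v x‖ := v.continuous.norm
  have hk : Continuous fun p : SU2 × SU2 => κ (p.2⁻¹ * p.1) :=
    hκ.comp (continuous_snd.inv.mul continuous_fst)
  have c0 : Continuous (Function.uncurry fun x y : SU2 => ‖v x‖ * ‖v y‖ * κ (y⁻¹ * x)) :=
    ((hv.comp continuous_fst).mul (hv.comp continuous_snd)).mul hk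
  have c1 : Continuous (Function.uncurry fun x y : SU2 => ‖v x‖ ^ 2 * κ (y⁻¹ * x)) :=
    ((hv.comp continuous_fst).pow 2).mul hk
  have c2 : Continuous (Function.uncurry fun x y : SU2 => ‖v y‖ ^ 2 * κ (y⁻¹ * x)) :=
    ((hv.comp continuous_snd).pow 2).mul hk
  have a1 : ∫ x, ∫ y, ‖v x‖ ^ 2 * κ (y⁻¹ * x) ∂m ∂m = ‖io m v‖ ^ 2 * ∫ x, κ x ∂m := by
    rw [Coh_norm_sq, ← integral_mul_const]
    refine integral_congr_ae (Filter.Eventually.of_forall fun x => ?_)
    simp only []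
    rw [integral_const_mul, integral_inv_eq_self (fun y => κ (y * x)) m,
      integral_mul_right_eq_self κ x]
  have a2 : ∫ x, ∫ y, ‖v y‖ ^ 2 * κ (y⁻¹ * x) ∂m ∂m = ‖io m v‖ ^ 2 * ∫ x, κ x ∂m := by
    rw [Coh_swap m c2, Coh_norm_sq, ← integral_mul_const]
    refine integral_congr_ae (Filter.Eventually.of_forall fun y => ?_)
    simp only []
    rw [integral_const_mul, integral_mul_left_eq_self κ y⁻¹]
  have b : ∀ x, 2 * ∫ y, ‖v x‖ * ‖v y‖ * κ (y⁻¹ * x) ∂m ≤
      ∫ y, ‖v x‖ ^ 2 * κ (y⁻¹ * x) ∂m + ∫ y, ‖v y‖ ^ 2 * κ (y⁻¹ * x) ∂m := by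
    intro x
    have i0 := Coh_integrable m (c0.uncurry_left x)
    have i1 := Coh_integrable m (c1.uncurry_left x)
    have i2 := Coh_integrable m (c2.uncurry_left x)
    rw [← integral_add i1 i2, ← integral_const_mul]
    refine integral_mono (i0.const_mul 2) (i1.add i2) fun y => ?_
    simp only []
    nlinarith [mul_nonneg (sq_nonneg (‖v x‖ - ‖v y‖)) (h0 (y⁻¹ * x))]
  have j0 := Coh_integrable m (Coh_cont_int m c0)
  have j1 := Coh_integrable m (Coh_cont_int m c1)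
  have j2 := Coh_integrable m (Coh_cont_int m c2)
  have b2 := integral_mono (j0.const_mul 2) (j1.add j2) b
  rw [integral_const_mul, integral_add' j1 j2, a1, a2] at b2
  linarith

omit [MeasurableSpace SU2] [BorelSpace SU2] in
theorem Coh_entry_le (x : SU2) : ‖x.1 0 0‖ ≤ 1 := by
  have h := col_norm x
  rw [Complex.mul_conj, Complex.mul_conj, Complex.normSq_eq_norm_sq,
    Complex.normSq_eq_norm_sq] at h
  have h2 : ‖x.1 0 0‖ ^ 2 + ‖x.1 1 0‖ ^ 2 = 1 := by exact_mod_cast h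
  nlinarith [norm_nonneg (x.1 0 0), sq_nonneg ‖x.1 1 0‖]

theorem Coh_int_pow (d : ℕ) : ∫ x : SU2, ‖x.1 0 0‖ ^ d ∂m ≤ 2 / ((d : ℝ) + 1) := by
  have hc : Continuous fun x : SU2 => ‖x.1 0 0‖ := (continuous_entry 0 0).norm
  have h1 : ∫ x : SU2, ‖x.1 0 0‖ ^ d ∂m ≤ ∫ x : SU2, ‖x.1 0 0‖ ^ (2 * (d / 2)) ∂m :=
    integral_mono (Coh_integrable m (hc.pow _)) (Coh_integrable m (hc.pow _)) fun x =>
      pow_le_pow_of_le_one (norm_nonneg _) (Coh_entry_le x) (by omega)
  rw [int_norm_pow] at h1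
  refine h1.trans ?_
  rw [div_le_div_iff₀ (by positivity) (by positivity)]
  have h2 : d + 1 ≤ 2 * (d / 2 + 1) := by omega
  have h3 : (d : ℝ) + 1 ≤ 2 * (((d / 2 : ℕ) : ℝ) + 1) := by exact_mod_cast h2
  linarith

theorem Coh_sq {d : ℕ} {v : CF} (hv : v ∈ V d) :
    ∫ g, ‖inner ℂ (io m v) (io m (Lt g v))‖ ^ 2 ∂m ≤
      (‖io m v‖ ^ 2) ^ 2 * (2 / ((d : ℝ) + 1)) := by
  have hc : Continuous fun x : SU2 => ‖x.1 0 0‖ ^ d := (continuous_entry 0 0).norm.pow d
  have h1 := congrArg norm (Coh_expand m hv)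
  rw [Complex.norm_real, Real.norm_eq_abs] at h1
  have hvc : Continuous fun x => ‖v x‖ := v.continuous.norm
  have c0 : Continuous (Function.uncurry fun x y : SU2 =>
      ‖v x‖ * ‖v y‖ * ‖(y⁻¹ * x).1 0 0‖ ^ d) :=
    ((hvc.comp continuous_fst).mul (hvc.comp continuous_snd)).mul
      (hc.comp (continuous_snd.inv.mul continuous_fst))
  have h2 : ‖∫ x, ∫ y, (starRingEnd ℂ) (v x) * v y *
        (((y⁻¹ * x).1 0 0) ^ d * ((‖io m v‖ ^ 2 : ℝ) : ℂ)) ∂m ∂m‖ ≤
      ∫ x, (∫ y, ‖v x‖ * ‖v y‖ * ‖(y⁻¹ * x).1 0 0‖ ^ d ∂m) * ‖io m v‖ ^ 2 ∂m := by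
    refine norm_integral_le_of_norm_le
      ((Coh_integrable m (Coh_cont_int m c0)).mul_const _) (Filter.Eventually.of_forall fun x => ?_)
    refine (norm_integral_le_integral_norm _).trans (le_of_eq ?_)
    rw [← integral_mul_const]
    refine integral_congr_ae (Filter.Eventually.of_forall fun y => ?_)
    simp only [norm_mul, Complex.norm_conj, norm_pow, Complex.norm_real, norm_norm]
    ring
  rw [integral_mul_const] at h2
  have h3 := Coh_schur m v hc fun x => by positivity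
  have h4 := Coh_int_pow m d
  have h5 : 0 ≤ ‖io m v‖ ^ 2 := by positivity
  calc _ ≤ _ := le_abs_self _
    _ = _ := h1
    _ ≤ _ := h2
    _ ≤ (‖io m v‖ ^ 2 * (2 / ((d : ℝ) + 1))) * ‖io m v‖ ^ 2 :=
      mul_le_mul_of_nonneg_right (h3.trans (mul_le_mul_of_nonneg_left h4 h5)) h5
    _ = _ := by ring

theorem exists_psi {L : Law} {d : ℕ} {v : CF} (hv : v ∈ V d) (h0 : v ≠ 0) {lam : ℝ}
    (he : L.Lc v = (lam : ℂ) • v) :
    ∃ ψ : SU2 → ℝ, Continuous ψ ∧ (∀ x, L.op ψ x = lam * ψ x) ∧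
      ∫ x, ψ x ^ 2 ∂m ≤ 2 / ((d : ℝ) + 1) ∧ ∀ x, 2 * d * ds x 1 ≤ 1 → 1 / 2 ≤ ψ x := by
  have hn : 0 < ‖io m v‖ := norm_pos_iff.mpr fun h => h0 (io_inj m (by rw [h, map_zero]))
  have hc := Coh_cont_Psi m v
  refine ⟨fun g => (inner ℂ (io m v) (io m (Lt g v))).re / ‖io m v‖ ^ 2,
    (Complex.continuous_re.comp hc).div_const _, fun x => ?_, ?_, fun x hx => ?_⟩
  · have e1 : ∀ y : SU2, Lt (y * x) v = Lt x (Lt y v) := by
      intro y
      ext t
      simp only [Lt_apply, mul_assoc]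
    have e2 : ∑ ω, (L.r ω : ℂ) * inner ℂ (io m v) (io m (Lt (L.Y ω * x) v)) =
        (lam : ℂ) * inner ℂ (io m v) (io m (Lt x v)) := by
      rw [← inner_smul_right, ← map_smul, ← map_smul (Lt x), ← he, Law.Lc_eq, map_sum, map_sum,
        inner_sum]
      refine Finset.sum_congr rfl fun ω _ => ?_
      rw [map_smul, map_smul, inner_smul_right, e1]
    have e3 := congrArg Complex.re e2
    rw [Complex.re_sum, Complex.re_ofReal_mul] at e3
    simp only [Complex.re_ofReal_mul] at e3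
    unfold Law.op
    rw [← mul_div_assoc, ← e3, Finset.sum_div]
    exact Finset.sum_congr rfl fun ω _ => (mul_div_assoc _ _ _).symm
  · have h1 : ∫ g, ((inner ℂ (io m v) (io m (Lt g v))).re / ‖io m v‖ ^ 2) ^ 2 ∂m ≤
        ∫ g, ‖inner ℂ (io m v) (io m (Lt g v))‖ ^ 2 / (‖io m v‖ ^ 2) ^ 2 ∂m := by
      refine integral_mono
        (Coh_integrable m (((Complex.continuous_re.comp hc).div_const _).pow 2))
        (Coh_integrable m ((hc.norm.pow 2).div_const _)) fun g => ?_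
      simp only []
      rw [div_pow]
      refine div_le_div_of_nonneg_right ?_ (by positivity)
      exact sq_le_sq' (abs_le.1 (Complex.abs_re_le_norm _)).1 (abs_le.1 (Complex.abs_re_le_norm _)).2
    refine h1.trans ?_
    rw [integral_div, div_le_iff₀ (by positivity), mul_comm]
    exact Coh_sq m hv
  · have e1 : inner ℂ (io m v) (io m (Lt x v)) =
        inner ℂ (io m v) (io m v) + inner ℂ (io m v) (io m (Lt x v - v)) := by
      rw [← inner_add_right, ← map_add, add_sub_cancel]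
    have e2 : (inner ℂ (io m v) (io m v)).re = ‖io m v‖ ^ 2 := by
      rw [@norm_sq_eq_re_inner ℂ]; rfl
    have h1 := (abs_le.1 (Complex.abs_re_le_norm (inner ℂ (io m v) (io m (Lt x v - v))))).1
    have h2 := norm_inner_le_norm (𝕜 := ℂ) (io m v) (io m (Lt x v - v))
    have h3 := mul_le_mul_of_nonneg_left (norm_Lt_sub m hv x) hn.le
    have h4 := mul_le_mul_of_nonneg_right hx (sq_nonneg ‖io m v‖)
    simp only []
    rw [le_div_iff₀ (by positivity), e1, Complex.add_re, e2]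
    nlinarith

end Pool.Agent.P.MP_923088_al.AG
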