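import Pool.Agent.P.MP_923088_al.AG.Geo1
import Pool.Agent.P.MP_923088_al.AG.LawL

/-!
Row AG-ColD. The deterministic part of the collision recursion.
`col_step`: with `U = pwY .. u`, the value at level `i+1` is `h⁻ⁱ X hⁱ U`, so
`Y'⁻¹ Y = (hⁱU')⁻¹ (X'⁻¹X) (hⁱU)`; if `sz (X'⁻¹X) ≤ ζ` then `sz (U'⁻¹U) ≤ ρ + ζ` by `sz_mul_le`
and conjugation invariance; otherwise the quadruple is counted by `Rr`.
`col_blk`: induct on `i ≤ B` with the radii `ρ (1+lam)^(B-i)`.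
`exists_word_col`: `h^(i+1) U_(i+1) = h X (hⁱ U_i)`; it is convenient to prove by induction on `i`
the statement for a middle factor `a * wd h l₀` and to move the first constant to the end by
conjugation (`sz_comm`). The word is `h⁻¹ · h⁻¹ · … h⁻¹ mid h · h · … h ·`: one change of sign.
-/

namespace Pool.Agent.P.MP_923088_al.AG

open MeasureTheory Real
open scoped Classical Quaternion

theorem ColD_sz (a b m : SU2) : sz (a⁻¹ * b) ≤ sz (a⁻¹ * m * b) + sz m := by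
  have e : a⁻¹ * b = a⁻¹ * m * b * (b⁻¹ * m⁻¹ * b) := by group
  have h := sz_mul_le (a⁻¹ * m * b) (b⁻¹ * m⁻¹ * b)
  rwa [← e, sz_conj, sz_inv] at h

theorem col_step {L : Law} (hL : L.Ok) (h : SU2) (i : ℕ) (ρ ζ : ℝ) :
    (blk L h (i + 1)).col ρ ≤ L.col ζ * (blk L h i).col (ρ + ζ) + Rr L h i ρ ζ := by
  have hB := ok_blk hL h i
  have e1 : (blk L h (i + 1)).col ρ = ∑ u : Pw L.Ω i, ∑ u' : Pw L.Ω i, ∑ x, ∑ x',
      if sz ((h ^ i * pwY L.Y h i u')⁻¹ * ((L.Y x')⁻¹ * L.Y x) * (h ^ i * pwY L.Y h i u)) ≤ ρ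
      then pwR L.r i u * pwR L.r i u' * (L.r x * L.r x') else 0 := by
    rw [blk_succ]
    unfold Law.col
    simp only [Fintype.sum_prod_type]
    refine Finset.sum_congr rfl fun u _ => ?_
    rw [Finset.sum_comm]
    refine Finset.sum_congr rfl fun u' _ => Finset.sum_congr rfl fun x _ =>
      Finset.sum_congr rfl fun x' _ => ?_
    have e : ((h ^ i)⁻¹ * L.Y x' * h ^ i * pwY L.Y h i u')⁻¹ *
        ((h ^ i)⁻¹ * L.Y x * h ^ i * pwY L.Y h i u) =
        (h ^ i * pwY L.Y h i u')⁻¹ * ((L.Y x')⁻¹ * L.Y x) * (h ^ i * pwY L.Y h i u) := by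
      group
    rw [e, mul_mul_mul_comm]
  have e2 : L.col ζ * (blk L h i).col (ρ + ζ) = ∑ u : Pw L.Ω i, ∑ u' : Pw L.Ω i, ∑ x, ∑ x',
      (if sz ((L.Y x')⁻¹ * L.Y x) ≤ ζ then L.r x * L.r x' else 0) *
        if sz ((pwY L.Y h i u')⁻¹ * pwY L.Y h i u) ≤ ρ + ζ then pwR L.r i u * pwR L.r i u'
        else 0 := by
    unfold Law.col
    simp only [← Finset.sum_mul, ← Finset.mul_sum]
  rw [e1, e2, Rr]
  simp only [← Finset.sum_add_distrib]
  refine Finset.sum_le_sum fun u _ => Finset.sum_le_sum fun u' _ => Finset.sum_le_sum fun x _ =>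
    Finset.sum_le_sum fun x' _ => ?_
  have p1 : 0 ≤ pwR L.r i u * pwR L.r i u' := mul_nonneg (hB.nn u) (hB.nn u')
  have p2 : 0 ≤ L.r x * L.r x' := mul_nonneg (hL.nn x) (hL.nn x')
  by_cases c1 : sz ((h ^ i * pwY L.Y h i u')⁻¹ * ((L.Y x')⁻¹ * L.Y x) *
      (h ^ i * pwY L.Y h i u)) ≤ ρ
  · by_cases c2 : sz ((L.Y x')⁻¹ * L.Y x) ≤ ζ
    · have c3 : sz ((pwY L.Y h i u')⁻¹ * pwY L.Y h i u) ≤ ρ + ζ := by
        have e : (pwY L.Y h i u')⁻¹ * pwY L.Y h i u =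
            (h ^ i * pwY L.Y h i u')⁻¹ * (h ^ i * pwY L.Y h i u) := by group
        rw [e]
        exact (ColD_sz _ _ ((L.Y x')⁻¹ * L.Y x)).trans (add_le_add c1 c2)
      rw [if_pos c1, if_pos c2, if_pos c3, if_neg fun c => absurd c2 (not_le.2 c.1), add_zero,
        mul_comm]
    · rw [if_pos c1, if_neg c2, if_pos (And.intro (not_le.1 c2) c1), zero_mul, zero_add]
  · rw [if_neg c1, if_neg fun c : _ ∧ _ => c1 c.2, add_zero]
    refine mul_nonneg ?_ ?_ <;> split_ifs <;> first | assumption | exact le_rfl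

theorem Rr_nonneg {L : Law} (hL : L.Ok) (h : SU2) (i : ℕ) (ρ ζ : ℝ) : 0 ≤ Rr L h i ρ ζ := by
  have hB := ok_blk hL h i
  refine Finset.sum_nonneg fun u _ => Finset.sum_nonneg fun u' _ => Finset.sum_nonneg fun x _ =>
    Finset.sum_nonneg fun x' _ => ?_
  split_ifs
  · exact mul_nonneg (mul_nonneg (hB.nn u) (hB.nn u')) (mul_nonneg (hL.nn x) (hL.nn x'))
  · exact le_rfl

theorem Rr_zero (L : Law) (h : SU2) {ρ ζ : ℝ} (hρ : ρ ≤ ζ) : Rr L h 0 ρ ζ = 0 := by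
  refine Finset.sum_eq_zero fun u _ => Finset.sum_eq_zero fun u' _ =>
    Finset.sum_eq_zero fun x _ => Finset.sum_eq_zero fun x' _ => if_neg fun c => ?_
  obtain ⟨c1, c2⟩ := c
  simp only [pwY, pow_zero, mul_one, inv_one, one_mul] at c2
  linarith

theorem col_blk {L : Law} (hL : L.Ok) (h : SU2) (B : ℕ) {lam ρ ρ₀ : ℝ} (hl : 0 ≤ lam)
    (hρ : 0 ≤ ρ) (h0 : lam * ρ * (1 + lam) ^ B ≤ ρ₀) :
    (blk L h B).col ρ ≤ L.col ρ₀ ^ B + Rs L h B lam ρ := by
  have h1 : 1 ≤ 1 + lam := le_add_of_nonneg_right hl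
  have key : ∀ i ≤ B, (blk L h i).col (ρ * (1 + lam) ^ (B - i)) ≤ L.col ρ₀ ^ i +
      ∑ j ∈ Finset.range i,
        Rr L h j (ρ * (1 + lam) ^ (B - 1 - j)) (lam * (ρ * (1 + lam) ^ (B - 1 - j))) := by
    intro i
    induction i with
    | zero =>
      intro _
      rw [pow_zero, Finset.sum_range_zero, add_zero]
      exact Law.col_le_one (ok_blk hL h 0) _
    | succ i ih =>
      intro hi
      have ih' := ih (Nat.le_of_succ_le hi)
      have e1 : B - (i + 1) = B - 1 - i := by omega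
      have e2 : B - i = B - 1 - i + 1 := by omega
      have e3 : ρ * (1 + lam) ^ (B - 1 - i) + lam * (ρ * (1 + lam) ^ (B - 1 - i)) =
          ρ * (1 + lam) ^ (B - i) := by
        rw [e2, pow_succ]
        ring
      have a1 := col_step hL h i (ρ * (1 + lam) ^ (B - 1 - i))
        (lam * (ρ * (1 + lam) ^ (B - 1 - i)))
      rw [e3] at a1
      have a2 : L.col (lam * (ρ * (1 + lam) ^ (B - 1 - i))) ≤ L.col ρ₀ := by
        refine Law.col_mono hL (le_trans ?_ h0)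
        rw [← mul_assoc]
        exact mul_le_mul_of_nonneg_left (pow_le_pow_right₀ h1 (by omega)) (mul_nonneg hl hρ)
      have a3 := mul_le_mul a2 ih' (Law.col_nonneg (ok_blk hL h i) _) (Law.col_nonneg hL _)
      have a4 : 0 ≤ ∑ j ∈ Finset.range i,
          Rr L h j (ρ * (1 + lam) ^ (B - 1 - j)) (lam * (ρ * (1 + lam) ^ (B - 1 - j))) :=
        Finset.sum_nonneg fun j _ => Rr_nonneg hL h j _ _
      have a5 := mul_le_of_le_one_left a4 (Law.col_le_one hL ρ₀)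
      rw [e1, Finset.sum_range_succ, pow_succ']
      rw [mul_add] at a3
      linarith
  have h2 := key B le_rfl
  rwa [Nat.sub_self, pow_zero, mul_one] at h2

theorem col_bark {h : SU2} {ρ : ℝ} (h1 : ρ < sz h) (h2 : ρ < sz (h * h)) :
    (bark fun _ : Unit => h).col ρ ≤ 3 / 8 := by
  have a1 : ¬ sz h ≤ ρ := not_le.2 h1
  have a2 : ¬ sz h⁻¹ ≤ ρ := by rwa [sz_inv]
  have a3 : ¬ sz (h * h) ≤ ρ := not_le.2 h2
  have a4 : ¬ sz (h⁻¹ * h⁻¹) ≤ ρ := by rwa [← mul_inv_rev, sz_inv]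
  unfold Law.col
  simp only [Fintype.sum_prod_type, Fintype.sum_bool, Fintype.sum_unique, if_true,
    Bool.false_eq_true, if_false, inv_inv, inv_one, one_mul, mul_one, inv_mul_cancel,
    mul_inv_cancel, a1, a2, a3, a4, Fintype.card_unit, Nat.cast_one]
  split_ifs <;> norm_num

theorem ColD_succ {Ω : Type} (Y : Ω → SU2) (h : SU2) (i : ℕ) (u : Pw Ω (i + 1)) :
    h ^ (i + 1) * pwY Y h (i + 1) u = h * Y u.2 * (h ^ i * pwY Y h i u.1) := by
  rw [pwY]
  group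

/-- The positive half of the word. -/
theorem ColD_pos {Ω : Type} (Y : Ω → SU2) (j : ℕ) (u : Pw Ω (j + 1)) (c : SU2) :
    ∃ (z : SU2) (l : List (Bool × SU2)), l.length = j ∧ wt ((true, z) :: l) = 1 ∧
      ∀ h, wd h ((true, z) :: l) = h ^ (j + 1) * pwY Y h (j + 1) u * c := by
  induction j with
  | zero =>
    refine ⟨Y u.2 * c, [], rfl, rfl, fun h => ?_⟩
    rw [ColD_succ]
    simp [wd, pwY, mul_assoc]
  | succ j ih =>
    obtain ⟨z, l, h1, h2, h3⟩ := ih u.1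
    refine ⟨Y u.2, (true, z) :: l, by rw [List.length_cons, h1], ?_, fun h => ?_⟩
    · rw [wt, h2]
      simp
    · rw [wd, h3, ColD_succ Y h (j + 1) u]
      simp only [if_true, mul_assoc]

/-- The negative half of the word. -/
theorem ColD_neg {Ω : Type} (Y : Ω → SU2) (j : ℕ) (u : Pw Ω j) (mid : SU2) :
    ∃ a : SU2, ∀ (y : SU2) (l₀ : List (Bool × SU2)), ∃ l : List (Bool × SU2),
      l.length = j + 1 + l₀.length ∧ wt l = wt ((false, y) :: l₀) ∧
      ∀ h, (h ^ j * pwY Y h j u)⁻¹ * mid * wd h ((false, y) :: l₀) = a * wd h l := by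
  induction j generalizing mid with
  | zero =>
    refine ⟨mid, fun y l₀ => ⟨(false, y) :: l₀, ?_, rfl, fun h => ?_⟩⟩
    · rw [List.length_cons]
      omega
    · simp [pwY]
  | succ j ih =>
    obtain ⟨a, ha⟩ := ih u.1 (Y u.2)⁻¹
    refine ⟨a, fun y l₀ => ?_⟩
    obtain ⟨l, h1, h2, h3⟩ := ha mid ((false, y) :: l₀)
    refine ⟨l, ?_, ?_, fun h => ?_⟩
    · rw [h1, List.length_cons]
      omega
    · rw [h2, wt]
      simp
    · rw [← h3 h, ColD_succ, wd.eq_2 h false mid]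
      simp only [Bool.false_eq_true, if_false]
      group

theorem exists_word_col {Ω : Type} (Y : Ω → SU2) {i : ℕ} (hi : 1 ≤ i) (u u' : Pw Ω i) (mid : SU2) :
    ∃ l : List (Bool × SU2), l.length = 2 * i ∧ wt l = sz mid ∧
      ∀ h, sz (wd h l) = sz ((h ^ i * pwY Y h i u')⁻¹ * mid * (h ^ i * pwY Y h i u)) := by
  obtain ⟨j, rfl⟩ : ∃ j, i = j + 1 := ⟨i - 1, by omega⟩
  obtain ⟨a, ha⟩ := ColD_neg Y j u'.1 (Y u'.2)⁻¹
  obtain ⟨z, lp, h1, h2, h3⟩ := ColD_pos Y j u a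
  obtain ⟨l, k1, k2, k3⟩ := ha mid ((true, z) :: lp)
  refine ⟨l, ?_, ?_, fun h => ?_⟩
  · rw [k1, List.length_cons, h1]
    omega
  · rw [k2, wt, h2]
    simp
  · have e := k3 h
    rw [wd, h3] at e
    have e' : wd h l = a⁻¹ * ((h ^ (j + 1) * pwY Y h (j + 1) u')⁻¹ * mid *
        (h ^ (j + 1) * pwY Y h (j + 1) u)) * a := by
      rw [← inv_mul_cancel_left a (wd h l), ← e, ColD_succ Y h j u']
      simp only [Bool.false_eq_true, if_false]
      group
    rw [e', sz_conj]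

end Pool.Agent.P.MP_923088_al.AG
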