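import Pool.Agent.P.MP_923088_al.AG.Chain

/-!
Row AG-Conj. The pattern of `conjRef`. Here `Q` is any pattern of the chain, `V ω₁ ω = Y₂ ω * Y₁ ω₁`,
and the value of `conjRef` at `(ω₁, ω, ω')` is `(V ω₁ ω')⁻¹ * V ω₁ ω`.
`conjQ_sum`: the sum over `ω'` of the second factor is `conjM`, and `Q a (ω₁,ω)` is one of the terms
of `conjM` (so it vanishes if `conjM` does). `conjQ_rev`: `conjM` depends on `ω` only through `χ ω`.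
Cost: where `q ≠ 0`, with `a' = Y a`, `b = V ω₁ ω a`, `M = conjM b`,
`log (q / (p a * r)) = log (Q a ω / (p a r₁ r ω)) + log (Q a' ω' / (p a' r₁ r ω'))
  + (log (p a') - log (p b)) - log (M / (p b r₁ rc))`.
The first two terms give `cost Q` each (the second by `conjQ_rev` and the substitution `a ↦ a'`), the
third has mean zero (`int_bwd` for `q` and for `Q`), and the fourth has mean at most zero by
`- log x ≤ 1/x - 1`: after summing over `ω'` and substituting `b`,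
`∑ ω₁ ω, Q (V⁻¹ b) (ω₁,ω) * p b * r₁ * rc ω / M ≤ p b * ∑ ω₁ r₁ ∑ ω'' r ω'' ≤ p b`.
To avoid integrability questions for the fourth term apply the inequality pointwise first
(`q * (1/x - 1)` is bounded because `q ≤ Q a ω ≤ M`).
-/

namespace Pool.Agent.P.MP_923088_al.AG

open MeasureTheory Real
open scoped Classical Quaternion

section alg
variable {L₁ L₂ : Law} {X : Type} (χ : L₂.Ω → X) {Q : SU2 → (L₁.chain L₂).Ω → ℝ}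

theorem Conj_Y (ω₁ : L₁.Ω) (ω ω' : L₂.Ω) : (L₁.conjRef L₂ χ).Y (ω₁, ω, ω') =
    (L₂.Y ω' * L₁.Y ω₁)⁻¹ * (L₂.Y ω * L₁.Y ω₁) := by
  change (L₁.Y ω₁)⁻¹ * ((L₂.Y ω')⁻¹ * L₂.Y ω) * L₁.Y ω₁ = _
  group

theorem Conj_M_congr (b : SU2) (ω₁ : L₁.Ω) {ω ω' : L₂.Ω} (h : χ ω = χ ω') :
    conjM L₁ L₂ χ Q b ω₁ ω = conjM L₁ L₂ χ Q b ω₁ ω' := by
  simp only [conjM, h]

theorem Conj_term_nn (hQ : ∀ a ω, 0 ≤ Q a ω) (c : Prop) (a : SU2) (ω : (L₁.chain L₂).Ω) :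
    0 ≤ if c then Q a ω else 0 := by
  split_ifs
  exacts [hQ _ _, le_rfl]

theorem Conj_M_nn (hQ : ∀ a ω, 0 ≤ Q a ω) (b : SU2) (ω₁ : L₁.Ω) (ω : L₂.Ω) :
    0 ≤ conjM L₁ L₂ χ Q b ω₁ ω :=
  Finset.sum_nonneg fun _ _ => Conj_term_nn hQ _ _ _

theorem Conj_le_M (hQ : ∀ a ω, 0 ≤ Q a ω) (a : SU2) (ω₁ : L₁.Ω) (ω : L₂.Ω) :
    Q a (ω₁, ω) ≤ conjM L₁ L₂ χ Q (L₂.Y ω * L₁.Y ω₁ * a) ω₁ ω := by
  have h := Finset.single_le_sum (f := fun ω'' => if χ ω'' = χ ω then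
    Q ((L₂.Y ω'' * L₁.Y ω₁)⁻¹ * (L₂.Y ω * L₁.Y ω₁ * a)) (ω₁, ω'') else 0)
    (fun _ _ => Conj_term_nn hQ _ _ _) (Finset.mem_univ ω)
  rwa [if_pos rfl, inv_mul_cancel_left] at h

theorem Conj_nn (hQ : ∀ a ω, 0 ≤ Q a ω) (a : SU2) (ω : (L₁.conjRef L₂ χ).Ω) :
    0 ≤ conjQ L₁ L₂ χ Q a ω := by
  unfold conjQ
  split_ifs
  exacts [div_nonneg (mul_nonneg (hQ _ _) (hQ _ _)) (Conj_M_nn χ hQ _ _ _), le_rfl]

theorem Conj_sum3 (f : (L₁.conjRef L₂ χ).Ω → ℝ) :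
    ∑ ω, f ω = ∑ η : (L₁.chain L₂).Ω, ∑ ω', f (η.1, η.2, ω') := by
  rw [Fintype.sum_prod_type, Fintype.sum_prod_type]
  exact Finset.sum_congr rfl fun _ _ => Fintype.sum_prod_type _

theorem Conj_swap (f : (L₁.conjRef L₂ χ).Ω → ℝ) :
    ∑ ω : (L₁.conjRef L₂ χ).Ω, f (ω.1, ω.2.2, ω.2.1) = ∑ ω, f ω :=
  Equiv.sum_comp ((Equiv.refl L₁.Ω).prodCongr (Equiv.prodComm L₂.Ω L₂.Ω)) f

theorem conjQ_supp (a : SU2) (ω : (L₁.conjRef L₂ χ).Ω) (h : conjQ L₁ L₂ χ Q a ω ≠ 0) :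
    χ ω.2.1 = χ ω.2.2 := by
  by_contra h1
  exact h (if_neg h1)

theorem conjQ_sum (hQ : ∀ a ω, 0 ≤ Q a ω) (a : SU2) (ω₁ : L₁.Ω) (ω : L₂.Ω) :
    ∑ ω', conjQ L₁ L₂ χ Q a (ω₁, ω, ω') = Q a (ω₁, ω) := by
  have h1 : ∑ ω', conjQ L₁ L₂ χ Q a (ω₁, ω, ω') =
      Q a (ω₁, ω) * conjM L₁ L₂ χ Q (L₂.Y ω * L₁.Y ω₁ * a) ω₁ ω /
        conjM L₁ L₂ χ Q (L₂.Y ω * L₁.Y ω₁ * a) ω₁ ω := by
    conv_rhs => enter [1, 2]; rw [conjM]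
    rw [Finset.mul_sum, Finset.sum_div]
    refine Finset.sum_congr rfl fun ω' _ => ?_
    rw [conjQ, Conj_Y]
    by_cases h : χ ω = χ ω'
    · rw [if_pos h, if_pos h.symm, mul_assoc (L₂.Y ω' * L₁.Y ω₁)⁻¹]
    · rw [if_neg h, if_neg (Ne.symm h), mul_zero, zero_div]
  rw [h1]
  by_cases h : conjM L₁ L₂ χ Q (L₂.Y ω * L₁.Y ω₁ * a) ω₁ ω = 0
  · rw [h, div_zero]
    exact le_antisymm (hQ _ _) (h ▸ Conj_le_M χ hQ a ω₁ ω)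
  · exact mul_div_cancel_right₀ _ h

theorem Conj_le (hQ : ∀ a ω, 0 ≤ Q a ω) (a : SU2) (ω : (L₁.conjRef L₂ χ).Ω) :
    conjQ L₁ L₂ χ Q a ω ≤ Q a (ω.1, ω.2.1) := by
  rw [← conjQ_sum χ hQ]
  exact Finset.single_le_sum (f := fun ω' => conjQ L₁ L₂ χ Q a (ω.1, ω.2.1, ω'))
    (fun _ _ => Conj_nn χ hQ _ _) (Finset.mem_univ ω.2.2)

theorem conjQ_rev (b : SU2) (ω₁ : L₁.Ω) (ω ω' : L₂.Ω) :
    conjQ L₁ L₂ χ Q (((L₁.conjRef L₂ χ).Y (ω₁, ω, ω'))⁻¹ * b) (ω₁, ω, ω') =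
      conjQ L₁ L₂ χ Q b (ω₁, ω', ω) := by
  rw [conjQ, conjQ, mul_inv_cancel_left, Conj_Y, Conj_Y]
  by_cases h : χ ω = χ ω'
  · have h1 : ((L₂.Y ω' * L₁.Y ω₁)⁻¹ * (L₂.Y ω * L₁.Y ω₁))⁻¹ =
        (L₂.Y ω * L₁.Y ω₁)⁻¹ * (L₂.Y ω' * L₁.Y ω₁) := by group
    have h2 : L₂.Y ω * L₁.Y ω₁ * ((L₂.Y ω * L₁.Y ω₁)⁻¹ * (L₂.Y ω' * L₁.Y ω₁) * b) =
        L₂.Y ω' * L₁.Y ω₁ * b := by group
    rw [if_pos h, if_pos h.symm, h1, h2, Conj_M_congr χ _ _ h, mul_comm]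
  · rw [if_neg h, if_neg (Ne.symm h)]

/-- The law of the way there is kept. -/
theorem qm_conj (hQ : ∀ a ω, 0 ≤ Q a ω) (a : SU2) (E : (L₁.chain L₂).Ω → Prop) :
    qm (L₁.conjRef L₂ χ) (conjQ L₁ L₂ χ Q) a (fun ω => E (ω.1, ω.2.1)) =
      qm (L₁.chain L₂) Q a E := by
  rw [qm, qm, Conj_sum3]
  refine Finset.sum_congr rfl fun η _ => ?_
  by_cases h : E η
  · simp only [if_pos h]
    exact conjQ_sum χ hQ a η.1 η.2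
  · simp only [if_neg h, Finset.sum_const_zero]

/-- For events that depend on the mode only, backwards is the same as forwards. -/
theorem conj_bwd (b : SU2) (A : L₁.Ω → L₂.Ω → Prop)
    (hA : ∀ ω₁ ω ω', χ ω = χ ω' → A ω₁ ω → A ω₁ ω') :
    ∑ ω : (L₁.conjRef L₂ χ).Ω, (if A ω.1 ω.2.1 then
        conjQ L₁ L₂ χ Q (((L₁.conjRef L₂ χ).Y ω)⁻¹ * b) ω else 0) =
      qm (L₁.conjRef L₂ χ) (conjQ L₁ L₂ χ Q) b (fun ω => A ω.1 ω.2.1) := by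
  rw [qm, ← Conj_swap χ fun ω => if A ω.1 ω.2.1 then conjQ L₁ L₂ χ Q b ω else 0]
  refine Finset.sum_congr rfl fun ω _ => ?_
  obtain ⟨ω₁, ω, ω'⟩ := ω
  rw [conjQ_rev]
  by_cases h : conjQ L₁ L₂ χ Q b (ω₁, ω', ω) = 0
  · simp only [h, ite_self]
  · have h1 : χ ω' = χ ω := conjQ_supp χ b _ h
    exact if_congr ⟨hA _ _ _ h1.symm, hA _ _ _ h1⟩ rfl rfl

/-- The pointwise bound for the last term. -/
theorem Conj_last (h₂ : L₂.Ok) (b : SU2) (ω₁ : L₁.Ω) :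
    ∑ ω, Q ((L₂.Y ω * L₁.Y ω₁)⁻¹ * b) (ω₁, ω) * (L₂.rc χ ω / conjM L₁ L₂ χ Q b ω₁ ω) ≤ 1 := by
  have h1 : ∀ ω, Q ((L₂.Y ω * L₁.Y ω₁)⁻¹ * b) (ω₁, ω) * (L₂.rc χ ω / conjM L₁ L₂ χ Q b ω₁ ω) =
      ∑ ω', L₂.r ω' * ((if χ ω = χ ω' then Q ((L₂.Y ω * L₁.Y ω₁)⁻¹ * b) (ω₁, ω) else 0) /
        conjM L₁ L₂ χ Q b ω₁ ω') := fun ω => by
    rw [Law.rc, Finset.sum_div, Finset.mul_sum]
    refine Finset.sum_congr rfl fun ω' _ => ?_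
    by_cases h : χ ω = χ ω'
    · rw [if_pos h, if_pos h.symm, Conj_M_congr χ _ _ h]
      ring
    · rw [if_neg h, if_neg (Ne.symm h), zero_div, zero_div, mul_zero, mul_zero]
  rw [Finset.sum_congr rfl fun ω _ => h1 ω, Finset.sum_comm]
  refine le_trans (Finset.sum_le_sum fun ω' _ => ?_) h₂.le
  rw [← Finset.mul_sum, ← Finset.sum_div]
  exact mul_le_of_le_one_right (h₂.nn _) (div_self_le_one (conjM L₁ L₂ χ Q b ω₁ ω'))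

/-- The splitting of the logarithm. -/
theorem Conj_log {x y M a a' b r₁ r r' c : ℝ} (hx : 0 < x) (hy : 0 < y) (hM : 0 < M) (ha : 0 < a)
    (ha' : 0 < a') (hb : 0 < b) (hr₁ : 0 < r₁) (hr : 0 < r) (hr' : 0 < r') (hc : 0 < c) :
    log (x * y / M / (a * (r₁ * (r * r' / c)))) ≤ log (x / (a * (r₁ * r))) +
      log (y / (a' * (r₁ * r'))) + log a' - log b + b * r₁ * (c / M) - 1 := by
  have h1 : x * y / M / (a * (r₁ * (r * r' / c))) =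
      x / (a * (r₁ * r)) * (y / (a' * (r₁ * r'))) * (a' / b) * (b * r₁ * (c / M)) := by
    field_simp
  have h2 := log_le_sub_one_of_pos (show 0 < b * r₁ * (c / M) by positivity)
  rw [h1, log_mul (by positivity) (by positivity), log_mul (by positivity) (by positivity),
    log_mul (by positivity) (by positivity), log_div ha'.ne' hb.ne']
  linarith

end alg

variable [MeasurableSpace SU2] [BorelSpace SU2] {m : Measure SU2} [m.IsHaarMeasure]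
  [IsProbabilityMeasure m] {p : SU2 → ℝ}

theorem Conj_meas_M {L₁ L₂ : Law} {X : Type} (χ : L₂.Ω → X) {Q : SU2 → (L₁.chain L₂).Ω → ℝ}
    (hQ : ∀ ω, Measurable fun a => Q a ω) (ω₁ : L₁.Ω) (ω : L₂.Ω) :
    Measurable fun b => conjM L₁ L₂ χ Q b ω₁ ω := by
  refine Finset.measurable_sum _ fun ω' _ => ?_
  split_ifs
  exacts [(hQ _).comp (measurable_const_mul _), measurable_const]

theorem IsPat.conj {L₁ L₂ : Law} (h₁ : L₁.Ok) (h₂ : L₂.Ok) {X : Type} (χ : L₂.Ω → X)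
    {Q : SU2 → (L₁.chain L₂).Ω → ℝ} (hQ : IsPat p (L₁.chain L₂) Q) :
    IsPat p (L₁.conjRef L₂ χ) (conjQ L₁ L₂ χ Q) := by
  have hf : ∀ a, ∑ ω, conjQ L₁ L₂ χ Q a ω = p a := fun a => by
    rw [Conj_sum3, ← hQ.fwd a]
    exact Finset.sum_congr rfl fun η _ => conjQ_sum χ hQ.nn a η.1 η.2
  refine ⟨h₁.conjRef h₂ χ, fun ω => ?_, Conj_nn χ hQ.nn, fun a ω h => ?_, hf, fun b => ?_⟩
  · unfold conjQ
    split_ifs
    · exact ((hQ.meas _).mul ((hQ.meas _).comp (measurable_const_mul _))).div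
        ((Conj_meas_M χ hQ.meas _ _).comp (measurable_const_mul _))
    · exact measurable_const
  · unfold conjQ
    split_ifs with h1
    · have h2 : L₁.r ω.1 * (L₂.r ω.2.1 * L₂.r ω.2.2 / L₂.rc χ ω.2.1) = 0 :=
        (congrArg (L₁.r ω.1 * ·) (if_pos h1)).symm.trans h
      have h3 : L₁.r ω.1 * L₂.r ω.2.1 = 0 ∨ L₁.r ω.1 * L₂.r ω.2.2 = 0 := by
        simp only [mul_eq_zero, div_eq_zero_iff] at h2 ⊢
        rcases h2 with h2 | (h2 | h2) | h2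
        exacts [Or.inl (Or.inl h2), Or.inl (Or.inr h2), Or.inr (Or.inr h2),
          Or.inl (Or.inr (le_antisymm (h2 ▸ Law.r_le_rc h₂ χ _) (h₂.nn _)))]
      rcases h3 with h3 | h3
      · rw [hQ.ac a (ω.1, ω.2.1) h3, zero_mul, zero_div]
      · rw [hQ.ac _ (ω.1, ω.2.2) h3, mul_zero, zero_div]
    · rfl
  · rw [← hf b, ← Conj_swap χ (conjQ L₁ L₂ χ Q b)]
    exact Finset.sum_congr rfl fun ω _ => conjQ_rev χ b ω.1 ω.2.1 ω.2.2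

theorem Conj_int {L₁ L₂ : Law} (h₁ : L₁.Ok) (h₂ : L₂.Ok) {X : Type} (χ : L₂.Ω → X)
    {Q : SU2 → (L₁.chain L₂).Ω → ℝ} (hQ : IsPat p (L₁.chain L₂) Q)
    {g : SU2 → (L₁.chain L₂).Ω → ℝ} (hg : ∀ η, Measurable fun a => g a η) {C : ℝ}
    (hC : ∀ a η, |Q a η * g a η| ≤ C) :
    (∀ ω : (L₁.conjRef L₂ χ).Ω,
      Integrable (fun a => conjQ L₁ L₂ χ Q a ω * g a (ω.1, ω.2.1)) m) ∧
    ∑ ω : (L₁.conjRef L₂ χ).Ω, ∫ a, conjQ L₁ L₂ χ Q a ω * g a (ω.1, ω.2.1) ∂m =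
      ∑ η, ∫ a, Q a η * g a η ∂m := by
  have h1 : ∀ ω : (L₁.conjRef L₂ χ).Ω,
      Integrable (fun a => conjQ L₁ L₂ χ Q a ω * g a (ω.1, ω.2.1)) m := fun ω => by
    refine integrable_of_bdd (((hQ.conj h₁ h₂ χ).meas ω).mul (hg _)) (C := C) fun a => ?_
    refine le_trans ?_ (hC a (ω.1, ω.2.1))
    rw [abs_mul, abs_mul, abs_of_nonneg (Conj_nn χ hQ.nn _ _), abs_of_nonneg (hQ.nn _ _)]
    exact mul_le_mul_of_nonneg_right (Conj_le χ hQ.nn a ω) (abs_nonneg _)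
  refine ⟨h1, ?_⟩
  rw [Conj_sum3]
  refine Finset.sum_congr rfl fun η _ => ?_
  rw [← integral_finsetSum _ fun ω' _ => h1 (η.1, η.2, ω')]
  simp only [← Finset.sum_mul, conjQ_sum χ hQ.nn]

/-- The pointwise inequality. -/
theorem Conj_point (hp : IsDens m p) {L₁ L₂ : Law} (h₁ : L₁.Ok) (h₂ : L₂.Ok) {X : Type}
    (χ : L₂.Ω → X) {Q : SU2 → (L₁.chain L₂).Ω → ℝ} (hQ : IsPat p (L₁.chain L₂) Q) (a : SU2)
    (ω : (L₁.conjRef L₂ χ).Ω) :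
    conjQ L₁ L₂ χ Q a ω * log (conjQ L₁ L₂ χ Q a ω / (p a * (L₁.conjRef L₂ χ).r ω)) ≤
      conjQ L₁ L₂ χ Q a ω * log (Q a (ω.1, ω.2.1) / (p a * (L₁.chain L₂).r (ω.1, ω.2.1))) +
      conjQ L₁ L₂ χ Q a ω * log (Q ((L₁.conjRef L₂ χ).Y ω * a) (ω.1, ω.2.2) /
        (p ((L₁.conjRef L₂ χ).Y ω * a) * (L₁.chain L₂).r (ω.1, ω.2.2))) +
      conjQ L₁ L₂ χ Q a ω * log (p ((L₁.conjRef L₂ χ).Y ω * a)) -
      conjQ L₁ L₂ χ Q a ω * log (p ((L₁.chain L₂).Y (ω.1, ω.2.1) * a)) +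
      conjQ L₁ L₂ χ Q a ω * (p ((L₁.chain L₂).Y (ω.1, ω.2.1) * a) * L₁.r ω.1 *
        (L₂.rc χ ω.2.1 / conjM L₁ L₂ χ Q ((L₁.chain L₂).Y (ω.1, ω.2.1) * a) ω.1 ω.2.1)) -
      conjQ L₁ L₂ χ Q a ω * 1 := by
  by_cases h : conjQ L₁ L₂ χ Q a ω = 0
  · simp only [h, zero_mul, add_zero, sub_zero, le_refl]
  have h1 := conjQ_supp χ a ω h
  have h2 : conjQ L₁ L₂ χ Q a ω = Q a (ω.1, ω.2.1) * Q ((L₁.conjRef L₂ χ).Y ω * a) (ω.1, ω.2.2) /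
      conjM L₁ L₂ χ Q (L₂.Y ω.2.1 * L₁.Y ω.1 * a) ω.1 ω.2.1 := if_pos h1
  have h3 : (L₁.conjRef L₂ χ).r ω = L₁.r ω.1 * (L₂.r ω.2.1 * L₂.r ω.2.2 / L₂.rc χ ω.2.1) :=
    congrArg (L₁.r ω.1 * ·) (if_pos h1)
  have h4 := h
  rw [h2, div_eq_zero_iff, mul_eq_zero, not_or, not_or] at h4
  have h5 : L₁.r ω.1 * L₂.r ω.2.1 ≠ 0 := fun e => h4.1.1 (hQ.ac _ (ω.1, ω.2.1) e)
  have h6 : L₁.r ω.1 * L₂.r ω.2.2 ≠ 0 := fun e => h4.1.2 (hQ.ac _ (ω.1, ω.2.2) e)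
  have h7 : 0 < L₂.r ω.2.1 := (h₂.nn _).lt_of_ne' (right_ne_zero_of_mul h5)
  have h8 := Conj_log ((hQ.nn _ _).lt_of_ne' h4.1.1) ((hQ.nn _ _).lt_of_ne' h4.1.2)
    ((Conj_M_nn χ hQ.nn _ _ _).lt_of_ne' h4.2) (hp.pos a) (hp.pos ((L₁.conjRef L₂ χ).Y ω * a))
    (hp.pos (L₂.Y ω.2.1 * L₁.Y ω.1 * a)) ((h₁.nn _).lt_of_ne' (left_ne_zero_of_mul h5)) h7
    ((h₂.nn _).lt_of_ne' (right_ne_zero_of_mul h6)) (h7.trans_le (Law.r_le_rc h₂ χ _))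
  rw [← h2, ← h3] at h8
  simp only [← mul_add, ← mul_sub]
  exact mul_le_mul_of_nonneg_left h8 (Conj_nn χ hQ.nn a ω)

/-- The last term. -/
theorem Conj_fifth (hp : IsDens m p) {L₁ L₂ : Law} (h₁ : L₁.Ok) (h₂ : L₂.Ok) {X : Type}
    (χ : L₂.Ω → X) {Q : SU2 → (L₁.chain L₂).Ω → ℝ} (hQ : IsPat p (L₁.chain L₂) Q) :
    (∃ C, ∀ a η, |Q a η * (p ((L₁.chain L₂).Y η * a) * L₁.r η.1 *
      (L₂.rc χ η.2 / conjM L₁ L₂ χ Q ((L₁.chain L₂).Y η * a) η.1 η.2))| ≤ C) ∧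
    ∑ η, ∫ a, Q a η * (p ((L₁.chain L₂).Y η * a) * L₁.r η.1 *
      (L₂.rc χ η.2 / conjM L₁ L₂ χ Q ((L₁.chain L₂).Y η * a) η.1 η.2)) ∂m ≤ 1 := by
  obtain ⟨C, hC⟩ := hp.hi
  have hr : ∀ ω₁, L₁.r ω₁ ≤ 1 := fun ω₁ =>
    (Finset.single_le_sum (fun ω _ => h₁.nn ω) (Finset.mem_univ ω₁)).trans h₁.le
  have hnn : ∀ b ω₁ ω, 0 ≤ Q ((L₂.Y ω * L₁.Y ω₁)⁻¹ * b) (ω₁, ω) *
      (L₂.rc χ ω / conjM L₁ L₂ χ Q b ω₁ ω) := fun b ω₁ ω =>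
    mul_nonneg (hQ.nn _ _) (div_nonneg (Law.rc_nonneg h₂ χ ω) (Conj_M_nn χ hQ.nn _ _ _))
  let F : SU2 → (L₁.chain L₂).Ω → ℝ := fun b η => p b * L₁.r η.1 *
    (Q ((L₂.Y η.2 * L₁.Y η.1)⁻¹ * b) (η.1, η.2) * (L₂.rc χ η.2 / conjM L₁ L₂ χ Q b η.1 η.2))
  have hF : ∀ a η, Q a η * (p ((L₁.chain L₂).Y η * a) * L₁.r η.1 *
      (L₂.rc χ η.2 / conjM L₁ L₂ χ Q ((L₁.chain L₂).Y η * a) η.1 η.2)) =
      F ((L₁.chain L₂).Y η * a) η := fun a η => by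
    simp only [F, inv_mul_cancel_left]
    ring
  have hb : ∀ b η, |F b η| ≤ C := fun b η => by
    have h3 := (Finset.single_le_sum (fun ω _ => hnn b η.1 ω) (Finset.mem_univ η.2)).trans
      (Conj_last χ h₂ b η.1)
    have h4 : 0 ≤ p b * L₁.r η.1 := mul_nonneg (hp.pos b).le (h₁.nn _)
    rw [abs_of_nonneg (mul_nonneg h4 (hnn _ _ _))]
    exact (mul_le_of_le_one_right h4 h3).trans
      ((mul_le_of_le_one_right (hp.pos b).le (hr _)).trans (hC b))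
  have hi : ∀ η, Integrable (fun b => F b η) m := fun η =>
    integrable_of_bdd ((hp.meas.mul_const _).mul (((hQ.meas _).comp (measurable_const_mul _)).mul
      ((Conj_meas_M χ hQ.meas _ _).const_div _))) fun b => hb b η
  simp only [hF]
  refine ⟨⟨C, fun a η => hb _ η⟩, ?_⟩
  rw [Finset.sum_congr rfl fun η _ => integral_mul_left_eq_self (fun b => F b η) _,
    ← integral_finsetSum _ fun η _ => hi η, ← hp.int]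
  refine integral_mono (integrable_finsetSum _ fun η _ => hi η) hp.integrable fun b => ?_
  change ∑ η : L₁.Ω × L₂.Ω, F b η ≤ p b
  rw [Fintype.sum_prod_type]
  refine le_trans (Finset.sum_le_sum fun ω₁ _ => ?_)
    ((Finset.mul_sum _ _ _).symm.le.trans (mul_le_of_le_one_right (hp.pos b).le h₁.le))
  simp only [F, ← Finset.mul_sum]
  exact mul_le_of_le_one_right (mul_nonneg (hp.pos b).le (h₁.nn _)) (Conj_last χ h₂ b ω₁)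

theorem cost_conj (hp : IsDens m p) {L₁ L₂ : Law} (h₁ : L₁.Ok) (h₂ : L₂.Ok) {X : Type}
    (χ : L₂.Ω → X) {Q : SU2 → (L₁.chain L₂).Ω → ℝ} (hQ : IsPat p (L₁.chain L₂) Q) :
    cost m p (L₁.conjRef L₂ χ) (conjQ L₁ L₂ χ Q) ≤ 2 * cost m p (L₁.chain L₂) Q := by
  have hq := hQ.conj h₁ h₂ χ
  obtain ⟨C₁, hC₁⟩ := hQ.cost_bdd hp
  obtain ⟨C₂, hC₂⟩ := hp.log_bdd
  obtain ⟨C₃, hC₃⟩ := hQ.bdd hp
  obtain ⟨⟨C₅, hC₅⟩, h5⟩ := Conj_fifth hp h₁ h₂ χ hQ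
  have hl : Measurable fun a => log (p a) := hp.meas.log
  obtain ⟨i1, e1⟩ := Conj_int (m := m) h₁ h₂ χ hQ
    (g := fun a η => log (Q a η / (p a * (L₁.chain L₂).r η)))
    (fun η => ((hQ.meas η).div (hp.meas.mul_const _)).log) hC₁
  rw [← hQ.cost_eq hp] at e1
  have r2 : ∀ (ω : (L₁.conjRef L₂ χ).Ω) a, conjQ L₁ L₂ χ Q a ω =
      conjQ L₁ L₂ χ Q ((L₁.conjRef L₂ χ).Y ω * a) (ω.1, ω.2.2, ω.2.1) := fun ω a => by
    rw [← conjQ_rev χ _ ω.1 ω.2.1 ω.2.2, inv_mul_cancel_left]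
  have i2 : ∀ ω : (L₁.conjRef L₂ χ).Ω, Integrable (fun a => conjQ L₁ L₂ χ Q a ω *
      log (Q ((L₁.conjRef L₂ χ).Y ω * a) (ω.1, ω.2.2) /
        (p ((L₁.conjRef L₂ χ).Y ω * a) * (L₁.chain L₂).r (ω.1, ω.2.2)))) m := fun ω => by
    simp only [r2 ω]
    exact (i1 (ω.1, ω.2.2, ω.2.1)).comp_mul_left _
  have e2 : ∑ ω : (L₁.conjRef L₂ χ).Ω, ∫ a, conjQ L₁ L₂ χ Q a ω *
      log (Q ((L₁.conjRef L₂ χ).Y ω * a) (ω.1, ω.2.2) /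
        (p ((L₁.conjRef L₂ χ).Y ω * a) * (L₁.chain L₂).r (ω.1, ω.2.2))) ∂m =
      cost m p (L₁.chain L₂) Q := by
    rw [← e1, ← Conj_swap χ fun ω => ∫ a, conjQ L₁ L₂ χ Q a ω *
      log (Q a (ω.1, ω.2.1) / (p a * (L₁.chain L₂).r (ω.1, ω.2.1))) ∂m]
    refine Finset.sum_congr rfl fun ω _ => ?_
    simp only [r2 ω]
    exact integral_mul_left_eq_self (fun a => conjQ L₁ L₂ χ Q a (ω.1, ω.2.2, ω.2.1) *
      log (Q a (ω.1, ω.2.2) / (p a * (L₁.chain L₂).r (ω.1, ω.2.2)))) _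
  have i3 : ∀ ω : (L₁.conjRef L₂ χ).Ω, Integrable (fun a => conjQ L₁ L₂ χ Q a ω *
      log (p ((L₁.conjRef L₂ χ).Y ω * a))) m := fun ω =>
    hq.integrable_mul hp ω (hl.comp (measurable_const_mul _)) fun a => hC₂ _
  have e3 := hq.int_bwd hp hl hC₂
  obtain ⟨i4, e4⟩ := Conj_int (m := m) h₁ h₂ χ hQ
    (g := fun a η => log (p ((L₁.chain L₂).Y η * a))) (C := C₃ * C₂)
    (fun η => hl.comp (measurable_const_mul _)) fun a η => by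
      rw [abs_mul]
      exact mul_le_mul (hC₃ a η) (hC₂ _) (abs_nonneg _) ((abs_nonneg _).trans (hC₃ a η))
  rw [hQ.int_bwd hp hl hC₂] at e4
  obtain ⟨i5, e5⟩ := Conj_int (m := m) h₁ h₂ χ hQ
    (g := fun a η => p ((L₁.chain L₂).Y η * a) * L₁.r η.1 *
      (L₂.rc χ η.2 / conjM L₁ L₂ χ Q ((L₁.chain L₂).Y η * a) η.1 η.2))
    (fun η => ((hp.meas.comp (measurable_const_mul _)).mul_const _).mul
      (((Conj_meas_M χ hQ.meas _ _).comp (measurable_const_mul _)).const_div _)) hC₅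
  have i6 : ∀ ω : (L₁.conjRef L₂ χ).Ω, Integrable (fun a => conjQ L₁ L₂ χ Q a ω * 1) m :=
    fun ω => (hq.integrable hp ω).mul_const 1
  have e6 := hq.int_fwd hp (f := fun _ => 1) measurable_const (C := 1) fun _ => abs_one.le
  rw [show ∫ a, p a * 1 ∂m = 1 by simp only [mul_one, hp.int]] at e6
  rw [hq.cost_eq hp]
  refine le_trans (Finset.sum_le_sum fun ω _ => integral_mono (hq.integrable_cost hp ω)
    ((((((i1 ω).add (i2 ω)).add (i3 ω)).sub (i4 ω)).add (i5 ω)).sub (i6 ω))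
    fun a => Conj_point hp h₁ h₂ χ hQ a ω) ?_
  rw [Finset.sum_congr rfl fun ω _ => by
    rw [integral_sub' (((((i1 ω).add (i2 ω)).add (i3 ω)).sub (i4 ω)).add (i5 ω)) (i6 ω),
      integral_add' ((((i1 ω).add (i2 ω)).add (i3 ω)).sub (i4 ω)) (i5 ω),
      integral_sub' (((i1 ω).add (i2 ω)).add (i3 ω)) (i4 ω),
      integral_add' ((i1 ω).add (i2 ω)) (i3 ω), integral_add' (i1 ω) (i2 ω)]]
  simp only [Finset.sum_add_distrib, Finset.sum_sub_distrib]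
  linarith

theorem Pq_conj {L₁ L₂ : Law} {X : Type} (χ : L₂.Ω → X) {Q : SU2 → (L₁.chain L₂).Ω → ℝ}
    (hQ : IsPat p (L₁.chain L₂) Q) (E : (L₁.chain L₂).Ω → Prop) :
    Pq m (L₁.conjRef L₂ χ) (conjQ L₁ L₂ χ Q) (fun ω => E (ω.1, ω.2.1)) =
      Pq m (L₁.chain L₂) Q E := by
  simp only [Pq, qm_conj χ hQ.nn]

end Pool.Agent.P.MP_923088_al.AG
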