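import Pool.Agent.P.MP_923088_al.Final

/-!
Definitions for the almost-gap theorem, part 1: geometry of SU(2), finite laws, words.
-/

namespace Pool.Agent.P.MP_923088_al.AG

open MeasureTheory Real
open scoped Classical Quaternion

instance : SecondCountableTopology SU2 :=
  haveI : SecondCountableTopology (Matrix (Fin 2) (Fin 2) ℂ) :=
    inferInstanceAs (SecondCountableTopology (Fin 2 → Fin 2 → ℂ))
  TopologicalSpace.Subtype.secondCountableTopology _

instance : IsTopologicalGroup SU2 where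
  continuous_mul := Continuous.subtype_mk
    ((continuous_subtype_val.comp continuous_fst).matrix_mul
      (continuous_subtype_val.comp continuous_snd)) _
  continuous_inv := Continuous.subtype_mk continuous_subtype_val.matrix_conjTranspose _

section haar
variable [MeasurableSpace SU2] [BorelSpace SU2] (m : Measure SU2) [m.IsHaarMeasure]
  [IsProbabilityMeasure m]

instance haar_right : m.IsMulRightInvariant := ⟨fun g => by
  haveI : IsProbabilityMeasure (m.map (· * g)) :=
    Measure.isProbabilityMeasure_map (measurable_mul_const g).aemeasurable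
  exact Measure.isHaarMeasure_eq_of_isProbabilityMeasure _ _⟩

instance haar_inv : m.IsInvInvariant := ⟨by
  haveI : IsProbabilityMeasure m.inv := Measure.isProbabilityMeasure_map measurable_inv.aemeasurable
  haveI : m.inv.IsHaarMeasure := {}
  exact Measure.isHaarMeasure_eq_of_isProbabilityMeasure _ _⟩

end haar

/-! ### Geometry -/

/-- The unit quaternion of an element. -/
noncomputable def qt (x : SU2) : ℍ[ℝ] :=
  ⟨(x.1 0 0).re, (x.1 0 0).im, (x.1 1 0).re, -(x.1 1 0).im⟩

/-- The bi-invariant chordal distance. -/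
noncomputable def ds (x y : SU2) : ℝ := ‖qt x - qt y‖

/-- The size of the imaginary part (distance from the centre). -/
noncomputable def sz (x : SU2) : ℝ := ‖(qt x).im‖

/-- The inner product of the imaginary parts. -/
noncomputable def ip (x y : SU2) : ℝ := inner ℝ (qt x).im (qt y).im

/-- The size of the commutator. -/
noncomputable def cr (x y : SU2) : ℝ := ds (x * y) (y * x)

/-- Closed balls. -/
def Bl (x : SU2) (ρ : ℝ) : Set SU2 := {y | ds x y ≤ ρ}

/-- The cell of the grid of mesh `s` that contains `x`. -/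
noncomputable def cell (s : ℝ) (x : SU2) : Fin 4 → ℤ :=
  ![⌊(qt x).re / s⌋, ⌊(qt x).imI / s⌋, ⌊(qt x).imJ / s⌋, ⌊(qt x).imK / s⌋]

/-- The word with letters `h` or `h⁻¹` and the given blocks. -/
noncomputable def wd (h : SU2) : List (Bool × SU2) → SU2
  | [] => 1
  | (e, x) :: l => (if e then h else h⁻¹) * x * wd h l

/-- The product of the sizes of the blocks at the sign changes. -/
noncomputable def wt : List (Bool × SU2) → ℝ
  | [] => 1
  | [_] => 1
  | (e, x) :: (e', x') :: l => (if e = e' then 1 else sz x) * wt ((e', x') :: l)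

/-- The row or column that belongs to a sign. -/
def ix (e : Bool) : Fin 2 := if e then 0 else 1

/-- The product of the entries that make up the top coefficient. -/
noncomputable def et : List (Bool × SU2) → ℝ
  | [] => 1
  | [_] => 1
  | (e, x) :: (e', x') :: l => ‖x.1 (ix e) (ix e')‖ * et ((e', x') :: l)

/-! ### Finite laws -/

/-- A finite weighted family of group elements. -/
structure Law where
  Ω : Type
  [fin : Fintype Ω]
  r : Ω → ℝ
  Y : Ω → SU2

attribute [instance] Law.fin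

namespace Law

/-- The weights form a sub-probability. -/
structure Ok (L : Law) : Prop where
  nn : ∀ ω, 0 ≤ L.r ω
  le : ∑ ω, L.r ω ≤ 1

/-- The weight of an event. -/
noncomputable def P (L : Law) (E : L.Ω → Prop) : ℝ := ∑ ω, if E ω then L.r ω else 0

/-- The trivial law. -/
@[reducible] noncomputable def one : Law where
  Ω := Unit
  r _ := 1
  Y _ := 1

/-- First `L₁`, then `L₂`. -/
@[reducible] noncomputable def chain (L₁ L₂ : Law) : Law where
  Ω := L₁.Ω × L₂.Ω
  r ω := L₁.r ω.1 * L₂.r ω.2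
  Y ω := L₂.Y ω.2 * L₁.Y ω.1

/-- Conjugation of the values. -/
@[reducible] noncomputable def cj (c : SU2) (L : Law) : Law where
  Ω := L.Ω
  r := L.r
  Y ω := c⁻¹ * L.Y ω * c

/-- The weight of the class of `ω` for the mode `χ`. -/
noncomputable def rc (L : Law) {X : Type} (χ : L.Ω → X) (ω : L.Ω) : ℝ :=
  ∑ ω', if χ ω' = χ ω then L.r ω' else 0

/-- Two copies that are independent given the mode. -/
noncomputable def pr (L : Law) {X : Type} (χ : L.Ω → X) (ω ω' : L.Ω) : ℝ :=
  if χ ω = χ ω' then L.r ω * L.r ω' / L.rc χ ω else 0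

/-- The weight of an event for two copies. -/
noncomputable def PP (L : Law) {X : Type} (χ : L.Ω → X) (E : L.Ω → L.Ω → Prop) : ℝ :=
  ∑ ω, ∑ ω', if E ω ω' then L.pr χ ω ω' else 0

/-- Go along `L₁`, along `L₂`, back along a second copy of `L₂` and back along `L₁`. -/
@[reducible] noncomputable def conjRef (L₁ L₂ : Law) {X : Type} (χ : L₂.Ω → X) : Law where
  Ω := L₁.Ω × L₂.Ω × L₂.Ω
  r ω := L₁.r ω.1 * L₂.pr χ ω.2.1 ω.2.2
  Y ω := (L₁.Y ω.1)⁻¹ * ((L₂.Y ω.2.2)⁻¹ * L₂.Y ω.2.1) * L₁.Y ω.1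

/-- The mixture of the laws `L K` restricted to the events `A K`. -/
@[reducible] noncomputable def mix {ι : Type} [Fintype ι] (L : ι → Law)
    (A : ∀ K, (L K).Ω → Prop) : Law where
  Ω := Σ K, (L K).Ω
  r ω := if A ω.1 ω.2 then (L ω.1).r ω.2 / Fintype.card ι else 0
  Y ω := (L ω.1).Y ω.2

/-- The averaging operator on real functions. -/
noncomputable def op (L : Law) (F : SU2 → ℝ) (x : SU2) : ℝ := ∑ ω, L.r ω * F (L.Y ω * x)

/-- The averaging operator on continuous complex functions. -/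
noncomputable def Lc (L : Law) : Module.End ℂ CF := ∑ ω, (L.r ω : ℂ) • (Lt (L.Y ω)).toLinearMap

/-- Collision probability at scale `ρ`. -/
noncomputable def col (L : Law) (ρ : ℝ) : ℝ :=
  ∑ ω, ∑ ω', if sz ((L.Y ω')⁻¹ * L.Y ω) ≤ ρ then L.r ω * L.r ω' else 0

/-- Non-concentration of the image of every axis. -/
def AX (L : Law) (ζ ε : ℝ) : Prop :=
  ∀ l l' : SU2, hc l = 0 → L.P (fun ω => ds (L.Y ω * l * (L.Y ω)⁻¹) l' ≤ ζ) ≤ ε

/-- Non-concentration at points. -/
def Conc (L : Law) (ρ ε : ℝ) : Prop := ∀ y : SU2, L.P (fun ω => ds (L.Y ω) y ≤ ρ) ≤ ε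

end Law

/-- The lazy symmetric step with generators `w`. -/
@[reducible] noncomputable def bark {ι : Type} [Fintype ι] (w : ι → SU2) : Law where
  Ω := ι × Bool × Bool
  r _ := 1 / (4 * (Fintype.card ι : ℝ))
  Y ω := if ω.2.2 then (if ω.2.1 then w ω.1 else (w ω.1)⁻¹) else 1

/-- Tuples of length `i`. -/
def Pw (Ω : Type) : ℕ → Type
  | 0 => Unit
  | i + 1 => Pw Ω i × Ω

instance pwFin (Ω : Type) [Fintype Ω] : ∀ i, Fintype (Pw Ω i)
  | 0 => inferInstanceAs (Fintype Unit)
  | i + 1 => @instFintypeProd _ _ (pwFin Ω i) _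

/-- Product weights. -/
noncomputable def pwR {Ω : Type} (r : Ω → ℝ) : ∀ i, Pw Ω i → ℝ
  | 0 => fun _ => 1
  | i + 1 => fun ω => pwR r i ω.1 * r ω.2

/-- The product of the conjugates `h⁻ⁱ X hⁱ`. -/
noncomputable def pwY {Ω : Type} (Y : Ω → SU2) (h : SU2) : ∀ i, Pw Ω i → SU2
  | 0 => fun _ => 1
  | i + 1 => fun ω => (h ^ i)⁻¹ * Y ω.2 * h ^ i * pwY Y h i ω.1

/-- A block of `i` conjugated copies of `L`. -/
@[reducible] noncomputable def blk (L : Law) (h : SU2) (i : ℕ) : Law where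
  Ω := Pw L.Ω i
  r := pwR L.r i
  Y := pwY L.Y h i

theorem blk_zero (L : Law) (h : SU2) : blk L h 0 = Law.one := rfl

theorem blk_succ (L : Law) (h : SU2) (i : ℕ) :
    blk L h (i + 1) = (blk L h i).chain (L.cj (h ^ i)) := rfl

/-- The sample space of level `j`. -/
def levΩ (B : ℕ) : ℕ → Type
  | 0 => Unit × Bool × Bool
  | j + 1 => Pw (levΩ B j) B

instance levFin (B : ℕ) : ∀ j, Fintype (levΩ B j)
  | 0 => inferInstanceAs (Fintype (Unit × Bool × Bool))
  | j + 1 => @pwFin _ (levFin B j) B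

/-- The weights of level `j`. -/
noncomputable def levR (B : ℕ) : ∀ j, levΩ B j → ℝ
  | 0 => fun _ => 1 / (4 * (Fintype.card Unit : ℝ))
  | j + 1 => pwR (levR B j) B

/-- The values of level `j`. -/
noncomputable def levY (H : ℕ → SU2) (B : ℕ) : ∀ j, levΩ B j → SU2
  | 0 => fun ω => if ω.2.2 then (if ω.2.1 then H 0 else (H 0)⁻¹) else 1
  | j + 1 => pwY (levY H B j) (H (j + 1)) B

/-- The hierarchical words of level `j`. -/
@[reducible] noncomputable def lev (H : ℕ → SU2) (B j : ℕ) : Law where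
  Ω := levΩ B j
  r := levR B j
  Y := levY H B j

theorem lev_zero (H : ℕ → SU2) (B : ℕ) : lev H B 0 = bark fun _ : Unit => H 0 := rfl

theorem lev_succ (H : ℕ → SU2) (B j : ℕ) : lev H B (j + 1) = blk (lev H B j) (H (j + 1)) B := rfl

/-- The exceptional weight in one step of the collision recursion. -/
noncomputable def Rr (L : Law) (h : SU2) (i : ℕ) (ρ ζ : ℝ) : ℝ :=
  ∑ u : Pw L.Ω i, ∑ u' : Pw L.Ω i, ∑ x, ∑ x',
    if ζ < sz ((L.Y x')⁻¹ * L.Y x) ∧ sz ((h ^ i * pwY L.Y h i u')⁻¹ * ((L.Y x')⁻¹ * L.Y x) *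
      (h ^ i * pwY L.Y h i u)) ≤ ρ then pwR L.r i u * pwR L.r i u' * (L.r x * L.r x') else 0

/-- The exceptional weight of the whole ladder. -/
noncomputable def Rs (L : Law) (h : SU2) (B : ℕ) (lam ρ : ℝ) : ℝ :=
  ∑ i ∈ Finset.range B,
    Rr L h i (ρ * (1 + lam) ^ (B - 1 - i)) (lam * (ρ * (1 + lam) ^ (B - 1 - i)))

/-- The blocks of the commutator of three copies of `h⁻¹ X₁ h X₀`. -/
noncomputable def axl (L : Law) (a b c : L.Ω × L.Ω) : List (Bool × SU2) :=
  [(false, (L.Y a.2)⁻¹ * L.Y b.2), (true, L.Y b.1 * (L.Y a.1)⁻¹),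
    (false, (L.Y a.2)⁻¹ * L.Y c.2), (true, L.Y c.1 * (L.Y b.1)⁻¹),
    (false, (L.Y b.2)⁻¹ * L.Y a.2), (true, L.Y a.1 * (L.Y c.1)⁻¹),
    (false, (L.Y c.2)⁻¹ * L.Y a.2), (true, 1)]

/-- The exceptional weight of the axis estimate. -/
noncomputable def Ra (L : Law) (h : SU2) (ζ ρ : ℝ) : ℝ :=
  ∑ a : L.Ω × L.Ω, ∑ b : L.Ω × L.Ω, ∑ c : L.Ω × L.Ω,
    if ρ ^ 7 ≤ wt (axl L a b c) ∧ sz (wd h (axl L a b c)) ≤ 4 * ζ then
      L.r a.1 * L.r a.2 * (L.r b.1 * L.r b.2) * (L.r c.1 * L.r c.2) else 0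

/-- A tuple as a sequence. -/
noncomputable def ext {k : ℕ} (w : Fin (k + 1) → SU2) (n : ℕ) : SU2 :=
  if h : n < k + 1 then w ⟨n, h⟩ else 1

/-- The non-concentration property of a tuple. -/
def NC {k : ℕ} (w : Fin (k + 1) → SU2) : Prop :=
  ∃ B₀ : ℕ, ∀ B, B₀ ≤ B → ∀ i, i + 3 ≤ k →
    (lev (ext w) B (i + 3)).AX (exp (-(B : ℝ) ^ (i + 6))) (exp (-(B : ℝ) ^ i))

end Pool.Agent.P.MP_923088_al.AG
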