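import Pool.Agent.P.MP_923088_al.AG.Defs

/-!
Definitions for the almost-gap theorem, part 2: densities, patterns, trees of commutators.
-/

namespace Pool.Agent.P.MP_923088_al.AG

open MeasureTheory Real
open scoped Classical Quaternion

/-- The `q`-weight of an event at the point `a`. -/
noncomputable def qm (L : Law) (q : SU2 → L.Ω → ℝ) (a : SU2) (E : L.Ω → Prop) : ℝ :=
  ∑ ω, if E ω then q a ω else 0

/-- The pattern of a chain. -/
noncomputable def chainQ (p : SU2 → ℝ) (L₁ L₂ : Law) (q₁ : SU2 → L₁.Ω → ℝ)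
    (q₂ : SU2 → L₂.Ω → ℝ) (a : SU2) (ω : (L₁.chain L₂).Ω) : ℝ :=
  q₁ a ω.1 * q₂ (L₁.Y ω.1 * a) ω.2 / p (L₁.Y ω.1 * a)

/-- The weight of the class of `ω` seen from the end point `b`. -/
noncomputable def conjM (L₁ L₂ : Law) {X : Type} (χ : L₂.Ω → X) (Q : SU2 → (L₁.chain L₂).Ω → ℝ)
    (b : SU2) (ω₁ : L₁.Ω) (ω : L₂.Ω) : ℝ :=
  ∑ ω'', if χ ω'' = χ ω then Q ((L₂.Y ω'' * L₁.Y ω₁)⁻¹ * b) (ω₁, ω'') else 0

/-- The pattern of `conjRef` made from a pattern `Q` of the chain: the way back is a conditionally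
independent copy of the way there. -/
noncomputable def conjQ (L₁ L₂ : Law) {X : Type} (χ : L₂.Ω → X) (Q : SU2 → (L₁.chain L₂).Ω → ℝ)
    (a : SU2) (ω : (L₁.conjRef L₂ χ).Ω) : ℝ :=
  if χ ω.2.1 = χ ω.2.2 then
    Q a (ω.1, ω.2.1) * Q ((L₁.conjRef L₂ χ).Y ω * a) (ω.1, ω.2.2) /
      conjM L₁ L₂ χ Q (L₂.Y ω.2.1 * L₁.Y ω.1 * a) ω.1 ω.2.1
  else 0

/-- The pattern of a mixture. -/
noncomputable def mixQ {ι : Type} [Fintype ι] (L : ι → Law) (A : ∀ K, (L K).Ω → Prop)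
    (q : ∀ K, SU2 → (L K).Ω → ℝ) (a : SU2) (ω : (Law.mix L A).Ω) : ℝ :=
  if A ω.1 ω.2 then q ω.1 a ω.2 else 0

/-- A law with a pattern, a mode and two clocks. -/
structure Half where
  L : Law
  q : SU2 → L.Ω → ℝ
  X : Type
  χ : L.Ω → X
  τ : L.Ω → ℝ
  τm : L.Ω → ℝ

namespace Half

/-- The two values are at the distance announced by the clock, up to the factor `exp s`. -/
def In (H : Half) (s : ℝ) (ω ω' : H.L.Ω) : Prop :=
  exp (-(H.τ ω + s)) ≤ 2 * ds (H.L.Y ω) (H.L.Y ω') ∧ 2 * ds (H.L.Y ω) (H.L.Y ω') ≤ exp (-H.τ ω)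

/-- Most pairs are at the announced distance. -/
def Good (H : Half) (s ε : ℝ) : Prop := H.L.PP H.χ (fun ω ω' => ¬ H.In s ω ω') ≤ ε

end Half

/-- The commutator step. -/
@[reducible] noncomputable def node (p : SU2 → ℝ) (y : Half) (A : Law) (qa : SU2 → A.Ω → ℝ)
    (x : Half) : Half where
  L := (y.L.chain A).conjRef x.L x.χ
  q := conjQ (y.L.chain A) x.L x.χ (chainQ p (y.L.chain A) x.L (chainQ p y.L A y.q qa) x.q)
  X := y.X × A.Ω × x.L.Ω × x.L.Ω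
  χ ω := (y.χ ω.1.1, ω.1.2, ω.2.1, ω.2.2)
  τ ω := y.τ ω.1.1 + x.τ ω.2.1
  τm ω := y.τ ω.1.1 + x.τm ω.2.1

/-- The leaves of the binary tree of depth `M`. -/
def Idx : ℕ → Type
  | 0 => Unit
  | M + 1 => Idx M ⊕ Idx M

instance idxFin : ∀ M, Fintype (Idx M)
  | 0 => inferInstanceAs (Fintype Unit)
  | M + 1 => @instFintypeSum _ _ (idxFin M) (idxFin M)

/-- The full tree of commutators. -/
noncomputable def full (p : SU2 → ℝ) (l : Half) (A : Law) (qa : SU2 → A.Ω → ℝ) : ℕ → Half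
  | 0 => l
  | M + 1 => node p (full p l A qa M) A qa (full p l A qa M)

/-- The trees that stop at a given leaf. -/
noncomputable def fam (p : SU2 → ℝ) (l : Half) (A : Law) (qa : SU2 → A.Ω → ℝ) :
    ∀ M, Idx M → Half
  | 0, _ => l
  | M + 1, Sum.inl K => fam p l A qa M K
  | M + 1, Sum.inr K => node p (full p l A qa M) A qa (fam p l A qa M K)

/-- All real eigenvalues on homogeneous polynomials of degree `d` are at most `1 - γ`. -/
def Eig (L : Law) (γ : ℝ) (d : ℕ) : Prop :=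
  ∀ v ∈ V d, v ≠ 0 → ∀ lam : ℝ, L.Lc v = (lam : ℂ) • v → lam ≤ 1 - γ

variable [MeasurableSpace SU2]

/-- A probability density that is bounded above and below. -/
structure IsDens (m : Measure SU2) (p : SU2 → ℝ) : Prop where
  meas : Measurable p
  lo : ∃ c, 0 < c ∧ ∀ a, c ≤ p a
  hi : ∃ C, ∀ a, p a ≤ C
  int : ∫ a, p a ∂m = 1

/-- A way to move the density `p` to itself along the values of `L`. -/
structure IsPat (p : SU2 → ℝ) (L : Law) (q : SU2 → L.Ω → ℝ) : Prop where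
  ok : L.Ok
  meas : ∀ ω, Measurable fun a => q a ω
  nn : ∀ a ω, 0 ≤ q a ω
  ac : ∀ a ω, L.r ω = 0 → q a ω = 0
  fwd : ∀ a, ∑ ω, q a ω = p a
  bwd : ∀ b, ∑ ω, q ((L.Y ω)⁻¹ * b) ω = p b

/-- The relative entropy of a pattern. -/
noncomputable def cost (m : Measure SU2) (p : SU2 → ℝ) (L : Law) (q : SU2 → L.Ω → ℝ) : ℝ :=
  ∫ a, ∑ ω, q a ω * log (q a ω / (p a * L.r ω)) ∂m

/-- The probability of an event under a pattern. -/
noncomputable def Pq (m : Measure SU2) (L : Law) (q : SU2 → L.Ω → ℝ) (E : L.Ω → Prop) : ℝ :=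
  ∫ a, qm L q a E ∂m

/-- There is a pattern of cost at most `κ`. -/
def HasPat (m : Measure SU2) (p : SU2 → ℝ) (L : Law) (κ : ℝ) : Prop :=
  ∃ q, IsPat p L q ∧ cost m p L q ≤ κ

/-- The Hellinger displacement. -/
noncomputable def Hel (m : Measure SU2) (p : SU2 → ℝ) (w : SU2) : ℝ :=
  √(∫ a, (√(p (w * a)) - √(p a)) ^ 2 ∂m)

/-- The weight of a ball. -/
noncomputable def bm (m : Measure SU2) (p : SU2 → ℝ) (a : SU2) (ρ : ℝ) : ℝ := ∫ c in Bl a ρ, p c ∂m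

/-- The entropy at scale `ρ`. -/
noncomputable def Hent (m : Measure SU2) (p : SU2 → ℝ) (ρ : ℝ) : ℝ :=
  ∫ a, p a * log (bm m p a ρ) ∂m

/-- The normalised indicator function of a ball round the identity. -/
noncomputable def ind (m : Measure SU2) (δ : ℝ) : SU2 → ℝ :=
  (Bl 1 δ).indicator fun _ => 1 / m.real (Bl 1 δ)

/-- The data of a `Half` are consistent. -/
structure Half.Ok (p : SU2 → ℝ) (H : Half) : Prop where
  pat : IsPat p H.L H.q
  inv : ∀ ω ω', H.χ ω = H.χ ω' → H.τ ω = H.τ ω'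
  invm : ∀ ω ω', H.χ ω = H.χ ω' → H.τm ω = H.τm ω'
  nn : ∀ ω, 0 ≤ H.τm ω
  le : ∀ ω, H.τm ω ≤ H.τ ω

/-- A cheap pattern whose two copies differ by an element of size about `exp (-t)`. -/
def HasTop (m : Measure SU2) (p : SU2 → ℝ) (t Λ κ ε₁ ε₂ : ℝ) : Prop :=
  ∃ (L : Law) (q : SU2 → L.Ω → ℝ) (X : Type) (χ : L.Ω → X) (b₁ : L.Ω → Prop)
    (b₂ : L.Ω → L.Ω → Prop), IsPat p L q ∧ cost m p L q ≤ κ ∧ L.P b₁ ≤ ε₁ ∧ L.PP χ b₂ ≤ ε₂ ∧
    ∀ ω ω', ¬ b₁ ω → ¬ b₂ ω ω' →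
      exp (-(t + Λ)) ≤ 2 * ds (L.Y ω) (L.Y ω') ∧ 2 * ds (L.Y ω) (L.Y ω') ≤ exp (-t)

/-- The law is dominated by Haar measure at scale `ζ`. -/
def Mixes (m : Measure SU2) (L : Law) (ζ : ℝ) : Prop :=
  ∀ E E' : Set SU2, MeasurableSet E' → (∀ x ∈ E, Bl x ζ ⊆ E') →
    L.P (fun ω => L.Y ω ∈ E) ≤ 2 * m.real E' + ζ ^ 2

variable [BorelSpace SU2]

/-- The law contracts mean zero polynomials of degree at most `D`. -/
def Gap (m : Measure SU2) [IsProbabilityMeasure m] (L : Law) (γ : ℝ) (D : ℕ) :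
    Prop :=
  ∀ F ∈ W D, ∫ x, F x ∂m = 0 → ‖io m (L.Lc F)‖ ≤ (1 - γ) * ‖io m F‖

end Pool.Agent.P.MP_923088_al.AG
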