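import Pool.Agent.P.MP_923088_al.AG.Defs2
import Pool.Agent.P.MP_923088_al.AG.LawL

/-!
Row AG-Ent1. Basic entropy calculus.
Hints. All functions are bounded and measurable: `q ≤ p ≤ C`, `c ≤ p`, and `x log (x / y)` is bounded
for `0 ≤ x ≤ C`, `y` in a compact subset of the positive reals (and vanishes if `L.r ω = 0`).
`fenchel`: `x φ ≤ x log (x/y) - x + y exp φ` for `x ≥ 0`, `y > 0`. `int_shift` is left invariance of
Haar measure (`integral_mul_left_eq_self`) applied to each summand.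
-/

namespace Pool.Agent.P.MP_923088_al.AG

open MeasureTheory Real
open scoped Classical Quaternion

theorem qm_congr (L : Law) (q : SU2 → L.Ω → ℝ) (a : SU2) {E E' : L.Ω → Prop}
    (h : ∀ ω, q a ω ≠ 0 → (E ω ↔ E' ω)) : qm L q a E = qm L q a E' := by
  refine Finset.sum_congr rfl fun ω _ => ?_
  by_cases h0 : q a ω = 0
  · simp [h0]
  · simp only [h ω h0]

theorem xlog_ge {x y : ℝ} (hx : 0 ≤ x) (hy : 0 ≤ y) (h : y = 0 → x = 0) :
    x - y ≤ x * log (x / y) := by
  rcases hx.eq_or_lt with rfl | hx'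
  · simpa using hy
  · have hy' : 0 < y := lt_of_le_of_ne hy fun e => hx'.ne' (h e.symm)
    have h1 := Real.log_le_sub_one_of_pos (div_pos hy' hx')
    have h2 : log (x / y) = -log (y / x) := by rw [← Real.log_inv, inv_div]
    have h3 := mul_le_mul_of_nonneg_left h1 hx
    have h4 : x * (y / x - 1) = y - x := by field_simp
    rw [h2]
    linarith

theorem young {x y : ℝ} (hx : 0 ≤ x) (hy : 0 ≤ y) (h : y = 0 → x = 0) (φ : ℝ) :
    x * φ ≤ x * log (x / y) - x + y * exp φ := by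
  have he := exp_pos φ
  rcases hx.eq_or_lt with rfl | hx'
  · simpa using mul_nonneg hy he.le
  · have hy' : 0 < y := lt_of_le_of_ne hy fun e => hx'.ne' (h e.symm)
    have h1 := xlog_ge hx (mul_pos hy' he).le fun e => absurd e (mul_pos hy' he).ne'
    rw [← div_div, Real.log_div (div_pos hx' hy').ne' he.ne', Real.log_exp, mul_sub] at h1
    linarith

variable [MeasurableSpace SU2] [BorelSpace SU2] {m : Measure SU2} [m.IsHaarMeasure]
  [IsProbabilityMeasure m] {p : SU2 → ℝ}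

theorem integrable_of_bdd {f : SU2 → ℝ} (hf : Measurable f) {C : ℝ} (h : ∀ a, |f a| ≤ C) :
    Integrable f m :=   Integrable.of_bound hf.aestronglyMeasurable C (Filter.Eventually.of_forall h)

theorem IsDens.pos (hp : IsDens m p) (a : SU2) : 0 < p a := by
  obtain ⟨c, hc, h⟩ := hp.lo
  exact hc.trans_le (h a)
theorem IsDens.integrable (hp : IsDens m p) : Integrable p m := by
  obtain ⟨C, h⟩ := hp.hi
  exact integrable_of_bdd hp.meas (C := C) fun a => by rw [abs_of_pos (hp.pos a)]; exact h a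
theorem IsDens.log_bdd (hp : IsDens m p) : ∃ C, ∀ a, |log (p a)| ≤ C := by
  obtain ⟨c, hc, h⟩ := hp.lo
  obtain ⟨C, h'⟩ := hp.hi
  refine ⟨max |log c| |log C|, fun a => abs_le.2 ⟨?_, ?_⟩⟩
  · have h1 := Real.log_le_log hc (h a)
    have h2 := neg_abs_le (log c)
    have h3 := le_max_left |log c| |log C|
    linarith
  · exact (Real.log_le_log (hp.pos a) (h' a)).trans ((le_abs_self _).trans (le_max_right _ _))

theorem IsPat.le {L : Law} {q : SU2 → L.Ω → ℝ} (h : IsPat p L q) (a : SU2) (ω : L.Ω) :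
    q a ω ≤ p a := by
  rw [← h.fwd a]
  exact Finset.single_le_sum (f := fun ω => q a ω) (fun ω _ => h.nn a ω) (Finset.mem_univ ω)
theorem IsPat.le' {L : Law} {q : SU2 → L.Ω → ℝ} (h : IsPat p L q) (a : SU2) (ω : L.Ω) :
    q a ω ≤ p (L.Y ω * a) := by
  rw [← h.bwd]
  have h1 := Finset.single_le_sum (f := fun ω' => q ((L.Y ω')⁻¹ * (L.Y ω * a)) ω')
    (fun ω _ => h.nn _ ω) (Finset.mem_univ ω)
  simpa only [inv_mul_cancel_left] using h1
theorem IsPat.bdd (hp : IsDens m p) {L : Law} {q : SU2 → L.Ω → ℝ} (h : IsPat p L q) :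
    ∃ C, ∀ a ω, |q a ω| ≤ C := by
  obtain ⟨C, hC⟩ := hp.hi
  exact ⟨C, fun a ω => by rw [abs_of_nonneg (h.nn a ω)]; exact (h.le a ω).trans (hC a)⟩
theorem IsPat.integrable (hp : IsDens m p) {L : Law} {q : SU2 → L.Ω → ℝ} (h : IsPat p L q)
    (ω : L.Ω) : Integrable (fun a => q a ω) m := by
  obtain ⟨C, hC⟩ := h.bdd hp
  exact integrable_of_bdd (h.meas ω) fun a => hC a ω
/-- `q` times a bounded measurable function is integrable. -/
theorem IsPat.integrable_mul (hp : IsDens m p) {L : Law} {q : SU2 → L.Ω → ℝ} (h : IsPat p L q)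
    (ω : L.Ω) {f : SU2 → ℝ} (hf : Measurable f) {C : ℝ} (hC : ∀ a, |f a| ≤ C) :
    Integrable (fun a => q a ω * f a) m := by
  obtain ⟨C', hC'⟩ := h.bdd hp
  refine integrable_of_bdd ((h.meas ω).mul hf) (C := C' * C) fun a => ?_
  rw [abs_mul]
  exact mul_le_mul (hC' a ω) (hC a) (abs_nonneg _) ((abs_nonneg _).trans (hC' a ω))
theorem Ent1_ac (hp : IsDens m p) {L : Law} {q : SU2 → L.Ω → ℝ} (h : IsPat p L q) (a : SU2)
    (ω : L.Ω) (h0 : p a * L.r ω = 0) : q a ω = 0 :=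
  h.ac a ω ((mul_eq_zero.1 h0).resolve_left (hp.pos a).ne')
theorem IsPat.cost_bdd (hp : IsDens m p) {L : Law} {q : SU2 → L.Ω → ℝ} (h : IsPat p L q) :
    ∃ C, ∀ a ω, |q a ω * log (q a ω / (p a * L.r ω))| ≤ C := by
  obtain ⟨C, hC⟩ := hp.hi
  have hC0 : 0 ≤ C := (hp.pos 1).le.trans (hC 1)
  have hn : ∀ ω, 0 ≤ C * L.r ω + C / L.r ω := fun ω =>
    add_nonneg (mul_nonneg hC0 (h.ok.nn ω)) (div_nonneg hC0 (h.ok.nn ω))
  refine ⟨∑ ω, (C * L.r ω + C / L.r ω), fun a ω => le_trans ?_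
    (Finset.single_le_sum (fun ω _ => hn ω) (Finset.mem_univ ω))⟩
  have hr := h.ok.nn ω
  have hq := h.nn a ω
  have hpa := hp.pos a
  have h1 : 0 ≤ C / L.r ω := div_nonneg hC0 hr
  have h2 : 0 ≤ C * L.r ω := mul_nonneg hC0 hr
  refine abs_le.2 ⟨?_, ?_⟩
  · have h3 := xlog_ge hq (mul_nonneg hpa.le hr) (Ent1_ac hp h a ω)
    have h4 := mul_le_mul_of_nonneg_right (hC a) hr
    linarith
  · rcases hr.eq_or_lt with h0 | hr'
    · rw [h.ac a ω h0.symm, zero_mul]
      exact hn ω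
    · have h3 : log (q a ω / (p a * L.r ω)) ≤ 1 / L.r ω := by
        refine (Real.log_le_self (div_nonneg hq (mul_nonneg hpa.le hr))).trans ?_
        rw [← div_div]
        exact div_le_div_of_nonneg_right ((div_le_one hpa).2 (h.le a ω)) hr
      have h4 := mul_le_mul_of_nonneg_left h3 hq
      have h5 : q a ω * (1 / L.r ω) ≤ C / L.r ω := by
        rw [mul_one_div]
        exact div_le_div_of_nonneg_right ((h.le a ω).trans (hC a)) hr
      linarith
theorem IsPat.integrable_cost (hp : IsDens m p) {L : Law} {q : SU2 → L.Ω → ℝ} (h : IsPat p L q)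
    (ω : L.Ω) : Integrable (fun a => q a ω * log (q a ω / (p a * L.r ω))) m := by
  obtain ⟨C, hC⟩ := h.cost_bdd hp
  exact integrable_of_bdd ((h.meas ω).mul ((h.meas ω).div (hp.meas.mul_const _)).log)
    fun a => hC a ω
theorem IsPat.cost_eq (hp : IsDens m p) {L : Law} {q : SU2 → L.Ω → ℝ} (h : IsPat p L q) :
    cost m p L q = ∑ ω, ∫ a, q a ω * log (q a ω / (p a * L.r ω)) ∂m :=   integral_finsetSum _ fun ω _ => h.integrable_cost hp ω

/-- The starting point has density `p`. -/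
theorem IsPat.int_fwd (hp : IsDens m p) {L : Law} {q : SU2 → L.Ω → ℝ} (h : IsPat p L q)
    {f : SU2 → ℝ} (hf : Measurable f) {C : ℝ} (hC : ∀ a, |f a| ≤ C) :
    ∑ ω, ∫ a, q a ω * f a ∂m = ∫ a, p a * f a ∂m := by
  rw [← integral_finsetSum _ fun ω _ => h.integrable_mul hp ω hf hC]
  refine integral_congr_ae (Filter.Eventually.of_forall fun a => ?_)
  simp only [← Finset.sum_mul, h.fwd]
/-- The end point has density `p`. -/
theorem IsPat.int_bwd (hp : IsDens m p) {L : Law} {q : SU2 → L.Ω → ℝ} (h : IsPat p L q)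
    {f : SU2 → ℝ} (hf : Measurable f) {C : ℝ} (hC : ∀ a, |f a| ≤ C) :
    ∑ ω, ∫ a, q a ω * f (L.Y ω * a) ∂m = ∫ b, p b * f b ∂m := by
  obtain ⟨C', hC'⟩ := h.bdd hp
  have h1 : ∀ ω, ∫ a, q a ω * f (L.Y ω * a) ∂m = ∫ b, q ((L.Y ω)⁻¹ * b) ω * f b ∂m := by
    intro ω
    rw [← integral_mul_left_eq_self (fun b => q ((L.Y ω)⁻¹ * b) ω * f b) (L.Y ω)]
    simp only [inv_mul_cancel_left]
  have h2 : ∀ ω, Integrable (fun b => q ((L.Y ω)⁻¹ * b) ω * f b) m := by
    intro ω
    refine integrable_of_bdd (((h.meas ω).comp (measurable_const_mul _)).mul hf)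
      (C := C' * C) fun a => ?_
    rw [abs_mul]
    exact mul_le_mul (hC' _ ω) (hC a) (abs_nonneg _) ((abs_nonneg _).trans (hC' a ω))
  simp only [h1]
  rw [← integral_finsetSum _ fun ω _ => h2 ω]
  refine integral_congr_ae (Filter.Eventually.of_forall fun a => ?_)
  simp only [← Finset.sum_mul, h.bwd]

theorem Ent1_total (hp : IsDens m p) {L : Law} {q : SU2 → L.Ω → ℝ} (h : IsPat p L q) :
    ∑ ω, ∫ a, q a ω ∂m = 1 := by
  rw [← integral_finsetSum _ fun ω _ => h.integrable hp ω, ← hp.int]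
  simp only [h.fwd]

theorem Ent1_const (hp : IsDens m p) (r c : ℝ) : ∫ a, p a * r * c ∂m = r * c := by
  rw [integral_mul_const, integral_mul_const, hp.int, one_mul]

theorem fenchel (hp : IsDens m p) {L : Law} {q : SU2 → L.Ω → ℝ} (h : IsPat p L q)
    {φ : SU2 → L.Ω → ℝ} (hφ : ∀ ω, Measurable fun a => φ a ω) {C : ℝ} (hC : ∀ a ω, |φ a ω| ≤ C) :
    ∑ ω, ∫ a, q a ω * φ a ω ∂m ≤
      cost m p L q + ∑ ω, ∫ a, p a * L.r ω * exp (φ a ω) ∂m - 1 := by
  obtain ⟨C', hC'⟩ := hp.hi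
  have hi : ∀ ω, Integrable (fun a => p a * L.r ω * exp (φ a ω)) m := by
    intro ω
    refine integrable_of_bdd ((hp.meas.mul_const _).mul (hφ ω).exp)
      (C := C' * L.r ω * exp C) fun a => ?_
    have h1 := h.ok.nn ω
    have h2 := (hp.pos a).le
    rw [abs_of_nonneg (by positivity)]
    exact mul_le_mul (mul_le_mul_of_nonneg_right (hC' a) h1)
      (exp_le_exp.2 ((le_abs_self _).trans (hC a ω))) (exp_pos _).le
      (mul_nonneg (h2.trans (hC' a)) h1)
  have h1 : ∀ ω, ∫ a, q a ω * φ a ω ∂m ≤ ∫ a, q a ω * log (q a ω / (p a * L.r ω)) ∂m -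
      ∫ a, q a ω ∂m + ∫ a, p a * L.r ω * exp (φ a ω) ∂m := by
    intro ω
    have hs : Integrable (fun a => q a ω * log (q a ω / (p a * L.r ω)) - q a ω) m :=
      (h.integrable_cost hp ω).sub (h.integrable hp ω)
    rw [← integral_sub (h.integrable_cost hp ω) (h.integrable hp ω), ← integral_add hs (hi ω)]
    refine integral_mono (h.integrable_mul hp ω (hφ ω) fun a => hC a ω) (hs.add (hi ω))
      fun a => ?_
    exact young (h.nn a ω) (mul_nonneg (hp.pos a).le (h.ok.nn ω)) (Ent1_ac hp h a ω) _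
  have h2 := Finset.sum_le_sum fun ω (_ : ω ∈ Finset.univ) => h1 ω
  rw [Finset.sum_add_distrib, Finset.sum_sub_distrib, ← h.cost_eq hp, Ent1_total hp h] at h2
  linarith

theorem cost_nonneg (hp : IsDens m p) {L : Law} {q : SU2 → L.Ω → ℝ} (h : IsPat p L q) :
    0 ≤ cost m p L q := by
  have h1 := fenchel hp h (φ := fun _ _ => 0) (fun _ => measurable_const) (C := 0)
    fun _ _ => abs_zero.le
  simp only [Ent1_const hp] at h1
  simp only [mul_zero, integral_zero, Finset.sum_const_zero, exp_zero, mul_one] at h1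
  have h2 := h.ok.le
  linarith

theorem IsPat.measurable_qm {L : Law} {q : SU2 → L.Ω → ℝ} (h : IsPat p L q) (E : L.Ω → Prop) :
    Measurable fun a => qm L q a E := by
  refine Finset.measurable_sum _ fun ω _ => ?_
  split_ifs
  · exact h.meas ω
  · exact measurable_const
theorem IsPat.qm_nonneg {L : Law} {q : SU2 → L.Ω → ℝ} (h : IsPat p L q) (a : SU2)
    (E : L.Ω → Prop) : 0 ≤ qm L q a E := by
  refine Finset.sum_nonneg fun ω _ => ?_
  split_ifs
  · exact h.nn a ω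
  · exact le_rfl
theorem IsPat.qm_le {L : Law} {q : SU2 → L.Ω → ℝ} (h : IsPat p L q) (a : SU2)
    (E : L.Ω → Prop) : qm L q a E ≤ p a := by
  rw [← h.fwd a]
  refine Finset.sum_le_sum fun ω _ => ?_
  split_ifs
  · exact le_rfl
  · exact h.nn a ω
theorem IsPat.qm_add_not {L : Law} {q : SU2 → L.Ω → ℝ} (h : IsPat p L q) (a : SU2)
    (E : L.Ω → Prop) : qm L q a E + qm L q a (fun ω => ¬ E ω) = p a := by
  rw [← h.fwd a, qm, qm, ← Finset.sum_add_distrib]
  refine Finset.sum_congr rfl fun ω _ => ?_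
  by_cases hE : E ω <;> simp [hE]
theorem Pq_eq (hp : IsDens m p) {L : Law} {q : SU2 → L.Ω → ℝ} (h : IsPat p L q)
    (E : L.Ω → Prop) : Pq m L q E = ∑ ω, if E ω then ∫ a, q a ω ∂m else 0 := by
  unfold Pq qm
  rw [integral_finsetSum _ fun ω _ => ?_]
  · refine Finset.sum_congr rfl fun ω _ => ?_
    by_cases hE : E ω <;> simp [hE]
  · by_cases hE : E ω
    · simpa only [if_pos hE] using h.integrable hp ω
    · simp only [if_neg hE]
      exact integrable_zero _ _ _
theorem Pq_nonneg {L : Law} {q : SU2 → L.Ω → ℝ} (h : IsPat p L q) (E : L.Ω → Prop) :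
    0 ≤ Pq m L q E := integral_nonneg fun a => h.qm_nonneg a E
theorem Pq_mono (hp : IsDens m p) {L : Law} {q : SU2 → L.Ω → ℝ} (h : IsPat p L q)
    {E E' : L.Ω → Prop} (hE : ∀ ω, E ω → E' ω) : Pq m L q E ≤ Pq m L q E' := by
  rw [Pq_eq hp h, Pq_eq hp h]
  refine Finset.sum_le_sum fun ω _ => ?_
  have h0 : 0 ≤ ∫ a, q a ω ∂m := integral_nonneg fun a => h.nn a ω
  by_cases h1 : E ω
  · rw [if_pos h1, if_pos (hE ω h1)]
  · rw [if_neg h1]
    split_ifs
    · exact h0
    · exact le_rfl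
theorem Pq_or (hp : IsDens m p) {L : Law} {q : SU2 → L.Ω → ℝ} (h : IsPat p L q)
    (E E' : L.Ω → Prop) : Pq m L q (fun ω => E ω ∨ E' ω) ≤ Pq m L q E + Pq m L q E' := by
  rw [Pq_eq hp h, Pq_eq hp h, Pq_eq hp h, ← Finset.sum_add_distrib]
  refine Finset.sum_le_sum fun ω _ => ?_
  have h0 : 0 ≤ ∫ a, q a ω ∂m := integral_nonneg fun a => h.nn a ω
  by_cases h1 : E ω <;> by_cases h2 : E' ω <;> simp [h1, h2, h0]
theorem Pq_add_not (hp : IsDens m p) {L : Law} {q : SU2 → L.Ω → ℝ} (h : IsPat p L q)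
    (E : L.Ω → Prop) : Pq m L q E + Pq m L q (fun ω => ¬ E ω) = 1 := by
  rw [Pq_eq hp h, Pq_eq hp h, ← Finset.sum_add_distrib, ← Ent1_total hp h]
  refine Finset.sum_congr rfl fun ω _ => ?_
  by_cases hE : E ω <;> simp [hE]
/-- `fenchel` with `φ = X` on `E` and `0` elsewhere. -/
theorem Pq_le (hp : IsDens m p) {L : Law} {q : SU2 → L.Ω → ℝ} (h : IsPat p L q)
    {E : L.Ω → Prop} {X : ℝ} (hX : 0 < X) (hE : L.P E ≤ exp (-X)) :
    Pq m L q E ≤ (cost m p L q + 1) / X := by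
  have h1 := fenchel hp h (φ := fun _ ω => if E ω then X else 0) (fun _ => measurable_const)
    (C := X) fun _ ω => by
      split_ifs
      · exact (abs_of_pos hX).le
      · exact abs_zero.le.trans hX.le
  have h2 : ∑ ω, ∫ a, q a ω * (if E ω then X else 0) ∂m = Pq m L q E * X := by
    rw [Pq_eq hp h, Finset.sum_mul]
    refine Finset.sum_congr rfl fun ω _ => ?_
    rw [integral_mul_const]
    by_cases hE : E ω <;> simp [hE]
  have h3 : ∑ ω, ∫ a, p a * L.r ω * exp (if E ω then X else 0) ∂m ≤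
      ∑ ω, L.r ω + L.P E * exp X := by
    rw [Law.P, Finset.sum_mul, ← Finset.sum_add_distrib]
    refine Finset.sum_le_sum fun ω _ => ?_
    rw [Ent1_const hp]
    have h0 := h.ok.nn ω
    by_cases hE : E ω <;> simp [hE, h0]
  have h4 : L.P E * exp X ≤ 1 := by
    refine (mul_le_mul_of_nonneg_right hE (exp_pos X).le).trans ?_
    rw [← exp_add, neg_add_cancel, exp_zero]
  have h5 := h.ok.le
  rw [le_div_iff₀ hX]
  linarith

theorem HasPat.mono {L : Law} {κ κ' : ℝ} (h : HasPat m p L κ) (hk : κ ≤ κ') :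
    HasPat m p L κ' := by
  obtain ⟨q, h1, h2⟩ := h
  exact ⟨q, h1, h2.trans hk⟩
theorem hasPat_one (hp : IsDens m p) : HasPat m p Law.one 0 := by
  refine ⟨fun a _ => p a, ⟨Law.ok_one, fun _ => hp.meas, fun a _ => (hp.pos a).le,
    fun _ _ h => absurd h one_ne_zero, fun a => by simp, fun b => by simp⟩, le_of_eq ?_⟩
  have h1 : ∀ a, p a / (p a * 1) = 1 := fun a => by rw [mul_one, div_self (hp.pos a).ne']
  simp only [cost, h1, log_one, mul_zero, Finset.sum_const_zero, integral_zero]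
/-- Only the values matter. -/
theorem HasPat.congr {L : Law} {κ : ℝ} (h : HasPat m p L κ) {Y : L.Ω → SU2}
    (hY : ∀ ω, Y ω = L.Y ω) : HasPat m p ⟨L.Ω, L.r, Y⟩ κ := by
  obtain rfl : Y = L.Y := funext hY
  exact h

end Pool.Agent.P.MP_923088_al.AG
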