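import Pool.Agent.P.MP_923088_al.AG.Geo1
import Pool.Agent.P.MP_923088_al.AG.Disc

/-!
Row AG-Haar. Measures of bands, balls and caps, from `disc_law`.
Hints. Areas: compare with rectangles (`Complex.volume_preserving_equiv_real_prod`, or
`Complex.volume_ball`, `Complex.volume_closedBall` for annuli). `band_hc`: the strip meets the disc
inside a rectangle of area `2 ℓ`. `Bl 1 ρ = {1 - ρ^2/2 ≤ hc}`: with `h = ρ^2/2` the segment lies in
`[1-h,1] × [-ρ,ρ]` and contains `[1-h,1-h/2] × [-0.66ρ,0.66ρ]`. `band_sq`: `|a|^2` is uniform on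
`[0,1]`. `band_ip`: by `exists_conj` and invariance on both sides reduce to diagonal `x`, `w`; then
`ip (g⁻¹ x g) w = Im z * Im z' * (2 |g 0 0|^2 - 1)`. `cap`: if `g₀` is in the set, compare with
`y₀ = g₀⁻¹ x g₀`: `ds ^ 2 = 2 sz x ^ 2 - 2 ip ≤ 4 ρ^2`. `alpha`, `gamma`: with `l = dg I`,
`Im (y 0 0) = ip y l`, `|y 0 0|^2 = hc^2 + ip^2`, `|y 1 0|^2 = sz^2 - ip^2`.
-/

namespace Pool.Agent.P.MP_923088_al.AG

open MeasureTheory Real
open scoped Classical Quaternion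

/-- Rectangles. -/
def Haar_R (a b c d : ℝ) : Set ℂ := {z | a ≤ z.re ∧ z.re ≤ b ∧ c ≤ z.im ∧ z.im ≤ d}

theorem Haar_R_eq (a b c d : ℝ) :
    Haar_R a b c d = Complex.measurableEquivRealProd ⁻¹' (Set.Icc a b ×ˢ Set.Icc c d) := by
  ext z
  exact ⟨fun h => ⟨⟨h.1, h.2.1⟩, h.2.2⟩, fun h => ⟨h.1.1, h.1.2, h.2⟩⟩

theorem Haar_R_vol (a b c d : ℝ) :
    volume (Haar_R a b c d) = ENNReal.ofReal (b - a) * ENNReal.ofReal (d - c) := by
  rw [Haar_R_eq, Complex.volume_preserving_equiv_real_prod.measure_preimage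
    (measurableSet_Icc.prod measurableSet_Icc).nullMeasurableSet, Measure.volume_eq_prod,
    Measure.prod_prod, Real.volume_Icc, Real.volume_Icc]

theorem Haar_R_real {a b c d : ℝ} (hab : a ≤ b) (hcd : c ≤ d) :
    volume.real (Haar_R a b c d) = (b - a) * (d - c) := by
  rw [Measure.real, Haar_R_vol, ENNReal.toReal_mul, ENNReal.toReal_ofReal (sub_nonneg.2 hab),
    ENNReal.toReal_ofReal (sub_nonneg.2 hcd)]

theorem Haar_R_ne (a b c d : ℝ) : volume (Haar_R a b c d) ≠ ⊤ := by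
  rw [Haar_R_vol]
  exact ENNReal.mul_ne_top ENNReal.ofReal_ne_top ENNReal.ofReal_ne_top

theorem Haar_ball_real {r : ℝ} (hr : 0 ≤ r) : volume.real (Metric.ball (0 : ℂ) r) = r ^ 2 * π := by
  rw [Measure.real, Complex.volume_ball, ENNReal.toReal_mul, ENNReal.toReal_pow,
    ENNReal.toReal_ofReal hr, ENNReal.coe_toReal, NNReal.coe_real_pi]

theorem Haar_cball_real {r : ℝ} (hr : 0 ≤ r) :
    volume.real (Metric.closedBall (0 : ℂ) r) = r ^ 2 * π := by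
  rw [Measure.real, Complex.volume_closedBall, ENNReal.toReal_mul, ENNReal.toReal_pow,
    ENNReal.toReal_ofReal hr, ENNReal.coe_toReal, NNReal.coe_real_pi]

theorem Haar_disc {z : ℂ} : z ∈ Metric.closedBall (0 : ℂ) 1 ↔ z.re ^ 2 + z.im ^ 2 ≤ 1 := by
  rw [mem_closedBall_zero_iff, ← sq_le_one_iff₀ (norm_nonneg z), Complex.sq_norm,
    Complex.normSq_apply, sq, sq]

theorem Haar_Bl_one {ρ : ℝ} (h0 : 0 ≤ ρ) :
    Bl 1 ρ = {x : SU2 | x.1 0 0 ∈ {z : ℂ | 1 - ρ ^ 2 / 2 ≤ z.re}} := by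
  ext y
  change ds 1 y ≤ ρ ↔ 1 - ρ ^ 2 / 2 ≤ (y.1 0 0).re
  rw [← pow_le_pow_iff_left₀ (ds_nonneg _ _) h0 two_ne_zero, ds_comm, ds_one_sq, hc_eq_re]
  constructor <;> intro h <;> linarith

theorem Haar_sz_dg (z : ℂ) (hz : z * (starRingEnd ℂ) z = 1) : sz (dg z hz) = |z.im| := by
  refine (pow_left_inj₀ (sz_nonneg _) (abs_nonneg _) two_ne_zero).1 ?_
  rw [sz_sq_entries, sq_abs]
  simp [dg, mkU_00, mkU_10]

theorem Haar_ip_dg (y : SU2) (z : ℂ) (hz : z * (starRingEnd ℂ) z = 1) :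
    ip y (dg z hz) = (y.1 0 0).im * z.im := by
  rw [ip_entries]
  simp [dg, mkU_00, mkU_10]

theorem Haar_conj_im (g : SU2) (z : ℂ) (hz : z * (starRingEnd ℂ) z = 1) :
    ((g⁻¹ * dg z hz * g).1 0 0).im = z.im * (2 * ‖g.1 0 0‖ ^ 2 - 1) := by
  have h1 : ‖g.1 0 0‖ ^ 2 = (qt g).re ^ 2 + (qt g).imI ^ 2 := by
    rw [Complex.sq_norm, Complex.normSq_apply, Geo1_re, Geo1_imI]
    ring
  have h2 := Geo1_unit g
  have a0 : (qt (dg z hz)).re = z.re := rfl
  have a1 : (qt (dg z hz)).imI = z.im := rfl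
  have a2 : (qt (dg z hz)).imJ = 0 := rfl
  have a3 : (qt (dg z hz)).imK = 0 := neg_zero
  rw [← Geo1_imI, qt_mul, qt_mul, qt_inv, h1]
  simp only [Quaternion.re_mul, Quaternion.imI_mul, Quaternion.imJ_mul, Quaternion.imK_mul,
    Quaternion.re_star, Quaternion.imI_star, Quaternion.imJ_star, Quaternion.imK_star, a0, a1, a2,
    a3]
  linear_combination (-z.im) * h2

theorem Haar_I : Complex.I * (starRingEnd ℂ) Complex.I = 1 := by simp

theorem Haar_sz_I : sz (dg Complex.I Haar_I) = 1 := by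
  rw [Haar_sz_dg]
  simp

theorem Haar_ip_I (y : SU2) : ip y (dg Complex.I Haar_I) = (y.1 0 0).im := by
  rw [Haar_ip_dg]
  simp

theorem Haar_hc_conj (g x : SU2) : hc (g⁻¹ * x * g) = hc x := by
  rw [hc_comm, ← mul_assoc, mul_inv_cancel, one_mul]

variable [MeasurableSpace SU2] [BorelSpace SU2] (m : Measure SU2) [m.IsHaarMeasure]
  [IsProbabilityMeasure m]

theorem Haar_le {A : Set ℂ} (hA : MeasurableSet A) {a b c d : ℝ} (hab : a ≤ b) (hcd : c ≤ d)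
    (h : A ∩ Metric.closedBall 0 1 ⊆ Haar_R a b c d) :
    m.real {x : SU2 | x.1 0 0 ∈ A} ≤ (b - a) * (d - c) / π := by
  rw [disc_law m hA, ← Haar_R_real hab hcd]
  exact div_le_div_of_nonneg_right (measureReal_mono h (Haar_R_ne a b c d)) pi_pos.le

theorem Haar_ge {A : Set ℂ} (hA : MeasurableSet A) {a b c d : ℝ} (hab : a ≤ b) (hcd : c ≤ d)
    (h : Haar_R a b c d ⊆ A ∩ Metric.closedBall 0 1) :
    (b - a) * (d - c) / π ≤ m.real {x : SU2 | x.1 0 0 ∈ A} := by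
  rw [disc_law m hA, ← Haar_R_real hab hcd]
  exact div_le_div_of_nonneg_right (measureReal_mono h
    (measure_ne_top_of_subset Set.inter_subset_right measure_closedBall_lt_top.ne)) pi_pos.le

theorem Haar_inv (h k : SU2) (P : SU2 → Prop) :
    m.real {g : SU2 | P (h * g * k)} = m.real {g : SU2 | P g} := by
  have h1 : {g : SU2 | P (h * g * k)} =
      (fun g => h * g) ⁻¹' ((fun g => g * k) ⁻¹' {g : SU2 | P g}) := rfl
  rw [h1, Measure.real, Measure.real, measure_preimage_mul, measure_preimage_mul_right]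

theorem band_hc (α : ℝ) {l : ℝ} (hl : 0 ≤ l) :
    m.real {x : SU2 | α ≤ hc x ∧ hc x ≤ α + l} ≤ l := by
  have hA : MeasurableSet {z : ℂ | α ≤ z.re ∧ z.re ≤ α + l} :=
    (measurableSet_le measurable_const Complex.measurable_re).inter
      (measurableSet_le Complex.measurable_re measurable_const)
  have h := Haar_le m hA (a := α) (b := α + l) (c := -1) (d := 1) (by linarith) (by norm_num)
    fun z hz => by
      have h1 := Haar_disc.1 hz.2
      have h2 : z.im ^ 2 ≤ 1 ^ 2 := by nlinarith [sq_nonneg z.re]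
      have h3 := abs_le_of_sq_le_sq' h2 zero_le_one
      exact ⟨hz.1.1, hz.1.2, h3.1, h3.2⟩
  simp only [hc_eq_re]
  refine le_trans h ?_
  rw [div_le_iff₀ pi_pos]
  nlinarith [pi_gt_three]

set_option linter.unusedSectionVars false in
theorem real_Bl (x : SU2) (ρ : ℝ) : m.real (Bl x ρ) = m.real (Bl 1 ρ) := by
  have h : Bl x ρ = (fun y => x⁻¹ * y) ⁻¹' Bl 1 ρ := by
    ext y
    change ds x y ≤ ρ ↔ ds 1 (x⁻¹ * y) ≤ ρ
    rw [← ds_mul_left x⁻¹ x y, inv_mul_cancel]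
  rw [h, Measure.real, Measure.real, measure_preimage_mul]

theorem ball_upper (x : SU2) {ρ : ℝ} (h0 : 0 ≤ ρ) : m.real (Bl x ρ) ≤ ρ ^ 3 := by
  rw [real_Bl, Haar_Bl_one h0]
  have h := Haar_le m (measurableSet_le measurable_const Complex.measurable_re)
    (A := {z : ℂ | 1 - ρ ^ 2 / 2 ≤ z.re}) (a := 1 - ρ ^ 2 / 2) (b := 1) (c := -ρ) (d := ρ)
    (by nlinarith [sq_nonneg ρ]) (by linarith) fun z hz => by
      have h1 := Haar_disc.1 hz.2
      have h2 : 1 - ρ ^ 2 / 2 ≤ z.re := hz.1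
      have h3 : z.im ^ 2 ≤ ρ ^ 2 := by nlinarith [sq_nonneg (1 - z.re)]
      have h4 := abs_le_of_sq_le_sq' h3 h0
      exact ⟨h2, by nlinarith [sq_nonneg z.im, sq_nonneg (1 - z.re)], h4.1, h4.2⟩
  refine h.trans ?_
  rw [div_le_iff₀ pi_pos]
  nlinarith [pi_gt_three, pow_nonneg h0 3]

theorem ball_lower (x : SU2) {ρ : ℝ} (h0 : 0 ≤ ρ) (h1 : ρ ≤ 1) :
    ρ ^ 3 / 13 ≤ m.real (Bl x ρ) := by
  rw [real_Bl, Haar_Bl_one h0]
  have hρ : ρ ^ 2 ≤ 1 := pow_le_one₀ h0 h1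
  have h := Haar_ge m (measurableSet_le measurable_const Complex.measurable_re)
    (A := {z : ℂ | 1 - ρ ^ 2 / 2 ≤ z.re}) (a := 1 - ρ ^ 2 / 2) (b := 1 - ρ ^ 2 / 4)
    (c := -(ρ / 2)) (d := ρ / 2) (by nlinarith [sq_nonneg ρ]) (by linarith) fun z hz => by
      obtain ⟨a1, a2, a3, a4⟩ := hz
      refine ⟨a1, Haar_disc.2 ?_⟩
      have b1 : z.re ^ 2 ≤ (1 - ρ ^ 2 / 4) ^ 2 := pow_le_pow_left₀ (by linarith) a2 2
      have b2 : z.im ^ 2 ≤ (ρ / 2) ^ 2 := sq_le_sq' a3 a4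
      nlinarith [sq_nonneg ρ]
  refine le_trans ?_ h
  rw [le_div_iff₀ pi_pos]
  nlinarith [pi_lt_d2, pow_nonneg h0 3]

theorem ball_pos (x : SU2) {ρ : ℝ} (h0 : 0 < ρ) : 0 < m.real (Bl x ρ) := by
  have h1 : 0 < min ρ 1 := lt_min h0 one_pos
  have h2 := ball_lower m x h1.le (min_le_right ρ 1)
  have h3 : m.real (Bl x (min ρ 1)) ≤ m.real (Bl x ρ) :=
    measureReal_mono fun y hy => le_trans (α := ℝ) hy (min_le_left ρ 1)
  exact lt_of_lt_of_le (by positivity) (h2.trans h3)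

theorem band_sq (α : ℝ) {l : ℝ} (hl : 0 ≤ l) :
    m.real {x : SU2 | α ≤ ‖x.1 0 0‖ ^ 2 ∧ ‖x.1 0 0‖ ^ 2 ≤ α + l} ≤ l := by
  have hm : Measurable fun z : ℂ => ‖z‖ ^ 2 := measurable_norm.pow_const 2
  have hA : MeasurableSet {z : ℂ | α ≤ ‖z‖ ^ 2 ∧ ‖z‖ ^ 2 ≤ α + l} :=
    (measurableSet_le measurable_const hm).inter (measurableSet_le hm measurable_const)
  have h1 : {z : ℂ | α ≤ ‖z‖ ^ 2 ∧ ‖z‖ ^ 2 ≤ α + l} ∩ Metric.closedBall 0 1 ⊆
      Metric.closedBall 0 √(α + l) \ Metric.ball 0 √α := by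
    intro z hz
    refine ⟨mem_closedBall_zero_iff.2 (Real.le_sqrt_of_sq_le hz.1.2), fun h => ?_⟩
    exact not_le.2 (mem_ball_zero_iff.1 h) (Real.sqrt_le_iff.2 ⟨norm_nonneg z, hz.1.1⟩)
  have h2 : Metric.ball (0 : ℂ) √α ⊆ Metric.closedBall 0 √(α + l) :=
    Metric.ball_subset_closedBall.trans
      (Metric.closedBall_subset_closedBall (Real.sqrt_le_sqrt (by linarith)))
  have h3 := measureReal_mono (μ := volume) h1
    (measure_ne_top_of_subset Set.sdiff_subset measure_closedBall_lt_top.ne)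
  rw [measureReal_sdiff h2 measurableSet_ball measure_closedBall_lt_top.ne,
    Haar_ball_real (Real.sqrt_nonneg _), Haar_cball_real (Real.sqrt_nonneg _), Real.sq_sqrt',
    Real.sq_sqrt', ← sub_mul] at h3
  have h4 : max (α + l) 0 - max α 0 ≤ l := by
    have a1 := le_max_left α 0
    have a2 := le_max_right α 0
    have a3 : max (α + l) 0 ≤ max α 0 + l := max_le (by linarith) (by linarith)
    linarith
  refine le_trans (le_of_eq (disc_law m hA)) ?_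
  rw [div_le_iff₀ pi_pos]
  exact h3.trans (mul_le_mul_of_nonneg_right h4 pi_pos.le)

theorem Haar_band {c : ℝ} (hc : c ≠ 0) (α : ℝ) {l : ℝ} (hl : 0 ≤ l) :
    m.real {g : SU2 | α ≤ c * (2 * ‖g.1 0 0‖ ^ 2 - 1) ∧ c * (2 * ‖g.1 0 0‖ ^ 2 - 1) ≤ α + l} ≤
      l / (2 * |c|) := by
  have key : ∀ c : ℝ, 0 < c → ∀ α : ℝ, m.real {g : SU2 | α ≤ c * (2 * ‖g.1 0 0‖ ^ 2 - 1) ∧
      c * (2 * ‖g.1 0 0‖ ^ 2 - 1) ≤ α + l} ≤ l / (2 * c) := by
    intro c hc α
    refine le_trans (measureReal_mono fun g hg => ?_)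
      (band_sq m ((α + c) / (2 * c)) (l := l / (2 * c)) (by positivity))
    obtain ⟨h1, h2⟩ := hg
    constructor
    · rw [div_le_iff₀ (by positivity)]
      linarith
    · rw [← add_div, le_div_iff₀ (by positivity)]
      linarith
  rcases hc.lt_or_gt with h | h
  · rw [abs_of_neg h]
    refine le_trans (measureReal_mono fun g hg => ?_) (key (-c) (neg_pos.2 h) (-(α + l)))
    obtain ⟨h1, h2⟩ := hg
    constructor <;> linarith
  · rw [abs_of_pos h]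
    exact key c h α

theorem band_ip {x w : SU2} (hx : 0 < sz x) (hw : 0 < sz w) (α : ℝ) {l : ℝ} (hl : 0 ≤ l) :
    m.real {g : SU2 | α ≤ ip (g⁻¹ * x * g) w ∧ ip (g⁻¹ * x * g) w ≤ α + l} ≤
      l / (2 * sz x * sz w) := by
  obtain ⟨z, hz, h, rfl⟩ := exists_conj x
  obtain ⟨z', hz', k, rfl⟩ := exists_conj w
  rw [sz_conj', Haar_sz_dg] at hx hw
  have h1 : ∀ g : SU2, ip (g⁻¹ * (h * dg z hz * h⁻¹) * g) (k * dg z' hz' * k⁻¹) =
      z.im * z'.im * (2 * ‖(h⁻¹ * g * k).1 0 0‖ ^ 2 - 1) := by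
    intro g
    have a1 : k⁻¹ * (g⁻¹ * (h * dg z hz * h⁻¹) * g) * k =
        (h⁻¹ * g * k)⁻¹ * dg z hz * (h⁻¹ * g * k) := by group
    have a2 : k⁻¹ * (k * dg z' hz' * k⁻¹) * k = dg z' hz' := by group
    rw [← ip_conj k, a1, a2, Haar_ip_dg, Haar_conj_im]
    ring
  simp only [h1]
  rw [Haar_inv m h⁻¹ k fun g => α ≤ z.im * z'.im * (2 * ‖g.1 0 0‖ ^ 2 - 1) ∧
    z.im * z'.im * (2 * ‖g.1 0 0‖ ^ 2 - 1) ≤ α + l, sz_conj', sz_conj', Haar_sz_dg, Haar_sz_dg,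
    mul_assoc 2, ← abs_mul]
  exact Haar_band m (mul_ne_zero (abs_pos.1 hx) (abs_pos.1 hw)) α hl

theorem cap {x : SU2} (hx : 0 < sz x) (y : SU2) (ρ : ℝ) :
    m.real {g : SU2 | ds (g⁻¹ * x * g) y ≤ ρ} ≤ ρ ^ 2 / sz x ^ 2 := by
  rcases Set.eq_empty_or_nonempty {g : SU2 | ds (g⁻¹ * x * g) y ≤ ρ} with h | ⟨g₀, h0⟩
  · rw [h, measureReal_empty]
    positivity
  have h0' : ds (g₀⁻¹ * x * g₀) y ≤ ρ := h0
  have h1 := band_ip m hx (w := g₀⁻¹ * x * g₀) (by rwa [sz_conj]) (sz x ^ 2 - 2 * ρ ^ 2)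
    (l := 2 * ρ ^ 2) (by positivity)
  rw [sz_conj] at h1
  refine le_trans (measureReal_mono fun g hg => ?_) (h1.trans (le_of_eq ?_))
  · have hg' : ds (g⁻¹ * x * g) y ≤ ρ := hg
    have a1 := ds_triangle (g⁻¹ * x * g) y (g₀⁻¹ * x * g₀)
    rw [ds_comm y] at a1
    have a2 : ds (g⁻¹ * x * g) (g₀⁻¹ * x * g₀) ^ 2 ≤ (2 * ρ) ^ 2 :=
      pow_le_pow_left₀ (ds_nonneg _ _) (by linarith) 2
    rw [ds_sq, Haar_hc_conj, Haar_hc_conj] at a2
    have a3 := (abs_le.1 (abs_ip_le (g⁻¹ * x * g) (g₀⁻¹ * x * g₀))).2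
    rw [sz_conj, sz_conj] at a3
    have a4 := sz_sq x
    constructor <;> nlinarith
  · field_simp

theorem alpha (x : SU2) {t : ℝ} (ht : 0 ≤ t) :
    m.real {g : SU2 | ‖(g⁻¹ * x * g).1 0 0‖ < t} ≤ 2 * t := by
  rcases le_or_gt (1 / 2) t with h | h
  · exact measureReal_le_one.trans (by linarith)
  rcases le_or_gt (1 / 2) (sz x) with hs | hs
  · have hx : 0 < sz x := by linarith
    have h1 := band_ip m hx (w := dg Complex.I Haar_I) (by rw [Haar_sz_I]; exact one_pos) (-t)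
      (l := 2 * t) (by positivity)
    rw [Haar_sz_I, mul_one] at h1
    refine le_trans (measureReal_mono fun g hg => ?_) (h1.trans ?_)
    · have a1 := abs_le.1 ((Complex.abs_im_le_norm ((g⁻¹ * x * g).1 0 0)).trans (le_of_lt hg))
      rw [← Haar_ip_I] at a1
      exact ⟨a1.1, by linarith [a1.2]⟩
    · exact div_le_self (by positivity) (by linarith)
  · have h1 : {g : SU2 | ‖(g⁻¹ * x * g).1 0 0‖ < t} = ∅ := by
      refine Set.eq_empty_of_forall_notMem fun g hg => ?_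
      have a1 := abs_le.1 ((Complex.abs_re_le_norm ((g⁻¹ * x * g).1 0 0)).trans (le_of_lt hg))
      rw [← hc_eq_re, Haar_hc_conj] at a1
      have a2 := sz_sq x
      have a3 := sz_nonneg x
      nlinarith [a1.1, a1.2]
    rw [h1, measureReal_empty]
    positivity

theorem gamma (x : SU2) {t : ℝ} (ht : 0 ≤ t) :
    m.real {g : SU2 | ‖(g⁻¹ * x * g).1 1 0‖ < t * sz x} ≤ 2 * t := by
  rcases le_or_gt (1 / 2) t with h | h
  · exact measureReal_le_one.trans (by linarith)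
  rcases (sz_nonneg x).eq_or_lt with hx | hx
  · have h1 : {g : SU2 | ‖(g⁻¹ * x * g).1 1 0‖ < t * sz x} = ∅ := by
      refine Set.eq_empty_of_forall_notMem fun g hg => ?_
      have a1 : ‖(g⁻¹ * x * g).1 1 0‖ < t * sz x := hg
      rw [← hx, mul_zero] at a1
      exact not_le.2 a1 (norm_nonneg _)
    rw [h1, measureReal_empty]
    positivity
  have hI : 0 < sz (dg Complex.I Haar_I) := by
    rw [Haar_sz_I]
    exact one_pos
  have h1 := band_ip m hx hI (sz x - t * sz x) (l := t * sz x) (by positivity)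
  have h2 := band_ip m hx hI (-sz x) (l := t * sz x) (by positivity)
  have h3 : t * sz x / (2 * sz x * sz (dg Complex.I Haar_I)) = t / 2 := by
    rw [Haar_sz_I]
    field_simp
  rw [h3] at h1 h2
  refine le_trans (measureReal_mono fun g hg => ?_)
    ((measureReal_union_le _ _).trans ((add_le_add h1 h2).trans (by linarith)))
  have a1 : ‖(g⁻¹ * x * g).1 1 0‖ ^ 2 ≤ (t * sz x) ^ 2 :=
    pow_le_pow_left₀ (norm_nonneg _) (le_of_lt hg) 2
  have a2 := sz_sq_entries (g⁻¹ * x * g)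
  rw [sz_conj, ← Haar_ip_I] at a2
  have a3 := abs_le.1 (abs_ip_le (g⁻¹ * x * g) (dg Complex.I Haar_I))
  rw [sz_conj, Haar_sz_I, mul_one] at a3
  have a4 : (sz x - t * sz x) ^ 2 ≤ ip (g⁻¹ * x * g) (dg Complex.I Haar_I) ^ 2 := by
    nlinarith [mul_nonneg (mul_nonneg ht (show 0 ≤ 1 - t by linarith)) (sq_nonneg (sz x))]
  rcases le_abs.1 ((le_abs_self _).trans (sq_le_sq.1 a4)) with b | b
  · exact Or.inl ⟨b, by linarith [a3.2]⟩
  · exact Or.inr ⟨a3.1, by linarith⟩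

theorem Haar_ae_ne (α : ℝ) : ∀ᵐ x ∂m, hc x ≠ α := by
  have h1 := band_hc m α (le_refl 0)
  have h2 := (measureReal_eq_zero_iff (measure_ne_top m _)).1 (le_antisymm h1 measureReal_nonneg)
  refine measure_mono_null (fun x hx => ?_) h2
  have h3 : hc x = α := not_not.1 hx
  exact ⟨h3.ge, by rw [h3, add_zero]⟩

theorem ae_sz : ∀ᵐ x ∂m, 0 < sz x ∧ 0 < sz (x * x) := by
  filter_upwards [Haar_ae_ne m 0, Haar_ae_ne m 1, Haar_ae_ne m (-1)] with x h0 h1 h2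
  have h3 : 0 < sz x := by
    refine lt_of_le_of_ne (sz_nonneg x) fun h => ?_
    have h4 := sz_sq x
    rw [← h] at h4
    have h5 : (hc x - 1) * (hc x + 1) = 0 := by linarith
    rcases mul_eq_zero.1 h5 with h6 | h6
    · exact h1 (by linarith)
    · exact h2 (by linarith)
  refine ⟨h3, ?_⟩
  rw [sz_mul_self]
  exact mul_pos (mul_pos two_pos (abs_pos.2 h0)) h3

end Pool.Agent.P.MP_923088_al.AG
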