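import Pool.Agent.P.MP_923088_al.AG.Coh
import Pool.Agent.P.MP_923088_al.AG.Haar
import Pool.Agent.P.MP_923088_al.AG.Ent1

/-!
Row AG-DensA. A smoothed indicator function that is almost invariant and still large.
Plan. `T = (bark w).op`, `δ = 1/(2d)`, `F n = T^[n] (ind m δ)` (`op_blk_one`); all are bounded and
measurable, and `∫ (T f) g = ∫ f (T g)` (left invariance, exchange the two signs). With `ψ` from
`exists_psi`: `∫ F n * ψ = lam^n ∫ F 0 * ψ ≥ lam^n / 2`, so by Cauchy-Schwarz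
`∫ (F n)^2 ≥ lam^(2n) (d+1)/8`; and `∫ (F 0)^2 = 1 / m (Bl 1 δ) ≤ 104 d^3` (`ball_lower`). Use
`lam ≥ 1 - η ≥ exp (-2η)` and `pigeon`. For bounded measurable `F`,
`∫ F^2 - ∫ (T F)^2 = (1/2) ∑∑ r r' ∫ (F (Y ·) - F (Y' ·))^2 ≥ ∫ (F (w i ·) - F)^2 / (4 card ι)` (keep the
pairs made of a lazy point and `w i` or its inverse, in both orders).
-/

namespace Pool.Agent.P.MP_923088_al.AG

open MeasureTheory Real
open scoped Classical Quaternion

/-- If `256 η ≥ 1` take `n = 0`. Else let `N = ⌊log d / (8η)⌋ ≥ log d / (16η)`; all `n ≤ N` satisfy the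
first inequality, and if the second fails for all `n < N` then `a N ≤ exp (-256 η N) * 104 d^3`. -/
theorem pigeon {d : ℕ} (hd : 2 ≤ d) {η : ℝ} {a : ℕ → ℝ} (hη : 0 < η) (h0 : ∀ n, 0 ≤ a n)
    (h1 : a 0 ≤ 104 * (d : ℝ) ^ 3) (h2 : ∀ n : ℕ, exp (-(4 * η * n)) * d / 8 ≤ a n) :
    ∃ n, √(d : ℝ) / 8 ≤ a n ∧ (1 - 256 * η) * a n ≤ a (n + 1) := by
  by_contra hc
  push Not at hc
  have hd2 : (2 : ℝ) ≤ d := by exact_mod_cast hd
  have hd0 : (0 : ℝ) < d := by linarith
  have hL : 0 ≤ log d := log_nonneg (by linarith)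
  set N := ⌊log d / (8 * η)⌋₊ with hN
  have hN1 : (N : ℝ) ≤ log d / (8 * η) := Nat.floor_le (by positivity)
  have hN2 : log d / (8 * η) < N + 1 := Nat.lt_floor_add_one _
  rw [le_div_iff₀ (by positivity)] at hN1
  rw [div_lt_iff₀ (by positivity)] at hN2
  have hs : √(d : ℝ) = exp (-(log d / 2)) * d := by
    rw [sqrt_eq_iff_mul_self_eq hd0.le (by positivity), eq_comm]
    have : exp (-(log d / 2)) * exp (-(log d / 2)) = (d : ℝ)⁻¹ := by
      rw [← exp_add, ← exp_log (inv_pos.2 hd0), log_inv]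
      congr 1
      ring
    calc exp (-(log d / 2)) * d * (exp (-(log d / 2)) * d)
        = exp (-(log d / 2)) * exp (-(log d / 2)) * (d * d) := by ring
      _ = d := by rw [this]; field_simp
  have key : ∀ n : ℕ, n ≤ N + 1 → a n ≤ exp (-(256 * η * n)) * (104 * (d : ℝ) ^ 3) := by
    intro n
    induction n with
    | zero => intro _; simpa using h1
    | succ n ih =>
      intro hn
      have hn' : (n : ℝ) ≤ N := by exact_mod_cast Nat.le_of_succ_le_succ hn
      have h3 : √(d : ℝ) / 8 ≤ a n := by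
        refine le_trans ?_ (h2 n)
        rw [hs]
        gcongr
        nlinarith
      have h4 : 1 - 256 * η ≤ exp (-(256 * η)) := by linarith [add_one_le_exp (-(256 * η))]
      calc a (n + 1) ≤ (1 - 256 * η) * a n := (hc n h3).le
        _ ≤ exp (-(256 * η)) * a n := mul_le_mul_of_nonneg_right h4 (h0 n)
        _ ≤ exp (-(256 * η)) * (exp (-(256 * η * n)) * (104 * (d : ℝ) ^ 3)) :=
          mul_le_mul_of_nonneg_left (ih (by omega)) (exp_pos _).le
        _ = _ := by
          rw [← mul_assoc, ← exp_add]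
          push_cast
          congr 2
          ring
  have h5 := (h2 (N + 1)).trans (key (N + 1) le_rfl)
  push_cast at h5
  have h6 : exp (-(256 * η * (N + 1))) ≤ exp (-(4 * η * (N + 1))) * ((d : ℝ) ^ 12)⁻¹ := by
    rw [← exp_log (inv_pos.2 (pow_pos hd0 12)), log_inv, log_pow, ← exp_add]
    gcongr
    push_cast
    nlinarith
  have h7 : (2 : ℝ) ^ 10 ≤ (d : ℝ) ^ 10 := by gcongr
  have h8 := h5.trans (mul_le_mul_of_nonneg_right h6 (by positivity))
  rw [mul_div_assoc, mul_assoc (exp _)] at h8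
  have h9 := le_of_mul_le_mul_left h8 (exp_pos _)
  rw [← div_eq_inv_mul, div_le_div_iff₀ (by positivity) (by positivity)] at h9
  have h10 : (0 : ℝ) < (d : ℝ) ^ 3 := by positivity
  nlinarith

/-- Bounded measurable functions. -/
def DensA_BM [MeasurableSpace SU2] (F : SU2 → ℝ) : Prop := Measurable F ∧ ∃ C, ∀ a, |F a| ≤ C

theorem DensA_var {ι : Type} [Fintype ι] [Nonempty ι] (w : ι → SU2) (F : SU2 → ℝ) (x : SU2)
    (i : ι) : (bark w).op F x ^ 2 + ((F (w i * x) - F x) ^ 2 + (F ((w i)⁻¹ * x) - F x) ^ 2) /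
      (8 * (Fintype.card ι : ℝ)) ≤ (bark w).op (fun a => F a ^ 2) x := by
  set K : ℝ := (Fintype.card ι : ℝ) with hK
  have hK0 : 0 < K := by rw [hK]; exact_mod_cast Fintype.card_pos
  set A := ∑ j, ((F (w j * x) - F x) + (F ((w j)⁻¹ * x) - F x)) with hA
  set B := ∑ j, ((F (w j * x) - F x) ^ 2 + (F ((w j)⁻¹ * x) - F x) ^ 2) with hB
  have e : ∀ y : ℝ, ∑ _j : ι, y / K = y := fun y => by
    rw [Finset.sum_const, Finset.card_univ, nsmul_eq_mul, ← hK]
    field_simp
  have h1 : (bark w).op F x = F x + A / (4 * K) := by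
    rw [← e (F x), hA, Finset.sum_div, ← Finset.sum_add_distrib, Law.op, Fintype.sum_prod_type]
    refine Finset.sum_congr rfl fun j _ => ?_
    simp only [Fintype.sum_prod_type, Fintype.sum_bool, if_true, Bool.false_eq_true, if_false,
      one_mul, ← hK]
    field_simp
    ring
  have h2 : (bark w).op (fun a => F a ^ 2) x = F x ^ 2 + (2 * F x * A + B) / (4 * K) := by
    rw [← e (F x ^ 2), hA, hB, Finset.mul_sum, ← Finset.sum_add_distrib, Finset.sum_div,
      ← Finset.sum_add_distrib, Law.op, Fintype.sum_prod_type]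
    refine Finset.sum_congr rfl fun j _ => ?_
    simp only [Fintype.sum_prod_type, Fintype.sum_bool, if_true, Bool.false_eq_true, if_false,
      one_mul, ← hK]
    field_simp
    ring
  have h3 : A ^ 2 ≤ K * (2 * B) := by
    refine (sq_sum_le_card_mul_sum_sq (s := Finset.univ)).trans ?_
    rw [Finset.card_univ, ← hK, hB, Finset.mul_sum _ _ 2]
    refine mul_le_mul_of_nonneg_left (Finset.sum_le_sum fun j _ => ?_) hK0.le
    nlinarith [sq_nonneg ((F (w j * x) - F x) - (F ((w j)⁻¹ * x) - F x))]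
  have h4 : (F (w i * x) - F x) ^ 2 + (F ((w i)⁻¹ * x) - F x) ^ 2 ≤ B :=
    Finset.single_le_sum
      (f := fun j => (F (w j * x) - F x) ^ 2 + (F ((w j)⁻¹ * x) - F x) ^ 2)
      (fun j _ => by positivity) (Finset.mem_univ i)
  rw [h1, h2]
  have h5 : (A / (4 * K)) ^ 2 ≤ B / (8 * K) := by
    rw [div_pow, div_le_div_iff₀ (by positivity) (by positivity)]
    nlinarith
  have h6 := div_le_div_of_nonneg_right h4 (by positivity : 0 ≤ 8 * K)
  have h7 : (2 * F x * A + B) / (4 * K) = 2 * F x * (A / (4 * K)) + 2 * (B / (8 * K)) := by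
    field_simp
    ring
  rw [h7]
  nlinarith

variable [MeasurableSpace SU2] [BorelSpace SU2] (m : Measure SU2) [m.IsHaarMeasure]
  [IsProbabilityMeasure m]

omit [BorelSpace SU2] in
theorem DensA_BM.mul {F G : SU2 → ℝ} (hF : DensA_BM F) (hG : DensA_BM G) :
    DensA_BM fun a => F a * G a := by
  obtain ⟨h1, C, hC⟩ := hF
  obtain ⟨h2, D, hD⟩ := hG
  refine ⟨h1.mul h2, C * D, fun a => ?_⟩
  rw [abs_mul]
  exact mul_le_mul (hC a) (hD a) (abs_nonneg _) ((abs_nonneg _).trans (hC a))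

omit [BorelSpace SU2] in
theorem DensA_BM.sq {F : SU2 → ℝ} (hF : DensA_BM F) : DensA_BM fun a => F a ^ 2 := by
  simpa only [pow_two] using hF.mul hF

omit [BorelSpace SU2] in
theorem DensA_BM.sub {F G : SU2 → ℝ} (hF : DensA_BM F) (hG : DensA_BM G) :
    DensA_BM fun a => F a - G a := by
  obtain ⟨h1, C, hC⟩ := hF
  obtain ⟨h2, D, hD⟩ := hG
  exact ⟨h1.sub h2, C + D, fun a => (abs_sub _ _).trans (add_le_add (hC a) (hD a))⟩

theorem DensA_BM.tr {F : SU2 → ℝ} (hF : DensA_BM F) (g : SU2) : DensA_BM fun a => F (g * a) := by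
  obtain ⟨h1, C, hC⟩ := hF
  exact ⟨h1.comp (measurable_const_mul g), C, fun a => hC _⟩

theorem DensA_BM.op {F : SU2 → ℝ} (hF : DensA_BM F) (L : Law) : DensA_BM (L.op F) := by
  obtain ⟨h1, C, hC⟩ := hF
  refine ⟨Finset.measurable_fun_sum _ fun ω _ =>
    (h1.comp (measurable_const_mul (L.Y ω))).const_mul _, ∑ ω, |L.r ω| * C, fun a => ?_⟩
  refine (Finset.abs_sum_le_sum_abs _ _).trans (Finset.sum_le_sum fun ω _ => ?_)
  rw [abs_mul]
  exact mul_le_mul_of_nonneg_left (hC _) (abs_nonneg _)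

theorem DensA_BM.int {F : SU2 → ℝ} (hF : DensA_BM F) : Integrable F m := by
  obtain ⟨h1, C, hC⟩ := hF
  exact integrable_of_bdd h1 hC

theorem DensA_cont {F : SU2 → ℝ} (hF : Continuous F) : DensA_BM F := by
  obtain ⟨C, hC⟩ := isCompact_univ.exists_bound_of_continuousOn hF.continuousOn
  exact ⟨hF.measurable, C, fun a => hC a trivial⟩

theorem DensA_int_op (L : Law) {F G : SU2 → ℝ} (hF : DensA_BM F) (hG : DensA_BM G) :
    ∫ a, L.op F a * G a ∂m = ∑ ω, L.r ω * ∫ a, F (L.Y ω * a) * G a ∂m := by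
  simp only [Law.op, Finset.sum_mul, mul_assoc]
  rw [integral_finsetSum _ fun ω _ => (((hF.tr _).mul hG).int m).const_mul _]
  simp only [integral_const_mul]

theorem DensA_adj {ι : Type} [Fintype ι] (w : ι → SU2) {F G : SU2 → ℝ} (hF : DensA_BM F)
    (hG : DensA_BM G) :
    ∫ a, (bark w).op F a * G a ∂m = ∫ a, (bark w).op G a * F a ∂m := by
  have e : ∀ g : SU2, ∫ a, F (g * a) * G a ∂m = ∫ a, G (g⁻¹ * a) * F a ∂m := fun g => by
    rw [← integral_mul_left_eq_self (fun a => G (g⁻¹ * a) * F a) g]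
    simp only [inv_mul_cancel_left, mul_comm]
  rw [DensA_int_op m _ hF hG, DensA_int_op m _ hG hF]
  simp only [e, Fintype.sum_prod_type, Fintype.sum_bool, if_true, Bool.false_eq_true, if_false,
    inv_inv, inv_one]
  exact Finset.sum_congr rfl fun j _ => by ring

theorem DensA_dir {ι : Type} [Fintype ι] [Nonempty ι] (w : ι → SU2) {F : SU2 → ℝ}
    (hF : DensA_BM F) (i : ι) : ∫ a, (F (w i * a) - F a) ^ 2 ∂m ≤
      4 * (Fintype.card ι : ℝ) * (∫ a, F a ^ 2 ∂m - ∫ a, (bark w).op F a ^ 2 ∂m) := by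
  have hK0 : (0 : ℝ) < Fintype.card ι := by exact_mod_cast Fintype.card_pos
  have i1 := (hF.op (bark w)).sq.int m
  have i2 := ((hF.tr (w i)).sub hF).sq.int m
  have i3 := ((hF.tr (w i)⁻¹).sub hF).sq.int m
  have h1 := integral_mono (i1.add ((i2.add i3).div_const _)) ((hF.sq.op (bark w)).int m)
    fun x => DensA_var w F x i
  have h2 : ∫ a, (bark w).op (fun a => F a ^ 2) a ∂m = ∫ a, F a ^ 2 ∂m := by
    have := DensA_int_op m (bark w) hF.sq (DensA_cont continuous_const (F := fun _ => 1))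
    simp only [mul_one] at this
    rw [this]
    simp only [fun g => integral_mul_left_eq_self (μ := m) (fun a => F a ^ 2) g]
    rw [← Finset.sum_mul, sum_bark w, one_mul]
  have h3 : ∫ a, (F ((w i)⁻¹ * a) - F a) ^ 2 ∂m = ∫ a, (F (w i * a) - F a) ^ 2 ∂m := by
    rw [← integral_mul_left_eq_self (fun a => (F ((w i)⁻¹ * a) - F a) ^ 2) (w i)]
    simp only [inv_mul_cancel_left, sub_sq_comm]
  rw [integral_add' i1 ((i2.add i3).div_const _), integral_div, integral_add' i2 i3, h2, h3,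
    ← le_sub_iff_add_le', div_le_iff₀ (by positivity)] at h1
  linarith

omit [m.IsHaarMeasure] [IsProbabilityMeasure m] in
theorem DensA_ind (δ : ℝ) : DensA_BM (ind m δ) := by
  refine ⟨measurable_const.indicator (isClosed_Bl 1 δ).measurableSet, |1 / m.real (Bl 1 δ)|,
    fun a => ?_⟩
  rw [ind, Set.indicator_apply]
  split_ifs
  · exact le_rfl
  · simp

omit [m.IsHaarMeasure] [IsProbabilityMeasure m] in
theorem DensA_ind_mul (δ : ℝ) (G : SU2 → ℝ) :
    ∫ a, ind m δ a * G a ∂m = 1 / m.real (Bl 1 δ) * ∫ a in Bl 1 δ, G a ∂m := by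
  rw [← integral_const_mul, ← integral_indicator (isClosed_Bl 1 δ).measurableSet]
  refine integral_congr_ae (ae_of_all _ fun a => ?_)
  simp only [ind, Set.indicator_apply]
  split_ifs
  · rfl
  · rw [zero_mul]

theorem DensA_ind_sq {δ : ℝ} (hδ : 0 < δ) : ∫ a, ind m δ a ^ 2 ∂m = 1 / m.real (Bl 1 δ) := by
  have h := (ball_pos m 1 hδ).ne'
  simp only [pow_two]
  rw [DensA_ind_mul, setIntegral_congr_fun (isClosed_Bl 1 δ).measurableSet
    (g := fun _ => 1 / m.real (Bl 1 δ)) fun a ha => Set.indicator_of_mem ha _,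
    setIntegral_const, smul_eq_mul]
  field_simp

theorem exists_F {d k : ℕ} (hd : 2 ≤ d) (w : Fin (k + 1) → SU2) {v : CF} (hv : v ∈ V d)
    (h0 : v ≠ 0) {lam η : ℝ} (he : (bark w).Lc v = (lam : ℂ) • v) (hη : 0 < η) (hη' : η ≤ 1 / 2)
    (hl : 1 - η ≤ lam) :
    ∃ n : ℕ, √(d : ℝ) / 8 ≤ ∫ a, (blk (bark w) 1 n).op (ind m (1 / (2 * d))) a ^ 2 ∂m ∧
      ∀ i, ∫ a, ((blk (bark w) 1 n).op (ind m (1 / (2 * d))) (w i * a) -
          (blk (bark w) 1 n).op (ind m (1 / (2 * d))) a) ^ 2 ∂m ≤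
        1024 * (k + 1) * η * ∫ a, (blk (bark w) 1 n).op (ind m (1 / (2 * d))) a ^ 2 ∂m := by
  have hd2 : (2 : ℝ) ≤ d := by exact_mod_cast hd
  have hd0 : (0 : ℝ) < d := by linarith
  set δ : ℝ := 1 / (2 * d) with hδ
  have hδ0 : 0 < δ := by positivity
  have hμ := ball_pos m 1 hδ0
  simp only [op_blk_one]
  set F : ℕ → SU2 → ℝ := fun n => (bark w).op^[n] (ind m δ) with hF
  have hs : ∀ n, F (n + 1) = (bark w).op (F n) := fun n => Function.iterate_succ_apply' _ _ _
  have hB : ∀ n, DensA_BM (F n) := fun n => by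
    induction n with
    | zero => exact DensA_ind m δ
    | succ n ih => rw [hs]; exact ih.op _
  obtain ⟨ψ, hψ, h1, h2, h3⟩ := exists_psi m hv h0 he
  have hψ' := DensA_cont hψ
  have h4 : ∀ n, ∫ a, F n a * ψ a ∂m = lam ^ n * ∫ a, ind m δ a * ψ a ∂m := fun n => by
    induction n with
    | zero => rw [pow_zero, one_mul]; rfl
    | succ n ih =>
      rw [hs, DensA_adj m w (hB n) hψ', pow_succ', mul_assoc, ← ih, ← integral_const_mul]
      exact integral_congr_ae (ae_of_all _ fun a => by simp only [h1]; ring)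
  have h5 : 1 / 2 ≤ ∫ a, ind m δ a * ψ a ∂m := by
    have := setIntegral_ge_of_const_le_real (isClosed_Bl 1 δ).measurableSet (measure_ne_top m _)
      (c := 1 / 2) (f := ψ) (fun x hx => h3 x (by
        have hx' : ds 1 x ≤ 1 / (2 * d) := hx
        rwa [ds_comm, le_div_iff₀' (by positivity)] at hx')) (hψ'.int m).integrableOn
    rw [DensA_ind_mul, one_div_mul_eq_div, le_div_iff₀ hμ]
    exact this
  have h6 : exp (-(2 * η)) ≤ lam := by
    refine le_trans ?_ hl
    rw [exp_neg, inv_le_comm₀ (exp_pos _) (by linarith)]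
    refine le_trans ?_ (add_one_le_exp _)
    rw [inv_le_iff_one_le_mul₀ (by linarith)]
    nlinarith
  have hlam : 0 < lam := (exp_pos _).trans_le h6
  obtain ⟨n, hn1, hn2⟩ := pigeon hd (a := fun n => ∫ a, F n a ^ 2 ∂m) hη
    (fun n => integral_nonneg fun a => sq_nonneg _) (by
      have h7 := ball_lower m 1 hδ0.le (by
        rw [hδ, div_le_one (by positivity)]
        linarith)
      refine (DensA_ind_sq m hδ0).trans_le ((one_div_le_one_div_of_le (by positivity) h7).trans_eq ?_)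
      rw [hδ]
      field_simp
      norm_num) fun n => by
      set t : ℝ := lam ^ n * (d + 1) / 4 with ht
      have ht0 : 0 ≤ t := by positivity
      have h7 := integral_mono ((((hB n).mul hψ').int m).const_mul (2 * t))
        (((hB n).sq.int m).add ((hψ'.sq.int m).const_mul (t ^ 2))) fun a => by
          simp only [Pi.add_apply]
          nlinarith [sq_nonneg (F n a - t * ψ a)]
      rw [integral_add' ((hB n).sq.int m) ((hψ'.sq.int m).const_mul (t ^ 2)), integral_const_mul,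
        integral_const_mul, h4] at h7
      have h8 : t ^ 2 * ∫ a, ψ a ^ 2 ∂m ≤ (lam ^ n) ^ 2 * (d + 1) / 8 := by
        refine (mul_le_mul_of_nonneg_left h2 (sq_nonneg t)).trans_eq ?_
        rw [ht]
        field_simp
        norm_num
      have h9 : (lam ^ n) ^ 2 * (d + 1) / 4 ≤ 2 * t * (lam ^ n * ∫ a, ind m δ a * ψ a ∂m) := by
        refine le_trans (le_of_eq ?_) (mul_le_mul_of_nonneg_left
          (mul_le_mul_of_nonneg_left h5 (pow_pos hlam n).le) (by positivity))
        rw [ht]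
        ring
      have h10 : exp (-(4 * η * n)) ≤ (lam ^ n) ^ 2 := by
        have : exp (-(4 * η * n)) = (exp (-(2 * η)) ^ n) ^ 2 := by
          rw [← exp_nat_mul, ← exp_nat_mul]
          congr 1
          push_cast
          ring
        rw [this]
        gcongr
      have h11 : exp (-(4 * η * n)) * d ≤ (lam ^ n) ^ 2 * (d + 1) :=
        mul_le_mul h10 (by linarith) hd0.le (sq_nonneg _)
      linarith
  refine ⟨n, hn1, fun i => (DensA_dir m w (hB n) i).trans ?_⟩
  rw [← hs, Fintype.card_fin]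
  push_cast
  have hk : (0 : ℝ) ≤ 4 * (k + 1) := by positivity
  have := mul_le_mul_of_nonneg_left hn2 hk
  linarith

end Pool.Agent.P.MP_923088_al.AG
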