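import Pool.Agent.P.MP_923088_al.AG.Geo1
import Pool.Agent.P.MP_923088_al.AG.LawL

/-!
Row AG-Geo2. Grid cells and consequences of the axis condition.
-/

namespace Pool.Agent.P.MP_923088_al.AG

open MeasureTheory Real
open scoped Classical Quaternion

/-- The four coordinates. -/
noncomputable def Geo2_co (x : SU2) : Fin 4 → ℝ := ![(qt x).re, (qt x).imI, (qt x).imJ, (qt x).imK]

theorem Geo2_cell (s : ℝ) (x : SU2) (i : Fin 4) : cell s x i = ⌊Geo2_co x i / s⌋ := by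
  fin_cases i <;> rfl

theorem Geo2_ds_sq (x y : SU2) : ds x y ^ 2 = ∑ i, (Geo2_co x i - Geo2_co y i) ^ 2 := by
  rw [ds, Geo1_nsq, Fin.sum_univ_four]
  rfl

theorem Geo2_co_le (x y : SU2) (i : Fin 4) : |Geo2_co x i - Geo2_co y i| ≤ ds x y := by
  refine abs_le_of_sq_le_sq ?_ (ds_nonneg x y)
  rw [Geo2_ds_sq]
  exact Finset.single_le_sum (f := fun i => (Geo2_co x i - Geo2_co y i) ^ 2)
    (fun _ _ => sq_nonneg _) (Finset.mem_univ i)

theorem Geo2_cont (i : Fin 4) : Continuous fun x => Geo2_co x i := by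
  fin_cases i
  · exact Quaternion.continuous_re.comp continuous_qt
  · exact Quaternion.continuous_imI.comp continuous_qt
  · exact Quaternion.continuous_imJ.comp continuous_qt
  · exact Quaternion.continuous_imK.comp continuous_qt

/-- Four coordinates differ by less than `s` each. -/
theorem cell_close {s : ℝ} (hs : 0 < s) {x y : SU2} (h : cell s x = cell s y) :
    ds x y ≤ 2 * s := by
  have h1 : ∀ i, (Geo2_co x i - Geo2_co y i) ^ 2 ≤ s ^ 2 := fun i => by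
    have h2 := congrFun h i
    rw [Geo2_cell, Geo2_cell] at h2
    have h3 := Int.abs_sub_lt_one_of_floor_eq_floor h2
    rw [← sub_div, abs_div, abs_of_pos hs, div_lt_one hs] at h3
    exact sq_le_sq' (abs_lt.1 h3).1.le (abs_lt.1 h3).2.le
  refine le_of_sq_le_sq ?_ (by linarith)
  rw [Geo2_ds_sq, Fin.sum_univ_four]
  linarith [h1 0, h1 1, h1 2, h1 3]

/-- Take the product of the integer intervals of radius `n` round the cell of `x`
(`Fintype.piFinset`); each coordinate is 1-Lipschitz for `ds`. -/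
theorem cell_near {s : ℝ} (hs : 0 < s) (n : ℕ) (x : SU2) :
    ∃ T : Finset (Fin 4 → ℤ), T.card ≤ (2 * n + 1) ^ 4 ∧
      ∀ y, ds x y ≤ n * s → cell s y ∈ T := by
  refine ⟨Fintype.piFinset fun i => Finset.Icc (cell s x i - n) (cell s x i + n), ?_,
    fun y hy => Fintype.mem_piFinset.2 fun i => ?_⟩
  · have e : ∀ a : ℤ, (a + n + 1 - (a - n)).toNat = 2 * n + 1 := fun a => by omega
    simp only [Fintype.card_piFinset, Int.card_Icc, e, Finset.prod_const, Finset.card_univ,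
      Fintype.card_fin, le_refl]
  · obtain ⟨h1, h2⟩ := abs_le.1 ((Geo2_co_le x y i).trans hy)
    rw [Geo2_cell, Geo2_cell, Finset.mem_Icc, ← Int.floor_sub_natCast, ← Int.floor_add_natCast]
    constructor
    · refine Int.floor_mono ?_
      rw [sub_le_iff_le_add, div_add' _ _ _ hs.ne', div_le_div_iff_of_pos_right hs]
      linarith
    · refine Int.floor_mono ?_
      rw [div_add' _ _ _ hs.ne', div_le_div_iff_of_pos_right hs]
      linarith

theorem measurable_cell [MeasurableSpace SU2] [BorelSpace SU2] (s : ℝ) (c : Fin 4 → ℤ) :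
    MeasurableSet {x : SU2 | cell s x = c} := by
  have h : Measurable (cell s) := measurable_pi_lambda _ fun i => by
    simp only [Geo2_cell]
    exact ((Geo2_cont i).measurable.div_const s).floor
  exact h (measurableSet_singleton c)

/-- The axis of a non-central element: `qt l = Im (qt z) / sz z`. -/
theorem exists_axis {z : SU2} (hz : 0 < sz z) :
    ∃ l : SU2, hc l = 0 ∧ (qt z).im = sz z • qt l := by
  obtain ⟨l, hl⟩ := qt_surj (u := (sz z)⁻¹ • (qt z).im) (by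
    rw [norm_smul, norm_inv, Real.norm_of_nonneg hz.le]
    exact inv_mul_cancel₀ hz.ne')
  refine ⟨l, ?_, ?_⟩
  · rw [hc_eq, hl]
    simp
  · rw [hl, smul_inv_smul₀ hz.ne']

theorem Geo2_sz_one {l : SU2} (hl : hc l = 0) : sz l ^ 2 = 1 := by
  rw [sz_sq, hl]
  ring

theorem Geo2_ip_inv (x y : SU2) : ip x y⁻¹ = -ip x y := by
  rw [Geo1_ip, Geo1_ip, qt_inv, Quaternion.imI_star, Quaternion.imJ_star, Quaternion.imK_star]
  ring

theorem Geo2_hc_conj (y l : SU2) : hc (y * l * y⁻¹) = hc l := by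
  rw [hc_comm, inv_mul_cancel_left]

theorem Geo2_ip_axis {z l : SU2} (hl : hc l = 0) (hz : (qt z).im = sz z • qt l) (a : SU2) :
    ip a z = sz z * ip a l := by
  have h : (qt l).im = qt l := by
    rw [hc_eq] at hl
    ext <;> simp [hl]
  rw [ip, ip, hz, h, inner_smul_right]

/-- If the commutator is small then the axes are close up to sign (`l⁻¹` is the opposite axis):
for pure units `cr l l' ^ 2 = ds l l' ^ 2 * ds l l'⁻¹ ^ 2` and `ds l l' ^ 2 + ds l l'⁻¹ ^ 2 = 4`. -/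
theorem axis_close {l l' : SU2} (hl : hc l = 0) (hl' : hc l' = 0) :
    ds l l' ≤ cr l l' ∨ ds l l'⁻¹ ≤ cr l l' := by
  have h1 := cr_sq l l'
  have h2 := ds_sq l l'
  have h3 := ds_sq l l'⁻¹
  rw [Geo2_sz_one hl, Geo2_sz_one hl'] at h1
  rw [hl, zero_mul, zero_add] at h2 h3
  rw [Geo2_ip_inv] at h3
  have h4 := sq_nonneg (ds l l')
  have h5 := sq_nonneg (ds l l'⁻¹)
  rcases le_total 0 (ip l l') with h | h
  · exact Or.inl (le_of_sq_le_sq (by nlinarith) (cr_nonneg _ _))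
  · exact Or.inr (le_of_sq_le_sq (by nlinarith) (cr_nonneg _ _))

theorem cr_axis {u z l l' : SU2} (hl : hc l = 0) (hl' : hc l' = 0) (hu : (qt u).im = sz u • qt l')
    (hz : (qt z).im = sz z • qt l) (y : SU2) :
    cr u (y * z * y⁻¹) = sz u * sz z * cr l' (y * l * y⁻¹) := by
  have e : ∀ w, ip u (y * w * y⁻¹) = ip (y⁻¹ * u * y) w := fun w => by
    rw [← ip_conj y u]
    congr 1
    group
  have h : ip u (y * z * y⁻¹) = sz u * sz z * ip l' (y * l * y⁻¹) := by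
    rw [e, Geo2_ip_axis hl hz, ← e, ip_comm u, Geo2_ip_axis hl' hu, ip_comm l']
    ring
  refine (sq_eq_sq₀ (cr_nonneg _ _)
    (mul_nonneg (mul_nonneg (sz_nonneg _) (sz_nonneg _)) (cr_nonneg _ _))).1 ?_
  rw [mul_pow, cr_sq, cr_sq, h, sz_conj', sz_conj', Geo2_sz_one hl, Geo2_sz_one hl']
  ring

theorem Geo2_exists : ∃ l : SU2, hc l = 0 := by
  obtain ⟨l, hl⟩ := qt_surj (u := ⟨0, 1, 0, 0⟩) (by
    refine (sq_eq_sq₀ (norm_nonneg _) zero_le_one).1 ?_
    rw [Geo1_nsq]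
    norm_num)
  exact ⟨l, by rw [hc_eq, hl]⟩

theorem Geo2_nonneg {L : Law} (h : L.Ok) {ζ ε : ℝ} (ha : L.AX ζ ε) : 0 ≤ ε := by
  obtain ⟨l, hl⟩ := Geo2_exists
  exact (Law.P_nonneg h _).trans (ha l l hl)

theorem Law.AX.cross {L : Law} (h : L.Ok) {ζ ε : ℝ} (ha : L.AX ζ ε) (u z : SU2) :
    L.P (fun ω => cr u (L.Y ω * z * (L.Y ω)⁻¹) < ζ * sz u * sz z) ≤ 2 * ε := by
  have h0 := Geo2_nonneg h ha
  rcases (sz_nonneg u).eq_or_lt with hu | hu
  · rw [L.P_false fun ω => by rw [← hu, mul_zero, zero_mul]; exact not_lt.2 (cr_nonneg _ _)]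
    linarith
  rcases (sz_nonneg z).eq_or_lt with hz | hz
  · rw [L.P_false fun ω => by rw [← hz, mul_zero]; exact not_lt.2 (cr_nonneg _ _)]
    linarith
  obtain ⟨l', hl', hu'⟩ := exists_axis hu
  obtain ⟨l, hl, hz'⟩ := exists_axis hz
  refine (Law.P_mono h (E' := fun ω => ds (L.Y ω * l * (L.Y ω)⁻¹) l' ≤ ζ ∨
    ds (L.Y ω * l * (L.Y ω)⁻¹) l'⁻¹ ≤ ζ) fun ω hω => ?_).trans ((Law.P_or h _ _).trans ?_)
  · rw [cr_axis hl hl' hu' hz', mul_assoc ζ, mul_comm ζ, cr_comm] at hω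
    have h1 := (lt_of_mul_lt_mul_left hω (mul_pos hu hz).le).le
    exact (axis_close ((Geo2_hc_conj _ _).trans hl) hl').imp (·.trans h1) (·.trans h1)
  · linarith [ha l l' hl, ha l l'⁻¹ hl]

theorem exists_hc_zero : ∃ l : SU2, hc l = 0 := Geo2_exists

theorem Law.AX.nonneg {L : Law} (h : L.Ok) {ζ ε : ℝ} (ha : L.AX ζ ε) : 0 ≤ ε :=
  Geo2_nonneg h ha

theorem Law.AX.conc {L : Law} (h : L.Ok) {ζ ε : ℝ} (ha : L.AX ζ ε) : L.Conc (ζ / 2) ε := by
  intro y
  obtain ⟨l, hl⟩ := Geo2_exists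
  refine (Law.P_mono h fun ω hω => ?_).trans (ha l (y * l * y⁻¹) hl)
  have h1 := ds_conj_le' (L.Y ω) y l
  have h2 := mul_le_mul_of_nonneg_left (sz_le_one l) (ds_nonneg (L.Y ω) y)
  linarith

theorem node_ds (y y' u : SU2) : ds (y⁻¹ * u * y) (y'⁻¹ * u * y') = cr u (y' * y⁻¹) := by
  rw [← ds_mul_left y', ← ds_mul_right y⁻¹, cr, ds_comm]
  congr 1 <;> group

/-- Upper bound for the commutator step. -/
theorem node_upper (a u z : SU2) :
    2 * cr u (a * z * a⁻¹) ≤ (2 * ds u 1) * (2 * ds z 1) := by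
  have h1 := cr_le u (a * z * a⁻¹)
  rw [sz_conj'] at h1
  have h2 := mul_le_mul (sz_le_ds u) (sz_le_ds z) (sz_nonneg z) (ds_nonneg u 1)
  linarith

/-- Lower bound for the commutator step (`ds_sq_le'`, and `4 ≤ exp 2`). -/
theorem node_lower {a u z : SU2} {σ : ℝ} (hu : ds u 1 ≤ 1) (hz : ds z 1 ≤ 1)
    (h : exp (-σ) * sz u * sz z ≤ cr u (a * z * a⁻¹)) :
    exp (-(σ + 2)) * ((2 * ds u 1) * (2 * ds z 1)) ≤ 2 * cr u (a * z * a⁻¹) := by
  have h1 : ds u 1 * ds z 1 ≤ 2 * (sz u * sz z) := by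
    refine le_of_sq_le_sq ?_ (mul_nonneg zero_le_two (mul_nonneg (sz_nonneg u) (sz_nonneg z)))
    have := mul_le_mul (ds_sq_le' u hu) (ds_sq_le' z hz) (sq_nonneg _) (by positivity)
    linarith
  have h2 : exp (-(σ + 2)) * 4 ≤ exp (-σ) := by
    have h3 : (4 : ℝ) ≤ exp 2 := by
      have h4 := add_one_le_exp (1 : ℝ)
      rw [show (2 : ℝ) = 1 + 1 by norm_num, exp_add]
      nlinarith
    calc exp (-(σ + 2)) * 4 ≤ exp (-(σ + 2)) * exp 2 := by gcongr
      _ = exp (-σ) := by rw [← exp_add]; congr 1; ring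
  have h5 := mul_le_mul h2 h1 (mul_nonneg (ds_nonneg u 1) (ds_nonneg z 1)) (exp_pos _).le
  linarith

end Pool.Agent.P.MP_923088_al.AG
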