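import Pool.Agent.P.MP_923088_al.AG.Ent1
import Pool.Agent.P.MP_923088_al.AG.Geo2
import Pool.Agent.P.MP_923088_al.AG.Haar

/-!
Row AG-Win. The entropy drop over one window of scales.
`bm m p a ρ = ∫ c, (Bl 1 ρ).indicator 1 (c * a⁻¹) * p c`; it is measurable in `a`
(`MeasureTheory.StronglyMeasurable.integral_prod_right`), at most one, and at least
`c₀ * m (Bl 1 ρ) > 0`.
`doubling`: the integral is `∫ dc p c ∫ da p a 1[ds a c ≤ ρ] / bm a (ρ/2)`; for fixed `c` the points
`a` lie in at most `9^4` cells of mesh `ρ/4` (`cell_near` with `n = 4`), and for `a` in a cell `C`,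
`bm a (ρ/2) ≥ ∫_C p` (`cell_close`), so each cell contributes at most one.
`window`: `fenchel` with `φ a ω = log (bm (Y a) ρ₂ / bm (Y a) ρ₁) + log (1/Φ)` on `Gd`, else `0`. The
left side is at least `Hent ρ₂ - Hent ρ₁ + (1-b) log (1/Φ)` (`int_bwd`; the first logarithm is not
positive). On the right, on `Gd`: `bm (Y a) ρ₁ ≥ bm a (ρ₁/2)` and
`∑_(Gd) r bm (Y a) ρ₂ = ∫ p c * P (Gd ∧ ds Y (c a⁻¹) ≤ ρ₂) dc ≤ Φ * bm a ρ₁`.
-/

namespace Pool.Agent.P.MP_923088_al.AG

open MeasureTheory Real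
open scoped Classical Quaternion

variable [MeasurableSpace SU2] [BorelSpace SU2] {m : Measure SU2} [m.IsHaarMeasure]
  [IsProbabilityMeasure m] {p : SU2 → ℝ}

omit [m.IsHaarMeasure] [IsProbabilityMeasure m] in
theorem Win_bm_eq (p : SU2 → ℝ) (a : SU2) (ρ : ℝ) :
    bm m p a ρ = ∫ c, if ds a c ≤ ρ then p c else 0 ∂m := by
  rw [bm, ← integral_indicator (isClosed_Bl a ρ).measurableSet]
  rfl

theorem Win_set (ρ : ℝ) : MeasurableSet {z : SU2 × SU2 | ds z.1 z.2 ≤ ρ} :=
  measurableSet_le continuous_ds.measurable measurable_const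

theorem Win_p_bdd (hp : IsDens m p) : ∃ C, ∀ a, |p a| ≤ C := by
  obtain ⟨C, hC⟩ := hp.hi
  exact ⟨C, fun a => by rw [abs_of_pos (hp.pos a)]; exact hC a⟩

theorem Win_int (hp : IsDens m p) {f : SU2 → ℝ} (hf : Measurable f) {C : ℝ}
    (hC : ∀ a, |f a| ≤ C) : Integrable (fun a => p a * f a) m := by
  obtain ⟨D, hD⟩ := Win_p_bdd hp
  refine integrable_of_bdd (hp.meas.mul hf) (C := D * C) fun a => ?_
  rw [abs_mul]
  exact mul_le_mul (hD a) (hC a) (abs_nonneg _) ((abs_nonneg _).trans (hD a))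

theorem Win_nonneg (hp : IsDens m p) (a : SU2) (ρ : ℝ) : 0 ≤ bm m p a ρ :=
  integral_nonneg fun c => (hp.pos c).le

theorem measurable_bm (hp : IsDens m p) (ρ : ℝ) : Measurable fun a => bm m p a ρ := by
  simp only [Win_bm_eq]
  have h : Measurable fun z : SU2 × SU2 => if ds z.1 z.2 ≤ ρ then p z.2 else 0 :=
    Measurable.ite (Win_set ρ) (hp.meas.comp measurable_snd) measurable_const
  exact h.stronglyMeasurable.integral_prod_right'.measurable
theorem bm_le_one (hp : IsDens m p) (a : SU2) (ρ : ℝ) : bm m p a ρ ≤ 1 :=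
  (setIntegral_le_integral hp.integrable (ae_of_all _ fun c => (hp.pos c).le)).trans hp.int.le
theorem bm_lo (hp : IsDens m p) {ρ : ℝ} (hρ : 0 < ρ) : ∃ c, 0 < c ∧ ∀ a, c ≤ bm m p a ρ := by
  obtain ⟨c, hc, h⟩ := hp.lo
  refine ⟨m.real (Bl 1 ρ) * c, mul_pos (ball_pos m 1 hρ) hc, fun a => ?_⟩
  rw [← real_Bl m a ρ, ← smul_eq_mul, ← setIntegral_const]
  exact setIntegral_mono (integrable_const c).integrableOn hp.integrable.integrableOn h
theorem bm_mono (hp : IsDens m p) {a a' : SU2} {ρ ρ' : ℝ} (h : Bl a ρ ⊆ Bl a' ρ') :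
    bm m p a ρ ≤ bm m p a' ρ' :=
  setIntegral_mono_set hp.integrable.integrableOn (ae_of_all _ fun c => (hp.pos c).le)
    h.eventuallyLE
theorem log_bm_bdd (hp : IsDens m p) {ρ : ℝ} (hρ : 0 < ρ) :
    ∃ C, ∀ a, |log (bm m p a ρ)| ≤ C := by
  obtain ⟨c, hc, h⟩ := bm_lo hp hρ
  refine ⟨-log c, fun a => ?_⟩
  rw [abs_of_nonpos (log_nonpos (Win_nonneg hp a ρ) (bm_le_one hp a ρ))]
  exact neg_le_neg (log_le_log hc (h a))
theorem Hent_nonpos (hp : IsDens m p) (ρ : ℝ) : Hent m p ρ ≤ 0 :=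
  integral_nonpos fun a => mul_nonpos_of_nonneg_of_nonpos (hp.pos a).le
    (log_nonpos (Win_nonneg hp a ρ) (bm_le_one hp a ρ))

theorem Win_pos (hp : IsDens m p) (a : SU2) {ρ : ℝ} (hρ : 0 < ρ) : 0 < bm m p a ρ := by
  obtain ⟨c, hc, h⟩ := bm_lo hp hρ
  exact hc.trans_le (h a)

theorem Win_int_log (hp : IsDens m p) {ρ : ℝ} (hρ : 0 < ρ) :
    Integrable (fun a => p a * log (bm m p a ρ)) m := by
  obtain ⟨C, hC⟩ := log_bm_bdd hp hρ
  exact Win_int hp (measurable_bm hp ρ).log hC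

theorem Hent_mono (hp : IsDens m p) {ρ ρ' : ℝ} (h0 : 0 < ρ) (h : ρ ≤ ρ') :
    Hent m p ρ ≤ Hent m p ρ' :=
  integral_mono (Win_int_log hp h0) (Win_int_log hp (h0.trans_le h)) fun a =>
    mul_le_mul_of_nonneg_left
      (log_le_log (Win_pos hp a h0) (bm_mono hp fun _ hy => le_trans hy h)) (hp.pos a).le

omit [m.IsHaarMeasure] in
theorem Win_swap {f g : SU2 → ℝ} (hf : Measurable f) (hg : Measurable g) {C D : ℝ}
    (hC : ∀ a, |f a| ≤ C) (hD : ∀ a, |g a| ≤ D) (ρ : ℝ) :
    ∫ a, f a * ∫ c, (if ds a c ≤ ρ then g c else 0) ∂m ∂m =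
      ∫ c, g c * ∫ a, (if ds a c ≤ ρ then f a else 0) ∂m ∂m := by
  simp only [← integral_const_mul, mul_ite, mul_zero]
  rw [integral_integral_swap]
  · simp only [mul_comm]
  · have h : Measurable fun z : SU2 × SU2 => if ds z.1 z.2 ≤ ρ then f z.1 * g z.2 else 0 :=
      Measurable.ite (Win_set ρ) ((hf.comp measurable_fst).mul (hg.comp measurable_snd))
        measurable_const
    refine Integrable.of_bound h.aestronglyMeasurable (C * D) (ae_of_all _ fun z => ?_)
    have h1 : |f z.1 * g z.2| ≤ C * D := by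
      rw [abs_mul]
      exact mul_le_mul (hC _) (hD _) (abs_nonneg _) ((abs_nonneg _).trans (hC z.1))
    simp only [Function.uncurry, Real.norm_eq_abs]
    split_ifs
    · exact h1
    · rw [abs_zero]
      exact (abs_nonneg _).trans h1

/-- Each cell contributes at most one. -/
theorem Win_cell (hp : IsDens m p) {ρ : ℝ} (hρ : 0 < ρ) (t : Fin 4 → ℤ) :
    ∫ a in {x | cell (ρ / 4) x = t}, p a / bm m p a (ρ / 2) ∂m ≤ 1 := by
  obtain ⟨c, hc, h⟩ := bm_lo hp (half_pos hρ)
  set I := ∫ a in {x | cell (ρ / 4) x = t}, p a ∂m with hI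
  have hJ : 0 < max I c := lt_max_of_lt_right hc
  have hint : Integrable (fun a => p a / bm m p a (ρ / 2)) m := by
    simp only [div_eq_mul_inv (p _)]
    refine Win_int hp (measurable_bm hp _).inv (C := c⁻¹) fun a => ?_
    rw [abs_of_pos (inv_pos.2 (hc.trans_le (h a)))]
    exact inv_anti₀ hc (h a)
  calc ∫ a in {x | cell (ρ / 4) x = t}, p a / bm m p a (ρ / 2) ∂m
      ≤ ∫ a in {x | cell (ρ / 4) x = t}, p a / max I c ∂m := by
        refine setIntegral_mono_on hint.integrableOn (hp.integrable.div_const _).integrableOn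
          (measurable_cell _ t) fun a ha => ?_
        refine div_le_div_of_nonneg_left (hp.pos a).le hJ (max_le ?_ (h a))
        refine setIntegral_mono_set hp.integrable.integrableOn
          (ae_of_all _ fun c => (hp.pos c).le) (LE.le.eventuallyLE fun y hy => ?_)
        have := cell_close (by positivity : 0 < ρ / 4) (Eq.trans ha (Eq.symm hy))
        show ds a y ≤ ρ / 2
        linarith
    _ = I / max I c := integral_div _ _
    _ ≤ 1 := (div_le_one hJ).2 (le_max_left _ _)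

theorem doubling (hp : IsDens m p) {ρ : ℝ} (hρ : 0 < ρ) :
    ∫ a, p a * (bm m p a ρ / bm m p a (ρ / 2)) ∂m ≤ 6561 := by
  obtain ⟨c, hc, h⟩ := bm_lo hp (half_pos hρ)
  obtain ⟨D, hD⟩ := Win_p_bdd hp
  have hm : Measurable fun a => p a / bm m p a (ρ / 2) := hp.meas.div (measurable_bm hp _)
  have hn : ∀ a, 0 ≤ p a / bm m p a (ρ / 2) := fun a =>
    div_nonneg (hp.pos a).le (Win_nonneg hp a _)
  have hb : ∀ a, |p a / bm m p a (ρ / 2)| ≤ D / c := fun a => by
    rw [abs_div, abs_of_pos (hc.trans_le (h a))]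
    exact div_le_div₀ ((abs_nonneg _).trans (hD a)) (hD a) hc (h a)
  have hint : Integrable (fun a => p a / bm m p a (ρ / 2)) m := integrable_of_bdd hm hb
  have e : ∀ a, p a * (bm m p a ρ / bm m p a (ρ / 2)) =
      p a / bm m p a (ρ / 2) * ∫ c, (if ds a c ≤ ρ then p c else 0) ∂m := fun a => by
    rw [← Win_bm_eq]
    ring
  simp only [e]
  rw [Win_swap hm hp.meas hb hD]
  have key : ∀ x, ∫ a, (if ds a x ≤ ρ then p a / bm m p a (ρ / 2) else 0) ∂m ≤ 6561 := by
    intro x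
    obtain ⟨T, hT, hx⟩ := cell_near (by positivity : 0 < ρ / 4) 4 x
    have hi : ∀ t, Integrable
        ({x | cell (ρ / 4) x = t}.indicator fun a => p a / bm m p a (ρ / 2)) m :=
      fun t => hint.indicator (measurable_cell _ t)
    calc ∫ a, (if ds a x ≤ ρ then p a / bm m p a (ρ / 2) else 0) ∂m
        ≤ ∫ a, ∑ t ∈ T,
          {x | cell (ρ / 4) x = t}.indicator (fun a => p a / bm m p a (ρ / 2)) a ∂m := by
          refine integral_mono_of_nonneg (ae_of_all _ fun a => ?_)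
            (integrable_finsetSum _ fun t _ => hi t) (ae_of_all _ fun a => ?_)
          · simp only [Pi.zero_apply]
            split_ifs
            · exact hn a
            · exact le_rfl
          · have h0 : ∀ t ∈ T, 0 ≤
                {x | cell (ρ / 4) x = t}.indicator (fun a => p a / bm m p a (ρ / 2)) a :=
              fun t _ => Set.indicator_nonneg (fun a _ => hn a) a
            simp only
            split_ifs with ha
            · refine le_trans (le_of_eq ?_) (Finset.single_le_sum h0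
                (hx a (by rw [ds_comm]; push_cast; linarith)))
              rw [Set.indicator_of_mem (by exact rfl)]
            · exact Finset.sum_nonneg h0
      _ = ∑ t ∈ T, ∫ a in {x | cell (ρ / 4) x = t}, p a / bm m p a (ρ / 2) ∂m := by
          rw [integral_finsetSum _ fun t _ => hi t]
          exact Finset.sum_congr rfl fun t _ => integral_indicator (measurable_cell _ t)
      _ ≤ ∑ t ∈ T, (1 : ℝ) := Finset.sum_le_sum fun t _ => Win_cell hp hρ t
      _ ≤ 6561 := by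
          rw [Finset.sum_const, nsmul_eq_mul, mul_one]
          exact_mod_cast hT
  calc ∫ x, p x * ∫ a, (if ds a x ≤ ρ then p a / bm m p a (ρ / 2) else 0) ∂m ∂m
      ≤ ∫ x, p x * 6561 ∂m := by
        refine integral_mono_of_nonneg (ae_of_all _ fun x => ?_) (hp.integrable.mul_const _)
          (ae_of_all _ fun x => mul_le_mul_of_nonneg_left (key x) (hp.pos x).le)
        refine mul_nonneg (hp.pos x).le (integral_nonneg fun a => ?_)
        simp only [Pi.zero_apply]
        split_ifs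
        · exact hn a
        · exact le_rfl
    _ = 6561 := by rw [integral_mul_const, hp.int, one_mul]

/-- The average weight of the small balls. -/
theorem Win_avg (hp : IsDens m p) {Z : Law} (Gd : Z.Ω → Prop) {ρ₁ ρ₂ Φ : ℝ}
    (h12 : 2 * ρ₂ ≤ ρ₁) (hs : ∀ ω, Gd ω → ds (Z.Y ω) 1 ≤ ρ₁ / 2)
    (hf : ∀ y, Z.P (fun ω => Gd ω ∧ ds (Z.Y ω) y ≤ ρ₂) ≤ Φ) (a : SU2) :
    ∑ ω, (if Gd ω then Z.r ω else 0) * bm m p (Z.Y ω * a) ρ₂ ≤ Φ * bm m p a ρ₁ := by
  have hi : ∀ x ρ, Integrable (fun c => if ds x c ≤ ρ then p c else 0) m := fun x ρ =>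
    hp.integrable.indicator (isClosed_Bl x ρ).measurableSet
  simp only [Win_bm_eq, ← integral_const_mul]
  rw [← integral_finsetSum _ fun ω _ => (hi _ _).const_mul _]
  refine integral_mono (integrable_finsetSum _ fun ω _ => (hi _ _).const_mul _)
    ((hi _ _).const_mul _) fun c => ?_
  have e : ∑ ω, (if Gd ω then Z.r ω else 0) * (if ds (Z.Y ω * a) c ≤ ρ₂ then p c else 0) =
      Z.P (fun ω => Gd ω ∧ ds (Z.Y ω) (c * a⁻¹) ≤ ρ₂) * p c := by
    rw [Law.P, Finset.sum_mul]
    refine Finset.sum_congr rfl fun ω _ => ?_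
    rw [← ds_mul_right a (Z.Y ω) (c * a⁻¹), inv_mul_cancel_right]
    by_cases h1 : Gd ω <;> by_cases h2 : ds (Z.Y ω * a) c ≤ ρ₂ <;> simp [h1, h2]
  simp only [e]
  split_ifs with hc
  · exact mul_le_mul_of_nonneg_right (hf _) (hp.pos c).le
  · rw [Law.P_false, zero_mul, mul_zero]
    rintro ω ⟨h1, h2⟩
    have h3 := ds_triangle 1 (Z.Y ω) (c * a⁻¹)
    rw [← ds_mul_right a 1 (c * a⁻¹), inv_mul_cancel_right, one_mul, ds_comm 1] at h3
    linarith [hs ω h1]

theorem window (hp : IsDens m p) {Z : Law} {q : SU2 → Z.Ω → ℝ} (hq : IsPat p Z q)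
    (Gd : Z.Ω → Prop) {ρ₁ ρ₂ Φ b : ℝ} (h0 : 0 < ρ₂) (h12 : 2 * ρ₂ ≤ ρ₁) (hΦ : 0 < Φ) (hΦ1 : Φ ≤ 1)
    (hs : ∀ ω, Gd ω → ds (Z.Y ω) 1 ≤ ρ₁ / 2)
    (hf : ∀ y, Z.P (fun ω => Gd ω ∧ ds (Z.Y ω) y ≤ ρ₂) ≤ Φ)
    (hb : Pq m Z q (fun ω => ¬ Gd ω) ≤ b) :
    Hent m p ρ₂ - Hent m p ρ₁ ≤ -(1 - b) * log (1 / Φ) + cost m p Z q + 6561 := by
  have h1 : 0 < ρ₁ := by linarith
  obtain ⟨C₁, hC₁⟩ := log_bm_bdd hp h1
  obtain ⟨C₂, hC₂⟩ := log_bm_bdd hp h0
  obtain ⟨c, hc, hlo⟩ := bm_lo hp (half_pos h1)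
  set l := log (1 / Φ) with hl
  have hl0 : 0 ≤ l := log_nonneg ((one_le_div hΦ).2 hΦ1)
  set h : SU2 → ℝ := fun x => log (bm m p x ρ₂) - log (bm m p x ρ₁) with hh
  have hm : Measurable h := (measurable_bm hp _).log.sub (measurable_bm hp _).log
  have hC : ∀ x, |h x| ≤ C₂ + C₁ := fun x => (abs_sub _ _).trans (add_le_add (hC₂ x) (hC₁ x))
  have hneg : ∀ x, h x ≤ 0 := fun x => sub_nonpos.2 (log_le_log (Win_pos hp x h0)
    (bm_mono hp fun y hy => le_trans hy (by linarith : ρ₂ ≤ ρ₁)))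
  set φ : SU2 → Z.Ω → ℝ := fun a ω => if Gd ω then h (Z.Y ω * a) + l else 0 with hφ
  have hφm : ∀ ω, Measurable fun a => φ a ω := fun ω => by
    simp only [hφ]
    split_ifs
    · exact (hm.comp (measurable_const_mul _)).add_const _
    · exact measurable_const
  have hφC : ∀ a ω, |φ a ω| ≤ C₂ + C₁ + l := fun a ω => by
    simp only [hφ]
    split_ifs
    · exact (abs_add_le _ _).trans (add_le_add (hC _) (abs_of_nonneg hl0).le)
    · rw [abs_zero]
      linarith [(abs_nonneg _).trans (hC a)]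
  have hF := fenchel hp hq hφm hφC
  have hi : ∀ ω, Integrable (fun a => q a ω * h (Z.Y ω * a)) m := fun ω =>
    hq.integrable_mul hp ω (hm.comp (measurable_const_mul _)) fun a => hC _
  have hL : Hent m p ρ₂ - Hent m p ρ₁ + Pq m Z q Gd * l ≤ ∑ ω, ∫ a, q a ω * φ a ω ∂m := by
    have e1 : Hent m p ρ₂ - Hent m p ρ₁ = ∑ ω, ∫ a, q a ω * h (Z.Y ω * a) ∂m := by
      rw [hq.int_bwd hp hm hC, Hent, Hent, ← integral_sub (Win_int_log hp h0) (Win_int_log hp h1)]
      simp only [hh, mul_sub]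
    rw [e1, Pq_eq hp hq, Finset.sum_mul, ← Finset.sum_add_distrib]
    refine Finset.sum_le_sum fun ω _ => ?_
    by_cases hω : Gd ω
    · simp only [hφ, hω, if_true, mul_add]
      rw [integral_add (hi ω) ((hq.integrable hp ω).mul_const _), integral_mul_const]
    · simp only [hφ, hω, if_false, mul_zero, zero_mul, add_zero, integral_zero]
      exact integral_nonpos fun a => mul_nonpos_of_nonneg_of_nonpos (hq.nn a ω) (hneg _)
  have hR : ∑ ω, ∫ a, p a * Z.r ω * exp (φ a ω) ∂m ≤ 6561 + 1 := by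
    have hj : ∀ ω, Integrable (fun a => p a * Z.r ω * exp (φ a ω)) m := fun ω => by
      simp only [mul_right_comm _ (Z.r ω)]
      refine (Win_int hp (hφm ω).exp (C := exp (C₂ + C₁ + l)) fun a => ?_).mul_const _
      rw [abs_of_pos (exp_pos _)]
      exact exp_le_exp.2 ((le_abs_self _).trans (hφC a ω))
    have hk : Integrable (fun a => p a * (bm m p a ρ₁ / bm m p a (ρ₁ / 2))) m := by
      refine Win_int hp ((measurable_bm hp _).div (measurable_bm hp _)) (C := 1 / c) fun a => ?_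
      rw [abs_of_nonneg (div_nonneg (Win_nonneg hp a _) (Win_nonneg hp a _))]
      exact div_le_div₀ zero_le_one (bm_le_one hp a _) hc (hlo a)
    rw [← integral_finsetSum _ fun ω _ => hj ω]
    refine le_trans (integral_mono (integrable_finsetSum _ fun ω _ => hj ω)
      (hk.add hp.integrable) fun a => ?_) ?_
    · have hB := Win_pos hp a (half_pos h1)
      have k1 : ∀ ω, Z.r ω * exp (φ a ω) ≤
          (if Gd ω then Z.r ω else 0) * bm m p (Z.Y ω * a) ρ₂ / (Φ * bm m p a (ρ₁ / 2)) +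
            Z.r ω := fun ω => by
        by_cases hω : Gd ω
        · have k2 : bm m p a (ρ₁ / 2) ≤ bm m p (Z.Y ω * a) ρ₁ := bm_mono hp fun y hy => by
            have k3 := ds_triangle (Z.Y ω * a) (1 * a) y
            rw [ds_mul_right, one_mul] at k3
            have k4 : ds a y ≤ ρ₁ / 2 := hy
            show ds (Z.Y ω * a) y ≤ ρ₁
            linarith [hs ω hω]
          simp only [hφ, hh, hl, hω, if_true]
          rw [exp_add, exp_sub, exp_log (Win_pos hp _ h0), exp_log (Win_pos hp _ h1),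
            exp_log (by positivity), div_mul_div_comm, mul_one, mul_comm _ Φ, ← mul_div_assoc]
          refine le_trans ?_ (le_add_of_nonneg_right (hq.ok.nn ω))
          exact div_le_div_of_nonneg_left (mul_nonneg (hq.ok.nn ω) (Win_nonneg hp _ _))
            (by positivity) (mul_le_mul_of_nonneg_left k2 hΦ.le)
        · simp [hφ, hω]
      have k5 := Finset.sum_le_sum fun ω (_ : ω ∈ Finset.univ) => k1 ω
      rw [Finset.sum_add_distrib, ← Finset.sum_div] at k5
      have k6 := div_le_div_of_nonneg_right (Win_avg hp Gd h12 hs hf a) (mul_pos hΦ hB).le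
      rw [mul_div_mul_left _ _ hΦ.ne'] at k6
      simp only [Pi.add_apply, mul_assoc, ← Finset.mul_sum]
      nlinarith [hp.pos a, hq.ok.le]
    · simp only [Pi.add_apply]
      rw [integral_add hk hp.integrable, hp.int]
      linarith [doubling hp h1]
  have hP := Pq_add_not hp hq Gd
  nlinarith

end Pool.Agent.P.MP_923088_al.AG
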