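import Pool.Agent.P.MP_923088_al.AG.DensA
import Pool.Agent.P.MP_923088_al.AG.Win

/-!
Row AG-DensB. An almost invariant density that is concentrated at scale `1/d`.
`dens_of_law`: `F = R.op (ind m δ)` is bounded, measurable, non-negative, of integral one. Put
`N = ∫ (F+1)^2 ≥ ∫ F^2` and `p = (F+1)^2 / N`, so `√p = (F+1)/√N`. With `B = Bl 1 δ`: if
`R.Y ω * a ∈ B` then `{c | R.Y ω * c ∈ B} ⊆ Bl a (2δ)`, so `∫_(Bl a (2δ)) (F+1) ≥ (F a + 1) * m B`, and
Cauchy-Schwarz with `ball_upper`, `ball_lower` gives `bm a (2δ) ≥ p a * δ^3 / 1352`. Finally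
`- ∫ p log p = 2 ∫ p log (1/√p) ≤ 2 log c` for `c = ∫ √p = 2/√N`, by
`log (1/√p) ≤ log c + 1/(c √p) - 1`. `exists_dens` combines this with `exists_F`
(`log 8 + log 4 + log (8 * 1352) ≤ 20`).
-/

namespace Pool.Agent.P.MP_923088_al.AG

open MeasureTheory Real
open scoped Classical Quaternion

variable [MeasurableSpace SU2] [BorelSpace SU2] (m : Measure SU2) [m.IsHaarMeasure]
  [IsProbabilityMeasure m]

theorem DensB_one : DensA_BM fun _ : SU2 => (1 : ℝ) := DensA_cont continuous_const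

omit [BorelSpace SU2] [m.IsHaarMeasure] [IsProbabilityMeasure m] in
theorem DensB_ind_nonneg (δ : ℝ) (a : SU2) : 0 ≤ ind m δ a :=
  Set.indicator_nonneg (fun _ _ => by positivity) a

theorem DensB_int_ind {δ : ℝ} (h0 : 0 < δ) (g : SU2) : ∫ a, ind m δ (g * a) ∂m = 1 := by
  have h := DensA_ind_mul m δ fun _ => 1
  simp only [mul_one] at h
  rw [integral_mul_left_eq_self (ind m δ) g, h, setIntegral_const, smul_eq_mul, mul_one,
    one_div_mul_cancel (ball_pos m 1 h0).ne']

theorem DensB_loc_ind {δ : ℝ} (h0 : 0 < δ) (g a : SU2) :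
    ind m δ (g * a) * m.real (Bl 1 δ) ≤ ∫ c in Bl a (2 * δ), ind m δ (g * c) ∂m := by
  by_cases h : g * a ∈ Bl 1 δ
  · rw [setIntegral_eq_integral_of_forall_compl_eq_zero, DensB_int_ind m h0, ind,
      Set.indicator_of_mem h, one_div_mul_cancel (ball_pos m 1 h0).ne']
    refine fun c hc => Set.indicator_of_notMem (fun h1 => hc ?_) _
    have h2 := ds_triangle (g * a) 1 (g * c)
    have h3 : ds 1 (g * a) ≤ δ := h
    have h4 : ds 1 (g * c) ≤ δ := h1
    rw [ds_mul_left, ds_comm (g * a)] at h2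
    change ds a c ≤ 2 * δ
    linarith
  · rw [ind, Set.indicator_of_notMem h, zero_mul]
    exact integral_nonneg fun c => DensB_ind_nonneg m δ _

theorem DensB_loc {R : Law} (hR : R.Ok) {δ : ℝ} (h0 : 0 < δ) (a : SU2) :
    (R.op (ind m δ) a + 1) * m.real (Bl 1 δ) ≤ ∫ c in Bl a (2 * δ), (R.op (ind m δ) c + 1) ∂m := by
  rw [integral_add (((DensA_ind m δ).op R).int m).integrableOn (integrable_const _),
    setIntegral_const, smul_eq_mul, mul_one, add_mul, one_mul]
  refine add_le_add ?_ ?_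
  · simp only [Law.op]
    rw [integral_finsetSum _ fun ω _ => ((((DensA_ind m δ).tr _).int m).const_mul _).integrableOn,
      Finset.sum_mul]
    refine Finset.sum_le_sum fun ω _ => ?_
    rw [integral_const_mul, mul_assoc]
    exact mul_le_mul_of_nonneg_left (DensB_loc_ind m h0 _ a) (hR.nn ω)
  · rw [← real_Bl m a]
    exact measureReal_mono fun c (hc : ds a c ≤ δ) => show ds a c ≤ 2 * δ by linarith

theorem DensB_cs {G : SU2 → ℝ} (hG : DensA_BM G) {δ : ℝ} (h0 : 0 < δ) (hδ : δ ≤ 1) {a : SU2}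
    (ha : 0 ≤ G a) (h : G a * m.real (Bl 1 δ) ≤ ∫ c in Bl a (2 * δ), G c ∂m) :
    G a ^ 2 * (δ ^ 3 / 1352) ≤ ∫ c in Bl a (2 * δ), G c ^ 2 ∂m := by
  have i1 : IntegrableOn (fun c => G a / 52 * G c) (Bl a (2 * δ)) m :=
    ((hG.int m).const_mul _).integrableOn
  have h1 := integral_mono (i1.sub (integrable_const ((G a / 104) ^ 2))) (hG.sq.int m).integrableOn
    fun c => show G a / 52 * G c - (G a / 104) ^ 2 ≤ G c ^ 2 by
      nlinarith [sq_nonneg (G c - G a / 104)]
  rw [integral_sub' i1 (integrable_const _), integral_const_mul, setIntegral_const,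
    smul_eq_mul] at h1
  have h2 := mul_le_mul_of_nonneg_right (ball_upper m a (ρ := 2 * δ) (by linarith))
    (sq_nonneg (G a / 104))
  have h3 := mul_le_mul_of_nonneg_left
    ((mul_le_mul_of_nonneg_left (ball_lower m 1 h0.le hδ) ha).trans h) (by positivity : 0 ≤ G a / 52)
  linarith

omit [MeasurableSpace SU2] [BorelSpace SU2] in
theorem DensB_pt {g N b t : ℝ} (hg : 0 < g) (hN : 0 < N) (ht : 0 < t) (hb : g ^ 2 * t / N ≤ b) :
    g ^ 2 / N * (log N - log 4 + log t + 2) - g ≤ g ^ 2 / N * log b := by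
  have h1 : log (g ^ 2 * t / N) ≤ log b := log_le_log (by positivity) hb
  have h2 := one_sub_inv_le_log_of_pos (x := 2 * g / N) (by positivity)
  have h3 : log 4 = 2 * log 2 := by
    rw [show (4 : ℝ) = 2 ^ 2 by norm_num, log_pow, Nat.cast_ofNat]
  rw [log_div (by positivity) hN.ne', log_mul (by positivity) ht.ne', log_pow, Nat.cast_ofNat] at h1
  rw [log_div (by positivity) hN.ne', log_mul two_ne_zero hg.ne', inv_div] at h2
  have h4 : g ^ 2 / N * (log N - log 4 + log t + 2) - g =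
      g ^ 2 / N * (log N - log 4 + log t + 2 - 2 * (N / (2 * g))) := by
    field_simp
  rw [h4]
  exact mul_le_mul_of_nonneg_left (by linarith) (by positivity)

theorem dens_of_law {R : Law} (hR : R.Ok) (h1 : ∑ ω, R.r ω = 1) {δ : ℝ} (h0 : 0 < δ)
    (hδ : δ ≤ 1) : ∃ p : SU2 → ℝ, IsDens m p ∧
      (∀ g : SU2, Hel m p g ^ 2 * ∫ a, R.op (ind m δ) a ^ 2 ∂m ≤
        ∫ a, (R.op (ind m δ) (g * a) - R.op (ind m δ) a) ^ 2 ∂m) ∧
      log (∫ a, R.op (ind m δ) a ^ 2 ∂m) - log 4 + log (δ ^ 3 / 1352) ≤ Hent m p (2 * δ) := by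
  have hF := (DensA_ind m δ).op R
  have hloc := DensB_loc m hR h0
  have hn : ∀ a, 0 ≤ R.op (ind m δ) a := fun a =>
    Finset.sum_nonneg fun ω _ => mul_nonneg (hR.nn ω) (DensB_ind_nonneg m δ _)
  have hI : ∫ a, R.op (ind m δ) a ∂m = 1 := by
    have h := DensA_int_op m R (DensA_ind m δ) DensB_one
    simp only [mul_one, DensB_int_ind m h0] at h
    rw [h, h1]
  generalize R.op (ind m δ) = F at hF hloc hn hI
  have hG : DensA_BM fun a => F a + 1 := by
    simpa only [sub_neg_eq_add] using hF.sub (DensA_cont (F := fun _ => -1) continuous_const)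
  have hA : ∫ a, F a ^ 2 ∂m ≤ ∫ a, (F a + 1) ^ 2 ∂m :=
    integral_mono (hF.sq.int m) (hG.sq.int m) fun a => by nlinarith [hn a]
  have hA1 : 1 ≤ ∫ a, F a ^ 2 ∂m := by
    have i1 : Integrable (fun a => 2 * F a) m := (hF.int m).const_mul 2
    have h := integral_mono (i1.sub (integrable_const (1 : ℝ))) (hF.sq.int m)
      fun a => show 2 * F a - 1 ≤ F a ^ 2 by nlinarith [sq_nonneg (F a - 1)]
    rw [integral_sub' i1 (integrable_const _), integral_const_mul, hI] at h
    simp only [integral_const, probReal_univ, smul_eq_mul] at h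
    linarith
  obtain ⟨N, hN⟩ : ∃ N, N = ∫ a, (F a + 1) ^ 2 ∂m := ⟨_, rfl⟩
  rw [← hN] at hA
  have hN0 : 0 < N := by linarith
  have hp : IsDens m fun a => (F a + 1) ^ 2 / N := by
    obtain ⟨hm, C, hC⟩ := hG.sq
    refine ⟨hm.div_const N, ⟨1 / N, by positivity, fun a => ?_⟩, ⟨C / N, fun a => ?_⟩, ?_⟩
    · exact div_le_div_of_nonneg_right (by nlinarith [hn a]) hN0.le
    · exact div_le_div_of_nonneg_right ((le_abs_self _).trans (hC a)) hN0.le
    · rw [integral_div, ← hN, div_self hN0.ne']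
  refine ⟨_, hp, fun g => ?_, ?_⟩
  · have e : ∀ a, (√((F (g * a) + 1) ^ 2 / N) - √((F a + 1) ^ 2 / N)) ^ 2 =
        (F (g * a) - F a) ^ 2 / N := fun a => by
      rw [sqrt_div (sq_nonneg _), sqrt_div (sq_nonneg _), sqrt_sq (by linarith [hn (g * a)]),
        sqrt_sq (by linarith [hn a]), ← sub_div, div_pow, sq_sqrt hN0.le, add_sub_add_right_eq_sub]
    refine (mul_le_mul_of_nonneg_left hA (sq_nonneg _)).trans (le_of_eq ?_)
    rw [Hel, sq_sqrt (integral_nonneg fun a => sq_nonneg _)]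
    simp only [e]
    rw [integral_div, div_mul_cancel₀ _ hN0.ne']
  · obtain ⟨C, hC⟩ := log_bm_bdd hp (ρ := 2 * δ) (by linarith)
    obtain ⟨D, hD⟩ := hp.hi
    have b1 : DensA_BM fun a => (F a + 1) ^ 2 / N :=
      ⟨hp.meas, D, fun a => (abs_of_pos (hp.pos a)).trans_le (hD a)⟩
    have i1 := hp.integrable.mul_const (log N - log 4 + log (δ ^ 3 / 1352) + 2)
    have h := integral_mono (i1.sub (hG.int m))
      ((b1.mul ⟨(measurable_bm hp (2 * δ)).log, C, hC⟩).int m) fun a =>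
        DensB_pt (by linarith [hn a]) hN0 (by positivity) (by
          rw [bm, integral_div]
          exact div_le_div_of_nonneg_right
            (DensB_cs m hG h0 hδ (by linarith [hn a]) (hloc a)) hN0.le)
    rw [integral_sub' i1 (hG.int m), integral_mul_const, hp.int,
      integral_add (hF.int m) (integrable_const _), hI] at h
    simp only [integral_const, probReal_univ, smul_eq_mul] at h
    have h2 := log_le_log (by linarith) hA
    rw [Hent]
    linarith

theorem exists_dens {d k : ℕ} (hd : 2 ≤ d) (w : Fin (k + 1) → SU2) {v : CF} (hv : v ∈ V d)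
    (h0 : v ≠ 0) {lam η : ℝ} (he : (bark w).Lc v = (lam : ℂ) • v) (hη : 0 < η) (hη' : η ≤ 1 / 2)
    (hl : 1 - η ≤ lam) :
    ∃ p : SU2 → ℝ, IsDens m p ∧ (∀ i, Hel m p (w i) ^ 2 ≤ 1024 * (k + 1) * η) ∧
      -(5 / 2) * log d - 20 ≤ Hent m p (1 / d) := by
  have hd0 : (0 : ℝ) < d := by exact_mod_cast (by omega : 0 < d)
  have hd2 : (2 : ℝ) ≤ d := by exact_mod_cast hd
  obtain ⟨n, h1, h2⟩ := exists_F m hd w hv h0 he hη hη' hl
  obtain ⟨p, hp, h3, h4⟩ := dens_of_law m (ok_blk (ok_bark w) 1 n) (sum_blk (sum_bark w) 1 n)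
    (δ := 1 / (2 * d)) (by positivity) (by rw [div_le_one (by positivity)]; linarith)
  have h5 : 0 < √(d : ℝ) / 8 := by positivity
  refine ⟨p, hp, fun i => le_of_mul_le_mul_right ((h3 _).trans (h2 i)) (h5.trans_le h1), ?_⟩
  have h6 := log_le_log h5 h1
  have h7 : log 1352 ≤ log (2 ^ 11) := log_le_log (by norm_num) (by norm_num)
  have h8 := log_le_sub_one_of_pos two_pos
  rw [show 2 * (1 / (2 * (d : ℝ))) = 1 / d by field_simp, log_div (by positivity) (by norm_num),
    log_pow, log_div one_ne_zero (by positivity), log_one, log_mul two_ne_zero hd0.ne',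
    show (4 : ℝ) = 2 ^ 2 by norm_num, log_pow] at h4
  rw [log_div (by positivity) (by norm_num), log_sqrt hd0.le, show (8 : ℝ) = 2 ^ 3 by norm_num,
    log_pow] at h6
  rw [log_pow] at h7
  push_cast at h4 h6 h7
  linarith

end Pool.Agent.P.MP_923088_al.AG
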