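import Pool.Agent.P.MP_923088_al.AG.Sect
import Pool.Agent.P.MP_923088_al.AG.AxD

/-!
Row AG-NCm. Almost every tuple has the non-concentration property.
Numbers: `e B j = (B/2)^j / 2`, `ρ B j = exp (-B^(j+3))`.
(1) Collisions: for `j + 1 ≤ k` use `pi_Rs` with `ρ = ρ B (j+1)`, `t = exp (-2 B e)`,
`s = exp (-B e)`, `lam = 3 exp (12 B^2 e)`, `e = e B j`; the bound is
`12 B^2 exp (-B e) ≤ 12 B^2 exp (-B/2)` for `B ≥ 2`, summable in `B`; Borel-Cantelli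
(`MeasureTheory.ae_eventually_notMem`). For such `w` and large `B` induct on `j ≤ k`:
`col (lev j) (ρ B j) ≤ exp (-e B j)`; start with `col_bark` and `ae_sz` (`3/8 ≤ exp (-1/2)`), step
with `col_blk` (`lam ρ_(j+1) (1+lam)^B ≤ ρ_j` since `(B+1)(12 B^2 e + 2) ≤ B^(j+4) - B^(j+3)` for
`B ≥ 10`; `2 exp (-B e) ≤ exp (-B e / 2)` and `B e / 2 = e B (j+1)`).
(2) Axis: for `j = i + 2`, `j + 1 ≤ k`, use `pi_Ra` with `ζ = exp (-B^(j+4))`, `ρ = ρ B j`,
`t = exp (-2e)`, `s = exp (-e)`; the bound `48 exp (-e) ≤ 48 exp (-B/4)` is summable. Then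
`ax_of_col` with `8 exp (-e B j) ≤ exp (-B^i)^3` for `B` large in terms of `k`.
-/

namespace Pool.Agent.P.MP_923088_al.AG

open MeasureTheory Real
open scoped Classical Quaternion

/-- The collision exponent. -/
noncomputable def NCm_e (B j : ℕ) : ℝ := ((B : ℝ) / 2) ^ j / 2

theorem NCm_e_succ (B j : ℕ) : NCm_e B (j + 1) = B * NCm_e B j / 2 := by
  rw [NCm_e, NCm_e, pow_succ]
  ring

theorem NCm_e_ge {B : ℕ} (hB : 2 ≤ B) (j : ℕ) : 1 / 2 ≤ NCm_e B j := by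
  have h : (2 : ℝ) ≤ B := by exact_mod_cast hB
  have h1 : (1 : ℝ) ≤ ((B : ℝ) / 2) ^ j := one_le_pow₀ (by linarith)
  rw [NCm_e]
  linarith

theorem NCm_e_le (B j : ℕ) : NCm_e B j ≤ (B : ℝ) ^ j / 2 := by
  have h : (0 : ℝ) ≤ B := Nat.cast_nonneg B
  have h1 : ((B : ℝ) / 2) ^ j ≤ (B : ℝ) ^ j := pow_le_pow_left₀ (by linarith) (by linarith) j
  rw [NCm_e]
  linarith

theorem NCm_bc {X : Type} [MeasurableSpace X] (μ : Measure X) [IsFiniteMeasure μ] {s : ℕ → Set X}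
    {u : ℕ → ℝ} (hu : Summable u) (h : ∀ B, 10 ≤ B → μ.real (s B) ≤ u B) :
    ∀ᵐ w ∂μ, ∀ᶠ B in Filter.atTop, w ∉ s B := by
  have h1 : Summable fun B => μ.real (s B) := by
    refine Summable.of_norm_bounded_eventually_nat hu ?_
    filter_upwards [Filter.eventually_ge_atTop 10] with B hB
    rw [Real.norm_of_nonneg measureReal_nonneg]
    exact h B hB
  refine ae_eventually_notMem ?_
  have h2 := h1.tsum_ofReal_ne_top
  simp only [ofReal_measureReal (measure_ne_top μ _)] at h2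
  exact h2

theorem NCm_exp_one : (2 : ℝ) ≤ exp 1 := by
  have := add_one_le_exp (1 : ℝ)
  linarith

theorem NCm_exp_two : (4 : ℝ) ≤ exp 2 := by
  have h := NCm_exp_one
  rw [show (2 : ℝ) = 1 + 1 by norm_num, exp_add]
  nlinarith

theorem NCm_exp_three : (8 : ℝ) ≤ exp 3 := by
  have h := NCm_exp_one
  have h2 := NCm_exp_two
  rw [show (3 : ℝ) = 2 + 1 by norm_num, exp_add]
  nlinarith

theorem NCm_scale {B : ℕ} (hB : 10 ≤ B) (j : ℕ) :
    3 * exp (12 * (B : ℝ) ^ 2 * NCm_e B j) * exp (-(B : ℝ) ^ (j + 1 + 3)) *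
      (1 + 3 * exp (12 * (B : ℝ) ^ 2 * NCm_e B j)) ^ B ≤ exp (-(B : ℝ) ^ (j + 3)) := by
  have h : (10 : ℝ) ≤ B := by exact_mod_cast hB
  have he := NCm_e_ge (le_trans (by norm_num) hB) j
  have he' := NCm_e_le B j
  set a := 12 * (B : ℝ) ^ 2 * NCm_e B j with ha
  have h1 : 1 ≤ exp a := one_le_exp (by positivity)
  have h2 : 1 + 3 * exp a ≤ exp (a + 2) := by
    rw [exp_add]
    nlinarith [NCm_exp_two]
  have h3 : (1 + 3 * exp a) ^ B ≤ exp (B * (a + 2)) := by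
    rw [exp_nat_mul]
    exact pow_le_pow_left₀ (by positivity) h2 B
  have h4 : 3 * exp a ≤ exp (a + 2) := by linarith
  refine (mul_le_mul (mul_le_mul_of_nonneg_right h4 (exp_pos _).le) h3 (by positivity)
    (by positivity)).trans ?_
  rw [← exp_add, ← exp_add]
  refine exp_le_exp.2 ?_
  have hy : (1 : ℝ) ≤ (B : ℝ) ^ j := one_le_pow₀ (by linarith)
  rw [pow_add, pow_add, pow_add, pow_one]
  set y := (B : ℝ) ^ j
  have h5 : a + 2 ≤ 7 * (y * (B : ℝ) ^ 2) := by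
    have h6 : a ≤ 6 * (y * (B : ℝ) ^ 2) := by
      rw [ha]
      nlinarith [sq_nonneg (B : ℝ)]
    nlinarith
  have h7 : (B + 1) * (a + 2) ≤ (B + 1) * (7 * (y * (B : ℝ) ^ 2)) :=
    mul_le_mul_of_nonneg_left h5 (by linarith)
  have h8 : 0 ≤ y * (B : ℝ) ^ 2 * ((B : ℝ) ^ 2 - 8 * B - 7) :=
    mul_nonneg (by positivity) (by nlinarith)
  nlinarith

theorem NCm_axis {B : ℕ} (hB : 10 ≤ B) (j : ℕ) :
    12 * exp (-(B : ℝ) ^ (j + 4)) ≤ exp (-(2 * NCm_e B j)) ^ 24 * exp (-(B : ℝ) ^ (j + 3)) ^ 7 := by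
  have h : (10 : ℝ) ≤ B := by exact_mod_cast hB
  have he' := NCm_e_le B j
  have h1 : (12 : ℝ) ≤ exp 4 := by
    rw [show (4 : ℝ) = 3 + 1 by norm_num, exp_add]
    nlinarith [NCm_exp_one, NCm_exp_three]
  refine (mul_le_mul_of_nonneg_right h1 (exp_pos _).le).trans ?_
  rw [← exp_nat_mul, ← exp_nat_mul, ← exp_add, ← exp_add]
  refine exp_le_exp.2 ?_
  have hy : (1 : ℝ) ≤ (B : ℝ) ^ j := one_le_pow₀ (by linarith)
  rw [pow_add, pow_add]
  set y := (B : ℝ) ^ j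
  have h2 : (1000 : ℝ) ≤ (B : ℝ) ^ 3 := by
    have := pow_le_pow_left₀ (by norm_num) h 3
    linarith
  have h3 : 0 ≤ y * ((B : ℝ) ^ 4 - 7 * (B : ℝ) ^ 3 - 28) :=
    mul_nonneg (by linarith) (by nlinarith)
  push_cast
  nlinarith

theorem NCm_last {B i k : ℕ} (hB : 6 * 2 ^ (k + 3) ≤ B) (hi : i ≤ k) :
    8 * exp (-NCm_e B (i + 2)) ≤ exp (-(B : ℝ) ^ i) ^ 3 := by
  have h : (6 : ℝ) * 2 ^ (k + 3) ≤ B := by exact_mod_cast hB
  have h1 : (2 : ℝ) ^ (i + 3) ≤ 2 ^ (k + 3) := pow_le_pow_right₀ one_le_two (by omega)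
  have h2 : (1 : ℝ) ≤ 2 ^ (i + 3) := one_le_pow₀ one_le_two
  have hB1 : (1 : ℝ) ≤ B := by linarith
  refine (mul_le_mul_of_nonneg_right NCm_exp_three (exp_pos _).le).trans ?_
  rw [← exp_nat_mul, ← exp_add]
  refine exp_le_exp.2 ?_
  have hy : (1 : ℝ) ≤ (B : ℝ) ^ i := one_le_pow₀ hB1
  have h3 : 6 * (B : ℝ) ^ i ≤ NCm_e B (i + 2) := by
    have e : NCm_e B (i + 2) = (B : ℝ) ^ i * (B : ℝ) ^ 2 / 2 ^ (i + 3) := by
      rw [NCm_e, div_pow, pow_add (B : ℝ), pow_succ (2 : ℝ) (i + 2), div_div]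
    rw [e, le_div_iff₀ (by positivity)]
    have h4 : 6 * 2 ^ (i + 3) ≤ (B : ℝ) ^ 2 := by nlinarith
    nlinarith
  push_cast
  linarith

/-- The collision recursion. -/
theorem NCm_col {H : ℕ → SU2} {B k : ℕ} (hB : 10 ≤ B) (h1 : exp (-(B : ℝ) ^ 3) < sz (H 0))
    (h2 : exp (-(B : ℝ) ^ 3) < sz (H 0 * H 0))
    (h : ∀ j, j + 1 ≤ k → Rs (lev H B j) (H (j + 1)) B (3 * exp (12 * (B : ℝ) ^ 2 * NCm_e B j))
      (exp (-(B : ℝ) ^ (j + 1 + 3))) < exp (-(B * NCm_e B j))) (j : ℕ) (hj : j ≤ k) :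
    (lev H B j).col (exp (-(B : ℝ) ^ (j + 3))) ≤ exp (-NCm_e B j) := by
  induction j with
  | zero =>
    rw [lev_zero, zero_add]
    refine (col_bark h1 h2).trans ?_
    have := add_one_le_exp (-NCm_e B 0)
    rw [NCm_e, pow_zero] at this ⊢
    linarith
  | succ j ih =>
    have hB' : (10 : ℝ) ≤ B := by exact_mod_cast hB
    have he := NCm_e_ge (le_trans (by norm_num) hB) j
    have h3 := col_blk (ok_lev H B j) (H (j + 1)) B (by positivity) (exp_pos _).le (NCm_scale hB j)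
    have h4 := pow_le_pow_left₀ (Law.col_nonneg (ok_lev H B j) _) (ih (by omega)) B
    have h5 := h j hj
    rw [← exp_nat_mul, mul_neg] at h4
    have h6 : 2 * exp (-(B * NCm_e B j)) ≤ exp (-NCm_e B (j + 1)) := by
      refine (mul_le_mul_of_nonneg_right NCm_exp_one (exp_pos _).le).trans ?_
      rw [← exp_add, NCm_e_succ]
      exact exp_le_exp.2 (by nlinarith)
    rw [lev_succ]
    linarith

variable [MeasurableSpace SU2] [BorelSpace SU2] (m : Measure SU2) [m.IsHaarMeasure]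
  [IsProbabilityMeasure m]

theorem NCm_Rs {k j : ℕ} (hj : j + 1 ≤ k) : ∀ᵐ w ∂(Measure.pi fun _ : Fin (k + 1) => m),
    ∀ᶠ B : ℕ in Filter.atTop, Rs (lev (ext w) B j) (ext w (j + 1)) B
      (3 * exp (12 * (B : ℝ) ^ 2 * NCm_e B j)) (exp (-(B : ℝ) ^ (j + 1 + 3))) <
        exp (-(B * NCm_e B j)) := by
  have hu := (summable_pow_mul_exp_neg_nat_mul 2 (r := 1 / 2) (by norm_num)).mul_left 12
  have h := NCm_bc (Measure.pi fun _ : Fin (k + 1) => m) (s := fun B => {w | exp (-(B * NCm_e B j)) ≤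
    Rs (lev (ext w) B j) (ext w (j + 1)) B (3 * exp (12 * (B : ℝ) ^ 2 * NCm_e B j))
      (exp (-(B : ℝ) ^ (j + 1 + 3)))}) hu fun B hB => by
    have he := NCm_e_ge (le_trans (by norm_num) hB) j
    have h0 : (0 : ℝ) ≤ B := Nat.cast_nonneg B
    have h1 : 1 ≤ exp (12 * (B : ℝ) ^ 2 * NCm_e B j) := one_le_exp (by positivity)
    refine (pi_Rs m hj B (t := exp (-(2 * (B * NCm_e B j)))) (exp_pos _) (by linarith) (exp_pos _)
      (exp_le_one_iff.2 (neg_nonpos.2 (by positivity))) (le_of_eq ?_) (exp_pos _)).trans ?_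
    · rw [← exp_nat_mul, mul_left_comm, ← exp_add]
      push_cast
      rw [show 6 * (B : ℝ) * -(2 * (B * NCm_e B j)) + 12 * (B : ℝ) ^ 2 * NCm_e B j = 0 by ring,
        exp_zero, mul_one]
    · rw [mul_div_assoc, ← exp_sub, mul_assoc]
      refine mul_le_mul_of_nonneg_left (mul_le_mul_of_nonneg_left (exp_le_exp.2 ?_)
        (by positivity)) (by norm_num)
      nlinarith
  filter_upwards [h] with w hw
  filter_upwards [hw] with B hB
  exact not_le.1 hB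

theorem NCm_Ra {k j : ℕ} (hj : j + 1 + 1 ≤ k) : ∀ᵐ w ∂(Measure.pi fun _ : Fin (k + 1) => m),
    ∀ᶠ B : ℕ in Filter.atTop, Ra (lev (ext w) B (j + 1)) (ext w (j + 1 + 1))
      (exp (-(B : ℝ) ^ (j + 1 + 4))) (exp (-(B : ℝ) ^ (j + 1 + 3))) < exp (-NCm_e B (j + 1)) := by
  have hu := (summable_pow_mul_exp_neg_nat_mul 0 (r := 1 / 4) (by norm_num)).mul_left 48
  have h := NCm_bc (Measure.pi fun _ : Fin (k + 1) => m) (s := fun B => {w | exp (-NCm_e B (j + 1)) ≤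
    Ra (lev (ext w) B (j + 1)) (ext w (j + 1 + 1)) (exp (-(B : ℝ) ^ (j + 1 + 4)))
      (exp (-(B : ℝ) ^ (j + 1 + 3)))}) hu fun B hB => by
    have he := NCm_e_ge (le_trans (by norm_num) hB) j
    have h0 : (0 : ℝ) ≤ B := Nat.cast_nonneg B
    refine (pi_Ra m hj B (exp_pos _) (exp_pos _) (NCm_axis hB (j + 1)) (exp_pos _)).trans ?_
    rw [mul_div_assoc, ← exp_sub, pow_zero, one_mul]
    refine mul_le_mul_of_nonneg_left (exp_le_exp.2 ?_) (by norm_num)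
    rw [NCm_e_succ]
    nlinarith
  filter_upwards [h] with w hw
  filter_upwards [hw] with B hB
  exact not_le.1 hB

theorem ae_NC (k : ℕ) : ∀ᵐ w ∂(Measure.pi fun _ : Fin (k + 1) => m), NC w := by
  have h0 : ∀ᵐ w ∂(Measure.pi fun _ : Fin (k + 1) => m), 0 < sz (w 0) ∧ 0 < sz (w 0 * w 0) :=
    (Measure.quasiMeasurePreserving_eval (fun _ : Fin (k + 1) => m) 0).ae (ae_sz m)
  have h1 := (ae_ball_iff (Finset.range k).countable_toSet).2 fun j hj =>
    NCm_Rs m (k := k) (j := j) (Finset.mem_range.1 hj)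
  have h2 := (ae_ball_iff (Finset.range (k - 1)).countable_toSet).2 fun j hj =>
    NCm_Ra m (k := k) (j := j) (by have := Finset.mem_range.1 hj; omega)
  filter_upwards [h0, h1, h2] with w w0 w1 w2
  have t0 : Filter.Tendsto (fun B : ℕ => exp (-(B : ℝ) ^ 3)) Filter.atTop (nhds 0) :=
    tendsto_exp_neg_atTop_nhds_zero.comp
      ((Filter.tendsto_pow_atTop (by norm_num)).comp tendsto_natCast_atTop_atTop)
  have e1 := (Filter.eventually_all_finset (Finset.range k)).2 w1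
  have e2 := (Filter.eventually_all_finset (Finset.range (k - 1))).2 w2
  have e3 := (t0.eventually (gt_mem_nhds w0.1)).and (t0.eventually (gt_mem_nhds w0.2))
  have e4 := (Filter.eventually_ge_atTop 10).and (Filter.eventually_ge_atTop (6 * 2 ^ (k + 3)))
  obtain ⟨B₀, hB₀⟩ := Filter.eventually_atTop.1 ((e1.and e2).and (e3.and e4))
  refine ⟨B₀, fun B hB i hi => ?_⟩
  obtain ⟨⟨a1, a2⟩, a3, a4, a5⟩ := hB₀ B hB
  have e0 : ext w 0 = w 0 := ext_fin w 0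
  have c1 := NCm_col (H := ext w) (k := k) a4 (e0 ▸ a3.1) (e0 ▸ a3.2)
    (fun j hj => a1 j (Finset.mem_range.2 hj)) (i + 2) (by omega)
  have c2 := a2 (i + 1) (Finset.mem_range.2 (by omega))
  have c3 := NCm_last a5 (by omega : i ≤ k)
  rw [lev_succ]
  refine ax_of_col (ok_lev _ B _) _ (ρ := exp (-(B : ℝ) ^ (i + 2 + 3))) (exp_pos _).le
    (exp_pos _).le ?_ (le_trans (by norm_num) a4)
  have c4 : Ra (lev (ext w) B (i + 2)) (ext w (i + 2 + 1)) (exp (-(B : ℝ) ^ (i + 6)))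
      (exp (-(B : ℝ) ^ (i + 2 + 3))) < exp (-NCm_e B (i + 2)) := c2
  linarith

end Pool.Agent.P.MP_923088_al.AG
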