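import Pool.Agent.P.MP_923088_al.AG.Ind
import Pool.Agent.P.MP_923088_al.AG.NCm

/-!
The theorem for the averaging operator.
`shift_mp`: split off the first coordinate (`measurePreserving_piFinSuccAbove` at `0`), then for fixed
`g 0` right multiplication preserves the product measure (`measurePreserving_pi`,
`MeasurePreserving.skew_product`). `almost_gap`: `K = k + 2`, `ε = 10/√K`, `J = ⌈9/ε⌉₊ + 2`
(`4J + 42 ≤ 3.6 √K + 54 ≤ 10 √K - 2 ≤ ε k`). `dirichlet` gives `i`; `avg_sq` with `s = g i.succ`,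
`s' = (g 0)⁻¹`, and `Lt (g 0) (Lt s F - Lt s' F) = Lt (s * g 0) F - F`, `norm_Lt`; the symmetrised set
has at most `2K` elements; take the constant `c / (4 K^2)` and use `√(1 - x) ≤ 1 - x/2` (compare
squares; `c / log (D+2)^ε ≤ 1` can be arranged, or follows from `‖Lt g F - F‖ ≤ 2 ‖F‖` if `F ≠ 0`).
-/

namespace Pool.Agent.P.MP_923088_al.AG

open MeasureTheory Real
open scoped Classical Quaternion

variable [MeasurableSpace SU2] [BorelSpace SU2] (m : Measure SU2) [m.IsHaarMeasure]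
  [IsProbabilityMeasure m]

theorem shift_mp (k : ℕ) :
    MeasurePreserving (fun (g : Fin (k + 2) → SU2) (i : Fin (k + 1)) => g i.succ * g 0)
      (Measure.pi fun _ => m) (Measure.pi fun _ => m) := by
  have h1 := measurePreserving_piFinSuccAbove (fun _ : Fin (k + 2) => m) 0
  have hm : Measurable fun z : SU2 × (Fin (k + 1) → SU2) => fun i => z.2 i * z.1 :=
    measurable_pi_lambda _ fun i => ((measurable_pi_apply i).comp measurable_snd).mul measurable_fst
  have h2 : MeasurePreserving (fun z : SU2 × (Fin (k + 1) → SU2) => (id z.1, fun i => z.2 i * z.1))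
      (m.prod (Measure.pi fun _ => m)) (m.prod (Measure.pi fun _ => m)) :=
    MeasurePreserving.skew_product (g := fun (a : SU2) (c : Fin (k + 1) → SU2) i => c i * a)
      (MeasurePreserving.id m) hm (Filter.Eventually.of_forall fun a =>
        (measurePreserving_pi (fun _ => m) (fun _ => m)
          fun _ => measurePreserving_mul_right m a).map_eq)
  have h3 : MeasurePreserving (Prod.snd : SU2 × (Fin (k + 1) → SU2) → _)
      (m.prod (Measure.pi fun _ => m)) (Measure.pi fun _ => m) := measurePreserving_snd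
  exact (h3.comp h2).comp h1

theorem Fin_num {K : ℕ} (hK : 100 ≤ K) : 0 < 10 / √(K : ℝ) ∧ 10 / √(K : ℝ) ≤ 1 ∧
    ∃ J : ℕ, 9 ≤ 10 / √(K : ℝ) * ((J : ℝ) - 2) ∧
      4 * (J : ℝ) + 42 ≤ 10 / √(K : ℝ) * ((K : ℝ) - 2) := by
  have K1 : (100 : ℝ) ≤ K := by exact_mod_cast hK
  have s1 : 10 ≤ √(K : ℝ) := Real.le_sqrt_of_sq_le (by linarith)
  have s2 : √(K : ℝ) * √(K : ℝ) = K := Real.mul_self_sqrt (by linarith)
  set s := √(K : ℝ) with hs
  have s0 : 0 < s := by linarith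
  refine ⟨by positivity, by rw [div_le_one s0]; exact s1, ⌈9 / 10 * s⌉₊ + 2, ?_, ?_⟩
  · have := Nat.le_ceil (9 / 10 * s)
    push_cast
    rw [div_mul_eq_mul_div, le_div_iff₀ s0]
    linarith
  · have := Nat.ceil_lt_add_one (show 0 ≤ 9 / 10 * s by positivity)
    push_cast
    rw [div_mul_eq_mul_div 10 s, le_div_iff₀ s0]
    nlinarith

theorem almost_gap {K : ℕ} (hK : 100 ≤ K) : ∀ᵐ g ∂(Measure.pi fun _ : Fin K => m),
    ∃ c : ℝ, 0 < c ∧ ∀ D : ℕ, ∀ F ∈ W D, ∫ x, F x ∂m = 0 →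
      ‖io m (Tp (symmSet (Finset.univ.image g)) F)‖ ≤
        (1 - c / log ((D : ℝ) + 2) ^ (10 / √(K : ℝ))) * ‖io m F‖ := by
  obtain ⟨e0, e1, J, hJ, hk⟩ := Fin_num hK
  obtain ⟨k, rfl⟩ : ∃ k, K = k + 2 := ⟨K - 2, by omega⟩
  set ε := 10 / √((k + 2 : ℕ) : ℝ) with hε
  have hk' : 4 * (J : ℝ) + 42 ≤ ε * k := by
    have : ((k + 2 : ℕ) : ℝ) - 2 = k := by push_cast; ring
    rwa [this] at hk
  filter_upwards [(shift_mp m k).quasiMeasurePreserving.ae (ae_NC m k)] with g hg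
  obtain ⟨c, c0, hc⟩ := gap_all m e0 e1 hJ hk' hg
  have K0 : (0 : ℝ) < (k : ℝ) + 2 := by positivity
  refine ⟨c / (4 * ((k : ℝ) + 2) ^ 2), by positivity, fun D F hF h0 => ?_⟩
  obtain ⟨i, hi⟩ := dirichlet m _ (hc D) hF h0
  set S := symmSet (Finset.univ.image g) with hS
  have m1 : g i.succ ∈ S := by
    rw [hS]; unfold symmSet
    exact Finset.mem_union_left _ (Finset.mem_image_of_mem _ (Finset.mem_univ _))
  have m2 : (g 0)⁻¹ ∈ S := by
    rw [hS]; unfold symmSet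
    exact Finset.mem_union_right _ (Finset.mem_image_of_mem _
      (Finset.mem_image_of_mem _ (Finset.mem_univ _)))
  have c1 : (S.card : ℝ) ≤ 2 * ((k : ℝ) + 2) := by
    have h1 : (Finset.univ.image g).card ≤ k + 2 := Finset.card_image_le.trans (by simp)
    have h2 : S.card ≤ 2 * (k + 2) := by
      rw [hS]; unfold symmSet
      refine (Finset.card_union_le _ _).trans ?_
      have := Finset.card_image_le (s := Finset.univ.image g) (f := fun s : SU2 => s⁻¹)
      omega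
    exact_mod_cast h2
  have c2 : (0 : ℝ) < S.card := by exact_mod_cast Finset.card_pos.mpr ⟨_, m1⟩
  have h1 := avg_sq m F m1 m2
  have e : Lt (g 0) (Lt (g i.succ) F - Lt (g 0)⁻¹ F) = Lt (g i.succ * g 0) F - F := by
    ext x
    simp only [map_sub, ContinuousMap.sub_apply, Lt_apply, mul_assoc, inv_mul_cancel_left]
  rw [← norm_Lt m (g 0) (Lt (g i.succ) F - Lt (g 0)⁻¹ F), e] at h1
  have l1 := Ind_log e0 e1 D
  set γ := c / log ((D : ℝ) + 2) ^ ε with hγ
  have γ0 : 0 < γ := div_pos c0 (by linarith)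
  have e2 : c / (4 * ((k : ℝ) + 2) ^ 2) / log ((D : ℝ) + 2) ^ ε = γ / (4 * ((k : ℝ) + 2) ^ 2) := by
    rw [hγ]; ring
  rw [e2]
  set x := γ / (4 * ((k : ℝ) + 2) ^ 2) with hx
  have x0 : 0 < x := by positivity
  have h2 : 2 * x * ‖io m F‖ ^ 2 ≤
      ‖io m (Lt (g i.succ * g 0) F - F)‖ ^ 2 / (2 * (S.card : ℝ) ^ 2) := by
    rw [le_div_iff₀ (by positivity)]
    refine le_trans ?_ hi
    calc 2 * x * ‖io m F‖ ^ 2 * (2 * (S.card : ℝ) ^ 2)
        ≤ 2 * x * ‖io m F‖ ^ 2 * (2 * (2 * ((k : ℝ) + 2)) ^ 2) := by gcongr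
      _ = _ := by rw [hx]; field_simp; ring
  have n0 := norm_nonneg (io m F)
  have n1 := norm_nonneg (io m (Tp S F))
  rcases n0.eq_or_lt with h | h
  · rw [← h] at h1 h2 ⊢
    have : ‖io m (Tp S F)‖ ^ 2 ≤ 0 := by nlinarith
    nlinarith
  · have h3 : 0 ≤ (1 - 2 * x) * ‖io m F‖ ^ 2 := by nlinarith
    have h4 : 0 ≤ 1 - 2 * x := nonneg_of_mul_nonneg_left h3 (by positivity)
    refine (sq_le_sq₀ n1 (mul_nonneg (by linarith) n0)).mp ?_
    nlinarith [sq_nonneg (x * ‖io m F‖)]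

end Pool.Agent.P.MP_923088_al.AG
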