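import Pool.Agent.P.MP_923088_al.AG.Defs2
import Pool.Agent.P.MP_923088_al.AG.Haar
import Pool.Agent.P.MP_923088_al.AG.LawL

/-!
Row AG-Flat. The product of two randomly conjugated small elements is spread out.
Plan. `ρ = ζ ρ₁`, `D i = ds (x i) 1`, `X i = g i⁻¹ x i g i`. The event is `ds X₁ (X₂⁻¹ y) ≤ ρ`.
(1) For fixed `g₂`: `Mixes` with `E' = {g | ds (g⁻¹ x₁ g) y' ≤ 3ρ}` (`ds_conj_le`), `cap`,
`ds_sq_le'` and `ζ ≤ ρ / lo` give weight at most `37 ρ^2 / lo^2`.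
(2) The weight in (1) is zero unless `|ds (X₂⁻¹ y) 1 - D₁| ≤ ρ`; then with `hc = 1 - D^2/2`
(`ds_one_sq`; do NOT use that `hc` is 1-Lipschitz) `|hc (X₂⁻¹ y) - hc x₁| ≤ (9/8) ρ ρ₁`, and
`hc (X₂⁻¹ y) = hc x₂ * hc y + ip X₂ y`. If the event is not empty then `lo/2 ≤ ds y 1 ≤ 3ρ₁/2`, so
`lo^2/8 ≤ sz y^2`. Moving `g₂` by `ζ` moves `X₂` by at most `ρ/2` and `ip X₂ y` by at most
`(3/4) ρ ρ₁` (`abs_ip_sub_le`). So `Mixes` and `band_ip` with length `(15/4) ρ ρ₁` give weight at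
most `16 ρ ρ₁ / lo^2` (note `ζ^2 ≤ ρ ρ₁ / lo^2`).
-/

namespace Pool.Agent.P.MP_923088_al.AG

open MeasureTheory Real
open scoped Classical Quaternion

variable [MeasurableSpace SU2] [BorelSpace SU2] {m : Measure SU2} [m.IsHaarMeasure]
  [IsProbabilityMeasure m]

omit [MeasurableSpace SU2] [BorelSpace SU2] in
theorem Flat_cont (x : SU2) : Continuous fun g : SU2 => g⁻¹ * x * g :=
  (continuous_id.inv.mul continuous_const).mul continuous_id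

omit [MeasurableSpace SU2] [BorelSpace SU2] in
theorem Flat_hc_conj (g x : SU2) : hc (g⁻¹ * x * g) = hc x := by
  rw [hc_comm, mul_inv_cancel_left]

omit [MeasurableSpace SU2] [BorelSpace SU2] in
theorem Flat_sz_pos {x : SU2} {a : ℝ} (ha : 0 < a) (h : a ≤ ds x 1) (h1 : ds x 1 ≤ 1) :
    0 < sz x ∧ a ^ 2 ≤ 2 * sz x ^ 2 := by
  have h2 : a ^ 2 ≤ 2 * sz x ^ 2 := (pow_le_pow_left₀ ha.le h 2).trans (ds_sq_le' x h1)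
  refine ⟨lt_of_le_of_ne (sz_nonneg x) fun e => ?_, h2⟩
  rw [← e] at h2
  nlinarith

theorem Flat_cap {L : Law} {ζ lo ρ₁ : ℝ} (hm : Mixes m L ζ) {x : SU2} (hζ : 0 < ζ) (hlo : 0 < lo)
    (a : lo ≤ ds x 1) (b : ds x 1 ≤ ρ₁) (hρ : ρ₁ ≤ 1) (y : SU2) :
    L.P (fun ω => ds ((L.Y ω)⁻¹ * x * L.Y ω) y ≤ ζ * ρ₁) ≤ 37 * (ζ * ρ₁) ^ 2 / lo ^ 2 := by
  obtain ⟨h1, h2⟩ := Flat_sz_pos hlo a (b.trans hρ)
  have h3 := hm {g | ds (g⁻¹ * x * g) y ≤ ζ * ρ₁} {g | ds (g⁻¹ * x * g) y ≤ 3 * (ζ * ρ₁)}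
    (isClosed_le (continuous_ds.comp ((Flat_cont x).prodMk continuous_const))
      continuous_const).measurableSet (by
    intro g hg g' hg'
    have e1 : ds (g⁻¹ * x * g) y ≤ ζ * ρ₁ := hg
    have e2 : ds g' g ≤ ζ := by rw [ds_comm]; exact hg'
    have e3 := ds_triangle (g'⁻¹ * x * g') (g⁻¹ * x * g) y
    have e4 := ds_conj_le g' g x
    have e5 : ds g' g * sz x ≤ ζ * ρ₁ :=
      mul_le_mul e2 ((sz_le_ds x).trans b) (sz_nonneg x) hζ.le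
    show ds (g'⁻¹ * x * g') y ≤ 3 * (ζ * ρ₁)
    linarith)
  have h4 := cap m h1 y (3 * (ζ * ρ₁))
  have h5 : (3 * (ζ * ρ₁)) ^ 2 / sz x ^ 2 ≤ 18 * (ζ * ρ₁) ^ 2 / lo ^ 2 := by
    rw [div_le_div_iff₀ (by positivity) (by positivity)]
    nlinarith [mul_le_mul_of_nonneg_left h2 (sq_nonneg (ζ * ρ₁))]
  have h6 : ζ ^ 2 ≤ (ζ * ρ₁) ^ 2 / lo ^ 2 := by
    rw [le_div_iff₀ (by positivity), mul_pow]
    exact mul_le_mul_of_nonneg_left (pow_le_pow_left₀ hlo.le (a.trans b) 2) (sq_nonneg ζ)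
  have h7 : 37 * (ζ * ρ₁) ^ 2 / lo ^ 2 =
      2 * (18 * (ζ * ρ₁) ^ 2 / lo ^ 2) + (ζ * ρ₁) ^ 2 / lo ^ 2 := by ring
  simp only [Set.mem_ofPred_eq] at h3
  linarith

theorem Flat_band {L : Law} {ζ lo ρ₁ : ℝ} (hm : Mixes m L ζ) {x y : SU2} (hζ : 0 < ζ)
    (hζ1 : ζ ≤ 1) (hlo : 0 < lo) (a : lo ≤ ds x 1) (b : 4 * ds x 1 ≤ ρ₁) (hρ : ρ₁ ≤ 1 / 4)
    (a' : lo / 2 ≤ ds y 1) (b' : ds y 1 ≤ 3 / 2 * ρ₁) (β : ℝ) :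
    L.P (fun ω => |ip ((L.Y ω)⁻¹ * x * L.Y ω) y - β| ≤ 9 / 8 * (ζ * ρ₁ * ρ₁)) ≤
      16 * (ζ * ρ₁ * ρ₁) / lo ^ 2 := by
  have hρ0 : 0 < ρ₁ := by linarith
  obtain ⟨h1, h2⟩ := Flat_sz_pos hlo a (by linarith)
  obtain ⟨h1', h2'⟩ := Flat_sz_pos (half_pos hlo) a' (by linarith)
  have hc : Continuous fun g : SU2 => ip (g⁻¹ * x * g) y := by
    have h := continuous_ip.comp ((Flat_cont x).prodMk (continuous_const (y := y)))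
    exact h
  have h3 := hm {g | |ip (g⁻¹ * x * g) y - β| ≤ 9 / 8 * (ζ * ρ₁ * ρ₁)}
    {g | β - 15 / 8 * (ζ * ρ₁ * ρ₁) ≤ ip (g⁻¹ * x * g) y ∧
      ip (g⁻¹ * x * g) y ≤ β - 15 / 8 * (ζ * ρ₁ * ρ₁) + 15 / 4 * (ζ * ρ₁ * ρ₁)}
    ((isClosed_le continuous_const hc).inter (isClosed_le hc continuous_const)).measurableSet (by
    intro g hg g' hg'
    obtain ⟨e1, e1'⟩ := abs_le.1 (show |ip (g⁻¹ * x * g) y - β| ≤ 9 / 8 * (ζ * ρ₁ * ρ₁) from hg)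
    have e2 : ds g' g ≤ ζ := by rw [ds_comm]; exact hg'
    have e4 := ds_conj_le g' g x
    have e5 : ds g' g * sz x ≤ ζ * (ρ₁ / 4) :=
      mul_le_mul e2 ((sz_le_ds x).trans (by linarith)) (sz_nonneg x) hζ.le
    have e6 : ds (g'⁻¹ * x * g') (g⁻¹ * x * g) * sz y ≤ ζ * ρ₁ / 2 * (3 / 2 * ρ₁) :=
      mul_le_mul (by linarith) ((sz_le_ds y).trans b') (sz_nonneg y) (by positivity)
    obtain ⟨e7, e7'⟩ := abs_le.1 ((abs_ip_sub_le (g'⁻¹ * x * g') (g⁻¹ * x * g) y).trans e6)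
    exact ⟨by linarith, by linarith⟩)
  have h4 := band_ip m h1 h1' (β - 15 / 8 * (ζ * ρ₁ * ρ₁)) (l := 15 / 4 * (ζ * ρ₁ * ρ₁))
    (by positivity)
  have h5 : lo ^ 2 / 4 ≤ sz x * sz y := by
    refine (pow_le_pow_iff_left₀ (by positivity) (by positivity) two_ne_zero).1 ?_
    have e1 : lo ^ 2 * (lo / 2) ^ 2 ≤ 2 * sz x ^ 2 * (2 * sz y ^ 2) :=
      mul_le_mul h2 h2' (by positivity) (by positivity)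
    nlinarith
  have h6 : 15 / 4 * (ζ * ρ₁ * ρ₁) / (2 * sz x * sz y) ≤ 15 / 2 * (ζ * ρ₁ * ρ₁) / lo ^ 2 := by
    rw [div_le_div_iff₀ (by positivity) (by positivity)]
    nlinarith [mul_le_mul_of_nonneg_left h5 (show 0 ≤ ζ * ρ₁ * ρ₁ by positivity)]
  have h7 : ζ ^ 2 ≤ (ζ * ρ₁ * ρ₁) / lo ^ 2 := by
    rw [le_div_iff₀ (by positivity)]
    have e1 : lo ^ 2 ≤ ρ₁ ^ 2 := pow_le_pow_left₀ hlo.le (by linarith) 2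
    have e2 : ζ ^ 2 ≤ ζ := by nlinarith
    calc ζ ^ 2 * lo ^ 2 ≤ ζ * ρ₁ ^ 2 := mul_le_mul e2 e1 (by positivity) hζ.le
      _ = ζ * ρ₁ * ρ₁ := by ring
  have h8 : 16 * (ζ * ρ₁ * ρ₁) / lo ^ 2 =
      2 * (15 / 2 * (ζ * ρ₁ * ρ₁) / lo ^ 2) + (ζ * ρ₁ * ρ₁) / lo ^ 2 := by ring
  simp only [Set.mem_ofPred_eq] at h3
  linarith

theorem flat {L₁ L₂ : Law} (h₁ : L₁.Ok) (h₂ : L₂.Ok) {ζ lo ρ₁ : ℝ} (m₁ : Mixes m L₁ ζ)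
    (m₂ : Mixes m L₂ ζ) {x₁ x₂ : SU2} (hζ : 0 < ζ) (hlo : 0 < lo) (a₁ : lo ≤ ds x₁ 1)
    (a₂ : lo ≤ ds x₂ 1) (b₁ : ds x₁ 1 ≤ ρ₁) (hρ : ρ₁ ≤ 1 / 4) (h4 : 4 * ds x₂ 1 ≤ ds x₁ 1)
    (hs : ζ * ρ₁ ≤ lo / 4) (y : SU2) :
    (L₁.chain L₂).P (fun ω => ds ((L₂.Y ω.2)⁻¹ * x₂ * L₂.Y ω.2 *
      ((L₁.Y ω.1)⁻¹ * x₁ * L₁.Y ω.1)) y ≤ ζ * ρ₁) ≤ 3000 * (ζ * ρ₁) ^ 3 * ρ₁ / lo ^ 4 := by
  have _ := h₁
  have hD := ds_nonneg x₂ 1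
  have hρ0 : 0 < ρ₁ := by linarith
  have hr : 0 < ζ * ρ₁ := mul_pos hζ hρ0
  have hζ1 : ζ ≤ 1 := by
    refine le_of_mul_le_mul_right ?_ hρ0
    linarith
  by_cases hne : ∃ ω : (L₁.chain L₂).Ω, ds ((L₂.Y ω.2)⁻¹ * x₂ * L₂.Y ω.2 *
      ((L₁.Y ω.1)⁻¹ * x₁ * L₁.Y ω.1)) y ≤ ζ * ρ₁
  swap
  · rw [Law.P_false _ (not_exists.1 hne)]
    positivity
  obtain ⟨ω₀, h₀⟩ := hne
  have hy : lo / 2 ≤ ds y 1 ∧ ds y 1 ≤ 3 / 2 * ρ₁ := by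
    generalize hX₂ : (L₂.Y ω₀.2)⁻¹ * x₂ * L₂.Y ω₀.2 = X₂ at h₀
    generalize hX₁ : (L₁.Y ω₀.1)⁻¹ * x₁ * L₁.Y ω₀.1 = X₁ at h₀
    have e1 : ds X₁ 1 = ds x₁ 1 := by rw [← hX₁, ds_conj_one]
    have e2 : ds X₂ 1 = ds x₂ 1 := by rw [← hX₂, ds_conj_one]
    have e3 : ds (X₂ * X₁) X₁ = ds X₂ 1 := by
      rw [← ds_mul_right X₁ X₂ 1, one_mul]
    have e4 := ds_triangle X₁ (X₂ * X₁) y
    have e5 := ds_triangle X₁ y 1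
    have e6 := ds_triangle y (X₂ * X₁) X₁
    have e7 := ds_triangle y X₁ 1
    rw [ds_comm X₁ (X₂ * X₁)] at e4
    rw [ds_comm y (X₂ * X₁)] at e6
    exact ⟨by linarith, by linarith⟩
  have h5 := Flat_band m₂ hζ hζ1 hlo a₂ (h4.trans b₁) hρ hy.1 hy.2 (hc x₁ - hc x₂ * hc y)
  have h6 : ∀ ω₂, L₂.r ω₂ * L₁.P (fun ω₁ => ds ((L₂.Y ω₂)⁻¹ * x₂ * L₂.Y ω₂ *
      ((L₁.Y ω₁)⁻¹ * x₁ * L₁.Y ω₁)) y ≤ ζ * ρ₁) ≤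
      (if |ip ((L₂.Y ω₂)⁻¹ * x₂ * L₂.Y ω₂) y - (hc x₁ - hc x₂ * hc y)| ≤ 9 / 8 * (ζ * ρ₁ * ρ₁)
        then L₂.r ω₂ else 0) * (37 * (ζ * ρ₁) ^ 2 / lo ^ 2) := by
    intro ω₂
    have e0 : hc ((L₂.Y ω₂)⁻¹ * x₂ * L₂.Y ω₂) = hc x₂ := Flat_hc_conj _ _
    generalize (L₂.Y ω₂)⁻¹ * x₂ * L₂.Y ω₂ = X₂ at e0 ⊢
    have e1 : ∀ X₁ : SU2, ds (X₂ * X₁) y = ds X₁ (X₂⁻¹ * y) := fun X₁ => by
      rw [← ds_mul_left X₂ X₁, mul_inv_cancel_left]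
    simp only [e1]
    split_ifs with hb
    · exact mul_le_mul_of_nonneg_left (Flat_cap m₁ hζ hlo a₁ b₁ (by linarith) _) (h₂.nn ω₂)
    · rw [Law.P_false, mul_zero, zero_mul]
      intro ω₁ hω
      refine hb ?_
      have e2 := ds_conj_one (L₁.Y ω₁) x₁
      generalize (L₁.Y ω₁)⁻¹ * x₁ * L₁.Y ω₁ = X₁ at e2 hω
      have e3 := ds_triangle X₁ (X₂⁻¹ * y) 1
      have e4 := ds_triangle (X₂⁻¹ * y) X₁ 1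
      rw [ds_comm (X₂⁻¹ * y) X₁] at e4
      have e5 := ds_one_sq (X₂⁻¹ * y)
      have e6 := ds_one_sq x₁
      have e7 := ds_nonneg (X₂⁻¹ * y) 1
      rw [hc_inv_mul, e0] at e5
      have e8 : |ds x₁ 1 - ds (X₂⁻¹ * y) 1| ≤ ζ * ρ₁ := abs_le.2 ⟨by linarith, by linarith⟩
      have e9 : |ds x₁ 1 + ds (X₂⁻¹ * y) 1| ≤ 9 / 4 * ρ₁ := abs_le.2 ⟨by linarith, by linarith⟩
      have e10 : ip X₂ y - (hc x₁ - hc x₂ * hc y) =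
          (ds x₁ 1 - ds (X₂⁻¹ * y) 1) * (ds x₁ 1 + ds (X₂⁻¹ * y) 1) / 2 := by
        linear_combination e5 / 2 - e6 / 2
      rw [e10, abs_div, abs_mul, abs_two]
      have e11 := mul_le_mul e8 e9 (abs_nonneg _) hr.le
      linarith
  rw [Law.P_chain']
  refine (Finset.sum_le_sum fun ω₂ _ => h6 ω₂).trans ?_
  rw [← Finset.sum_mul]
  refine (mul_le_mul_of_nonneg_right h5 (by positivity)).trans ?_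
  rw [div_mul_div_comm, div_le_div_iff₀ (by positivity) (by positivity)]
  have h7 : 0 ≤ (ζ * ρ₁) ^ 3 * ρ₁ * lo ^ 4 := by positivity
  nlinarith

end Pool.Agent.P.MP_923088_al.AG
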