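import Pool.Agent.P.MP_923088_al.AG.Defs

/-!
Row AG-Geo1. Elementary geometry of SU(2) through unit quaternions.
Hints: prove `qt_mul` by `Quaternion.ext` with `mul_entry`, `entry01`, `entry11`; everything else
follows from `norm_mul` for quaternions or from coordinates (`Quaternion.normSq_def'`,
`Quaternion.inner_def`). For pure quaternions `X Y - Y X` is twice the cross product.
-/

namespace Pool.Agent.P.MP_923088_al.AG

open MeasureTheory Real
open scoped Classical Quaternion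

theorem Geo1_nsq (q : ℍ[ℝ]) : ‖q‖ ^ 2 = q.re ^ 2 + q.imI ^ 2 + q.imJ ^ 2 + q.imK ^ 2 := by
  rw [sq, ← Quaternion.normSq_eq_norm_mul_self, Quaternion.normSq_def']

theorem Geo1_re_le (q : ℍ[ℝ]) : |q.re| ≤ ‖q‖ := by
  refine abs_le_of_sq_le_sq' ?_ (norm_nonneg q) |> abs_le.2
  rw [Geo1_nsq]
  nlinarith [sq_nonneg q.imI, sq_nonneg q.imJ, sq_nonneg q.imK]

theorem Geo1_im_le (q : ℍ[ℝ]) : ‖q.im‖ ≤ ‖q‖ := by
  refine (pow_le_pow_iff_left₀ (norm_nonneg _) (norm_nonneg _) two_ne_zero).1 ?_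
  rw [Geo1_nsq, Geo1_nsq]
  simp only [Quaternion.re_im, Quaternion.imI_im, Quaternion.imJ_im, Quaternion.imK_im]
  nlinarith [sq_nonneg q.re]

theorem Geo1_unit (x : SU2) :
    (qt x).re ^ 2 + (qt x).imI ^ 2 + (qt x).imJ ^ 2 + (qt x).imK ^ 2 = 1 := by
  have h := congrArg Complex.re (col_norm x)
  simp only [qt]
  simp at h
  linarith

theorem Geo1_sz (x : SU2) : sz x ^ 2 = (qt x).imI ^ 2 + (qt x).imJ ^ 2 + (qt x).imK ^ 2 := by
  unfold sz
  rw [Geo1_nsq]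
  simp

theorem Geo1_ip (x y : SU2) :
    ip x y = (qt x).imI * (qt y).imI + (qt x).imJ * (qt y).imJ + (qt x).imK * (qt y).imK := by
  unfold ip
  rw [Quaternion.inner_def]
  simp
  ring

theorem Geo1_re (x : SU2) : (qt x).re = (x.1 0 0).re := rfl
theorem Geo1_imI (x : SU2) : (qt x).imI = (x.1 0 0).im := rfl
theorem Geo1_imJ (x : SU2) : (qt x).imJ = (x.1 1 0).re := rfl
theorem Geo1_imK (x : SU2) : (qt x).imK = -(x.1 1 0).im := rfl

theorem Geo1_cont (i j k : ℍ[ℝ]) : Continuous fun x : SU2 => (x.1 0 0).re • (1 : ℍ[ℝ]) +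
    (x.1 0 0).im • i + (x.1 1 0).re • j + (x.1 1 0).im • k := by
  have h0 := continuous_entry 0 0
  have h1 := continuous_entry 1 0
  exact ((((Complex.continuous_re.comp h0).smul continuous_const).add
    ((Complex.continuous_im.comp h0).smul continuous_const)).add
    ((Complex.continuous_re.comp h1).smul continuous_const)).add
    ((Complex.continuous_im.comp h1).smul continuous_const)

theorem qt_mul (x y : SU2) : qt (x * y) = qt x * qt y := by
  refine Quaternion.ext _ _ ?_ ?_ ?_ ?_ <;>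
    simp only [Quaternion.re_mul, Quaternion.imI_mul, Quaternion.imJ_mul, Quaternion.imK_mul] <;>
    simp [Geo1_re, Geo1_imI, Geo1_imJ, Geo1_imK, mul_entry, entry01, entry11] <;> ring
theorem qt_one : qt 1 = 1 := by
  refine Quaternion.ext _ _ ?_ ?_ ?_ ?_ <;> simp [qt]
theorem norm_qt (x : SU2) : ‖qt x‖ = 1 := by
  have h := Geo1_nsq (qt x)
  rw [Geo1_unit] at h
  exact (pow_eq_one_iff_of_nonneg (norm_nonneg _) two_ne_zero).1 h
theorem qt_inv (x : SU2) : qt x⁻¹ = star (qt x) := by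
  have h1 : qt x⁻¹ * qt x = 1 := by rw [← qt_mul, inv_mul_cancel, qt_one]
  have h2 : qt x * star (qt x) = 1 := by
    rw [Quaternion.self_mul_star, Quaternion.normSq_eq_norm_mul_self, norm_qt]
    simp
  calc qt x⁻¹ = qt x⁻¹ * (qt x * star (qt x)) := by rw [h2, mul_one]
    _ = star (qt x) := by rw [← mul_assoc, h1, one_mul]
theorem qt_inj {x y : SU2} (h : qt x = qt y) : x = y := by
  have h0 : x.1 0 0 = y.1 0 0 :=
    Complex.ext (congrArg QuaternionAlgebra.re h) (congrArg QuaternionAlgebra.imI h)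
  have h1 : x.1 1 0 = y.1 1 0 :=
    Complex.ext (congrArg QuaternionAlgebra.imJ h)
      (neg_injective (congrArg QuaternionAlgebra.imK h))
  refine Subtype.ext (Matrix.ext fun i j => ?_)
  fin_cases i <;> fin_cases j
  · exact h0
  · exact (entry01 x).trans (by rw [h1]; exact (entry01 y).symm)
  · exact h1
  · exact (entry11 x).trans (by rw [h0]; exact (entry11 y).symm)
theorem qt_surj {u : ℍ[ℝ]} (h : ‖u‖ = 1) : ∃ x, qt x = u := by
  have h1 := Geo1_nsq u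
  rw [h] at h1
  refine ⟨mkU ⟨u.re, u.imI⟩ ⟨u.imJ, -u.imK⟩ ?_, ?_⟩
  · refine Complex.ext ?_ ?_
    · simp
      linarith
    · simp
      ring
  · refine Quaternion.ext _ _ ?_ ?_ ?_ ?_ <;> simp [qt, mkU_00, mkU_10]
theorem hc_eq (x : SU2) : hc x = (qt x).re := by
  unfold hc
  rw [Matrix.trace_fin_two, entry11]
  simp [qt]
theorem hc_eq_re (x : SU2) : hc x = (x.1 0 0).re := hc_eq x
theorem hc_inv (x : SU2) : hc x⁻¹ = hc x := by
  rw [hc_eq, hc_eq, qt_inv, Quaternion.re_star]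
theorem hc_comm (x y : SU2) : hc (x * y) = hc (y * x) := by
  rw [hc_eq, hc_eq, qt_mul, qt_mul, Quaternion.re_mul, Quaternion.re_mul]
  ring
theorem continuous_qt : Continuous qt := by
  obtain ⟨i, i0, i1, i2, i3⟩ : ∃ q : ℍ[ℝ], q.re = 0 ∧ q.imI = 1 ∧ q.imJ = 0 ∧ q.imK = 0 :=
    ⟨⟨0, 1, 0, 0⟩, rfl, rfl, rfl, rfl⟩
  obtain ⟨j, j0, j1, j2, j3⟩ : ∃ q : ℍ[ℝ], q.re = 0 ∧ q.imI = 0 ∧ q.imJ = 1 ∧ q.imK = 0 :=
    ⟨⟨0, 0, 1, 0⟩, rfl, rfl, rfl, rfl⟩
  obtain ⟨k, k0, k1, k2, k3⟩ : ∃ q : ℍ[ℝ], q.re = 0 ∧ q.imI = 0 ∧ q.imJ = 0 ∧ q.imK = -1 :=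
    ⟨⟨0, 0, 0, -1⟩, rfl, rfl, rfl, rfl⟩
  refine (Geo1_cont i j k).congr fun x => ?_
  refine Quaternion.ext _ _ ?_ ?_ ?_ ?_ <;>
    simp [Geo1_re, Geo1_imI, Geo1_imJ, Geo1_imK, i0, i1, i2, i3, j0, j1, j2, j3, k0, k1, k2, k3]
theorem continuous_hc' : Continuous hc := by
  have h : hc = fun x : SU2 => (x.1 0 0).re := funext hc_eq_re
  rw [h]
  exact Complex.continuous_re.comp (continuous_entry 0 0)
theorem continuous_ds : Continuous fun z : SU2 × SU2 => ds z.1 z.2 :=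
  ((continuous_qt.comp continuous_fst).sub (continuous_qt.comp continuous_snd)).norm
theorem continuous_sz : Continuous sz := (Quaternion.continuous_im.comp continuous_qt).norm
theorem continuous_ip : Continuous fun z : SU2 × SU2 => ip z.1 z.2 :=
  ((Quaternion.continuous_im.comp continuous_qt).comp continuous_fst).inner
    ((Quaternion.continuous_im.comp continuous_qt).comp continuous_snd)
theorem isClosed_Bl (x : SU2) (ρ : ℝ) : IsClosed (Bl x ρ) :=
  isClosed_le (continuous_ds.comp (continuous_const.prodMk continuous_id)) continuous_const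

theorem ds_nonneg (x y : SU2) : 0 ≤ ds x y := norm_nonneg _
theorem ds_self (x : SU2) : ds x x = 0 := by simp [ds]
theorem ds_comm (x y : SU2) : ds x y = ds y x := norm_sub_rev _ _
theorem ds_triangle (x y z : SU2) : ds x z ≤ ds x y + ds y z :=
  norm_sub_le_norm_sub_add_norm_sub _ _ _
theorem ds_mul_left (g x y : SU2) : ds (g * x) (g * y) = ds x y := by
  unfold ds
  rw [qt_mul, qt_mul, ← mul_sub, norm_mul, norm_qt, one_mul]
theorem ds_mul_right (g x y : SU2) : ds (x * g) (y * g) = ds x y := by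
  unfold ds
  rw [qt_mul, qt_mul, ← sub_mul, norm_mul, norm_qt, mul_one]
theorem ds_inv (x y : SU2) : ds x⁻¹ y⁻¹ = ds x y := by
  unfold ds
  rw [qt_inv, qt_inv, ← star_sub, norm_star]
theorem ds_le_two (x y : SU2) : ds x y ≤ 2 := by
  have h := norm_sub_le (qt x) (qt y)
  rw [norm_qt, norm_qt] at h
  unfold ds
  linarith
theorem ds_one_sq (x : SU2) : ds x 1 ^ 2 = 2 - 2 * hc x := by
  unfold ds
  rw [Geo1_nsq, hc_eq, qt_one]
  have h := Geo1_unit x
  simp
  linarith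
theorem ds_eq_left (x y : SU2) : ds x y = ds (y⁻¹ * x) 1 := by
  rw [← ds_mul_left y⁻¹ x y, inv_mul_cancel]
theorem ds_eq_right (x y : SU2) : ds x y = ds (x * y⁻¹) 1 := by
  rw [← ds_mul_right y⁻¹ x y, mul_inv_cancel]
theorem ds_conj_one (g x : SU2) : ds (g⁻¹ * x * g) 1 = ds x 1 := by
  rw [← ds_mul_left g⁻¹ x 1, ← ds_mul_right g (g⁻¹ * x) (g⁻¹ * 1), mul_one, inv_mul_cancel]
theorem ds_mul_le (x y x' y' : SU2) : ds (x * y) (x' * y') ≤ ds x x' + ds y y' := by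
  have h := ds_triangle (x * y) (x' * y) (x' * y')
  rwa [ds_mul_right, ds_mul_left] at h
theorem ds_dg (z : ℂ) (hz : z * (starRingEnd ℂ) z = 1) : ds (dg z hz) 1 = ‖z - 1‖ := by
  refine (pow_left_inj₀ (ds_nonneg _ _) (norm_nonneg _) two_ne_zero).1 ?_
  rw [ds_one_sq, hc_dg, Complex.sq_norm, Complex.normSq_apply]
  have h := congrArg Complex.re hz
  simp at h ⊢
  linarith
theorem abs_hc_sub_le (x y : SU2) : |hc x - hc y| ≤ ds x y := by
  rw [hc_eq, hc_eq, ← Quaternion.re_sub]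
  exact Geo1_re_le _

theorem sz_nonneg (x : SU2) : 0 ≤ sz x := norm_nonneg _
theorem sz_sq (x : SU2) : sz x ^ 2 = 1 - hc x ^ 2 := by
  rw [Geo1_sz, hc_eq]
  linarith [Geo1_unit x]
theorem sz_le_one (x : SU2) : sz x ≤ 1 := (Geo1_im_le _).trans (norm_qt x).le
theorem sz_one : sz 1 = 0 := by
  simp [sz, qt_one]
theorem sz_inv (x : SU2) : sz x⁻¹ = sz x := by
  refine (pow_left_inj₀ (sz_nonneg _) (sz_nonneg _) two_ne_zero).1 ?_
  rw [sz_sq, sz_sq, hc_inv]
theorem sz_comm (x y : SU2) : sz (x * y) = sz (y * x) := by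
  refine (pow_left_inj₀ (sz_nonneg _) (sz_nonneg _) two_ne_zero).1 ?_
  rw [sz_sq, sz_sq, hc_comm]
theorem sz_conj (g x : SU2) : sz (g⁻¹ * x * g) = sz x := by
  rw [sz_comm, ← mul_assoc, mul_inv_cancel, one_mul]
theorem sz_conj' (g x : SU2) : sz (g * x * g⁻¹) = sz x := by
  rw [sz_comm, ← mul_assoc, inv_mul_cancel, one_mul]
/-- `Im (x y) = re x Im y + re y Im x + Im x × Im y`, of norm at most `|Im x| + |Im y|`. One way:
`Im (x y) = Im (x Im y) + re y Im x`. -/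
theorem sz_mul_le (x y : SU2) : sz (x * y) ≤ sz x + sz y := by
  have h : (qt x * qt y).im = (qt y).re • (qt x).im + (qt x * (qt y).im).im := by
    refine Quaternion.ext _ _ ?_ ?_ ?_ ?_ <;> simp <;> ring
  unfold sz
  rw [qt_mul, h]
  refine (norm_add_le _ _).trans (add_le_add ?_ ?_)
  · rw [norm_smul, Real.norm_eq_abs]
    exact mul_le_of_le_one_left (norm_nonneg _) ((Geo1_re_le _).trans (norm_qt y).le)
  · refine (Geo1_im_le _).trans (le_of_eq ?_)
    rw [norm_mul, norm_qt, one_mul]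
theorem sz_le_ds (x : SU2) : sz x ≤ ds x 1 := by
  have h : (qt x).im = (qt x - qt 1).im := by
    rw [qt_one]
    simp
  unfold sz ds
  rw [h]
  exact Geo1_im_le _
theorem ds_sq_le (x : SU2) (h : 0 ≤ hc x) : ds x 1 ^ 2 ≤ 2 * sz x ^ 2 := by
  rw [ds_one_sq, sz_sq]
  have h1 := (abs_le.1 (abs_hc_le x)).2
  nlinarith [mul_nonneg h (sub_nonneg.2 h1)]
theorem ds_sq_le' (x : SU2) (h : ds x 1 ≤ 1) : ds x 1 ^ 2 ≤ 2 * sz x ^ 2 := by
  refine ds_sq_le x ?_
  have h1 := ds_one_sq x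
  have h2 : ds x 1 ^ 2 ≤ 1 := pow_le_one₀ (ds_nonneg _ _) h
  linarith
theorem sz_sq_entries (x : SU2) : sz x ^ 2 = (x.1 0 0).im ^ 2 + ‖x.1 1 0‖ ^ 2 := by
  rw [Geo1_sz, Complex.sq_norm, Complex.normSq_apply]
  simp only [qt]
  ring
theorem sz_mul_self (x : SU2) : sz (x * x) = 2 * |hc x| * sz x := by
  have h : (qt x * qt x).im = (2 * (qt x).re) • (qt x).im := by
    refine Quaternion.ext _ _ ?_ ?_ ?_ ?_ <;> simp <;> ring
  unfold sz
  rw [qt_mul, h, norm_smul, Real.norm_eq_abs, abs_mul, abs_two, hc_eq]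

theorem Geo1_hc_inv_mul (x y : SU2) : hc (x⁻¹ * y) = hc x * hc y + ip x y := by
  rw [hc_eq, hc_eq, hc_eq, qt_mul, qt_inv, Geo1_ip]
  simp
  ring

theorem ip_self (x : SU2) : ip x x = sz x ^ 2 := real_inner_self_eq_norm_sq _
theorem ip_comm (x y : SU2) : ip x y = ip y x := real_inner_comm _ _
theorem ip_conj (g x y : SU2) : ip (g⁻¹ * x * g) (g⁻¹ * y * g) = ip x y := by
  have h1 := Geo1_hc_inv_mul (g⁻¹ * x * g) (g⁻¹ * y * g)
  have h2 := Geo1_hc_inv_mul x y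
  have h3 : (g⁻¹ * x * g)⁻¹ * (g⁻¹ * y * g) = g⁻¹ * (x⁻¹ * y) * g := by group
  have h4 : ∀ w : SU2, hc (g⁻¹ * w * g) = hc w := fun w => by
    rw [hc_comm, ← mul_assoc, mul_inv_cancel, one_mul]
  rw [h3, h4, h4, h4] at h1
  linarith
theorem abs_ip_le (x y : SU2) : |ip x y| ≤ sz x * sz y := abs_real_inner_le_norm _ _
theorem hc_inv_mul (x y : SU2) : hc (x⁻¹ * y) = hc x * hc y + ip x y := Geo1_hc_inv_mul x y
theorem ds_sq (x y : SU2) : ds x y ^ 2 = 2 - 2 * (hc x * hc y + ip x y) := by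
  rw [ds_comm, ds_eq_left, ds_one_sq, hc_inv_mul]
theorem abs_ip_sub_le (x x' w : SU2) : |ip x w - ip x' w| ≤ ds x x' * sz w := by
  unfold ip
  rw [← inner_sub_left, ← Quaternion.im_sub]
  exact (abs_real_inner_le_norm _ _).trans
    (mul_le_mul_of_nonneg_right (Geo1_im_le _) (norm_nonneg _))
theorem ip_entries (x y : SU2) : ip x y = (x.1 0 0).im * (y.1 0 0).im +
    (x.1 1 0).re * (y.1 1 0).re + (x.1 1 0).im * (y.1 1 0).im := by
  rw [Geo1_ip]
  simp only [qt]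
  ring

theorem cr_nonneg (x y : SU2) : 0 ≤ cr x y := ds_nonneg _ _
theorem cr_comm (x y : SU2) : cr x y = cr y x := ds_comm _ _
theorem cr_sq (x y : SU2) : cr x y ^ 2 = 4 * (sz x ^ 2 * sz y ^ 2 - ip x y ^ 2) := by
  unfold cr ds
  rw [qt_mul, qt_mul, Geo1_nsq, Geo1_sz, Geo1_sz, Geo1_ip]
  simp
  ring
theorem cr_le (x y : SU2) : cr x y ≤ 2 * sz x * sz y := by
  refine (pow_le_pow_iff_left₀ (cr_nonneg x y)
    (mul_nonneg (mul_nonneg zero_le_two (sz_nonneg x)) (sz_nonneg y)) two_ne_zero).1 ?_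
  rw [cr_sq]
  nlinarith [sq_nonneg (ip x y)]
theorem cr_eq_ds (x l : SU2) : cr x l = ds (x * l * x⁻¹) l := by
  unfold cr
  rw [← ds_mul_right x⁻¹ (x * l) (l * x), mul_inv_cancel_right]
theorem sz_comm_le (x y : SU2) : sz (x * y * x⁻¹ * y⁻¹) ≤ cr x y := by
  refine (sz_le_ds _).trans (le_of_eq ?_)
  unfold cr
  rw [ds_eq_right (x * y) (y * x), mul_inv_rev, ← mul_assoc]
/-- With `X = Im x`, `Y = Im y`, `l` a pure unit: split `X` into its component along `l` and the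
rest; `|X × Y| ≤ |X × l| |Y| + |X| |Y × l|`. -/
theorem cr_tri (x y l : SU2) (hl : hc l = 0) : cr x y ≤ cr x l + cr y l := by
  have hl1 : sz l ^ 2 = 1 := by rw [sz_sq, hl]; ring
  have hl2 : sz l = 1 := (pow_eq_one_iff_of_nonneg (sz_nonneg l) two_ne_zero).1 hl1
  have hα : |ip x l| ≤ 1 := by
    have h := abs_ip_le x l
    rw [hl2, mul_one] at h
    exact h.trans (sz_le_one x)
  have hp : 2 * ‖(qt x).im - ip x l • (qt l).im‖ = cr x l := by
    refine (pow_left_inj₀ (by positivity) (cr_nonneg x l) two_ne_zero).1 ?_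
    have h1 : inner ℝ (qt x).im (qt l).im = ip x l := rfl
    have h2 : ‖(qt x).im‖ = sz x := rfl
    have h3 : ‖(qt l).im‖ = 1 := hl2
    rw [mul_pow, norm_sub_sq_real, cr_sq, hl1, inner_smul_right, norm_smul, h1, h2, h3, mul_one,
      Real.norm_eq_abs, sq_abs]
    ring
  have hid : qt x * qt y - qt y * qt x =
      (((qt x).im - ip x l • (qt l).im) * qt y - qt y * ((qt x).im - ip x l • (qt l).im)) -
        ip x l • (qt y * qt l - qt l * qt y) := by
    refine Quaternion.ext _ _ ?_ ?_ ?_ ?_ <;> simp <;> ring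
  have h1 : cr x y = ‖qt x * qt y - qt y * qt x‖ := by
    unfold cr ds
    rw [qt_mul, qt_mul]
  have h2 : cr y l = ‖qt y * qt l - qt l * qt y‖ := by
    unfold cr ds
    rw [qt_mul, qt_mul]
  rw [h1, hid, ← hp, h2]
  refine (norm_sub_le _ _).trans (add_le_add ((norm_sub_le _ _).trans (le_of_eq ?_)) ?_)
  · rw [norm_mul, norm_mul, norm_qt]
    ring
  · rw [norm_smul, Real.norm_eq_abs]
    exact mul_le_of_le_one_left (norm_nonneg _) hα
theorem ds_conj_le (g g' x : SU2) : ds (g⁻¹ * x * g) (g'⁻¹ * x * g') ≤ 2 * ds g g' * sz x := by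
  have h1 : ds (g⁻¹ * x * g) (g'⁻¹ * x * g') = cr x (g * g'⁻¹) := by
    unfold cr
    rw [← ds_mul_left g, ← ds_mul_right g'⁻¹]
    congr 1 <;> group
  have h2 := cr_le x (g * g'⁻¹)
  have h3 : sz (g * g'⁻¹) ≤ ds g g' := by
    rw [ds_eq_right g g']
    exact sz_le_ds _
  have h4 := mul_le_mul_of_nonneg_left h3 (sz_nonneg x)
  rw [h1]
  linarith
theorem ds_conj_le' (g g' x : SU2) : ds (g * x * g⁻¹) (g' * x * g'⁻¹) ≤ 2 * ds g g' * sz x := by
  have h := ds_conj_le g⁻¹ g'⁻¹ x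
  rwa [inv_inv, inv_inv, ds_inv] at h

end Pool.Agent.P.MP_923088_al.AG
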