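import Pool.Agent.P.MP_923088_al.AG.Win
import Pool.Agent.P.MP_923088_al.AG.Flat
import Pool.Agent.P.MP_923088_al.AG.Conj

/-!
One window: two small elements, each conjugated by the mixing law.
Plan. Let `(W₁, q₁, χ₁, b₁, b₂)` come from `T₁` and `(W₂, ..)` from `T₂`, `g i = G.conjRef (W i) (χ i)`
with pattern `conjQ G (W i) (χ i) (chainQ p G (W i) qg (q i))`, and `Z = (g 1).chain (g 2)`; cost at
most `4 (κg + κ)`. `Gd`: none of the four bad events. `Pq (b₁ of the first copy) ≤ (κ+1)/E₁`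
(`Pq_chain_fst/snd`, `Pq_conj`, `Pq_le`), `Pq (b₂) ≤ (2(κg+κ)+1)/E₂` (`P_conjRef_le`, `Pq_le`). On `Gd`
the elements `x i = (W ω')⁻¹ W ω` satisfy the hypotheses of `flat` with `ρ₁ = 2 exp (-t)`,
`lo = exp (-(t + 2Λ + 2)) / 2`, `ζ = exp (-Δ)`; reorder the sums (`P_chain`, `P_conjRef'`, `sum_pr`) to
get `hf` of `window` with `Φ = exp (-(3Δ - 8Λ - 22))` (`3000 * 256 ≤ exp 14`).
-/

namespace Pool.Agent.P.MP_923088_al.AG

open MeasureTheory Real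
open scoped Classical Quaternion

variable [MeasurableSpace SU2] [BorelSpace SU2] {m : Measure SU2} [m.IsHaarMeasure]
  [IsProbabilityMeasure m] {p : SU2 → ℝ}

/-- One conjugated small element. -/
theorem Golf_half (hp : IsDens m p) {G L : Law} {qg : SU2 → G.Ω → ℝ} {q : SU2 → L.Ω → ℝ}
    (hG : IsPat p G qg) (hL : IsPat p L q) {X : Type} (χ : L.Ω → X) {b₁ : L.Ω → Prop}
    {b₂ : L.Ω → L.Ω → Prop} {κg κ E₁ E₂ : ℝ} (cg : cost m p G qg ≤ κg) (c : cost m p L q ≤ κ)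
    (p₁ : L.P b₁ ≤ exp (-E₁)) (p₂ : L.PP χ b₂ ≤ exp (-E₂)) (h₁ : 0 < E₁) (h₂ : 0 < E₂) :
    ∃ Q, IsPat p (G.conjRef L χ) Q ∧ cost m p (G.conjRef L χ) Q ≤ 2 * (κg + κ) ∧
      Pq m (G.conjRef L χ) Q (fun ω => b₁ ω.2.1 ∨ b₂ ω.2.1 ω.2.2) ≤
        (κ + 1) / E₁ + (2 * (κg + κ) + 1) / E₂ := by
  have hc := hG.chain hp hL
  have hQ := hc.conj hG.ok hL.ok χ
  have cQ : cost m p (G.conjRef L χ) (conjQ G L χ (chainQ p G L qg q)) ≤ 2 * (κg + κ) := by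
    refine (cost_conj hp hG.ok hL.ok χ hc).trans ?_
    rw [cost_chain hp hG hL]
    linarith
  refine ⟨_, hQ, cQ, (Pq_or hp hQ _ _).trans (add_le_add ?_ ?_)⟩
  · have e1 := Pq_conj (m := m) χ hc (fun ω => b₁ ω.2)
    have e2 := Pq_chain_snd hp hG hL b₁
    refine (le_of_eq (e1.trans e2)).trans ((Pq_le hp hL h₁ p₁).trans ?_)
    gcongr
  · refine (Pq_le hp hQ h₂ ((Law.P_conjRef_le hG.ok hL.ok χ b₂).trans p₂)).trans ?_
    gcongr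

omit [MeasurableSpace SU2] [BorelSpace SU2] in
theorem Golf_sum {L : Law} (h : L.Ok) {X : Type} (χ : L.Ω → X) {f : L.Ω → L.Ω → ℝ} {Φ : ℝ}
    (h0 : 0 ≤ Φ) (hf : ∀ ω ω', f ω ω' ≤ Φ) : ∑ ω, ∑ ω', L.pr χ ω ω' * f ω ω' ≤ Φ := by
  calc ∑ ω, ∑ ω', L.pr χ ω ω' * f ω ω' ≤ ∑ ω, ∑ ω', L.pr χ ω ω' * Φ :=
        Finset.sum_le_sum fun ω _ => Finset.sum_le_sum fun ω' _ =>
          mul_le_mul_of_nonneg_left (hf ω ω') (Law.pr_nonneg h χ ω ω')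
    _ = (∑ ω, L.r ω) * Φ := by
        rw [Finset.sum_mul]
        exact Finset.sum_congr rfl fun ω _ => by rw [← Finset.sum_mul, Law.sum_pr h]
    _ ≤ Φ := mul_le_of_le_one_left h0 h.le

omit [MeasurableSpace SU2] [BorelSpace SU2] in
theorem Golf_P {G L₁ L₂ : Law} (h₁ : L₁.Ok) (h₂ : L₂.Ok) {X₁ X₂ : Type} (χ₁ : L₁.Ω → X₁)
    (χ₂ : L₂.Ω → X₂) (E : ((G.conjRef L₁ χ₁).chain (G.conjRef L₂ χ₂)).Ω → Prop) {Φ : ℝ}
    (h0 : 0 ≤ Φ) (h : ∀ u u' v v', (G.chain G).P (fun g => E ((g.1, u, u'), (g.2, v, v'))) ≤ Φ) :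
    ((G.conjRef L₁ χ₁).chain (G.conjRef L₂ χ₂)).P E ≤ Φ := by
  refine le_trans (le_of_eq ?_) (Golf_sum h₁ χ₁ h0 fun u u' => Golf_sum h₂ χ₂ h0 (h u u'))
  unfold Law.P
  simp only [Fintype.sum_prod_type, Finset.mul_sum]
  rw [Finset.sum_comm]
  refine Finset.sum_congr rfl fun u _ => ?_
  rw [Finset.sum_comm]
  refine Finset.sum_congr rfl fun u' _ => ?_
  trans ∑ g₁ : G.Ω, ∑ v : L₂.Ω, ∑ v' : L₂.Ω, ∑ g₂ : G.Ω,
    if E ((g₁, u, u'), (g₂, v, v')) then G.r g₁ * L₁.pr χ₁ u u' * (G.r g₂ * L₂.pr χ₂ v v') else 0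
  · refine Finset.sum_congr rfl fun g₁ _ => ?_
    rw [Finset.sum_comm]
    refine Finset.sum_congr rfl fun v _ => ?_
    rw [Finset.sum_comm]
  · rw [Finset.sum_comm]
    refine Finset.sum_congr rfl fun v _ => ?_
    rw [Finset.sum_comm]
    refine Finset.sum_congr rfl fun v' _ => Finset.sum_congr rfl fun g₁ _ =>
      Finset.sum_congr rfl fun g₂ _ => ?_
    split_ifs <;> ring

theorem Golf_exp14 : (768000 : ℝ) ≤ exp 14 := by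
  have h1 : (2.7 : ℝ) ≤ exp 1 := by linarith [Real.exp_one_gt_d9]
  have h2 : exp 14 = exp 1 ^ 14 := by rw [← Real.exp_nat_mul]; norm_num
  rw [h2]
  exact le_trans (by norm_num) (pow_le_pow_left₀ (by norm_num) h1 14)

theorem golf (hp : IsDens m p) {G : Law} {κg κ t Λ Δ E₁ E₂ : ℝ} (hG : HasPat m p G κg)
    (hM : Mixes m G (exp (-Δ))) (T₁ : HasTop m p t Λ κ (exp (-E₁)) (exp (-E₂)))
    (T₂ : HasTop m p (t + Λ + 2) Λ κ (exp (-E₁)) (exp (-E₂))) (ht : 3 ≤ t) (hΛ : 0 ≤ Λ)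
    (hΔ : 3 * Λ + 8 ≤ Δ) (h₁ : 0 < E₁) (h₂ : 0 < E₂) :
    Hent m p (2 * exp (-(t + Δ))) - Hent m p (2 * exp (-t)) ≤
      -(1 - (2 * ((κ + 1) / E₁) + 2 * ((2 * (κg + κ) + 1) / E₂))) * (3 * Δ - 8 * Λ - 22) +
        4 * (κg + κ) + 6561 := by
  obtain ⟨qg, hqg, cg⟩ := hG
  obtain ⟨L₁, q₁, X₁, χ₁, b₁, c₁, a1, a2, a3, a4, a5⟩ := T₁
  obtain ⟨L₂, q₂, X₂, χ₂, b₂, c₂, d1, d2, d3, d4, d5⟩ := T₂
  obtain ⟨Q₁, hQ₁, k₁, r₁⟩ := Golf_half hp hqg a1 χ₁ cg a2 a3 a4 h₁ h₂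
  obtain ⟨Q₂, hQ₂, k₂, r₂⟩ := Golf_half hp hqg d1 χ₂ cg d2 d3 d4 h₁ h₂
  have hZ := hQ₁.chain hp hQ₂
  have e4 : ∀ s : ℝ, 2 ≤ s → 4 * exp (-s) ≤ 1 := by
    intro s hs
    have h1 : (2.7 : ℝ) ≤ exp 1 := by linarith [Real.exp_one_gt_d9]
    have h2 : exp 1 * exp 1 ≤ exp s := by rw [← exp_add]; exact exp_le_exp.mpr (by linarith)
    rw [exp_neg, ← div_eq_mul_inv, div_le_one (exp_pos s)]
    nlinarith
  have et := exp_pos (-t)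
  have eΔ := exp_pos (-Δ)
  have eρ : 2 * exp (-(t + Δ)) = exp (-Δ) * (2 * exp (-t)) := by
    rw [neg_add, exp_add]; ring
  have t8 : 8 * exp (-t) ≤ 1 := by
    have h1 := e4 (t - 1) (by linarith)
    have h2 : exp (-(t - 1)) = exp 1 * exp (-t) := by rw [← exp_add]; congr 1; ring
    have h3 := Real.add_one_le_exp 1
    rw [h2] at h1
    nlinarith
  have W := window hp hZ
    (fun ω => ¬ ((b₁ ω.1.2.1 ∨ c₁ ω.1.2.1 ω.1.2.2) ∨ (b₂ ω.2.2.1 ∨ c₂ ω.2.2.1 ω.2.2.2)))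
    (ρ₁ := 2 * exp (-t)) (ρ₂ := 2 * exp (-(t + Δ))) (Φ := exp (-(3 * Δ - 8 * Λ - 22)))
    (b := 2 * ((κ + 1) / E₁) + 2 * ((2 * (κg + κ) + 1) / E₂)) (by positivity) ?_ (exp_pos _)
    (Real.exp_le_one_iff.mpr (by linarith)) ?_ ?_ ?_
  · rw [one_div, ← exp_neg, neg_neg, log_exp, cost_chain hp hQ₁ hQ₂] at W
    linarith
  · have := e4 Δ (by linarith)
    rw [eρ]; nlinarith
  · intro ω h
    simp only [not_or] at h
    have u1 := (a5 _ _ h.1.1 h.1.2).2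
    have u2 := (d5 _ _ h.2.1 h.2.2).2
    have u3 : exp (-(t + Λ + 2)) ≤ exp (-t) := exp_le_exp.mpr (by linarith)
    rw [ds_eq_left] at u1 u2
    have h3 := ds_mul_le ((G.conjRef L₂ χ₂).Y ω.2) ((G.conjRef L₁ χ₁).Y ω.1) 1 1
    rw [mul_one, ds_conj_one, ds_conj_one] at h3
    change ds ((G.conjRef L₂ χ₂).Y ω.2 * (G.conjRef L₁ χ₁).Y ω.1) 1 ≤ _
    linarith
  · intro y
    refine Golf_P a1.ok d1.ok χ₁ χ₂ _ (exp_pos _).le fun u u' v v' => ?_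
    by_cases h : (b₁ u ∨ c₁ u u') ∨ (b₂ v ∨ c₂ v v')
    · rw [Law.P_false _ fun g hg => hg.1 h]
      exact (exp_pos _).le
    simp only [not_or] at h
    obtain ⟨u1, u2⟩ := a5 _ _ h.1.1 h.1.2
    obtain ⟨u3, u4⟩ := d5 _ _ h.2.1 h.2.2
    rw [ds_eq_left] at u1 u2 u3 u4
    have v1 : exp (-(t + Λ + 2 + Λ)) ≤ exp (-(t + Λ)) := exp_le_exp.mpr (by linarith)
    have v2 : 4 * exp (-(t + Λ + 2)) ≤ exp (-(t + Λ)) := by
      have h1 := e4 2 le_rfl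
      have h2 := exp_pos (-(t + Λ))
      rw [neg_add (t + Λ) 2, exp_add]; nlinarith
    have v3 : exp (-Δ) * (2 * exp (-t)) ≤ exp (-(t + Λ + 2 + Λ)) / 2 / 4 := by
      have h1 := e4 2 le_rfl
      have h2 := e4 (Δ - 2 * Λ - 4) (by linarith)
      have h3 : exp (-Δ) * exp (-t) =
          exp (-2) * exp (-(Δ - 2 * Λ - 4)) * exp (-(t + Λ + 2 + Λ)) := by
        rw [← exp_add, ← exp_add, ← exp_add]; congr 1; ring
      have h4 := exp_pos (-(t + Λ + 2 + Λ))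
      have h5 := exp_pos (-2 : ℝ)
      have h6 := exp_pos (-(Δ - 2 * Λ - 4))
      have h7 : 16 * (exp (-2) * exp (-(Δ - 2 * Λ - 4))) ≤ 1 := by nlinarith
      nlinarith
    have F := flat hqg.ok hqg.ok hM hM (lo := exp (-(t + Λ + 2 + Λ)) / 2) (ρ₁ := 2 * exp (-t))
      (x₁ := (L₁.Y u')⁻¹ * L₁.Y u) (x₂ := (L₂.Y v')⁻¹ * L₂.Y v) eΔ (by positivity)
      (by linarith) (by linarith) (by linarith) (by linarith) (by linarith) v3 y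
    rw [← eρ] at F
    refine le_trans (Law.P_mono (hqg.ok.chain hqg.ok) fun g hg => hg.2) (F.trans ?_)
    have e1 : exp (-(t + Δ)) ^ 3 * exp (-t) =
        exp (-(t + Λ + 2 + Λ)) ^ 4 * exp (-(3 * Δ - 8 * Λ - 22)) * exp (-14) := by
      rw [← Real.exp_nat_mul, ← Real.exp_nat_mul, ← exp_add, ← exp_add, ← exp_add]
      congr 1; push_cast; ring
    have e2 : 768000 * exp (-14) ≤ 1 := by
      rw [exp_neg, ← div_eq_mul_inv, div_le_one (exp_pos _)]; exact Golf_exp14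
    rw [div_le_iff₀ (by positivity)]
    calc 3000 * (2 * exp (-(t + Δ))) ^ 3 * (2 * exp (-t))
        = 48000 * (exp (-(t + Δ)) ^ 3 * exp (-t)) := by ring
      _ = (768000 * exp (-14)) *
          (exp (-(3 * Δ - 8 * Λ - 22)) * (exp (-(t + Λ + 2 + Λ)) / 2) ^ 4) := by rw [e1]; ring
      _ ≤ _ := mul_le_of_le_one_left (by positivity) e2
  · have s1 := Pq_chain_fst hp Q₁ hQ₂ (fun ω => b₁ ω.2.1 ∨ c₁ ω.2.1 ω.2.2)
    have s2 := Pq_chain_snd hp hQ₁ hQ₂ (fun ω => b₂ ω.2.1 ∨ c₂ ω.2.1 ω.2.2)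
    refine le_trans (Pq_mono hp hZ fun ω h => not_not.mp h) ((Pq_or hp hZ _ _).trans ?_)
    rw [s1, s2]
    linarith

end Pool.Agent.P.MP_923088_al.AG
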