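import Pool.Agent.P.MP_923088_al.AG.Defs2
import Pool.Agent.P.MP_923088_al.AG.LawL

/-!
Row AG-Spec2. Spectral facts for the lazy step. Compare `Tp_symm`, `W_le`, `quasi_gap` in the files
`Walk` and `Final` of the parent folder (`exists_eigenbasis`, `norm_le_of_mem`).
`dirichlet_eq`: `‖Lt g F - F‖^2 = 2‖F‖^2 - 2 re ⟪F, Lt g F⟫` and the same value for `g⁻¹`.
Eigenvalues are in `[0,1]` because each `‖Lt g F - F‖^2` is between `0` and `4‖F‖^2`.
`avg_sq`: expand both sides with `norm_Lt`.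
-/

namespace Pool.Agent.P.MP_923088_al.AG

open MeasureTheory Real
open scoped Classical Quaternion

theorem Eig.mono {L : Law} {γ γ' : ℝ} {d : ℕ} (h : Eig L γ d) (hγ : γ' ≤ γ) : Eig L γ' d :=
  fun v hv h0 lam he => (h v hv h0 lam he).trans (by linarith)

theorem Spec2_Lt_one (F : CF) : Lt 1 F = F := by
  ext x
  rw [Lt_apply, one_mul]

theorem Spec2_Lc {ι : Type} [Fintype ι] (w : ι → SU2) (F : CF) :
    (bark w).Lc F = ((1 / (4 * (Fintype.card ι : ℝ)) : ℝ) : ℂ) •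
      ∑ i, (Lt (w i) F + Lt (w i)⁻¹ F + F + F) := by
  rw [Law.Lc_eq, Finset.smul_sum]
  refine (Fintype.sum_prod_type (fun ω : ι × Bool × Bool =>
    ((1 / (4 * (Fintype.card ι : ℝ)) : ℝ) : ℂ) •
      Lt (if ω.2.2 then (if ω.2.1 then w ω.1 else (w ω.1)⁻¹) else 1) F)).trans ?_
  refine Finset.sum_congr rfl fun i _ => ?_
  rw [Fintype.sum_prod_type, Fintype.sum_bool, Fintype.sum_bool, Fintype.sum_bool]
  simp only [if_true, Bool.false_eq_true, if_false, Spec2_Lt_one, smul_add]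
  abel

theorem Spec2_Lc_one {ι : Type} [Fintype ι] [Nonempty ι] (w : ι → SU2) :
    (bark w).Lc 1 = 1 := by
  rw [Law.Lc_eq]
  simp only [map_one]
  rw [← Finset.sum_smul, ← Complex.ofReal_sum, sum_bark w, Complex.ofReal_one, one_smul]

theorem Spec2_W_le (L : Law) {D : ℕ} {I : Type} (μ : I → ℂ)
    (h : ∀ k, 1 ≤ k → k ≤ D → V k ≤ ⨆ i : I, Module.End.eigenspace L.Lc (μ i)) :
    W D ≤ Submodule.span ℂ {(1 : CF)} ⊔ ⨆ i : I, Module.End.eigenspace L.Lc (μ i) := by
  unfold W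
  rw [Submodule.span_le]
  rintro F ⟨k, hk, g, f, hf, rfl⟩
  rcases Nat.eq_zero_or_pos k with rfl | k0
  · apply Submodule.mem_sup_left
    have e : Set.range (mono 0) = {1} := by
      ext F
      simp only [Set.mem_range, Set.mem_singleton_iff]
      constructor
      · rintro ⟨i, rfl⟩
        fin_cases i
        simp [mono]
      · rintro rfl
        exact ⟨0, by simp [mono]⟩
    unfold V at hf
    rw [e, Submodule.mem_span_singleton] at hf
    obtain ⟨a, rfl⟩ := hf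
    rw [map_smul, map_one]
    exact Submodule.smul_mem _ _ (Submodule.mem_span_singleton_self _)
  · apply Submodule.mem_sup_right
    have hz := h k k0 hk hf
    clear hf
    induction hz using Submodule.iSup_induction' with
    | mem i f hf =>
      apply Submodule.mem_iSup_of_mem i
      rw [Module.End.mem_eigenspace_iff] at hf ⊢
      rw [Law.Lc_Rt, hf, map_smul]
    | zero => rw [map_zero]; exact zero_mem _
    | add f g _ _ hf hg => rw [map_add]; exact add_mem hf hg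

theorem Spec2_sum_sq {E : Type*} [NormedAddCommGroup E] [InnerProductSpace ℂ E] {I : Type*}
    (S : Finset I) (v : I → E) (c : ℝ) (hv : ∀ s, ‖v s‖ = c) :
    ∑ s ∈ S, ∑ t ∈ S, ‖v s - v t‖ ^ 2 =
      2 * (S.card : ℝ) ^ 2 * c ^ 2 - 2 * ‖∑ s ∈ S, v s‖ ^ 2 := by
  have a1 : ∀ s t, ‖v s - v t‖ ^ 2 = 2 * c ^ 2 - 2 * (inner ℂ (v s) (v t)).re := by
    intro s t
    rw [@norm_sub_sq ℂ, hv, hv]
    change c ^ 2 - 2 * (inner ℂ (v s) (v t)).re + c ^ 2 = _
    ring
  have a2 : ‖∑ s ∈ S, v s‖ ^ 2 = ∑ s ∈ S, ∑ t ∈ S, (inner ℂ (v s) (v t)).re := by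
    rw [@norm_sq_eq_re_inner ℂ, sum_inner]
    change (∑ s ∈ S, inner ℂ (v s) (∑ t ∈ S, v t)).re = _
    rw [Complex.re_sum]
    refine Finset.sum_congr rfl fun s _ => ?_
    rw [inner_sum, Complex.re_sum]
  simp only [a1, Finset.sum_sub_distrib, Finset.sum_const, nsmul_eq_mul, ← Finset.mul_sum]
  rw [a2]
  ring

variable [MeasurableSpace SU2] [BorelSpace SU2] (m : Measure SU2) [m.IsHaarMeasure]
  [IsProbabilityMeasure m] {ι : Type} [Fintype ι] [Nonempty ι] (w : ι → SU2)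

theorem bark_symm (f g : CF) : inner ℂ (io m ((bark w).Lc f)) (io m g) =
    inner ℂ (io m f) (io m ((bark w).Lc g)) := by
  rw [Spec2_Lc, Spec2_Lc, map_smul, map_smul, map_sum, map_sum, inner_smul_left, inner_smul_right,
    sum_inner, inner_sum, Complex.conj_ofReal]
  congr 1
  refine Finset.sum_congr rfl fun i _ => ?_
  simp only [map_add, inner_add_left, inner_add_right, inner_Lt, inv_inv]
  ring

theorem Spec2_re_inv (g : SU2) (F : CF) : (inner ℂ (io m F) (io m (Lt g⁻¹ F))).re =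
    (inner ℂ (io m F) (io m (Lt g F))).re := by
  rw [← inner_Lt, ← inner_conj_symm, Complex.conj_re]

theorem Spec2_sub_sq (g : SU2) (F : CF) : ‖io m (Lt g F - F)‖ ^ 2 =
    2 * ‖io m F‖ ^ 2 - 2 * (inner ℂ (io m F) (io m (Lt g F))).re := by
  rw [map_sub, norm_sub_rev, @norm_sub_sq ℂ, norm_Lt]
  change _ - 2 * (inner ℂ (io m F) (io m (Lt g F))).re + _ = _
  ring

omit [m.IsHaarMeasure] in
theorem Spec2_re_self (F : CF) : (inner ℂ (io m F) (io m F)).re = ‖io m F‖ ^ 2 :=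
  (@norm_sq_eq_re_inner ℂ _ _ _ _ (io m F)).symm

theorem dirichlet_eq (F : CF) : ‖io m F‖ ^ 2 - (inner ℂ (io m F) (io m ((bark w).Lc F))).re =
    (∑ i, ‖io m (Lt (w i) F - F)‖ ^ 2) / (4 * Fintype.card ι) := by
  have hn : (Fintype.card ι : ℝ) ≠ 0 := Nat.cast_ne_zero.2 Fintype.card_ne_zero
  rw [Spec2_Lc, map_smul, map_sum, inner_smul_right, inner_sum, Complex.re_ofReal_mul,
    Complex.re_sum]
  simp only [map_add, inner_add_right, Complex.add_re, Spec2_re_inv, Spec2_re_self, Spec2_sub_sq,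
    Finset.sum_add_distrib, Finset.sum_sub_distrib, Finset.sum_const, Finset.card_univ,
    nsmul_eq_mul, ← Finset.mul_sum]
  field_simp
  ring

theorem Spec2_sub_le (g : SU2) (F : CF) : ‖io m (Lt g F - F)‖ ^ 2 ≤ 4 * ‖io m F‖ ^ 2 := by
  have h1 : ‖io m (Lt g F - F)‖ ≤ 2 * ‖io m F‖ := by
    rw [map_sub]
    refine (norm_sub_le _ _).trans ?_
    rw [norm_Lt]
    linarith
  calc _ ≤ (2 * ‖io m F‖) ^ 2 := pow_le_pow_left₀ (norm_nonneg _) h1 2
    _ = _ := by ring

theorem Spec2_pos {v : CF} (h0 : v ≠ 0) : 0 < ‖io m v‖ :=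
  norm_pos_iff.mpr fun h => h0 (io_inj m (by rw [h, map_zero]))

include m in
theorem eig_bounds {v : CF} (h0 : v ≠ 0) {lam : ℝ} (he : (bark w).Lc v = (lam : ℂ) • v) :
    0 ≤ lam ∧ lam ≤ 1 := by
  have hn : (0 : ℝ) < Fintype.card ι := Nat.cast_pos.2 Fintype.card_pos
  have h1 := dirichlet_eq m w v
  rw [he, map_smul, inner_smul_right, Complex.re_ofReal_mul, Spec2_re_self] at h1
  have p : 0 < ‖io m v‖ ^ 2 := pow_pos (Spec2_pos m h0) 2
  have h2 : 0 ≤ (∑ i, ‖io m (Lt (w i) v - v)‖ ^ 2) / (4 * Fintype.card ι) :=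
    div_nonneg (Finset.sum_nonneg fun _ _ => sq_nonneg _) (by linarith)
  have h3 : (∑ i, ‖io m (Lt (w i) v - v)‖ ^ 2) / (4 * Fintype.card ι) ≤ ‖io m v‖ ^ 2 := by
    rw [div_le_iff₀ (by positivity)]
    refine (Finset.sum_le_sum fun i _ => Spec2_sub_le m (w i) v).trans ?_
    rw [Finset.sum_const, Finset.card_univ, nsmul_eq_mul]
    exact le_of_eq (by ring)
  constructor
  · by_contra hc
    have := mul_neg_of_neg_of_pos (not_le.1 hc) p
    linarith
  · by_contra hc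
    have := mul_pos (sub_pos.2 (not_le.1 hc)) p
    linarith

include m in
theorem eig_one_fix {v : CF} (he : (bark w).Lc v = v) (i : ι) : Lt (w i) v = v := by
  have hn : (0 : ℝ) < Fintype.card ι := Nat.cast_pos.2 Fintype.card_pos
  have h1 := dirichlet_eq m w v
  rw [he, Spec2_re_self, sub_self, eq_comm, div_eq_zero_iff] at h1
  have h2 := h1.resolve_right (by positivity)
  have h3 := (Finset.sum_eq_zero_iff_of_nonneg fun i _ => sq_nonneg _).1 h2 i (Finset.mem_univ i)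
  rw [sq_eq_zero_iff, norm_eq_zero, ← map_zero (io m)] at h3
  exact sub_eq_zero.1 (io_inj m h3)

include m in
theorem exists_eig_gap {d : ℕ} (h : ∀ v ∈ V d, (∀ i, Lt (w i) v = v) → v = 0) :
    ∃ γ : ℝ, 0 < γ ∧ Eig (bark w) γ d := by
  let T : Module.End ℂ (V d) := (bark w).Lc.restrict fun _ hf => (bark w).Lc_mem_V hf
  let A : Set ℝ := {lam | ∃ v ∈ V d, v ≠ 0 ∧ (bark w).Lc v = (lam : ℂ) • v}
  have hA : A.Finite := by
    refine ((Module.End.finite_hasEigenvalue T).preimage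
      Complex.ofReal_injective.injOn).subset ?_
    rintro lam ⟨v, hv, h0, he⟩
    refine Module.End.hasEigenvalue_of_hasEigenvector (x := ⟨v, hv⟩) ⟨?_, ?_⟩
    · exact Module.End.mem_eigenspace_iff.2 (Subtype.ext he)
    · exact fun h' => h0 (congrArg Subtype.val h')
  have hlt : ∀ lam ∈ A, lam < 1 := by
    rintro lam ⟨v, hv, h0, he⟩
    refine lt_of_le_of_ne (eig_bounds m w h0 he).2 ?_
    rintro rfl
    rw [Complex.ofReal_one, one_smul] at he
    exact h0 (h v hv (eig_one_fix m w he))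
  rcases A.eq_empty_or_nonempty with hA0 | hA0
  · refine ⟨1, one_pos, fun v hv h0 lam he => ?_⟩
    have : lam ∈ A := ⟨v, hv, h0, he⟩
    rw [hA0] at this
    exact this.elim
  · obtain ⟨a, ha, hmax⟩ := Set.exists_max_image A id hA hA0
    refine ⟨1 - a, sub_pos.2 (hlt a ha), fun v hv h0 lam he => ?_⟩
    have : lam ≤ a := hmax lam ⟨v, hv, h0, he⟩
    linarith

theorem gap_of_eig {γ : ℝ} (h0 : 0 < γ) (h1 : γ ≤ 1) {D : ℕ}
    (h : ∀ d, 1 ≤ d → d ≤ D → Eig (bark w) γ d) : Gap m (bark w) γ D := by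
  intro F hF hF0
  have q0 : 0 ≤ 1 - γ := sub_nonneg.2 h1
  apply norm_le_of_mem (io m) (io_inj m) (bark w).Lc (bark_symm m w) q0
  have hV : ∀ k, 1 ≤ k → k ≤ D →
      V k ≤ ⨆ μ : {μ : ℂ // ‖μ‖ ≤ 1 - γ}, Module.End.eigenspace (bark w).Lc μ.1 := by
    intro k k1 k2 f hf
    obtain ⟨b, μ, hb⟩ := exists_eigenbasis (io m ∘ₗ (V k).subtype)
      ((io_inj m).comp Subtype.val_injective)
      ((bark w).Lc.restrict fun _ hf => (bark w).Lc_mem_V hf) fun x y => bark_symm m w x y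
    have hb' : ∀ i, (bark w).Lc (b i) = (μ i : ℂ) • (b i : CF) := fun i =>
      congrArg Subtype.val (hb i)
    have bne : ∀ i, (b i : CF) ≠ 0 := fun i h0 => b.ne_zero i (Subtype.ext h0)
    have e : f = ∑ i, b.repr ⟨f, hf⟩ i • (b i : CF) := by
      have := congrArg Subtype.val (b.sum_repr ⟨f, hf⟩)
      rw [Submodule.coe_sum] at this
      exact this.symm
    rw [e]
    apply Submodule.sum_mem
    intro i _
    apply Submodule.smul_mem
    apply Submodule.mem_iSup_of_mem ⟨(μ i : ℂ), by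
      rw [Complex.norm_real, Real.norm_eq_abs, abs_of_nonneg (eig_bounds m w (bne i) (hb' i)).1]
      exact h k k1 k2 _ (b i).2 (bne i) _ (hb' i)⟩
    exact Module.End.mem_eigenspace_iff.mpr (hb' i)
  have h2 := Spec2_W_le (bark w) (fun μ : {μ : ℂ // ‖μ‖ ≤ 1 - γ} => μ.1) hV hF
  obtain ⟨y, hy, z, hz, rfl⟩ := Submodule.mem_sup.mp h2
  obtain ⟨a, rfl⟩ := Submodule.mem_span_singleton.mp hy
  have i0 : inner ℂ (io m 1) (io m z) = 0 := by
    clear hF0 h2 hF
    induction hz using Submodule.iSup_induction' with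
    | mem μ f hf =>
      rw [Module.End.mem_eigenspace_iff] at hf
      have s := bark_symm m w 1 f
      rw [Spec2_Lc_one, hf, map_smul, inner_smul_right] at s
      by_contra hne
      have e : μ.1 = 1 := mul_right_cancel₀ hne (by rw [← s, one_mul])
      have := μ.2
      rw [e, norm_one] at this
      linarith
    | zero => simp
    | add f g _ _ hf hg => rw [map_add, inner_add_right, hf, hg, add_zero]
  have i1 : inner ℂ (io m 1) (io m (a • 1 + z)) = 0 := by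
    rw [inner_io, ← hF0]
    simp
  have i2 : inner ℂ (io m 1) (io m 1) = 1 := by
    rw [inner_io]
    simp
  rw [map_add, map_smul, inner_add_right, inner_smul_right, i0, i2, mul_one, add_zero] at i1
  rw [i1, zero_smul, zero_add]
  exact hz

theorem dirichlet {γ : ℝ} {D : ℕ} (hg : Gap m (bark w) γ D) {F : CF} (hF : F ∈ W D)
    (h0 : ∫ x, F x ∂m = 0) : ∃ i, 4 * γ * ‖io m F‖ ^ 2 ≤ ‖io m (Lt (w i) F - F)‖ ^ 2 := by
  have hn : (0 : ℝ) < Fintype.card ι := Nat.cast_pos.2 Fintype.card_pos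
  have h1 := dirichlet_eq m w F
  have h2 : (inner ℂ (io m F) (io m ((bark w).Lc F))).re ≤ ‖io m F‖ * ((1 - γ) * ‖io m F‖) :=
    ((Complex.re_le_norm _).trans (norm_inner_le_norm _ _)).trans
      (mul_le_mul_of_nonneg_left (hg F hF h0) (norm_nonneg _))
  have h3 : γ * ‖io m F‖ ^ 2 ≤ (∑ i, ‖io m (Lt (w i) F - F)‖ ^ 2) / (4 * Fintype.card ι) := by
    rw [← h1]
    nlinarith
  rw [le_div_iff₀ (by positivity)] at h3
  by_contra hc
  push Not at hc
  have h4 := Finset.sum_lt_sum_of_nonempty (s := Finset.univ) Finset.univ_nonempty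
    fun i _ => hc i
  rw [Finset.sum_const, Finset.card_univ, nsmul_eq_mul] at h4
  linarith

theorem avg_sq {S : Finset SU2} (F : CF) {s s' : SU2} (hs : s ∈ S) (hs' : s' ∈ S) :
    ‖io m (Tp S F)‖ ^ 2 ≤
      ‖io m F‖ ^ 2 - ‖io m (Lt s F - Lt s' F)‖ ^ 2 / (2 * (S.card : ℝ) ^ 2) := by
  have hn : (0 : ℝ) < S.card := Nat.cast_pos.2 (Finset.card_pos.2 ⟨s, hs⟩)
  have h1 := Spec2_sum_sq S (fun t => io m (Lt t F)) ‖io m F‖ fun t => norm_Lt m t F
  have h2 : ‖io m (Lt s F) - io m (Lt s' F)‖ ^ 2 ≤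
      ∑ a ∈ S, ∑ b ∈ S, ‖io m (Lt a F) - io m (Lt b F)‖ ^ 2 :=
    (Finset.single_le_sum (f := fun b => ‖io m (Lt s F) - io m (Lt b F)‖ ^ 2)
      (fun _ _ => sq_nonneg _) hs').trans
      (Finset.single_le_sum (f := fun a => ∑ b ∈ S, ‖io m (Lt a F) - io m (Lt b F)‖ ^ 2)
        (fun _ _ => Finset.sum_nonneg fun _ _ => sq_nonneg _) hs)
  rw [h1] at h2
  rw [Tp_eq, map_smul, map_sum, norm_smul, map_sub, mul_pow, norm_div, norm_one,
    Complex.norm_natCast, le_sub_iff_add_le', ← le_sub_iff_add_le, div_le_iff₀ (by positivity)]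
  refine h2.trans (le_of_eq ?_)
  field_simp

end Pool.Agent.P.MP_923088_al.AG
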