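import Pool.Agent.P.MP_923088_al.AG.Key
import Pool.Agent.P.MP_923088_al.AG.Base
import Pool.Agent.P.MP_923088_al.AG.Spec2

/-!
The induction on the degree.
Plan. `a = k - J - 11`, `P = a + 2J + 15 = k + J + 4`; note `J ≥ 11`, `k ≥ 4J + 42`. Let `B₂` be at
least `B₁` of `key`, `B₀` of `NC`, `2P` and `10`, and `d₁` with `log d > B₂^P` for `d > d₁`. By `no_fixed`
and `exists_eig_gap` choose `0 < c ≤ 1/2` with `Eig (2c) d` for `1 ≤ d ≤ d₁` (and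
`log (d+2)^ε ≥ 1/2`). Strong induction: `Eig (c / log (d+2)^ε) d` for `d ≥ 1`. For `d > d₁` let
`S = log d` and `B` least with `S ≤ B^P`; then `B > B₂` and `S > (B-1)^P ≥ B^P/2` (Bernoulli). With
`Δ = B^(P-J)`, `n = ⌈exp (3Δ)⌉₊ < d`, `γ = c / log (n+2)^ε` (`gap_of_eig`, `Eig.mono`),
`log (n+2) ≤ 4Δ`, `S ≥ 4Δ B^(J-2)`, so `S^ε ≥ (4Δ)^ε B^9`; and `S ≥ B^k` gives `S^ε ≥ B^(4J+42)`.
`NC` is used with `i = a + J + 8` and `i = a`.
-/

namespace Pool.Agent.P.MP_923088_al.AG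

open MeasureTheory Real
open scoped Classical Quaternion

theorem Ind_choose {S : ℝ} {P B₂ : ℕ} (hP : 1 ≤ P) (hB : 2 * P ≤ B₂) (hS : (B₂ : ℝ) ^ P < S) :
    ∃ B : ℕ, B₂ ≤ B ∧ S ≤ (B : ℝ) ^ P ∧ (B : ℝ) ^ P ≤ 2 * S := by
  have ex : ∃ B : ℕ, S ≤ (B : ℝ) ^ P := by
    refine ⟨⌈S⌉₊ + 1, (Nat.le_ceil S).trans ?_⟩
    have h1 : (1 : ℝ) ≤ ((⌈S⌉₊ + 1 : ℕ) : ℝ) := by push_cast; linarith [Nat.cast_nonneg (α := ℝ) ⌈S⌉₊]
    refine le_trans ?_ (le_self_pow₀ h1 (by omega))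
    push_cast; linarith
  have h1 := Nat.find_spec ex
  have h2 : B₂ < Nat.find ex := by
    by_contra hc
    have h3 : ((Nat.find ex : ℕ) : ℝ) ≤ B₂ := by exact_mod_cast not_lt.mp hc
    have : ((Nat.find ex : ℕ) : ℝ) ^ P ≤ (B₂ : ℝ) ^ P := by gcongr
    linarith
  obtain ⟨b, hb⟩ : ∃ b, Nat.find ex = b + 1 := ⟨Nat.find ex - 1, by omega⟩
  have h3 : (b : ℝ) ^ P < S := not_le.mp (Nat.find_min ex (by omega))
  refine ⟨b + 1, by omega, hb ▸ h1, ?_⟩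
  have hb2 : 2 * (P : ℝ) ≤ b := by
    have : 2 * P ≤ b := by omega
    exact_mod_cast this
  have P1 : (1 : ℝ) ≤ P := by exact_mod_cast hP
  have b0 : (0 : ℝ) < (b : ℝ) + 1 := by linarith
  have h4 := one_add_mul_le_pow (a := -(1 / ((b : ℝ) + 1))) (by
    have : 1 / ((b : ℝ) + 1) ≤ 1 := by rw [div_le_one b0]; linarith
    linarith) P
  have e : 1 + -(1 / ((b : ℝ) + 1)) = b / (b + 1) := by field_simp; ring
  have h5 : (P : ℝ) * (1 / ((b : ℝ) + 1)) ≤ 1 / 2 := by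
    rw [mul_one_div, div_le_iff₀ b0]; linarith
  rw [e, div_pow] at h4
  have h6 : 1 / 2 ≤ (b : ℝ) ^ P / ((b : ℝ) + 1) ^ P := by linarith
  rw [le_div_iff₀ (by positivity)] at h6
  push_cast
  linarith

theorem Ind_log {ε : ℝ} (h0 : 0 < ε) (h1 : ε ≤ 1) (D : ℕ) : 1 / 2 ≤ log ((D : ℝ) + 2) ^ ε := by
  have D0 : (0 : ℝ) ≤ D := Nat.cast_nonneg D
  have h2 : 1 / 2 ≤ log ((D : ℝ) + 2) := by
    have := Real.log_two_gt_d9
    have := Real.log_le_log (by norm_num : (0 : ℝ) < 2) (by linarith : (2 : ℝ) ≤ D + 2)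
    linarith
  calc (1 / 2 : ℝ) = (1 / 2) ^ (1 : ℝ) := (Real.rpow_one _).symm
    _ ≤ (1 / 2) ^ ε := Real.rpow_le_rpow_of_exponent_ge (by norm_num) (by norm_num) h1
    _ ≤ _ := Real.rpow_le_rpow (by norm_num) h2 h0.le

theorem Ind_mono {ε c : ℝ} (h0 : 0 < ε) (h1 : ε ≤ 1) (hc : 0 ≤ c) {d n : ℕ} (h : d ≤ n) :
    c / log ((n : ℝ) + 2) ^ ε ≤ c / log ((d : ℝ) + 2) ^ ε := by
  have h2 := Ind_log h0 h1 d
  have h3 : (d : ℝ) ≤ n := by exact_mod_cast h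
  have d0 : (0 : ℝ) ≤ d := Nat.cast_nonneg d
  refine div_le_div_of_nonneg_left hc (by linarith) ?_
  exact Real.rpow_le_rpow (Real.log_nonneg (by linarith))
    (Real.log_le_log (by linarith) (by linarith)) h0.le

theorem Ind_pow {x S ε : ℝ} (hx : 1 ≤ x) (h0 : 0 < ε) {i j : ℕ} (hij : (j : ℝ) ≤ ε * i) {T : ℝ}
    (hT : 0 ≤ T) (h : T * x ^ i ≤ S) : T ^ ε * x ^ j ≤ S ^ ε := by
  have x0 : 0 ≤ x := by linarith
  calc T ^ ε * x ^ j ≤ T ^ ε * (x ^ i) ^ ε := by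
        gcongr
        rw [← Real.rpow_natCast, ← Real.rpow_natCast, ← Real.rpow_mul x0]
        exact Real.rpow_le_rpow_of_exponent_le hx (by linarith)
    _ = (T * x ^ i) ^ ε := (Real.mul_rpow hT (by positivity)).symm
    _ ≤ _ := Real.rpow_le_rpow (by positivity) h h0.le

variable [MeasurableSpace SU2] [BorelSpace SU2] (m : Measure SU2) [m.IsHaarMeasure]
  [IsProbabilityMeasure m]

theorem gap_all {k J : ℕ} {ε : ℝ} (h0 : 0 < ε) (h1 : ε ≤ 1) (hJ : 9 ≤ ε * ((J : ℝ) - 2))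
    (hk : 4 * (J : ℝ) + 42 ≤ ε * k) {w : Fin (k + 1) → SU2} (hw : NC w) :
    ∃ c : ℝ, 0 < c ∧ ∀ D : ℕ, Gap m (bark w) (c / log ((D : ℝ) + 2) ^ ε) D := by
  have J11 : 11 ≤ J := by
    have h2 : (11 : ℝ) ≤ J := by
      by_contra hc
      rcases le_total ((J : ℝ) - 2) 0 with h | h <;> nlinarith
    exact_mod_cast h2
  have k4 : 4 * J + 42 ≤ k := by
    have k0 : (0 : ℝ) ≤ k := Nat.cast_nonneg k
    have : 4 * (J : ℝ) + 42 ≤ k := by nlinarith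
    exact_mod_cast this
  obtain ⟨a, ha⟩ : ∃ a, k = a + J + 11 := ⟨k - J - 11, by omega⟩
  obtain ⟨j, hj⟩ : ∃ j, J = j + 2 := ⟨J - 2, by omega⟩
  obtain ⟨B₁, hB₁⟩ := key m ha (by omega : J + 11 ≤ a)
  have nf := fun d (hd : 1 ≤ d) => exists_eig_gap m w (no_fixed hw (by omega) hd)
  obtain ⟨B₀, hB₀⟩ := hw
  have small : ∀ d₁ : ℕ, ∃ γ : ℝ, 0 < γ ∧ γ ≤ 1 ∧ ∀ d, 1 ≤ d → d ≤ d₁ → Eig (bark w) γ d := by
    intro d₁
    induction d₁ with
    | zero => exact ⟨1, one_pos, le_rfl, fun d h1 h2 => by omega⟩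
    | succ n ih =>
      obtain ⟨γ, g0, g1, hg⟩ := ih
      obtain ⟨γ', g0', hg'⟩ := nf (n + 1) (by omega)
      refine ⟨min γ γ', lt_min g0 g0', (min_le_left _ _).trans g1, fun d h1 h2 => ?_⟩
      rcases Nat.lt_or_ge d (n + 1) with h | h
      · exact (hg d h1 (by omega)).mono (min_le_left _ _)
      · obtain rfl : d = n + 1 := by omega
        exact hg'.mono (min_le_right _ _)
  set P := a + 2 * J + 15 with hP
  set B₂ := B₀ + B₁ + 2 * P with hB₂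
  obtain ⟨γ₀, g0, g1, hg⟩ := small ⌈exp ((B₂ : ℝ) ^ P)⌉₊
  have cle : ∀ D : ℕ, γ₀ / 2 / log ((D : ℝ) + 2) ^ ε ≤ γ₀ := by
    intro D
    have := Ind_log h0 h1 D
    rw [div_le_iff₀ (by linarith)]
    nlinarith
  have cpos : ∀ D : ℕ, 0 < γ₀ / 2 / log ((D : ℝ) + 2) ^ ε := by
    intro D
    have := Ind_log h0 h1 D
    exact div_pos (by linarith) (by linarith)
  have gap : ∀ n : ℕ, (∀ d, 1 ≤ d → d ≤ n → Eig (bark w) (γ₀ / 2 / log ((d : ℝ) + 2) ^ ε) d) →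
      Gap m (bark w) (γ₀ / 2 / log ((n : ℝ) + 2) ^ ε) n := fun n h =>
    gap_of_eig m w (cpos n) ((cle n).trans g1) fun d d1 d2 =>
      (h d d1 d2).mono (Ind_mono h0 h1 (by linarith) d2)
  refine ⟨γ₀ / 2, by linarith, fun D => gap D fun d d1 _ => ?_⟩
  induction d using Nat.strong_induction_on with
  | _ d ih =>
  rcases le_or_gt d ⌈exp ((B₂ : ℝ) ^ P)⌉₊ with hd | hd
  · exact (hg d d1 hd).mono (cle d)
  have d0 : (0 : ℝ) < d := by exact_mod_cast d1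
  have hS : (B₂ : ℝ) ^ P < log d := by
    rw [Real.lt_log_iff_exp_lt d0]
    exact Nat.lt_of_ceil_lt hd
  obtain ⟨B, b1, b2, b3⟩ := Ind_choose (by omega : 1 ≤ P) (by omega : 2 * P ≤ B₂) hS
  have x10 : (10 : ℝ) ≤ B := by
    have : 10 ≤ B := by omega
    exact_mod_cast this
  have a1 := hB₀ B (by omega) (a + J + 8) (by omega)
  have a2 := hB₀ B (by omega) a (by omega)
  rw [show a + J + 8 + 3 = k by omega, show a + J + 8 + 6 = a + J + 14 by omega] at a1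
  have ky := hB₁ B (by omega) w a1 a2
  set x : ℝ := (B : ℝ) with hx
  have x1 : 1 ≤ x := by linarith
  have x0 : 0 < x := by linarith
  set Δ := x ^ (a + J + 15) with hΔ
  have Δ2 : 10 ≤ Δ := x10.trans (le_self_pow₀ x1 (by omega))
  have eP : x ^ P = Δ * x ^ j * x ^ 2 := by
    rw [hΔ, ← pow_add, ← pow_add]; congr 1; omega
  have xj : 100 ≤ x ^ j := by
    have : x ^ 2 ≤ x ^ j := pow_le_pow_right₀ x1 (by omega)
    nlinarith
  have s1 : 4 * Δ * x ^ j ≤ log d := by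
    have h2 : 0 < Δ * x ^ j := by positivity
    have h3 : 100 ≤ x ^ 2 := by nlinarith
    nlinarith
  have s2 : 100 * Δ ≤ log d := by nlinarith
  have s3 : 1 * x ^ k ≤ log d := by
    have h2 : x ^ k * x ≤ x ^ P := by
      rw [← pow_succ]; exact pow_le_pow_right₀ x1 (by omega)
    have h3 : 0 < x ^ k := by positivity
    nlinarith
  have ex1 : 1 ≤ exp (3 * Δ) := Real.one_le_exp (by linarith)
  have n1 : exp (3 * Δ) ≤ (⌈exp (3 * Δ)⌉₊ : ℝ) := Nat.le_ceil _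
  have n2 : (⌈exp (3 * Δ)⌉₊ : ℝ) ≤ 2 * exp (3 * Δ) := by
    have := Nat.ceil_lt_add_one (show 0 ≤ exp (3 * Δ) by positivity)
    linarith
  set n := ⌈exp (3 * Δ)⌉₊ with hn
  have n3 : (n : ℝ) + 2 ≤ exp (4 * Δ) := by
    have e : exp (4 * Δ) = exp Δ * exp (3 * Δ) := by rw [← exp_add]; congr 1; ring
    have := Real.add_one_le_exp Δ
    rw [e]; nlinarith
  have n0 : (0 : ℝ) ≤ n := Nat.cast_nonneg n
  have n4 : log ((n : ℝ) + 2) ≤ 4 * Δ := by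
    rw [Real.log_le_iff_le_exp (by linarith)]; exact n3
  have n5 : n < d := by
    have h2 : exp (4 * Δ) ≤ exp (log d) := exp_le_exp.mpr (by linarith)
    rw [exp_log d0] at h2
    have : (n : ℝ) < d := by linarith
    exact_mod_cast this
  have G := gap n fun d' e1 e2 => ih d' (by omega) e1 (by omega)
  refine (ky _ n (cpos n) ((cle n).trans g1) G n1 n2 d s2 b2).mono ?_
  have l1 : log d ≤ log ((d : ℝ) + 2) := Real.log_le_log d0 (by linarith)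
  have l2 := Ind_log h0 h1 d
  have l3 := Ind_log h0 h1 n
  refine le_min ?_ ?_
  · have := Ind_pow x1 h0 (i := k) (j := 4 * J + 42) (by push_cast; exact hk) zero_le_one
      (s3.trans l1)
    rw [Real.one_rpow, one_mul] at this
    exact div_le_div₀ zero_le_one (by linarith) (by positivity) this
  · have h2 := Ind_pow x1 h0 (i := j) (j := 9) (by
      have : (J : ℝ) - 2 = j := by rw [hj]; push_cast; ring
      rw [this] at hJ; exact_mod_cast hJ) (by linarith : 0 ≤ 4 * Δ) (s1.trans l1)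
    have h3 : log ((n : ℝ) + 2) ^ ε ≤ (4 * Δ) ^ ε :=
      Real.rpow_le_rpow (Real.log_nonneg (by linarith)) n4 h0.le
    rw [div_div (γ₀ / 2)]
    have h4 : log ((n : ℝ) + 2) ^ ε * x ^ 9 ≤ (4 * Δ) ^ ε * x ^ 9 := by gcongr
    have h5 : 0 < log ((n : ℝ) + 2) ^ ε := by linarith
    exact div_le_div_of_nonneg_left (half_pos g0).le (by positivity) (h4.trans h2)

end Pool.Agent.P.MP_923088_al.AG
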