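import Pool.Agent.P.MP_923088_al.AG.Step
import Pool.Agent.P.MP_923088_al.AG.DensB

/-!
From a gap at a low degree to a gap at a high degree.
Plan. `Δ = B^(a+J+15)`, `S = log d`, `η` the minimum. If `lam > 1 - η` take `p` from `exists_dens` and
`e = √(1024 (k+1) η)`, so `e^2 ≤ B η` for `B ≥ 1024 (k+1)`. Let `N + 1 = ⌊S/Δ⌋`. Apply `step` with
`t = (j+1) Δ` for `j < N` and add: `Hent (2 exp (-(N+1)Δ)) ≤ Hent (2 exp (-Δ)) - (11/4) N Δ`. With
`Hent_nonpos`, `Hent_mono` (`1/d = exp (-S)`) and `N Δ ≥ S - 2Δ ≥ 0.98 S` this contradicts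
`-(5/2) S - 20 ≤ Hent (1/d)` since `S ≥ 200`.
-/

namespace Pool.Agent.P.MP_923088_al.AG

open MeasureTheory Real
open scoped Classical Quaternion

variable [MeasurableSpace SU2] [BorelSpace SU2] (m : Measure SU2) [m.IsHaarMeasure]
  [IsProbabilityMeasure m]

theorem key {k a J : ℕ} (hk : k = a + J + 11) (ha : J + 11 ≤ a) :
    ∃ B₁ : ℕ, ∀ B : ℕ, B₁ ≤ B → ∀ w : Fin (k + 1) → SU2,
      (lev (ext w) B k).AX (exp (-(B : ℝ) ^ (a + J + 14))) (exp (-(B : ℝ) ^ (a + J + 8))) →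
      (lev (ext w) B (a + 3)).AX (exp (-(B : ℝ) ^ (a + 6))) (exp (-(B : ℝ) ^ a)) →
      ∀ (γ : ℝ) (n : ℕ), 0 < γ → γ ≤ 1 → Gap m (bark w) γ n →
      exp (3 * (B : ℝ) ^ (a + J + 15)) ≤ n → (n : ℝ) ≤ 2 * exp (3 * (B : ℝ) ^ (a + J + 15)) →
      ∀ d : ℕ, 100 * (B : ℝ) ^ (a + J + 15) ≤ log d → log d ≤ (B : ℝ) ^ (a + 2 * J + 15) →
      Eig (bark w) (min (1 / (B : ℝ) ^ (4 * J + 42)) (γ / (B : ℝ) ^ 9)) d := by
  obtain ⟨B₁, hB₁⟩ := step m hk ha
  refine ⟨B₁ + 1024 * (k + 1), fun B hB w a1 a2 γ n γ0 γ1 hg n1 n2 d d1 d2 v hv v0 lam he => ?_⟩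
  have st := hB₁ B (le_trans (Nat.le_add_right _ _) hB) w a1 a2 γ n γ0 γ1 hg n1 n2
  have hBr : (1024 : ℝ) * ((k : ℝ) + 1) ≤ B := by
    have : 1024 * (k + 1) ≤ B := le_trans (Nat.le_add_left _ _) hB
    exact_mod_cast this
  have k0 : (0 : ℝ) ≤ k := Nat.cast_nonneg k
  set x : ℝ := (B : ℝ) with hx
  have x2 : 2 ≤ x := by linarith
  have x1 : 1 ≤ x := by linarith
  have x0 : 0 < x := by linarith
  set Δ := x ^ (a + J + 15) with hΔ
  have Δ2 : 2 ≤ Δ := x2.trans (le_self_pow₀ x1 (by omega))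
  have Δ0 : 0 < Δ := by linarith
  set η := min (1 / x ^ (4 * J + 42)) (γ / x ^ 9) with hη
  have η0 : 0 < η := lt_min (by positivity) (by positivity)
  have η1 : η ≤ 1 / 2 := by
    refine (min_le_left _ _).trans (one_div_le_one_div_of_le (by norm_num) ?_)
    exact x2.trans (le_self_pow₀ x1 (by omega))
  have dpos : (0 : ℝ) < d := by
    rcases Nat.eq_zero_or_pos d with rfl | h
    · simp at d1; linarith
    · exact_mod_cast h
  have d2' : 2 ≤ d := by
    have h1 := Real.log_le_sub_one_of_pos dpos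
    have h2 : (2 : ℝ) ≤ d := by linarith
    exact_mod_cast h2
  by_contra hc
  obtain ⟨p, hp, hH, hE⟩ := exists_dens m d2' w hv v0 he η0 η1 (by linarith [not_le.mp hc])
  have e0 : 0 ≤ 1024 * ((k : ℝ) + 1) * η := by positivity
  have e1 : √(1024 * ((k : ℝ) + 1) * η) ^ 2 ≤ x * η := by
    rw [Real.sq_sqrt e0]; gcongr
  have st2 := st p (√(1024 * ((k : ℝ) + 1) * η)) hp (fun i => Real.le_sqrt_of_sq_le (hH i))
    (e1.trans (by
      calc x * η ≤ x * (1 / x ^ (4 * J + 42)) := by gcongr; exact min_le_left _ _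
        _ = 1 / x ^ (4 * J + 41) := by rw [pow_succ x (4 * J + 41)]; field_simp))
    (e1.trans (by
      calc x * η ≤ x * (γ / x ^ 9) := by gcongr; exact min_le_right _ _
        _ = γ / x ^ 8 := by field_simp))
  have tel : ∀ j : ℕ, ((j : ℝ) + 1) * Δ ≤ log d →
      Hent m p (2 * exp (-(((j : ℝ) + 1) * Δ))) ≤ -(11 / 4) * (j * Δ) := by
    intro j
    induction j with
    | zero => intro _; simpa using Hent_nonpos hp _
    | succ j ih =>
      intro h
      push_cast at h ⊢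
      have j0 : (0 : ℝ) ≤ j := Nat.cast_nonneg j
      have h1 := ih (by nlinarith)
      have h2 := st2 (((j : ℝ) + 1) * Δ) (by nlinarith) (by nlinarith)
      have e : ((j : ℝ) + 1 + 1) * Δ = ((j : ℝ) + 1) * Δ + Δ := by ring
      rw [e]
      linarith
  have q1 : 100 ≤ log d / Δ := by rw [le_div_iff₀ Δ0]; exact d1
  obtain ⟨N, hN⟩ : ∃ N : ℕ, ⌊log d / Δ⌋₊ = N + 1 :=
    Nat.exists_eq_succ_of_ne_zero (Nat.floor_pos.mpr (by linarith)).ne'
  have f1 : ((N : ℝ) + 1) * Δ ≤ log d := by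
    have := Nat.floor_le (show 0 ≤ log d / Δ by linarith)
    rw [hN, le_div_iff₀ Δ0] at this
    exact_mod_cast this
  have f2 : log d < ((N : ℝ) + 2) * Δ := by
    have := Nat.lt_floor_add_one (log d / Δ)
    rw [hN, div_lt_iff₀ Δ0] at this
    push_cast at this
    linarith
  have f3 : Hent m p (1 / d) ≤ Hent m p (2 * exp (-(((N : ℝ) + 1) * Δ))) := by
    refine Hent_mono hp (by positivity) ?_
    have h1 : (1 : ℝ) / d = exp (-log d) := by rw [exp_neg, exp_log dpos, one_div]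
    have h2 : exp (-log d) ≤ exp (-(((N : ℝ) + 1) * Δ)) := exp_le_exp.mpr (by linarith)
    have h3 := exp_pos (-(((N : ℝ) + 1) * Δ))
    linarith
  have f4 := tel N f1
  linarith

end Pool.Agent.P.MP_923088_al.AG
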