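import Pool.Agent.P.MP_923088_al.AG.Defs2
import Pool.Agent.P.MP_923088_al.AG.Geo2

/-!
Row AG-Leaf. A mode for which two copies are at a known distance.
Plan. `w = (σ - E/16)/n`, `ρ i = exp (-(E/16 + i w))`, `b ω ρ = L.P (ds (Y ω) (Y ·) ≤ ρ)`,
`θ = exp (-E/(2n))`. Call `ω` typed if `b ω (ρ (i+1)) ≤ θ * b ω (ρ i)` for some `i < n`; `ty ω` is such
an `i` (zero if there is none). `χ ω = (ty ω, cell (ρ (ty ω) / 2) (Y ω))`,
`τ ω = E/16 + ty ω * w - log 2`. Same mode gives `ds ≤ ρ (ty ω)` (`cell_close`), that is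
`2 ds ≤ exp (-τ)`; the pair is bad only if `ds < ρ (ty ω + 1)`.
Typed `ω` of type `i`: the bad weight is at most `r ω * θ * b ω (ρ i) / rc ω`, and
`∑ ω of type i, r ω / rc ω * b ω (ρ i) = ∑ ω'', r ω'' * ∑ (ω of type i, ds ≤ ρ i), r ω / rc ω ≤ 625`,
because these `ω` lie in at most `5^4` cells (`cell_near` with `n = 2`) and each class contributes at
most one. Untyped `ω`: `exp (-E) ≥ b ω (ρ n) > exp (-E/2) * b ω (ρ 0)` (if `b ω (ρ 0) > 0`), so
`b ω (ρ 0) ≤ exp (-E/2)`; cover by the cells of mesh `ρ 0 / 2` (at most `(11 exp (E/16))^4`, by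
`cell_near` with centre `1` and `ds_le_two`); in each cell the untyped points weigh at most
`exp (-E/2)`. Total: `625 n θ + 14641 exp (-E/4)`.
-/

namespace Pool.Agent.P.MP_923088_al.AG

open MeasureTheory Real
open scoped Classical Quaternion

theorem Leaf_cls {L : Law} (hL : L.Ok) {X : Type} (χ : L.Ω → X) (T : Finset X) :
    ∑ ω, (if χ ω ∈ T then L.r ω / L.rc χ ω else 0) ≤ (T.card : ℝ) := by
  have h1 : ∀ ω, (if χ ω ∈ T then L.r ω / L.rc χ ω else 0) = ∑ c ∈ T,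
      (if χ ω = c then L.r ω else 0) / ∑ ω', if χ ω' = c then L.r ω' else 0 := by
    intro ω
    rw [← Finset.sum_ite_eq T (χ ω) fun _ => L.r ω / L.rc χ ω]
    refine Finset.sum_congr rfl fun c _ => ?_
    split_ifs with h
    · rw [Law.rc, h]
    · rw [zero_div]
  simp only [h1]
  rw [Finset.sum_comm, Finset.card_eq_sum_ones, Nat.cast_sum]
  refine Finset.sum_le_sum fun c _ => ?_
  rw [← Finset.sum_div, Nat.cast_one]
  exact div_self_le_one _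

theorem Leaf_typed {L : Law} (hL : L.Ok) {X : Type} (χ : L.Ω → X) (G : L.Ω → Prop)
    (A B : L.Ω → L.Ω → Prop) {θ N : ℝ} (hθ : 0 ≤ θ) (hN : 0 ≤ N)
    (h1 : ∀ ω, G ω → L.P (A ω) ≤ θ * L.P (B ω))
    (h2 : ∀ ω'', ∃ T : Finset X, (T.card : ℝ) ≤ N ∧ ∀ ω, B ω ω'' → χ ω ∈ T) :
    L.PP χ (fun ω ω' => G ω ∧ A ω ω') ≤ θ * N := by
  have hq : ∀ ω, 0 ≤ L.r ω / L.rc χ ω := fun ω => div_nonneg (hL.nn ω) (Law.rc_nonneg hL χ ω)
  have e1 : ∀ ω, (∑ ω', if G ω ∧ A ω ω' then L.pr χ ω ω' else 0) ≤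
      L.r ω / L.rc χ ω * (θ * L.P (B ω)) := by
    intro ω
    by_cases hG : G ω
    · refine le_trans ?_ (mul_le_mul_of_nonneg_left (h1 ω hG) (hq ω))
      rw [Law.P, Finset.mul_sum]
      refine Finset.sum_le_sum fun ω' _ => ?_
      by_cases hA : A ω ω'
      · rw [if_pos ⟨hG, hA⟩, if_pos hA, Law.pr, div_mul_eq_mul_div]
        exact LawL_ite_le_self
          (div_nonneg (mul_nonneg (hL.nn _) (hL.nn _)) (Law.rc_nonneg hL χ ω))
      · rw [if_neg fun h => hA h.2, if_neg hA, mul_zero]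
    · rw [Finset.sum_eq_zero fun ω' _ => if_neg fun h => hG h.1]
      exact mul_nonneg (hq ω) (mul_nonneg hθ (Law.P_nonneg hL _))
  have e2 : ∑ ω, L.r ω / L.rc χ ω * (θ * L.P (B ω)) =
      θ * ∑ ω'', L.r ω'' * ∑ ω, if B ω ω'' then L.r ω / L.rc χ ω else 0 := by
    simp only [Law.P, Finset.mul_sum]
    rw [Finset.sum_comm]
    refine Finset.sum_congr rfl fun ω'' _ => Finset.sum_congr rfl fun ω _ => ?_
    split_ifs <;> ring
  refine le_trans (Finset.sum_le_sum fun ω _ => ?_) (e2.trans_le ?_)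
  · refine le_trans (le_of_eq (Finset.sum_congr rfl fun ω' _ => ?_)) (e1 ω)
    congr
  refine mul_le_mul_of_nonneg_left (Law.LawL_wsum hL (fun ω'' => ?_) hN) hθ
  obtain ⟨T, hT, hB⟩ := h2 ω''
  exact ((Finset.sum_le_sum fun ω _ => LawL_ite_le (hq ω) (hB ω)).trans
    (Leaf_cls hL χ T)).trans hT

theorem Leaf_untyped {L : Law} (hL : L.Ok) (U : L.Ω → Prop) {s δ : ℝ} (hs : 0 < s) (hδ : 0 ≤ δ)
    (hU : ∀ ω, U ω → L.P (fun ω' => ds (L.Y ω) (L.Y ω') ≤ 2 * s) ≤ δ) {n : ℕ} (hn : 2 ≤ n * s) :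
    L.P U ≤ (2 * n + 1) ^ 4 * δ := by
  obtain ⟨T, hT, hc⟩ := cell_near hs n 1
  have h1 : L.P U ≤ L.P fun ω => ∃ c ∈ T, U ω ∧ cell s (L.Y ω) = c :=
    Law.P_mono hL fun ω h => ⟨_, hc _ ((ds_le_two _ _).trans hn), h, rfl⟩
  refine h1.trans ((Law.P_exists hL T _).trans ((Finset.sum_le_card_nsmul _ _ δ ?_).trans ?_))
  · intro c _
    by_cases h : ∃ ω, U ω ∧ cell s (L.Y ω) = c
    · obtain ⟨ω, h1, h2⟩ := h
      exact (Law.P_mono hL fun ω' h' => cell_close hs (h2.trans h'.2.symm)).trans (hU ω h1)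
    · rw [Law.P_false L fun ω h' => h ⟨ω, h'⟩]
      exact hδ
  · rw [nsmul_eq_mul]
    exact mul_le_mul_of_nonneg_right (by exact_mod_cast hT) hδ

theorem Leaf_chain {b : ℕ → ℝ} {θ : ℝ} (hθ : 0 ≤ θ) {n : ℕ}
    (h : ∀ i < n, θ * b i ≤ b (i + 1)) : θ ^ n * b 0 ≤ b n := by
  induction n with
  | zero => simp
  | succ n ih =>
    rw [pow_succ', mul_assoc]
    exact (mul_le_mul_of_nonneg_left (ih fun i hi => h i (by omega)) hθ).trans (h n (by omega))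

theorem Leaf_cover {n : ℕ} {ρ : ℕ → ℝ} (hρ : ∀ i, 0 < ρ i) (x : SU2) :
    ∃ T : Finset (ℕ × (Fin 4 → ℤ)), (T.card : ℝ) ≤ n * 625 ∧
      ∀ i < n, ∀ y, ds y x ≤ ρ i → (i, cell (ρ i / 2) y) ∈ T := by
  choose T hT hc using fun i => cell_near (half_pos (hρ i)) 2 x
  refine ⟨(Finset.range n).biUnion fun i => (T i).image fun c => (i, c), ?_, fun i hi y hy => ?_⟩
  · have h := (Finset.card_biUnion_le (s := Finset.range n)
      (t := fun i => (T i).image fun c => (i, c))).trans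
      (Finset.sum_le_card_nsmul _ _ 625 fun i _ => Finset.card_image_le.trans (hT i))
    rw [Finset.card_range, smul_eq_mul] at h
    exact_mod_cast h
  · refine Finset.mem_biUnion.2 ⟨i, Finset.mem_range.2 hi, Finset.mem_image_of_mem _ (hc i y ?_)⟩
    rw [ds_comm]
    push_cast
    linarith

theorem Leaf_count {E : ℝ} (hE : 0 ≤ E) :
    (2 * (⌈4 * exp (E / 16)⌉₊ : ℝ) + 1) ^ 4 * exp (-(E / 2)) ≤ 14641 * exp (-(E / 4)) := by
  have h1 : 1 ≤ exp (E / 16) := one_le_exp (by linarith)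
  have h2 := (Nat.ceil_lt_add_one (by linarith : 0 ≤ 4 * exp (E / 16))).le
  have h3 : (2 * (⌈4 * exp (E / 16)⌉₊ : ℝ) + 1) ^ 4 ≤ (11 * exp (E / 16)) ^ 4 :=
    pow_le_pow_left₀ (by positivity) (by linarith) 4
  refine (mul_le_mul_of_nonneg_right h3 (exp_pos _).le).trans_eq ?_
  rw [mul_pow, ← exp_nat_mul, mul_assoc, ← exp_add]
  congr 1
  · norm_num
  · congr 1
    push_cast
    ring

theorem leaf {L : Law} (hL : L.Ok) (q : SU2 → L.Ω → ℝ) {σ E : ℝ} {n : ℕ}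
    (hc : L.Conc (exp (-σ)) (exp (-E))) (hE : 32 ≤ E) (hσ : E / 16 ≤ σ) (hn : 1 ≤ n) :
    ∃ (X : Type) (χ : L.Ω → X) (τ : L.Ω → ℝ), (∀ ω ω', χ ω = χ ω' → τ ω = τ ω') ∧
      (∀ ω, E / 32 ≤ τ ω ∧ τ ω ≤ σ) ∧
      (Half.mk L q X χ τ fun _ => 0).Good (σ / n) (20000 * n * exp (-(E / (4 * n)))) := by
  have hn' : (1 : ℝ) ≤ n := by exact_mod_cast hn
  have hn0 : (0 : ℝ) < n := by linarith
  obtain ⟨w, hw⟩ : ∃ w, w = (σ - E / 16) / n := ⟨_, rfl⟩
  have hw0 : 0 ≤ w := hw ▸ div_nonneg (by linarith) hn0.le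
  have hnw : n * w = σ - E / 16 := by rw [hw, mul_div_cancel₀ _ hn0.ne']
  have hws : w ≤ σ / n := hw ▸ div_le_div_of_nonneg_right (by linarith) hn0.le
  obtain ⟨ρ, hρ⟩ : ∃ ρ : ℕ → ℝ, ∀ i, ρ i = exp (-(E / 16 + i * w)) := ⟨_, fun _ => rfl⟩
  have hρ0 : ∀ i, 0 < ρ i := fun i => hρ i ▸ exp_pos _
  obtain ⟨b, hb⟩ : ∃ b : L.Ω → ℕ → ℝ,
      ∀ ω i, b ω i = L.P fun ω' => ds (L.Y ω) (L.Y ω') ≤ ρ i := ⟨_, fun _ _ => rfl⟩
  obtain ⟨G, hG⟩ : ∃ G : L.Ω → Prop,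
      ∀ ω, G ω ↔ ∃ i < n, b ω (i + 1) ≤ exp (-(E / (2 * n))) * b ω i := ⟨_, fun _ => Iff.rfl⟩
  have hty : ∀ ω, ∃ i < n, G ω → b ω (i + 1) ≤ exp (-(E / (2 * n))) * b ω i := by
    intro ω
    by_cases h : G ω
    · obtain ⟨i, h1, h2⟩ := (hG ω).1 h
      exact ⟨i, h1, fun _ => h2⟩
    · exact ⟨0, hn, fun h' => absurd h' h⟩
  choose ty ht1 ht2 using hty
  have hl2 : log 2 ≤ 1 := by linarith [log_two_lt_d9]
  have hl0 : 0 ≤ log 2 := log_nonneg one_le_two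
  refine ⟨ℕ × (Fin 4 → ℤ), fun ω => (ty ω, cell (ρ (ty ω) / 2) (L.Y ω)),
    fun ω => E / 16 + ty ω * w - log 2, fun ω ω' h => ?_, fun ω => ?_, ?_⟩
  · beta_reduce
    rw [show ty ω = ty ω' from congrArg Prod.fst h]
  · have h1 : (ty ω : ℝ) ≤ n := by exact_mod_cast (ht1 ω).le
    have h2 := mul_le_mul_of_nonneg_right h1 hw0
    have h3 : 0 ≤ (ty ω : ℝ) * w := by positivity
    constructor <;> linarith
  have hx : ∀ t : ℝ, exp (-(t - log 2)) = 2 * exp (-t) := fun t => by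
    rw [neg_sub, sub_eq_add_neg, exp_add, exp_log two_pos]
  have hU : L.P (fun ω => ¬ G ω) ≤ 14641 * exp (-(E / 4)) := by
    refine le_trans (Leaf_untyped hL _ (half_pos (hρ0 0)) (exp_pos _).le (fun ω h => ?_) ?_)
      (Leaf_count (by linarith))
    · have h1 := Leaf_chain (b := b ω) (exp_pos (-(E / (2 * n)))).le (n := n) fun i hi =>
        le_of_not_ge fun h' => h ((hG ω).2 ⟨i, hi, h'⟩)
      have h2 : b ω n ≤ exp (-E) := by
        rw [hb, hρ, hnw, add_sub_cancel]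
        exact (Law.P_mono hL fun ω' h' => (ds_comm _ _).trans_le h').trans (hc (L.Y ω))
      have h3 : exp (-E) = exp (-(E / (2 * n))) ^ n * exp (-(E / 2)) := by
        rw [← exp_nat_mul, ← exp_add]
        congr 1
        field_simp
        ring
      rw [mul_div_cancel₀ _ two_ne_zero, ← hb]
      exact le_of_mul_le_mul_left ((h1.trans h2).trans_eq h3) (by positivity)
    · have h1 := Nat.le_ceil (4 * exp (E / 16))
      have h2 : exp (E / 16) * ρ 0 = 1 := by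
        rw [hρ, ← exp_add]
        simp
      nlinarith [hρ0 0]
  have hT := Leaf_typed hL (fun ω => (ty ω, cell (ρ (ty ω) / 2) (L.Y ω))) G
    (fun ω ω' => ds (L.Y ω) (L.Y ω') ≤ ρ (ty ω + 1)) (fun ω ω' => ds (L.Y ω) (L.Y ω') ≤ ρ (ty ω))
    (exp_pos (-(E / (2 * n)))).le (N := n * 625) (by positivity)
    (fun ω h => by rw [← hb, ← hb]; exact ht2 ω h) fun ω'' => by
      obtain ⟨T, h1, h2⟩ := Leaf_cover (n := n) hρ0 (L.Y ω'')
      exact ⟨T, h1, fun ω h => h2 _ (ht1 ω) _ h⟩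
  refine le_trans (Law.PP_mono hL _ (E' := fun ω ω' => ¬ G ω ∨
    (G ω ∧ ds (L.Y ω) (L.Y ω') ≤ ρ (ty ω + 1))) fun ω ω' h hb => ?_)
    ((Law.PP_or hL _ _ _).trans ?_)
  · by_contra hcon
    rw [not_or, not_not, not_and, not_le] at hcon
    have h1 := hcon.2 hcon.1
    obtain ⟨h2, h3⟩ := Prod.ext_iff.1 h
    dsimp only at h2 h3
    rw [← h2] at h3
    have h4 := cell_close (half_pos (hρ0 _)) h3
    refine hb ⟨?_, ?_⟩
    · change exp (-(E / 16 + ty ω * w - log 2 + σ / n)) ≤ 2 * ds (L.Y ω) (L.Y ω')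
      rw [sub_add_eq_add_sub, hx]
      refine mul_le_mul_of_nonneg_left (le_trans ?_ h1.le) two_pos.le
      rw [hρ]
      push_cast
      exact exp_le_exp.2 (by linarith)
    · change 2 * ds (L.Y ω) (L.Y ω') ≤ exp (-(E / 16 + ty ω * w - log 2))
      rw [hx, ← hρ]
      linarith
  · rw [Law.PP_fst hL]
    have h1 : exp (-(E / 4)) ≤ exp (-(E / (4 * n))) := exp_le_exp.2
      (neg_le_neg (div_le_div_of_nonneg_left (by linarith) four_pos (by linarith)))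
    have h2 : exp (-(E / (2 * n))) ≤ exp (-(E / (4 * n))) := exp_le_exp.2
      (neg_le_neg (div_le_div_of_nonneg_left (by linarith) (by linarith) (by linarith)))
    have h3 := exp_pos (-(E / (4 * n)))
    nlinarith [mul_le_mul_of_nonneg_left h2 hn0.le, mul_le_mul_of_nonneg_right hn' h3.le]

end Pool.Agent.P.MP_923088_al.AG
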