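import Pool.Agent.P.MP_923088_al.AG.RPoly
import Pool.Agent.P.MP_923088_al.AG.Haar

/-!
Row AG-LemR. The measure of the set where a word in one variable is nearly central.
Plan. For `t ≥ 1` the bound is trivial. Let `d h = dg (z h)` with
`z h = hc h + I * sqrt (1 - hc h ^ 2)`; `d` is continuous and `h` is conjugate to `d h` (use
`exists_conj`; `dg z` and `dg (conj z)` are conjugate by `mkU 0 1`). For a closed set `E`,
`m E = ∫∫ 1_E (g h g⁻¹) = ∫ dh ∫ dg 1_E (g (d h) g⁻¹) = ∫ dg m {h | g (d h) g⁻¹ ∈ E}` (invariance on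
both sides, Fubini with `lintegral`). `wd (g d g⁻¹) l = g * wd d l' * g⁻¹` where `l'` has blocks
`g⁻¹ x g`. Off a set of `g` of measure `2 N t` (`alpha`, `gamma`; the entries `1 1` and `0 1` have the
moduli of `0 0` and `1 0`) one has `t^N * wt l ≤ et l'` (induction on `l`), and then `rpoly` with
`r = t` and `band_hc` (intervals of length `2t`) give measure at most `4 N t` in `h`.
-/

namespace Pool.Agent.P.MP_923088_al.AG

open MeasureTheory Real
open scoped Classical Quaternion

theorem continuous_wd (l : List (Bool × SU2)) : Continuous fun h => wd h l := by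
  induction l with
  | nil => exact continuous_const
  | cons a l ih =>
    obtain ⟨e, x⟩ := a
    cases e
    · exact (continuous_id.inv.mul continuous_const).mul ih
    · exact (continuous_id.mul continuous_const).mul ih

/-- The eigenvalue in the upper half plane. -/
noncomputable def LemR_z (h : SU2) : ℂ := ⟨hc h, sz h⟩

theorem LemR_z_unit (h : SU2) : LemR_z h * (starRingEnd ℂ) (LemR_z h) = 1 := by
  rw [Complex.mul_conj, Complex.normSq_apply]
  have h1 : (LemR_z h).re * (LemR_z h).re + (LemR_z h).im * (LemR_z h).im = 1 := by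
    change hc h * hc h + sz h * sz h = 1
    linarith [sz_sq h]
  rw [h1, Complex.ofReal_one]

/-- The diagonal representative of the conjugacy class. -/
noncomputable def LemR_d (h : SU2) : SU2 := dg (LemR_z h) (LemR_z_unit h)

theorem LemR_continuous_z : Continuous LemR_z := by
  have h : LemR_z = fun x => (hc x : ℂ) + (sz x : ℂ) * Complex.I :=
    funext fun x => Complex.ext (by simp [LemR_z]) (by simp [LemR_z])
  rw [h]
  exact (Complex.continuous_ofReal.comp continuous_hc').add
    ((Complex.continuous_ofReal.comp continuous_sz).mul continuous_const)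

theorem LemR_continuous_d : Continuous LemR_d := by
  refine Continuous.subtype_mk (continuous_matrix fun i j => ?_) _
  fin_cases i <;> fin_cases j
  · exact LemR_continuous_z
  · exact continuous_const
  · exact continuous_const
  · exact Complex.continuous_conj.comp LemR_continuous_z

theorem LemR_ext {x y : SU2} (h0 : x.1 0 0 = y.1 0 0) (h1 : x.1 1 0 = y.1 1 0) : x = y :=
  qt_inj (by unfold qt; rw [h0, h1])

theorem LemR_dg_congr {z z' : ℂ} (h : z = z') (hz : z * (starRingEnd ℂ) z = 1)
    (hz' : z' * (starRingEnd ℂ) z' = 1) : dg z hz = dg z' hz' := by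
  subst h
  rfl

theorem LemR_conj (h : SU2) : ∃ k : SU2, h = k * LemR_d h * k⁻¹ := by
  obtain ⟨z, hz, k, hk⟩ := exists_conj h
  have h1 : hc h = z.re := by rw [hk, hc_conj, hc_dg]
  have h2 : sz h ^ 2 = z.im ^ 2 := by
    have h3 := congrArg Complex.re hz
    simp only [Complex.mul_re, Complex.conj_re, Complex.conj_im, Complex.one_re] at h3
    rw [sz_sq, h1]
    linarith
  rcases sq_eq_sq_iff_eq_or_eq_neg.mp h2 with h3 | h3
  · exact ⟨k, hk.trans (by rw [LemR_d, LemR_dg_congr (Complex.ext h1 h3 : LemR_z h = z) _ hz])⟩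
  · have hz' : (starRingEnd ℂ) z * (starRingEnd ℂ) ((starRingEnd ℂ) z) = 1 := by
      rw [Complex.conj_conj, mul_comm, hz]
    have h4 : LemR_d h = dg _ hz' :=
      LemR_dg_congr (Complex.ext h1 h3 : LemR_z h = (starRingEnd ℂ) z) _ hz'
    have hw : (0 : ℂ) * (starRingEnd ℂ) 0 + 1 * (starRingEnd ℂ) 1 = 1 := by simp
    have h5 : dg z hz * mkU 0 1 hw = mkU 0 1 hw * dg _ hz' := by
      refine LemR_ext ?_ ?_ <;>
        simp [mul_entry, dg, mkU_00, mkU_01, mkU_10, mkU_11]
    refine ⟨k * mkU 0 1 hw, ?_⟩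
    rw [h4, mul_assoc k, ← h5, mul_inv_rev, mul_assoc k, mul_assoc (dg z hz),
      mul_inv_cancel_left, ← mul_assoc]
    exact hk

/-- The list with conjugated blocks. -/
def LemR_cj (g : SU2) (l : List (Bool × SU2)) : List (Bool × SU2) :=
  l.map fun a => (a.1, g⁻¹ * a.2 * g)

theorem LemR_wd (g d : SU2) (l : List (Bool × SU2)) :
    wd (g * d * g⁻¹) l = g * wd d (LemR_cj g l) * g⁻¹ := by
  induction l with
  | nil => simp [LemR_cj, wd]
  | cons a l ih =>
    obtain ⟨e, x⟩ := a
    change (if e then g * d * g⁻¹ else (g * d * g⁻¹)⁻¹) * x * wd (g * d * g⁻¹) l =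
      g * ((if e then d else d⁻¹) * (g⁻¹ * x * g) * wd d (LemR_cj g l)) * g⁻¹
    rw [ih]
    cases e
    · simp only [Bool.false_eq_true, if_false]
      group
    · simp only [if_true]
      group

theorem LemR_wt_nonneg : ∀ l : List (Bool × SU2), 0 ≤ wt l
  | [] => zero_le_one
  | [_] => zero_le_one
  | (e, x) :: (e', x') :: l => by
    refine mul_nonneg ?_ (LemR_wt_nonneg ((e', x') :: l))
    split_ifs
    · exact zero_le_one
    · exact sz_nonneg x

variable [MeasurableSpace SU2] [BorelSpace SU2] (m : Measure SU2) [m.IsHaarMeasure]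
  [IsProbabilityMeasure m]

theorem LemR_entry (e e' : Bool) (x : SU2) {t : ℝ} (ht : 0 ≤ t) :
    m.real {g : SU2 | ‖(g⁻¹ * x * g).1 (ix e) (ix e')‖ < t * if e = e' then 1 else sz x} ≤
      2 * t := by
  have h0 : ix true = 0 := rfl
  have h1 : ix false = 1 := rfl
  cases e <;> cases e'
  · simpa only [h1, entry11, RCLike.norm_conj, if_true, mul_one] using alpha m x ht
  · simpa only [h0, h1, Bool.false_eq_true, if_false] using gamma m x ht
  · simpa only [h0, h1, entry01, norm_neg, RCLike.norm_conj, Bool.true_eq_false, if_false]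
      using gamma m x ht
  · simpa only [h0, if_true, mul_one] using alpha m x ht

theorem LemR_bad {t : ℝ} (ht : 0 ≤ t) (ht1 : t ≤ 1) : ∀ l : List (Bool × SU2),
    m.real {g : SU2 | et (LemR_cj g l) < t ^ l.length * wt l} ≤ 2 * l.length * t
  | [] => by simp [LemR_cj, et, wt]
  | [a] => by
    have : {g : SU2 | et (LemR_cj g [a]) < t ^ [a].length * wt [a]} = ∅ := by
      refine Set.eq_empty_of_forall_notMem fun g hg => ?_
      change (1 : ℝ) < t ^ 1 * 1 at hg
      linarith
    rw [this, measureReal_empty]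
    positivity
  | (e, x) :: (e', x') :: l => by
    have ih := LemR_bad ht ht1 ((e', x') :: l)
    have hsub : {g : SU2 | et (LemR_cj g ((e, x) :: (e', x') :: l)) <
        t ^ ((e, x) :: (e', x') :: l).length * wt ((e, x) :: (e', x') :: l)} ⊆
        {g : SU2 | ‖(g⁻¹ * x * g).1 (ix e) (ix e')‖ < t * if e = e' then 1 else sz x} ∪
        {g : SU2 | et (LemR_cj g ((e', x') :: l)) <
          t ^ ((e', x') :: l).length * wt ((e', x') :: l)} := by
      intro g hg
      by_contra hn
      rw [Set.mem_union, not_or, Set.mem_ofPred_eq, Set.mem_ofPred_eq, not_lt, not_lt] at hn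
      have h1 := mul_le_mul hn.1 hn.2
        (mul_nonneg (pow_nonneg ht _) (LemR_wt_nonneg _)) (norm_nonneg _)
      change ‖(g⁻¹ * x * g).1 (ix e) (ix e')‖ * et (LemR_cj g ((e', x') :: l)) <
        t ^ (((e', x') :: l).length + 1) * ((if e = e' then 1 else sz x) * wt ((e', x') :: l)) at hg
      refine absurd hg (not_lt.mpr (le_trans (le_of_eq ?_) h1))
      ring
    refine (measureReal_mono hsub).trans ((measureReal_union_le _ _).trans ?_)
    have h2 := LemR_entry m e e' x ht
    have h3 : ((((e, x) :: (e', x') :: l).length : ℕ) : ℝ) = ((e', x') :: l).length + 1 := by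
      rw [List.length_cons (a := (e, x)), Nat.cast_succ]
    rw [h3]
    linarith

theorem LemR_good {l : List (Bool × SU2)} (hl : l ≠ []) (hw : 0 < wt l) {ρ t : ℝ} (ht : 0 < t)
    (h : 3 * ρ ≤ t ^ (3 * l.length) * wt l) (g : SU2)
    (hg : t ^ l.length * wt l ≤ et (LemR_cj g l)) :
    m.real {h : SU2 | sz (wd (g * LemR_d h * g⁻¹) l) ≤ ρ} ≤ 4 * l.length * t := by
  have hlen : (LemR_cj g l).length = l.length := List.length_map _
  obtain ⟨T, hT, hT'⟩ := rpoly (l := LemR_cj g l) (by simpa [LemR_cj] using hl)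
    ((mul_pos (pow_pos ht _) hw).trans_le hg) (ρ := ρ) ht.le (by
      rw [hlen]
      refine h.trans (le_trans (le_of_eq ?_) (mul_le_mul_of_nonneg_right hg (pow_nonneg ht.le _)))
      ring)
  have hsub : {h : SU2 | sz (wd (g * LemR_d h * g⁻¹) l) ≤ ρ} ⊆
      ⋃ w ∈ T, {x : SU2 | w.re - t ≤ hc x ∧ hc x ≤ w.re - t + 2 * t} := by
    intro x hx
    rw [Set.mem_ofPred_eq, LemR_wd, sz_conj'] at hx
    obtain ⟨w, hwT, hw'⟩ := hT' _ (LemR_z_unit x) hx
    have h1 := abs_le.mp ((Complex.abs_re_le_norm _).trans hw')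
    have h2 : (LemR_z x - w).re = hc x - w.re := rfl
    rw [h2] at h1
    exact Set.mem_biUnion hwT ⟨by linarith [h1.1], by linarith [h1.2]⟩
  refine (measureReal_mono hsub (measure_ne_top _ _)).trans
    ((measureReal_biUnion_finset_le _ _).trans ?_)
  refine (Finset.sum_le_card_nsmul _ _ (2 * t) fun w _ => band_hc m _ (by linarith)).trans ?_
  rw [hlen] at hT
  have h3 : (T.card : ℝ) ≤ 2 * l.length := by exact_mod_cast hT
  rw [nsmul_eq_mul]
  nlinarith

/-- Integration over the conjugacy classes. -/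
theorem LemR_weyl {E : Set SU2} (hE : IsClosed E) :
    m E = ∫⁻ g, m {h : SU2 | g * LemR_d h * g⁻¹ ∈ E} ∂m := by
  have hA : MeasurableSet {p : SU2 × SU2 | p.1 * p.2 * p.1⁻¹ ∈ E} :=
    (hE.preimage ((continuous_fst.mul continuous_snd).mul continuous_fst.inv)).measurableSet
  have hB : MeasurableSet {p : SU2 × SU2 | p.1 * LemR_d p.2 * p.1⁻¹ ∈ E} :=
    (hE.preimage ((continuous_fst.mul (LemR_continuous_d.comp continuous_snd)).mul
      continuous_fst.inv)).measurableSet
  have h1 : m.prod m {p : SU2 × SU2 | p.1 * p.2 * p.1⁻¹ ∈ E} = m E := by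
    rw [Measure.prod_apply hA]
    have : ∀ g : SU2, m (Prod.mk g ⁻¹' {p : SU2 × SU2 | p.1 * p.2 * p.1⁻¹ ∈ E}) = m E := by
      intro g
      rw [← measure_preimage_mul_right m g⁻¹ E, ← measure_preimage_mul m g ((fun h => h * g⁻¹) ⁻¹' E)]
      rfl
    simp only [this, lintegral_const, measure_univ, mul_one]
  have h2 : m.prod m {p : SU2 × SU2 | p.1 * p.2 * p.1⁻¹ ∈ E} =
      m.prod m {p : SU2 × SU2 | p.1 * LemR_d p.2 * p.1⁻¹ ∈ E} := by
    rw [Measure.prod_apply_symm hA, Measure.prod_apply_symm hB]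
    refine lintegral_congr fun h => ?_
    obtain ⟨k, hk⟩ := LemR_conj h
    rw [← measure_preimage_mul_right m k
      ((fun x => (x, h)) ⁻¹' {p : SU2 × SU2 | p.1 * LemR_d p.2 * p.1⁻¹ ∈ E})]
    congr 1
    ext g
    have : g * k * LemR_d h * (g * k)⁻¹ = g * h * g⁻¹ := by
      conv_rhs => rw [hk]
      group
    change g * h * g⁻¹ ∈ E ↔ g * k * LemR_d h * (g * k)⁻¹ ∈ E
    rw [this]
  rw [← h1, h2, Measure.prod_apply hB]
  rfl

theorem lemR {l : List (Bool × SU2)} (hl : l ≠ []) (hw : 0 < wt l) {ρ t : ℝ} (ht : 0 < t)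
    (h : 3 * ρ ≤ t ^ (3 * l.length) * wt l) :
    m.real {h : SU2 | sz (wd h l) ≤ ρ} ≤ 6 * l.length * t := by
  have hN : (1 : ℝ) ≤ l.length := by exact_mod_cast List.length_pos_iff.mpr hl
  rcases le_total 1 t with ht1 | ht1
  · refine measureReal_le_one.trans ?_
    nlinarith
  have hE : IsClosed {h : SU2 | sz (wd h l) ≤ ρ} :=
    isClosed_le (continuous_sz.comp (continuous_wd l)) continuous_const
  have h2 : 0 ≤ 2 * l.length * t := by positivity
  have h4 : 0 ≤ 4 * l.length * t := by positivity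
  refine ENNReal.toReal_le_of_le_ofReal (by positivity) ?_
  rw [LemR_weyl m hE]
  calc ∫⁻ g, m {h : SU2 | g * LemR_d h * g⁻¹ ∈ {h : SU2 | sz (wd h l) ≤ ρ}} ∂m
      ≤ ∫⁻ g, ({g : SU2 | et (LemR_cj g l) < t ^ l.length * wt l}.indicator 1 g +
          ENNReal.ofReal (4 * l.length * t)) ∂m := by
        refine lintegral_mono fun g => ?_
        by_cases hg : g ∈ {g : SU2 | et (LemR_cj g l) < t ^ l.length * wt l}
        · rw [Set.indicator_of_mem hg]
          exact prob_le_one.trans le_self_add
        · rw [Set.indicator_of_notMem hg, zero_add]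
          exact (ENNReal.le_ofReal_iff_toReal_le (measure_ne_top _ _) h4).mpr
            (LemR_good m hl hw ht h g (not_lt.mp hg))
    _ ≤ ENNReal.ofReal (2 * l.length * t) + ENNReal.ofReal (4 * l.length * t) := by
        rw [lintegral_add_right _ measurable_const, lintegral_const, measure_univ, mul_one]
        refine add_le_add ((lintegral_indicator_one_le _).trans ?_) le_rfl
        exact (ENNReal.le_ofReal_iff_toReal_le (measure_ne_top _ _) h2).mpr
          (LemR_bad m ht.le ht1 l)
    _ = ENNReal.ofReal (6 * l.length * t) := by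
        rw [← ENNReal.ofReal_add h2 h4]
        congr 1
        ring

end Pool.Agent.P.MP_923088_al.AG
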