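import Pool.Agent.P.MP_923088_al.AG.Bark
import Pool.Agent.P.MP_923088_al.AG.Chain

/-!
Row AG-LevP. Cheap patterns for powers and for the hierarchical words.
`hasPat_lev_cj`: induct on `j`, for all `c`. For `j = 0` the law is `bark` of `c⁻¹ (H 0) c` up to
`HasPat.congr`. For the step show by induction on `i ≤ B` that `(blk L h i).cj c` has a pattern of cost
`i κ`: its values are those of the chain of `(blk L h i).cj c` and `L.cj (h^i * c)`, and
`Hel (h^i * c) ≤ (B + n) e`.
-/

namespace Pool.Agent.P.MP_923088_al.AG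

open MeasureTheory Real
open scoped Classical Quaternion

variable [MeasurableSpace SU2] [BorelSpace SU2] {m : Measure SU2} [m.IsHaarMeasure]
  [IsProbabilityMeasure m] {p : SU2 → ℝ}

theorem LevP_blk (hp : IsDens m p) {L : Law} {κ : ℝ} (h c : SU2) (B : ℕ)
    (hL : ∀ i < B, HasPat m p (L.cj (h ^ i * c)) κ) :
    HasPat m p ((blk L h B).cj c) (B * κ) := by
  induction B with
  | zero =>
    refine ((hasPat_one hp).congr (Y := ((blk L h 0).cj c).Y) fun ω => ?_).mono (by simp)
    simp [pwY]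
  | succ B ih =>
    refine ((((ih fun i hi => hL i (by omega)).chain hp (hL B (by omega))).congr
      (Y := ((blk L h (B + 1)).cj c).Y) fun ω => ?_).mono (le_of_eq ?_))
    · simp [pwY, mul_assoc]
    · push_cast
      ring

theorem hasPat_pow (hp : IsDens m p) {L : Law} {κ : ℝ} (h : HasPat m p L κ) (n : ℕ) :
    HasPat m p (blk L 1 n) (n * κ) := by
  refine (LevP_blk hp 1 1 n fun i _ => h.congr fun ω => ?_).congr (Y := (blk L 1 n).Y)
    fun ω => ?_ <;> simp

theorem hasPat_lev_cj (hp : IsDens m p) {H : ℕ → SU2} {e : ℝ} (he : ∀ i, Hel m p (H i) ≤ e)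
    (B j : ℕ) : ∀ (n : ℕ) (c : SU2), Hel m p c ≤ n * e →
      HasPat m p ((lev H B j).cj c) (2 * (B : ℝ) ^ j * (2 * (j * B + n) + 1) ^ 2 * e ^ 2) := by
  have h0 : 0 ≤ e := (Hel_nonneg _).trans (he 0)
  induction j with
  | zero =>
    intro n c hc
    refine ((hasPat_bark hp (fun _ : Unit => c⁻¹ * H 0 * c) (e := (2 * n + 1) * e) fun _ =>
      (Hel_conj_le hp c _).trans (by linarith [he 0])).congr (Y := ((lev H B 0).cj c).Y)
        fun ω => ?_).mono (le_of_eq ?_)
    · obtain ⟨_, _ | _, _ | _⟩ := ω <;> simp [levY, mul_assoc]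
    · push_cast
      ring
  | succ j ih =>
    intro n c hc
    refine (LevP_blk hp (H (j + 1)) c B fun i hi => ih (B + n) _ ?_).mono (le_of_eq ?_)
    · have h1 := Hel_mul_le hp (H (j + 1) ^ i) c
      have h2 := Hel_pow_le hp (H (j + 1)) i
      have h3 : (i : ℝ) * Hel m p (H (j + 1)) ≤ B * e :=
        mul_le_mul (by exact_mod_cast hi.le) (he _) (Hel_nonneg _) (Nat.cast_nonneg _)
      push_cast
      linarith
    · push_cast
      ring

theorem hasPat_lev (hp : IsDens m p) {k : ℕ} {w : Fin (k + 1) → SU2} {e : ℝ}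
    (he : ∀ i, Hel m p (w i) ≤ e) (B j : ℕ) :
    HasPat m p (lev (ext w) B j) (2 * (B : ℝ) ^ j * (2 * (j * B) + 1) ^ 2 * e ^ 2) := by
  have h1 : ∀ i, Hel m p (ext w i) ≤ e := fun i => by
    unfold ext
    split_ifs
    · exact he _
    · exact Hel_one.trans_le ((Hel_nonneg _).trans (he 0))
  refine ((hasPat_lev_cj hp h1 B j 0 1 (by simp [Hel_one])).congr (Y := (lev (ext w) B j).Y)
    fun ω => by simp).mono (le_of_eq (by simp))

end Pool.Agent.P.MP_923088_al.AG
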