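import Pool.Agent.P.MP_923088_al.AG.Defs2
import Pool.Agent.P.MP_923088_al.AG.Haar
import Pool.Agent.P.MP_923088_al.AG.LawL

/-!
Row AG-MixK. A spectral gap up to degree `n` gives equidistribution at a scale.
Plan. `k x = ((1 + hc x)/2)^n / Z` with `Z = ∫ ((1 + hc)/2)^n`; as an element of `CF` it is
`Z⁻¹ • ((2 + ent 0 0 + ent 1 1)/4)^n ∈ W n` (`W_mul_ent`, induction on `n`). With `r = n^(-1/2)`,
`ball_lower`, `ds_one_sq` and Bernoulli give `Z ≥ (3/4) r^3 / 13 ≥ n^(-3/2) / 18`. Outside `Bl 1 ζ`,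
`k ≤ exp (-n ζ^2/4) / Z ≤ 1/2`, so `∫_(Bl y ζ) k (x⁻¹ y) dx ≥ 1/2`. Hence
`P (Y ∈ E) ≤ 2 ∑ r ∫_(E') k (Y x⁻¹) dx` (`hc_comm`) `= 2 ∫_(E') (L^mm k) (x⁻¹) dx
 ≤ 2 m E' + 2 ‖L^mm (k - 1)‖₂` (total weight one, `L 1 = 1`, inversion invariance, Cauchy-Schwarz),
and `‖L^mm (k-1)‖₂ ≤ (1-γ)^mm ‖k‖₂ ≤ exp (-9Δ) Z^(-1/2)` (`Lc_blk_one`, `Lc_mem_W`; `Lc` keeps the
mean; `∫ k^2 ≤ sup k`). All constants are generous for `Δ ≥ 10`.
-/

namespace Pool.Agent.P.MP_923088_al.AG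

open MeasureTheory Real
open scoped Classical Quaternion

/-- The base of the kernel. -/
noncomputable def MixK_b (x : SU2) : ℝ := (1 + hc x) / 2

theorem MixK_b_eq (x : SU2) : MixK_b x = 1 - ds x 1 ^ 2 / 4 := by
  rw [ds_one_sq, MixK_b]
  ring

theorem MixK_b_nonneg (x : SU2) : 0 ≤ MixK_b x := by
  have := (abs_le.1 (abs_hc_le x)).1
  unfold MixK_b
  linarith

theorem MixK_b_le (x : SU2) : MixK_b x ≤ 1 := by
  have := (abs_le.1 (abs_hc_le x)).2
  unfold MixK_b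
  linarith

theorem MixK_b_cont : Continuous MixK_b := (continuous_const.add continuous_hc').div_const 2

/-- The kernel is a polynomial. -/
theorem MixK_poly (n : ℕ) : ∃ K ∈ W n, ∀ x, K x = ((MixK_b x ^ n : ℝ) : ℂ) := by
  induction n with
  | zero => exact ⟨1, V_mem_W le_rfl one_mem_V, fun x => by simp⟩
  | succ n ih =>
    obtain ⟨K, hK, e⟩ := ih
    refine ⟨(1 / 4 : ℂ) • ((2 : ℂ) • K + K * ent 0 0 + K * ent 1 1), Submodule.smul_mem _ _
      (add_mem (add_mem (Submodule.smul_mem _ _ (W_mono (Nat.le_succ n) hK)) (W_mul_ent hK 0 0))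
        (W_mul_ent hK 1 1)), fun x => ?_⟩
    have h1 : x.1 0 0 + x.1 1 1 = ((2 * hc x : ℝ) : ℂ) := by
      rw [entry11, Complex.add_conj, hc_eq_re]
    simp only [ContinuousMap.smul_apply, ContinuousMap.add_apply, ContinuousMap.mul_apply,
      ent_apply, smul_eq_mul, e, pow_succ, MixK_b]
    push_cast at h1 ⊢
    linear_combination (1 / 4 * ((1 + (hc x : ℂ)) / 2) ^ n) * h1

theorem MixK_num {Δ : ℝ} (hΔ : 10 ≤ Δ) : 22 * Δ ≤ exp Δ := by
  have h := Real.pow_div_factorial_le_exp Δ (by linarith) 4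
  have e : ((Nat.factorial 4 : ℕ) : ℝ) = 24 := by norm_num [Nat.factorial]
  rw [e] at h
  have h1 : (10 : ℝ) ^ 3 ≤ Δ ^ 3 := pow_le_pow_left₀ (by norm_num) hΔ 3
  nlinarith

variable [MeasurableSpace SU2] [BorelSpace SU2] {m : Measure SU2} [m.IsHaarMeasure]
  [IsProbabilityMeasure m]

omit [m.IsHaarMeasure] in
theorem MixK_int {E : Type} [NormedAddCommGroup E] {f : SU2 → E} (hf : Continuous f) :
    Integrable f m :=
  hf.integrable_of_hasCompactSupport (HasCompactSupport.of_compactSpace f)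

/-- Lower bound for the normalising constant. -/
theorem MixK_Z {n : ℕ} {ρ : ℝ} (h0 : 0 ≤ ρ) (h1 : ρ ≤ 1) (hn : n * ρ ^ 2 ≤ 2) :
    ρ ^ 3 / 26 ≤ ∫ x, MixK_b x ^ n ∂m := by
  have hI : Integrable (fun x => MixK_b x ^ n) m := MixK_int (MixK_b_cont.pow n)
  have h2 := setIntegral_le_integral (s := Bl 1 ρ) hI
    (Filter.Eventually.of_forall fun x => pow_nonneg (MixK_b_nonneg x) n)
  have h3 : ∫ _ in Bl 1 ρ, (1 / 2 : ℝ) ∂m ≤ ∫ x in Bl 1 ρ, MixK_b x ^ n ∂m := by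
    refine setIntegral_mono_on (integrable_const _).integrableOn hI.integrableOn
      (isClosed_Bl 1 ρ).measurableSet fun x hx => ?_
    have h4 : ds x 1 ^ 2 ≤ ρ ^ 2 :=
      pow_le_pow_left₀ (ds_nonneg _ _) (by rw [ds_comm]; exact hx) 2
    have h5 := one_add_mul_le_pow (a := -(ds x 1 ^ 2 / 4)) (by nlinarith) n
    have h6 : (n : ℝ) * ds x 1 ^ 2 ≤ n * ρ ^ 2 := by gcongr
    rw [MixK_b_eq, sub_eq_add_neg]
    linarith
  rw [setIntegral_const, smul_eq_mul] at h3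
  have h4 := ball_lower m 1 h0 h1
  linarith

/-- Iterated contraction. -/
theorem MixK_pow {L : Law} {γ : ℝ} {n : ℕ} (hγ : γ ≤ 1) (hg : Gap m L γ n) {F : CF}
    (hF : F ∈ W n) (h0 : ∫ x, F x ∂m = 0) (j : ℕ) :
    (L.Lc ^ j) F ∈ W n ∧ ∫ x, (L.Lc ^ j) F x ∂m = 0 ∧
      ‖io m ((L.Lc ^ j) F)‖ ≤ (1 - γ) ^ j * ‖io m F‖ := by
  induction j with
  | zero => simpa using ⟨hF, h0⟩
  | succ j ih =>
    obtain ⟨a1, a2, a3⟩ := ih
    rw [pow_succ', Module.End.mul_apply]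
    refine ⟨L.Lc_mem_W a1, ?_, (hg _ a1 a2).trans ?_⟩
    · simp only [Law.Lc_apply]
      rw [integral_finsetSum _ fun ω _ => MixK_int (by fun_prop)]
      refine Finset.sum_eq_zero fun ω _ => ?_
      rw [integral_const_mul, integral_mul_left_eq_self (fun x => (L.Lc ^ j) F x), a2, mul_zero]
    · rw [pow_succ', mul_assoc]
      exact mul_le_mul_of_nonneg_left a3 (by linarith)

omit [m.IsHaarMeasure] in
theorem MixK_l1 (G : CF) {t : ℝ} (ht : 0 < t) (h : ‖io m G‖ ≤ t) : ∫ x, ‖G x‖ ∂m ≤ t := by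
  have hI : Integrable (fun x => ‖G x‖ ^ 2) m := MixK_int (by fun_prop)
  have h1 : ∫ x, ‖G x‖ ^ 2 ∂m ≤ t ^ 2 := by
    rw [norm_io] at h
    exact (Real.sqrt_le_left ht.le).1 h
  have h2 : ∫ x, ‖G x‖ ∂m ≤ ∫ x, ((2 * t)⁻¹ * ‖G x‖ ^ 2 + t / 2) ∂m := by
    refine integral_mono (MixK_int (by fun_prop)) ((hI.const_mul _).add (integrable_const _))
      fun x => ?_
    have e : (2 * t)⁻¹ * ‖G x‖ ^ 2 + t / 2 - ‖G x‖ = (2 * t)⁻¹ * (‖G x‖ - t) ^ 2 := by
      field_simp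
      ring
    have : 0 ≤ (2 * t)⁻¹ * (‖G x‖ - t) ^ 2 := by positivity
    show ‖G x‖ ≤ (2 * t)⁻¹ * ‖G x‖ ^ 2 + t / 2
    linarith
  rw [integral_add (hI.const_mul _) (integrable_const _), integral_const_mul] at h2
  simp only [integral_const, probReal_univ, smul_eq_mul, one_mul] at h2
  have h3 : (2 * t)⁻¹ * ∫ x, ‖G x‖ ^ 2 ∂m ≤ (2 * t)⁻¹ * t ^ 2 := by gcongr
  have e : (2 * t)⁻¹ * t ^ 2 = t / 2 := by field_simp
  linarith

/-- A concentrated kernel whose average is close to one gives mixing. -/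
theorem MixK_mix {B : Law} (hB : B.Ok) {k : SU2 → ℝ} (hk : Continuous k) (hk0 : ∀ x, 0 ≤ k x)
    (hk1 : ∫ x, k x ∂m = 1) {ζ : ℝ} (ht : ∀ x, ζ < ds x 1 → k x ≤ 1 / 2) {G : SU2 → ℝ}
    (hG : Continuous G) (hG0 : ∀ x, 0 ≤ G x) (hle : ∀ x, ∑ ω, B.r ω * k (B.Y ω * x) ≤ 1 + G x)
    (hI : ∫ x, G x ∂m ≤ ζ ^ 2 / 2) : Mixes m B ζ := by
  intro E E' hE' hE
  have hc : ∀ y, Continuous fun x : SU2 => k (y * x⁻¹) := fun y => by fun_prop
  have h1 : ∀ y ∈ E, 1 / 2 ≤ ∫ x in E', k (y * x⁻¹) ∂m := by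
    intro y hy
    have a1 : ∫ x, k (y * x⁻¹) ∂m = 1 := by
      rw [integral_inv_eq_self (fun x => k (y * x)) m, integral_mul_left_eq_self k y, hk1]
    have a2 := integral_add_compl hE' (MixK_int (m := m) (hc y))
    have a3 : ∫ x in E'ᶜ, k (y * x⁻¹) ∂m ≤ ∫ _ in E'ᶜ, (1 / 2 : ℝ) ∂m := by
      refine setIntegral_mono_on (MixK_int (hc y)).integrableOn (integrable_const _).integrableOn
        hE'.compl fun x hx => ht _ ?_
      rw [← ds_eq_right]
      exact not_le.1 fun h => hx (hE y hy h)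
    rw [setIntegral_const, smul_eq_mul] at a3
    have a4 : m.real E'ᶜ ≤ 1 := measureReal_le_one
    linarith
  have h2 : B.P (fun ω => B.Y ω ∈ E) ≤ ∑ ω, 2 * ∫ x in E', B.r ω * k (B.Y ω * x⁻¹) ∂m := by
    refine Finset.sum_le_sum fun ω _ => ?_
    rw [integral_const_mul]
    have a1 := hB.nn ω
    split_ifs with h
    · nlinarith [h1 _ h]
    · have a2 : 0 ≤ ∫ x in E', k (B.Y ω * x⁻¹) ∂m := integral_nonneg fun x => hk0 _
      positivity
  have hGi : Integrable (fun x : SU2 => G x⁻¹) m := MixK_int (by fun_prop)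
  have h3 : ∫ x in E', ∑ ω, B.r ω * k (B.Y ω * x⁻¹) ∂m ≤ ∫ x in E', (1 + G x⁻¹) ∂m :=
    setIntegral_mono_on (MixK_int (by fun_prop)).integrableOn
      ((integrable_const _).add hGi).integrableOn hE' fun x _ => hle _
  rw [integral_finsetSum _ fun ω _ => (MixK_int (by fun_prop)).integrableOn,
    integral_add (integrable_const _).integrableOn hGi.integrableOn, setIntegral_const,
    smul_eq_mul, mul_one] at h3
  have h4 := setIntegral_le_integral (s := E') hGi (Filter.Eventually.of_forall fun x => hG0 _)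
  rw [integral_inv_eq_self G m] at h4
  rw [← Finset.mul_sum] at h2
  linarith

theorem mixes_of_gap {L : Law} (hL : L.Ok) (h1 : ∑ ω, L.r ω = 1) {γ Δ : ℝ} {n mm : ℕ}
    (hγ : γ ≤ 1) (hg : Gap m L γ n) (hΔ : 10 ≤ Δ) (hn : exp (3 * Δ) ≤ n)
    (hn' : (n : ℝ) ≤ 2 * exp (3 * Δ)) (hm : 9 * Δ ≤ γ * mm) :
    Mixes m (blk L 1 mm) (exp (-Δ)) := by
  have hnum := MixK_num hΔ
  set Z := ∫ x, MixK_b x ^ n ∂m with hZ
  have hZ1 : exp (-(9 * Δ / 2)) / 26 ≤ Z := by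
    have e1 : exp (-(3 * Δ / 2)) ^ 3 = exp (-(9 * Δ / 2)) := by
      rw [← Real.exp_nat_mul]
      congr 1
      push_cast
      ring
    have e2 : exp (3 * Δ) * exp (-(3 * Δ / 2)) ^ 2 = 1 := by
      rw [← Real.exp_nat_mul, ← Real.exp_add, Real.exp_eq_one_iff]
      push_cast
      ring
    rw [← e1]
    refine MixK_Z (exp_pos _).le (Real.exp_le_one_iff.2 (by linarith)) ?_
    nlinarith [sq_nonneg (exp (-(3 * Δ / 2)))]
  have hZ0 : 0 < Z := lt_of_lt_of_le (by positivity) hZ1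
  have hI : Integrable (fun x => MixK_b x ^ n) m := MixK_int (MixK_b_cont.pow n)
  set k : SU2 → ℝ := fun x => Z⁻¹ * MixK_b x ^ n with hk
  have hkc : Continuous k := continuous_const.mul (MixK_b_cont.pow n)
  have hk0 : ∀ x, 0 ≤ k x := fun x => mul_nonneg (inv_pos.2 hZ0).le (pow_nonneg (MixK_b_nonneg x) n)
  have hk1 : ∫ x, k x ∂m = 1 := by
    rw [integral_const_mul]
    exact inv_mul_cancel₀ hZ0.ne'
  have hk2 : ∀ x, k x ≤ Z⁻¹ := fun x =>
    mul_le_of_le_one_right (inv_pos.2 hZ0).le (pow_le_one₀ (MixK_b_nonneg x) (MixK_b_le x))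
  obtain ⟨K, hK, eK⟩ := MixK_poly n
  set F : CF := ((Z⁻¹ : ℝ) : ℂ) • K - 1 with hF
  have hFW : F ∈ W n :=
    sub_mem (Submodule.smul_mem _ _ hK) (V_mem_W (Nat.zero_le n) one_mem_V)
  have eF : ∀ x, F x = ((k x - 1 : ℝ) : ℂ) := fun x => by
    simp only [hF, hk, ContinuousMap.sub_apply, ContinuousMap.smul_apply, ContinuousMap.one_apply,
      eK, smul_eq_mul]
    push_cast
    ring
  have hF0 : ∫ x, F x ∂m = 0 := by
    simp only [eF]
    rw [integral_complex_ofReal, integral_sub (MixK_int hkc) (integrable_const _), hk1]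
    simp
  have hFn : ‖io m F‖ ≤ 6 * exp (9 * Δ / 4) := by
    rw [norm_io]
    refine (Real.sqrt_le_left (by positivity)).2 ?_
    have a1 : ∫ x, ‖F x‖ ^ 2 ∂m ≤ ∫ x, ((Z⁻¹ - 2) * k x + 1) ∂m := by
      refine integral_mono (MixK_int (by fun_prop)) (MixK_int (by fun_prop)) fun x => ?_
      show ‖F x‖ ^ 2 ≤ (Z⁻¹ - 2) * k x + 1
      rw [eF, Complex.norm_real, Real.norm_eq_abs, sq_abs]
      nlinarith [mul_le_mul_of_nonneg_right (hk2 x) (hk0 x)]
    rw [integral_add ((MixK_int hkc).const_mul _) (integrable_const _), integral_const_mul,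
      hk1] at a1
    simp only [integral_const, probReal_univ, smul_eq_mul, mul_one] at a1
    have a2 : Z⁻¹ ≤ 26 * exp (9 * Δ / 2) := by
      refine (inv_anti₀ (by positivity) hZ1).trans (le_of_eq ?_)
      rw [Real.exp_neg]
      field_simp
    have a3 : exp (9 * Δ / 4) ^ 2 = exp (9 * Δ / 2) := by
      rw [← Real.exp_nat_mul]
      congr 1
      push_cast
      ring
    rw [mul_pow, a3]
    linarith [exp_pos (9 * Δ / 2)]
  obtain ⟨-, -, hG⟩ := MixK_pow hγ hg hFW hF0 mm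
  rw [← Lc_blk_one] at hG
  have hγm : (1 - γ) ^ mm ≤ exp (-(9 * Δ)) := by
    refine (pow_le_pow_left₀ (by linarith) (Real.one_sub_le_exp_neg γ) mm).trans ?_
    rw [← Real.exp_nat_mul]
    exact Real.exp_le_exp.2 (by linarith)
  have hG2 : ‖io m ((blk L 1 mm).Lc F)‖ ≤ exp (-Δ) ^ 2 / 2 := by
    refine hG.trans ((mul_le_mul hγm hFn (norm_nonneg _) (exp_pos _).le).trans ?_)
    have a1 : exp (-(9 * Δ)) * exp (9 * Δ / 4) * exp Δ ≤ exp (-Δ) ^ 2 := by
      rw [← Real.exp_nat_mul, ← Real.exp_add, ← Real.exp_add]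
      refine Real.exp_le_exp.2 ?_
      push_cast
      linarith
    have a2 : 0 < exp (-(9 * Δ)) * exp (9 * Δ / 4) := by positivity
    nlinarith
  refine MixK_mix (ok_blk hL 1 mm) hkc hk0 hk1 (fun x hx => ?_)
    (G := fun x => ‖(blk L 1 mm).Lc F x‖) (by fun_prop) (fun x => norm_nonneg _) (fun x => ?_)
    (MixK_l1 _ (by positivity) hG2)
  · have a1 : exp (-Δ) ^ 2 ≤ ds x 1 ^ 2 := pow_le_pow_left₀ (exp_pos _).le hx.le 2
    have a2 : MixK_b x ≤ exp (-(exp (-Δ) ^ 2 / 4)) := by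
      refine le_trans ?_ (Real.one_sub_le_exp_neg _)
      rw [MixK_b_eq]
      linarith
    have a3 : exp (3 * Δ) * exp (-Δ) ^ 2 = exp Δ := by
      rw [← Real.exp_nat_mul, ← Real.exp_add]
      congr 1
      push_cast
      ring
    have a4 : MixK_b x ^ n ≤ exp (-(11 * Δ / 2)) := by
      refine (pow_le_pow_left₀ (MixK_b_nonneg x) a2 n).trans ?_
      rw [← Real.exp_nat_mul]
      refine Real.exp_le_exp.2 ?_
      nlinarith [sq_nonneg (exp (-Δ))]
    have a5 : exp (-(11 * Δ / 2)) * exp Δ = exp (-(9 * Δ / 2)) := by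
      rw [← Real.exp_add]
      congr 1
      ring
    have a6 : MixK_b x ^ n ≤ Z * (1 / 2) := by
      nlinarith [exp_pos (-(11 * Δ / 2))]
    exact (inv_mul_le_iff₀ hZ0).2 a6
  · have a1 : (blk L 1 mm).Lc F x =
        ((∑ ω, (blk L 1 mm).r ω * k ((blk L 1 mm).Y ω * x) - 1 : ℝ) : ℂ) := by
      rw [Law.Lc_apply, ← sum_blk h1 1 mm, ← Finset.sum_sub_distrib]
      simp only [eF]
      push_cast
      exact Finset.sum_congr rfl fun ω _ => by ring
    show _ ≤ 1 + ‖(blk L 1 mm).Lc F x‖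
    rw [a1, Complex.norm_real, Real.norm_eq_abs]
    linarith [le_abs_self (∑ ω, (blk L 1 mm).r ω * k ((blk L 1 mm).Y ω * x) - 1)]

end Pool.Agent.P.MP_923088_al.AG
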