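import Pool.Agent.P.MP_923088_al.AG.Conj
import Pool.Agent.P.MP_923088_al.AG.Geo2

/-!
Row AG-Node. The commutator step.
`node_PP`: two points of the node have the same mode iff the middle and the `x` coordinates agree and
the `y` coordinates have the same mode; `rc` of the node is `rc_y * r_a * pr_x`, so `pr` of the node is
`pr_y * r_a * pr_x` (also when a factor vanishes).
`node_dist`: `node_ds` with `y := Ya * Yy`. `node_good`: outside the three bad events use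
`node_upper`, `node_lower`; here `ds u 1 = ds (Yx ω) (Yx ω')` and `ds z 1 = ds (Yy ω) (Yy ω')` are at
most `1/2` because the clocks are non-negative.
-/

namespace Pool.Agent.P.MP_923088_al.AG

open MeasureTheory Real
open scoped Classical Quaternion

theorem Half.Good.mono {H : Half} (h : H.L.Ok) {s s' ε ε' : ℝ} (hg : H.Good s ε) (hs : s ≤ s')
    (hε : ε ≤ ε') : H.Good s' ε' := by
  refine le_trans (Law.PP_mono h H.χ (E' := fun ω ω' => ¬ H.In s ω ω')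
    fun ω ω' _ h1 h2 => h1 ⟨le_trans ?_ h2.1, h2.2⟩) (le_trans hg hε)
  exact exp_le_exp.2 (by linarith)

theorem Node_if {P R : Prop} {_ : Decidable P} {_ : Decidable R} {a b c d : ℝ} (h : P ↔ R)
    (h1 : a = c) (h2 : b = d) : (if P then a else b) = if R then c else d := if_congr h h1 h2

theorem Node_wsum {L : Law} (h : L.Ok) {X : Type} (χ : L.Ω → X) {f : L.Ω → L.Ω → ℝ} {ε : ℝ}
    (hf : ∀ ω ω', f ω ω' ≤ ε) (hε : 0 ≤ ε) : ∑ ω, ∑ ω', L.pr χ ω ω' * f ω ω' ≤ ε := by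
  calc ∑ ω, ∑ ω', L.pr χ ω ω' * f ω ω' ≤ ∑ ω, ∑ ω', L.pr χ ω ω' * ε :=
        Finset.sum_le_sum fun ω _ => Finset.sum_le_sum fun ω' _ =>
          mul_le_mul_of_nonneg_left (hf ω ω') (Law.pr_nonneg h χ ω ω')
    _ = (∑ ω, L.r ω) * ε := by
        rw [Finset.sum_mul]
        exact Finset.sum_congr rfl fun ω _ => by rw [← Finset.sum_mul, Law.sum_pr h]
    _ ≤ ε := mul_le_of_le_one_left hε h.le

section alg
variable (p : SU2 → ℝ) (y : Half) (A : Law) (qa : SU2 → A.Ω → ℝ) (x : Half)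

theorem Node_sum (u : y.L.Ω) (a : A.Ω) (v v' : x.L.Ω) (F : (node p y A qa x).L.Ω → ℝ)
    (hF : ∀ ω, (node p y A qa x).χ ω ≠ (node p y A qa x).χ ((u, a), v, v') → F ω = 0) :
    ∑ ω, F ω = ∑ u', F ((u', a), v, v') := by
  refine (Fintype.sum_of_injective (fun u' : y.L.Ω => (((u', a), v, v') : (node p y A qa x).L.Ω))
    (fun u₁ u₂ e => congrArg (fun ω : (node p y A qa x).L.Ω => ω.1.1) e) _ _ ?_
    fun _ => rfl).symm
  rintro ⟨⟨u', a'⟩, w, w'⟩ h
  refine hF _ fun e => h ⟨u', ?_⟩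
  simp only [Prod.mk.injEq] at e
  obtain ⟨-, rfl, rfl, rfl⟩ := e
  rfl

theorem Node_rc (u : y.L.Ω) (a : A.Ω) (v v' : x.L.Ω) :
    (node p y A qa x).L.rc (node p y A qa x).χ ((u, a), v, v') =
      y.L.rc y.χ u * (A.r a * x.L.pr x.χ v v') := by
  unfold Law.rc
  refine (Node_sum p y A qa x u a v v' _ fun ω h => if_neg h).trans ?_
  rw [Finset.sum_mul]
  refine Finset.sum_congr rfl fun u' _ => ?_
  rw [ite_mul, zero_mul]
  exact Node_if (by simp) (mul_assoc _ _ _) rfl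

theorem Node_pr (u u' : y.L.Ω) (a : A.Ω) (v v' : x.L.Ω) :
    (node p y A qa x).L.pr (node p y A qa x).χ ((u, a), v, v') ((u', a), v, v') =
      y.L.pr y.χ u u' * A.r a * x.L.pr x.χ v v' := by
  rw [Law.pr, Node_rc, mul_assoc (y.L.pr _ _ _), Law.pr.eq_1 y.L, ite_mul, zero_mul]
  refine Node_if (by simp) ?_ rfl
  change y.L.r u * A.r a * x.L.pr x.χ v v' * (y.L.r u' * A.r a * x.L.pr x.χ v v') / _ = _
  rw [mul_assoc (y.L.r u), mul_assoc (y.L.r u')]
  generalize A.r a * x.L.pr x.χ v v' = c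
  by_cases hc : c = 0
  · simp [hc]
  · rw [← mul_assoc, mul_div_mul_right _ _ hc]
    ring

theorem node_PP (hy : y.L.Ok) (hA : A.Ok) (hx : x.L.Ok)
    (E : (node p y A qa x).L.Ω → (node p y A qa x).L.Ω → Prop) :
    (node p y A qa x).L.PP (node p y A qa x).χ E =
      ∑ u : y.L.Ω, ∑ u' : y.L.Ω, ∑ a : A.Ω, ∑ v : x.L.Ω, ∑ v' : x.L.Ω,
        if E ((u, a), v, v') ((u', a), v, v') then
          y.L.pr y.χ u u' * A.r a * x.L.pr x.χ v v' else 0 := by
  unfold Law.PP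
  rw [Fintype.sum_prod_type, Fintype.sum_prod_type]
  refine Finset.sum_congr rfl fun u _ => ?_
  refine Eq.trans (Finset.sum_congr rfl fun a _ => ?_) Finset.sum_comm
  rw [Fintype.sum_prod_type]
  refine Eq.trans (Finset.sum_congr rfl fun v _ => ?_) Finset.sum_comm
  refine Eq.trans (Finset.sum_congr rfl fun v' _ => ?_) Finset.sum_comm
  refine (Node_sum p y A qa x u a v v' _ fun ω h => ?_).trans
    (Finset.sum_congr rfl fun u' _ => by rw [Node_pr])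
  rw [Law.pr, if_neg h.symm, ite_self]

theorem node_dist (u u' : y.L.Ω) (a : A.Ω) (v v' : x.L.Ω) :
    ds ((node p y A qa x).L.Y ((u, a), v, v')) ((node p y A qa x).L.Y ((u', a), v, v')) =
      cr ((x.L.Y v')⁻¹ * x.L.Y v) (A.Y a * (y.L.Y u' * (y.L.Y u)⁻¹) * (A.Y a)⁻¹) := by
  refine (node_ds (A.Y a * y.L.Y u) (A.Y a * y.L.Y u') ((x.L.Y v')⁻¹ * x.L.Y v)).trans ?_
  rw [mul_inv_rev]
  simp only [mul_assoc]

/-- The event that the middle element does not separate the axes. -/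
def Cross (ζ : ℝ) (ω ω' : (node p y A qa x).L.Ω) : Prop :=
  cr ((x.L.Y ω.2.2)⁻¹ * x.L.Y ω.2.1)
      (A.Y ω.1.2 * (y.L.Y ω'.1.1 * (y.L.Y ω.1.1)⁻¹) * (A.Y ω.1.2)⁻¹) <
    ζ * sz ((x.L.Y ω.2.2)⁻¹ * x.L.Y ω.2.1) * sz (y.L.Y ω'.1.1 * (y.L.Y ω.1.1)⁻¹)

theorem PP_cross (hy : y.L.Ok) (hA : A.Ok) (hx : x.L.Ok) {ζ ε : ℝ} (ha : A.AX ζ ε) :
    (node p y A qa x).L.PP (node p y A qa x).χ (Cross p y A qa x ζ) ≤ 2 * ε := by
  have hε : 0 ≤ 2 * ε := mul_nonneg zero_le_two (ha.nonneg hA)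
  rw [node_PP p y A qa x hy hA hx]
  refine le_trans (le_of_eq ?_) (Node_wsum hy y.χ (fun u u' => Node_wsum hx x.χ
    (fun v v' => ha.cross hA ((x.L.Y v')⁻¹ * x.L.Y v) (y.L.Y u' * (y.L.Y u)⁻¹)) hε) hε)
  refine Finset.sum_congr rfl fun u _ => Finset.sum_congr rfl fun u' _ => ?_
  rw [Finset.sum_comm, Finset.mul_sum]
  refine Finset.sum_congr rfl fun v _ => ?_
  rw [Finset.sum_comm, Finset.mul_sum]
  refine Finset.sum_congr rfl fun v' _ => ?_
  rw [Law.P, Finset.mul_sum, Finset.mul_sum]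
  refine Finset.sum_congr rfl fun a _ => ?_
  rw [mul_ite, mul_ite, mul_zero, mul_zero]
  exact if_congr Iff.rfl (by ring) rfl

theorem PP_left (hy : y.L.Ok) (hA : A.Ok) (hx : x.L.Ok) (E : y.L.Ω → y.L.Ω → Prop) :
    (node p y A qa x).L.PP (node p y A qa x).χ (fun ω ω' => E ω.1.1 ω'.1.1) ≤ y.L.PP y.χ E := by
  rw [node_PP p y A qa x hy hA hx]
  refine Finset.sum_le_sum fun u _ => Finset.sum_le_sum fun u' _ => ?_
  dsimp only
  split_ifs
  · have h1 := Law.LawL_wsum hA (f := fun _ => ∑ v, ∑ v', x.L.pr x.χ v v' * y.L.pr y.χ u u')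
      (fun _ => Node_wsum hx x.χ (fun _ _ => le_rfl) (Law.pr_nonneg hy y.χ u u'))
      (Law.pr_nonneg hy y.χ u u')
    refine le_trans (le_of_eq (Finset.sum_congr rfl fun a _ => ?_)) h1
    rw [Finset.mul_sum]
    refine Finset.sum_congr rfl fun v _ => ?_
    rw [Finset.mul_sum]
    exact Finset.sum_congr rfl fun v' _ => by ring
  · simp

theorem P_right (hy : y.L.Ok) (hA : A.Ok) (hx : x.L.Ok) (E : x.L.Ω → x.L.Ω → Prop) :
    (node p y A qa x).L.P (fun ω => E ω.2.1 ω.2.2) ≤ x.L.PP x.χ E :=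
  Law.P_conjRef_le (hy.chain hA) hx x.χ E

theorem node_in {sx sy σ : ℝ} {ω ω' : (node p y A qa x).L.Ω}
    (hm : (node p y A qa x).χ ω = (node p y A qa x).χ ω') (hy0 : 0 ≤ y.τ ω.1.1)
    (hx0 : 0 ≤ x.τ ω.2.1) (hy : y.In sy ω.1.1 ω'.1.1) (hx : x.In sx ω.2.1 ω.2.2)
    (hc : ¬ Cross p y A qa x (exp (-σ)) ω ω') :
    (node p y A qa x).In (sx + sy + σ + 2) ω ω' := by
  obtain ⟨⟨u, a⟩, v, v'⟩ := ω
  obtain ⟨⟨u', a'⟩, w, w'⟩ := ω'
  simp only [Prod.mk.injEq] at hm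
  obtain ⟨-, rfl, rfl, rfl⟩ := hm
  obtain ⟨y1, y2⟩ := hy
  obtain ⟨x1, x2⟩ := hx
  dsimp only at hy0 hx0 y1 y2 x1 x2
  rw [ds_comm, ds_eq_right] at y1 y2
  rw [ds_eq_left] at x1 x2
  have hy1 : exp (-y.τ u) ≤ 1 := exp_le_one_iff.2 (by linarith)
  have hx1 : exp (-x.τ v) ≤ 1 := exp_le_one_iff.2 (by linarith)
  have hU := node_upper (A.Y a) ((x.L.Y v')⁻¹ * x.L.Y v) (y.L.Y u' * (y.L.Y u)⁻¹)
  have hL := node_lower (a := A.Y a) (u := (x.L.Y v')⁻¹ * x.L.Y v)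
    (z := y.L.Y u' * (y.L.Y u)⁻¹) (σ := σ) (by linarith) (by linarith) (not_lt.1 hc)
  unfold Half.In
  rw [node_dist]
  dsimp only
  constructor
  · refine le_trans ?_ hL
    rw [show -(y.τ u + x.τ v + (sx + sy + σ + 2)) =
      -(σ + 2) + (-(x.τ v + sx) + -(y.τ u + sy)) by ring, exp_add, exp_add]
    exact mul_le_mul_of_nonneg_left (mul_le_mul x1 y1 (exp_pos _).le ((exp_pos _).le.trans x1))
      (exp_pos _).le
  · refine hU.trans ?_
    rw [show -(y.τ u + x.τ v) = -x.τ v + -y.τ u by ring, exp_add]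
    exact mul_le_mul x2 y2 ((exp_pos _).le.trans y1) (exp_pos _).le

end alg

variable [MeasurableSpace SU2] [BorelSpace SU2] {m : Measure SU2} [m.IsHaarMeasure]
  [IsProbabilityMeasure m] {p : SU2 → ℝ} {y x : Half} {A : Law} {qa : SU2 → A.Ω → ℝ}

theorem node_ok (hp : IsDens m p) (hy : y.Ok p) (hA : IsPat p A qa) (hx : x.Ok p) :
    (node p y A qa x).Ok p := by
  refine ⟨IsPat.conj (hy.pat.ok.chain hA.ok) hx.pat.ok x.χ
    ((hy.pat.chain hp hA).chain hp hx.pat), fun ω ω' h => ?_, fun ω ω' h => ?_,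
    fun ω => add_nonneg ((hy.nn _).trans (hy.le _)) (hx.nn _),
    fun ω => add_le_add le_rfl (hx.le _)⟩
  all_goals
    simp only [Prod.mk.injEq] at h
    dsimp only
    rw [hy.inv _ _ h.1, h.2.2.1]

theorem node_cost (hp : IsDens m p) (hy : y.Ok p) (hA : IsPat p A qa) (hx : x.Ok p) :
    cost m p (node p y A qa x).L (node p y A qa x).q ≤
      2 * (cost m p y.L y.q + cost m p A qa + cost m p x.L x.q) := by
  have h := cost_conj hp (hy.pat.ok.chain hA.ok) hx.pat.ok x.χ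
    ((hy.pat.chain hp hA).chain hp hx.pat)
  rwa [cost_chain hp (hy.pat.chain hp hA) hx.pat, cost_chain hp hy.pat hA] at h

theorem node_good (hy : y.Ok p) (hA : A.Ok) (hx : x.Ok p) {sx sy εx εy σ ε : ℝ}
    (gy : y.Good sy εy) (gx : x.Good sx εx) (ha : A.AX (exp (-σ)) ε) :
    (node p y A qa x).Good (sx + sy + σ + 2) (εx + εy + 2 * ε) := by
  have ho : (node p y A qa x).L.Ok := (hy.pat.ok.chain hA).conjRef hx.pat.ok x.χ
  refine le_trans (Law.PP_mono ho _ (E' := fun ω ω' => (¬ x.In sx ω.2.1 ω.2.2 ∨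
    ¬ y.In sy ω.1.1 ω'.1.1) ∨ Cross p y A qa x (exp (-σ)) ω ω') fun ω ω' hm h => ?_) ?_
  · by_contra h'
    rw [not_or, not_or, not_not, not_not] at h'
    exact h (node_in p y A qa x hm ((hy.nn _).trans (hy.le _)) ((hx.nn _).trans (hx.le _))
      h'.1.2 h'.1.1 h'.2)
  · refine (Law.PP_or ho _ _ _).trans (add_le_add ((Law.PP_or ho _ _ _).trans (add_le_add ?_ ?_))
      (PP_cross p y A qa x hy.pat.ok hA hx.pat.ok ha))
    · rw [Law.PP_fst ho]
      exact (P_right p y A qa x hy.pat.ok hA hx.pat.ok fun v v' => ¬ x.In sx v v').trans gx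
    · exact (PP_left p y A qa x hy.pat.ok hA hx.pat.ok fun u u' => ¬ y.In sy u u').trans gy

/-- Events of the way there: first `y`, then the middle, then `x`. -/
theorem node_qm (hp : IsDens m p) (hy : y.Ok p) (hA : IsPat p A qa) (hx : x.Ok p) (a : SU2)
    (E : y.L.Ω → x.L.Ω → Prop) :
    qm (node p y A qa x).L (node p y A qa x).q a (fun ω => E ω.1.1 ω.2.1) =
      ∑ ω : (y.L.chain A).Ω, chainQ p y.L A y.q qa a ω / p ((y.L.chain A).Y ω * a) *
        qm x.L x.q ((y.L.chain A).Y ω * a) (E ω.1) :=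
  (qm_conj x.χ ((hy.pat.chain hp hA).chain hp hx.pat).nn a fun ω => E ω.1.1 ω.2).trans
    (qm_chain p (y.L.chain A) x.L _ x.q a _)

end Pool.Agent.P.MP_923088_al.AG
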