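import Pool.Agent.P.MP_923088_al.AG.Geo1

/-!
Row AG-RPoly. A word in a diagonal element is nearly central only near finitely many points.
Plan. Let `N = l.length`. Define the matrix of polynomials `M l` by `M [] = 1` and
`M ((e,x)::l) = diag(X^2,1) * x * M l` for `e = true`, `diag(1,X^2) * x * M l` for `e = false`. For
`z * conj z = 1` it evaluates to `z^N * wd (dg z) l`. Entries have degree at most `2N`; the
coefficient of `X^(2N)` is a matrix whose only non-zero row is `ix e` (`e` the first sign), and this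
row has euclidean norm `et l` (induction; the last block contributes a row of a unitary matrix).
So one of the polynomials `M 0 1`, `M 1 0`, `M 0 0 - M 1 1` has degree `2N` and leading coefficient of
modulus at least `et l / sqrt 2`; its value has modulus at most `2 * sz` (`sz_sq_entries`). Take `T`
to be its set of roots; if all roots were at distance more than `r` the value would exceed
`et l * r^(2N) / sqrt 2 ≥ 3ρ / sqrt 2 ≥ 2ρ`.
-/

namespace Pool.Agent.P.MP_923088_al.AG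

open MeasureTheory Real
open scoped Classical Quaternion

open Polynomial in
theorem RPoly_prod {z : ℂ} {r : ℝ} (hr : 0 ≤ r) (s : Multiset ℂ) (h : ∀ w ∈ s, r ≤ ‖z - w‖) :
    r ^ s.card ≤ ‖(s.map fun a => (X - C a : ℂ[X])).prod.eval z‖ := by
  induction s using Multiset.induction_on with
  | empty => simp
  | cons a s ih =>
    rw [Multiset.map_cons, Multiset.prod_cons, eval_mul, norm_mul, Multiset.card_cons, pow_succ',
      eval_sub, eval_X, eval_C]
    exact mul_le_mul (h a (Multiset.mem_cons_self a s))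
      (ih fun w hw => h w (Multiset.mem_cons_of_mem hw)) (pow_nonneg hr _) (norm_nonneg _)

open Polynomial in
theorem RPoly_fin {P : ℂ[X]} {n : ℕ} {c r : ℝ} (hd : P.natDegree ≤ n) (hc : 0 < c)
    (hl : c ≤ ‖P.coeff n‖) (hr : 0 ≤ r) : ∃ T : Finset ℂ, T.card ≤ n ∧ ∀ z : ℂ,
      (∀ w ∈ T, r < ‖z - w‖) → c * r ^ n ≤ ‖P.eval z‖ ∧ P.eval z ≠ 0 := by
  have h0 : P.coeff n ≠ 0 := norm_pos_iff.1 (hc.trans_le hl)
  have hn : P.natDegree = n := natDegree_eq_of_le_of_coeff_ne_zero hd h0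
  have hP : P ≠ 0 := by
    rintro rfl
    exact h0 (coeff_zero n)
  have hcard : P.roots.card = P.natDegree := IsAlgClosed.card_roots_eq_natDegree
  refine ⟨P.roots.toFinset, (Multiset.toFinset_card_le _).trans (hcard.trans hn).le,
    fun z hz => ⟨?_, fun he => ?_⟩⟩
  · have h1 := RPoly_prod hr P.roots fun w hw => (hz w (Multiset.mem_toFinset.2 hw)).le
    have h2 := C_leadingCoeff_mul_prod_multiset_X_sub_C hcard
    rw [hcard, hn] at h1
    conv_rhs => rw [← h2]
    rw [eval_mul, eval_C, norm_mul, leadingCoeff, hn]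
    exact mul_le_mul hl h1 (pow_nonneg hr _) (norm_nonneg _)
  · have h1 := hz z (Multiset.mem_toFinset.2 ((mem_roots hP).2 he))
    rw [sub_self, norm_zero] at h1
    exact absurd hr (not_le.2 h1)

theorem RPoly_row (z : ℂ) (hz : z * (starRingEnd ℂ) z = 1) (e : Bool) (y : SU2) (i j : Fin 2) :
    z * ((if e then dg z hz else (dg z hz)⁻¹) * y).1 i j =
      (if i = ix e then z ^ 2 else 1) * y.1 i j := by
  have hi : ∀ a b, ((dg z hz)⁻¹).1 a b = (starRingEnd ℂ) ((dg z hz).1 b a) := fun _ _ => rfl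
  rw [mul_entry]
  cases e <;> fin_cases i <;> simp [ix, hi, dg_00, dg_01, dg_10, dg_11]
  · linear_combination y.1 0 j * hz
  · ring
  · ring
  · linear_combination y.1 1 j * hz

open Polynomial in
/-- One more block. -/
theorem RPoly_step {l : List (Bool × SU2)} {M : Fin 2 → Fin 2 → ℂ[X]}
    (hd : ∀ i j, (M i j).natDegree ≤ 2 * l.length)
    (hv : ∀ (z : ℂ) (hz : z * (starRingEnd ℂ) z = 1) (i j : Fin 2),
      (M i j).eval z = z ^ l.length * (wd (dg z hz) l).1 i j) (e : Bool) (x : SU2) :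
    ∃ M' : Fin 2 → Fin 2 → ℂ[X], (∀ i j, (M' i j).natDegree ≤ 2 * (l.length + 1)) ∧
      (∀ (z : ℂ) (hz : z * (starRingEnd ℂ) z = 1) (i j : Fin 2),
        (M' i j).eval z = z ^ (l.length + 1) * (wd (dg z hz) ((e, x) :: l)).1 i j) ∧
      (∀ i j, i ≠ ix e → (M' i j).coeff (2 * (l.length + 1)) = 0) ∧
      ∀ j, (M' (ix e) j).coeff (2 * (l.length + 1)) =
        x.1 (ix e) 0 * (M 0 j).coeff (2 * l.length) +
          x.1 (ix e) 1 * (M 1 j).coeff (2 * l.length) := by
  have hN : ∀ i j, (C (x.1 i 0) * M 0 j + C (x.1 i 1) * M 1 j).natDegree ≤ 2 * l.length :=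
    fun i j => natDegree_add_le_of_degree_le ((natDegree_C_mul_le _ _).trans (hd 0 j))
      ((natDegree_C_mul_le _ _).trans (hd 1 j))
  refine ⟨fun i j => (if i = ix e then X ^ 2 else 1) * (C (x.1 i 0) * M 0 j + C (x.1 i 1) * M 1 j),
    fun i j => ?_, fun z hz i j => ?_, fun i j hi => ?_, fun j => ?_⟩
  · refine natDegree_mul_le.trans ?_
    have h1 : (if i = ix e then X ^ 2 else 1 : ℂ[X]).natDegree ≤ 2 := by
      split_ifs <;> simp
    have h2 := hN i j
    omega
  · have h1 := RPoly_row z hz e (x * wd (dg z hz) l) i j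
    have h2 : wd (dg z hz) ((e, x) :: l) =
        (if e then dg z hz else (dg z hz)⁻¹) * (x * wd (dg z hz) l) := mul_assoc _ _ _
    have h3 : (if i = ix e then X ^ 2 else 1 : ℂ[X]).eval z = if i = ix e then z ^ 2 else 1 := by
      split_ifs <;> simp
    beta_reduce
    rw [h2, pow_succ z, mul_assoc, h1, mul_entry, eval_mul, h3, eval_add, eval_mul, eval_mul, eval_C,
      eval_C, hv z hz, hv z hz]
    ring
  · beta_reduce
    rw [if_neg hi, one_mul]
    exact coeff_eq_zero_of_natDegree_lt ((hN i j).trans_lt (by omega))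
  · beta_reduce
    rw [if_pos rfl, show 2 * (l.length + 1) = 2 * l.length + 2 by ring, coeff_X_pow_mul, coeff_add,
      coeff_C_mul, coeff_C_mul]

theorem RPoly_unit (x : SU2) (i : Fin 2) : ‖x.1 i 0‖ ^ 2 + ‖x.1 i 1‖ ^ 2 = 1 := by
  have h : ‖x.1 0 0‖ ^ 2 + ‖x.1 1 0‖ ^ 2 = 1 := by
    have h1 := col_norm x
    rw [Complex.mul_conj, Complex.mul_conj, Complex.normSq_eq_norm_sq,
      Complex.normSq_eq_norm_sq] at h1
    exact_mod_cast h1
  fin_cases i
  · have h2 : ‖x.1 0 1‖ = ‖x.1 1 0‖ := by rw [entry01, norm_neg, Complex.norm_conj]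
    simpa [h2] using h
  · have h2 : ‖x.1 1 1‖ = ‖x.1 0 0‖ := by rw [entry11, Complex.norm_conj]
    simpa [h2, add_comm] using h

open Polynomial in
/-- The matrix of polynomials and its top coefficient. -/
theorem RPoly_ex (l : List (Bool × SU2)) (e : Bool) (x : SU2) :
    ∃ M : Fin 2 → Fin 2 → ℂ[X], (∀ i j, (M i j).natDegree ≤ 2 * (l.length + 1)) ∧
      (∀ (z : ℂ) (hz : z * (starRingEnd ℂ) z = 1) (i j : Fin 2),
        (M i j).eval z = z ^ (l.length + 1) * (wd (dg z hz) ((e, x) :: l)).1 i j) ∧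
      (∀ i j, i ≠ ix e → (M i j).coeff (2 * (l.length + 1)) = 0) ∧
      ‖(M (ix e) 0).coeff (2 * (l.length + 1))‖ ^ 2 +
        ‖(M (ix e) 1).coeff (2 * (l.length + 1))‖ ^ 2 = et ((e, x) :: l) ^ 2 := by
  induction l generalizing e x with
  | nil =>
    obtain ⟨M, h1, h2, h3, h4⟩ := RPoly_step (l := []) (M := fun i j => if i = j then 1 else 0)
      (fun i j => by split_ifs <;> simp)
      (fun z hz i j => by
        have h : (wd (dg z hz) []).1 i j = if i = j then 1 else 0 := Matrix.one_apply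
        rw [h]
        split_ifs <;> simp) e x
    refine ⟨M, h1, h2, h3, ?_⟩
    rw [h4, h4]
    simpa [et] using RPoly_unit x (ix e)
  | cons a l ih =>
    obtain ⟨e', x'⟩ := a
    obtain ⟨M₀, g1, g2, g3, g4⟩ := ih e' x'
    obtain ⟨M, h1, h2, h3, h4⟩ := RPoly_step (l := (e', x') :: l) g1 g2 e x
    refine ⟨M, h1, h2, h3, ?_⟩
    have h5 : ∀ j, (M (ix e) j).coeff (2 * (((e', x') :: l).length + 1)) =
        x.1 (ix e) (ix e') * (M₀ (ix e') j).coeff (2 * (l.length + 1)) := by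
      intro j
      rw [h4, List.length_cons]
      cases e'
      · rw [g3 0 j (by decide), mul_zero, zero_add]
        rfl
      · rw [g3 1 j (by decide), mul_zero, add_zero]
        rfl
    have h6 : et ((e, x) :: (e', x') :: l) = ‖x.1 (ix e) (ix e')‖ * et ((e', x') :: l) := rfl
    rw [h5, h5, h6, norm_mul, norm_mul, mul_pow, mul_pow, mul_pow, ← g4]
    ring

theorem RPoly_sz (y : SU2) :
    ‖y.1 0 1‖ ≤ 2 * sz y ∧ ‖y.1 1 0‖ ≤ 2 * sz y ∧ ‖y.1 0 0 - y.1 1 1‖ ≤ 2 * sz y := by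
  have h := sz_sq_entries y
  have h0 := sz_nonneg y
  have h1 : ‖y.1 1 0‖ ≤ sz y := by
    refine (pow_le_pow_iff_left₀ (norm_nonneg _) h0 two_ne_zero).1 ?_
    nlinarith [sq_nonneg (y.1 0 0).im]
  have h2 : |(y.1 0 0).im| ≤ sz y := by
    refine (pow_le_pow_iff_left₀ (abs_nonneg _) h0 two_ne_zero).1 ?_
    rw [sq_abs]
    nlinarith [sq_nonneg ‖y.1 1 0‖]
  refine ⟨?_, by linarith, ?_⟩
  · rw [entry01, norm_neg, Complex.norm_conj]
    linarith
  · rw [entry11, Complex.sub_conj, norm_mul, Complex.norm_I, mul_one, Complex.norm_real,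
      Real.norm_eq_abs, abs_mul, abs_two]
    linarith

open Polynomial in
/-- A scalar polynomial with a large top coefficient whose values are bounded by the size. -/
theorem RPoly_scalar (l : List (Bool × SU2)) (e : Bool) (x : SU2) (he : 0 < et ((e, x) :: l)) :
    ∃ P : ℂ[X], P.natDegree ≤ 2 * (l.length + 1) ∧
      7 / 10 * et ((e, x) :: l) ≤ ‖P.coeff (2 * (l.length + 1))‖ ∧
      ∀ (z : ℂ) (hz : z * (starRingEnd ℂ) z = 1),
        ‖P.eval z‖ ≤ 2 * sz (wd (dg z hz) ((e, x) :: l)) := by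
  obtain ⟨M, h1, h2, h3, h4⟩ := RPoly_ex l e x
  have hz1 : ∀ z : ℂ, z * (starRingEnd ℂ) z = 1 → ‖z ^ (l.length + 1)‖ = 1 := by
    intro z hz
    rw [Complex.mul_conj, Complex.normSq_eq_norm_sq] at hz
    have h5 : ‖z‖ ^ 2 = 1 := by exact_mod_cast hz
    rw [norm_pow, (pow_eq_one_iff_of_nonneg (norm_nonneg z) two_ne_zero).1 h5, one_pow]
  have hd : (M 0 0 - M 1 1).natDegree ≤ 2 * (l.length + 1) :=
    (natDegree_sub_le _ _).trans (max_le (h1 0 0) (h1 1 1))
  have v01 : ∀ (z : ℂ) (hz : z * (starRingEnd ℂ) z = 1),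
      ‖(M 0 1).eval z‖ ≤ 2 * sz (wd (dg z hz) ((e, x) :: l)) := fun z hz => by
    rw [h2 z hz, norm_mul, hz1 z hz, one_mul]
    exact (RPoly_sz _).1
  have v10 : ∀ (z : ℂ) (hz : z * (starRingEnd ℂ) z = 1),
      ‖(M 1 0).eval z‖ ≤ 2 * sz (wd (dg z hz) ((e, x) :: l)) := fun z hz => by
    rw [h2 z hz, norm_mul, hz1 z hz, one_mul]
    exact (RPoly_sz _).2.1
  have vd : ∀ (z : ℂ) (hz : z * (starRingEnd ℂ) z = 1),
      ‖(M 0 0 - M 1 1).eval z‖ ≤ 2 * sz (wd (dg z hz) ((e, x) :: l)) := fun z hz => by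
    rw [eval_sub, h2 z hz, h2 z hz, ← mul_sub, norm_mul, hz1 z hz, one_mul]
    exact (RPoly_sz _).2.2
  have hor : 7 / 10 * et ((e, x) :: l) ≤ ‖(M (ix e) 0).coeff (2 * (l.length + 1))‖ ∨
      7 / 10 * et ((e, x) :: l) ≤ ‖(M (ix e) 1).coeff (2 * (l.length + 1))‖ := by
    by_contra hn
    rw [not_or, not_le, not_le] at hn
    have a1 := pow_le_pow_left₀ (norm_nonneg _) hn.1.le 2
    have a2 := pow_le_pow_left₀ (norm_nonneg _) hn.2.le 2
    nlinarith [pow_pos he 2]
  cases e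
  · rcases hor with h5 | h5
    · exact ⟨M 1 0, h1 1 0, h5, v10⟩
    · refine ⟨M 0 0 - M 1 1, hd, ?_, vd⟩
      rw [coeff_sub, h3 0 0 (by decide), zero_sub, norm_neg]
      exact h5
  · rcases hor with h5 | h5
    · refine ⟨M 0 0 - M 1 1, hd, ?_, vd⟩
      rw [coeff_sub, h3 1 1 (by decide), sub_zero]
      exact h5
    · exact ⟨M 0 1, h1 0 1, h5, v01⟩

theorem rpoly {l : List (Bool × SU2)} (hl : l ≠ []) (he : 0 < et l) {ρ r : ℝ} (hr : 0 ≤ r)
    (h : 3 * ρ ≤ et l * r ^ (2 * l.length)) :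
    ∃ T : Finset ℂ, T.card ≤ 2 * l.length ∧ ∀ (z : ℂ) (hz : z * (starRingEnd ℂ) z = 1),
      sz (wd (dg z hz) l) ≤ ρ → ∃ w ∈ T, ‖z - w‖ ≤ r := by
  obtain ⟨⟨e, x⟩, l, rfl⟩ := List.exists_cons_of_ne_nil hl
  obtain ⟨P, h1, h2, h3⟩ := RPoly_scalar l e x he
  obtain ⟨T, hT, hT'⟩ := RPoly_fin h1 (by positivity) h2 hr
  refine ⟨T, hT, fun z hz hs => ?_⟩
  by_contra hn
  obtain ⟨h4, h5⟩ := hT' z fun w hw => not_le.1 fun hle => hn ⟨w, hw, hle⟩
  have h6 := h3 z hz
  have h7 : 0 < ‖P.eval z‖ := norm_pos_iff.2 h5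
  rw [List.length_cons] at h
  linarith

end Pool.Agent.P.MP_923088_al.AG
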