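import Pool.Agent.P.MP_923088_al.AG.LemR
import Pool.Agent.P.MP_923088_al.AG.ColD

/-!
Row AG-Sect. Markov bounds for the exceptional weights and sections of product measures.
`meas_Rs`, `meas_Ra`: the integral over `h` of each summand is (weight) times the measure bounded by
`lemR` (with `exists_word_col`; `Rr_zero` for `i = 0`; words of length `2i ≤ 2B`, resp. 8), the
weights sum to at most one; then Markov (`mul_meas_ge_le_integral_of_nonneg`).
`pi_section`: `MeasureTheory.measurePreserving_piFinSuccAbove` and `Measure.prod_apply_symm`, or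
`lmarginal`. The last two statements use `continuous_levY`, `continuous_pwY`, `continuous_ext`;
note that `(lev H B j).Ω` and the weights do not depend on `H`.
-/

namespace Pool.Agent.P.MP_923088_al.AG

open MeasureTheory Real
open scoped Classical Quaternion

section aux

variable {T : Type} [MeasurableSpace T] (μ : Measure T)

/-- An integrable function with a bound for its integral. -/
def Sect_B (f : T → ℝ) (c : ℝ) : Prop := Integrable f μ ∧ ∫ x, f x ∂μ ≤ c

variable {μ}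

theorem Sect_B_mono {f : T → ℝ} {c c' : ℝ} (h : Sect_B μ f c) (hc : c ≤ c') : Sect_B μ f c' :=
  ⟨h.1, h.2.trans hc⟩

theorem Sect_B_sum {ι : Type} (S : Finset ι) {f : ι → T → ℝ} {c : ι → ℝ}
    (h : ∀ i ∈ S, Sect_B μ (f i) (c i)) : Sect_B μ (fun x => ∑ i ∈ S, f i x) (∑ i ∈ S, c i) := by
  refine ⟨integrable_finsetSum S fun i hi => (h i hi).1, ?_⟩
  rw [integral_finsetSum S fun i hi => (h i hi).1]
  exact Finset.sum_le_sum fun i hi => (h i hi).2

theorem Sect_B_ite [IsFiniteMeasure μ] {p : T → Prop} {_ : DecidablePred p}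
    (hp : MeasurableSet {x | p x}) {r c : ℝ} (hr : 0 ≤ r) (hc : μ.real {x | p x} ≤ c) :
    Sect_B μ (fun x => if p x then r else 0) (r * c) := by
  have e : (fun x => if p x then r else 0) = {x | p x}.indicator fun _ => r := by
    funext x
    by_cases hx : p x
    · rw [if_pos hx, Set.indicator_of_mem (show x ∈ {x | p x} from hx)]
    · rw [if_neg hx, Set.indicator_of_notMem (show x ∉ {x | p x} from hx)]
  rw [e]
  refine ⟨(integrable_const r).indicator hp, ?_⟩
  rw [integral_indicator_const r hp, smul_eq_mul, mul_comm]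
  exact mul_le_mul_of_nonneg_left hc hr

theorem Sect_markov {f : T → ℝ} {c s : ℝ} (h : Sect_B μ f c) (h0 : ∀ x, 0 ≤ f x) (hs : 0 < s) :
    μ.real {x | s ≤ f x} ≤ c / s := by
  rw [le_div_iff₀ hs, mul_comm]
  exact (mul_meas_ge_le_integral_of_nonneg (Filter.Eventually.of_forall h0) h.1 s).trans h.2

end aux

theorem Sect_wsum {ι : Type} [Fintype ι] {r : ι → ℝ} (h1 : ∑ i, r i ≤ 1) {c : ℝ} (hc : 0 ≤ c) :
    ∑ i, r i * c ≤ c := by
  rw [← Finset.sum_mul]
  exact mul_le_of_le_one_left hc h1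

theorem Sect_wsum4 {ι κ : Type} [Fintype ι] [Fintype κ] {a : ι → ℝ} {b : κ → ℝ}
    (ha : ∀ i, 0 ≤ a i) (ha1 : ∑ i, a i ≤ 1) (hb : ∀ i, 0 ≤ b i) (hb1 : ∑ i, b i ≤ 1) {c : ℝ}
    (hc : 0 ≤ c) : ∑ u, ∑ u', ∑ x, ∑ x', a u * a u' * (b x * b x') * c ≤ c := by
  have e : ∑ u, ∑ u', ∑ x, ∑ x', a u * a u' * (b x * b x') * c =
      (∑ u, a u) * ((∑ u, a u) * ((∑ x, b x) * ((∑ x, b x) * c))) := by
    simp only [mul_assoc, ← Finset.mul_sum, ← Finset.sum_mul]
  have hA : 0 ≤ ∑ u, a u := Finset.sum_nonneg fun i _ => ha i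
  have hB : 0 ≤ ∑ x, b x := Finset.sum_nonneg fun i _ => hb i
  rw [e]
  refine (mul_le_of_le_one_left (by positivity) ha1).trans ?_
  refine (mul_le_of_le_one_left (by positivity) ha1).trans ?_
  refine (mul_le_of_le_one_left (by positivity) hb1).trans ?_
  exact mul_le_of_le_one_left hc hb1

theorem Sect_wsum3 {ι : Type} [Fintype ι] {a : ι → ℝ} (ha : ∀ i, 0 ≤ a i) (ha1 : ∑ i, a i ≤ 1)
    {c : ℝ} (hc : 0 ≤ c) : ∑ u, ∑ v, ∑ w, a u * a v * a w * c ≤ c := by
  have e : ∑ u, ∑ v, ∑ w, a u * a v * a w * c =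
      (∑ u, a u) * ((∑ u, a u) * ((∑ u, a u) * c)) := by
    simp only [mul_assoc, ← Finset.mul_sum, ← Finset.sum_mul]
  have hA : 0 ≤ ∑ u, a u := Finset.sum_nonneg fun i _ => ha i
  rw [e]
  refine (mul_le_of_le_one_left (by positivity) ha1).trans ?_
  refine (mul_le_of_le_one_left (by positivity) ha1).trans ?_
  exact mul_le_of_le_one_left hc ha1

section meas

variable {T Ω : Type} [TopologicalSpace T] [MeasurableSpace T] [OpensMeasurableSpace T]
  [Fintype Ω] (r : Ω → ℝ) {Y : T → Ω → SU2} {h : T → SU2}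

omit [Fintype Ω] in
theorem Sect_set_Rr (hY : ∀ ω, Continuous fun t => Y t ω) (hh : Continuous h) (i : ℕ) (ρ ζ : ℝ)
    (u u' : Pw Ω i) (x x' : Ω) :
    MeasurableSet {t | ζ < sz ((Y t x')⁻¹ * Y t x) ∧ sz ((h t ^ i * pwY (Y t) (h t) i u')⁻¹ *
      ((Y t x')⁻¹ * Y t x) * (h t ^ i * pwY (Y t) (h t) i u)) ≤ ρ} := by
  have h1 : Continuous fun t => (Y t x')⁻¹ * Y t x := (hY x').inv.mul (hY x)
  have h2 : ∀ v : Pw Ω i, Continuous fun t => h t ^ i * pwY (Y t) (h t) i v := fun v =>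
    (hh.pow i).mul (continuous_pwY hY hh i v)
  exact (isOpen_lt continuous_const (continuous_sz.comp h1)).measurableSet.inter
    (isClosed_le (continuous_sz.comp (((h2 u').inv.mul h1).mul (h2 u)))
      continuous_const).measurableSet

theorem Sect_meas_Rr (hY : ∀ ω, Continuous fun t => Y t ω) (hh : Continuous h) (i : ℕ)
    (ρ ζ : ℝ) : Measurable fun t => Rr (Law.mk Ω r (Y t)) (h t) i ρ ζ := by
  have e : (fun t => Rr (Law.mk Ω r (Y t)) (h t) i ρ ζ) = fun t =>
      ∑ u : Pw Ω i, ∑ u' : Pw Ω i, ∑ x : Ω, ∑ x' : Ω,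
        if ζ < sz ((Y t x')⁻¹ * Y t x) ∧ sz ((h t ^ i * pwY (Y t) (h t) i u')⁻¹ *
          ((Y t x')⁻¹ * Y t x) * (h t ^ i * pwY (Y t) (h t) i u)) ≤ ρ
        then pwR r i u * pwR r i u' * (r x * r x') else 0 := rfl
  rw [e]
  refine Finset.measurable_sum _ fun u _ => ?_
  refine Finset.measurable_sum _ fun u' _ => ?_
  refine Finset.measurable_sum _ fun x _ => ?_
  refine Finset.measurable_sum _ fun x' _ => ?_
  exact Measurable.ite (Sect_set_Rr hY hh i ρ ζ u u' x x') measurable_const measurable_const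

theorem Sect_set_Ra (hY : ∀ ω, Continuous fun t => Y t ω) (hh : Continuous h) (ζ ρ : ℝ)
    (a b c : Ω × Ω) :
    MeasurableSet {t | ρ ^ 7 ≤ wt (axl (Law.mk Ω r (Y t)) a b c) ∧
      sz (wd (h t) (axl (Law.mk Ω r (Y t)) a b c)) ≤ 4 * ζ} := by
  have hs := continuous_sz
  have h1 : Continuous fun t => wt (axl (Law.mk Ω r (Y t)) a b c) := by
    simp only [axl, wt, Bool.false_eq_true, Bool.true_eq_false, if_false]
    fun_prop
  have h2 : Continuous fun t => wd (h t) (axl (Law.mk Ω r (Y t)) a b c) := by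
    simp only [axl, wd, Bool.false_eq_true, if_false, if_true]
    fun_prop
  exact (isClosed_le continuous_const h1).measurableSet.inter
    (isClosed_le (continuous_sz.comp h2) continuous_const).measurableSet

theorem Sect_meas_Ra (hY : ∀ ω, Continuous fun t => Y t ω) (hh : Continuous h) (ζ ρ : ℝ) :
    Measurable fun t => Ra (Law.mk Ω r (Y t)) (h t) ζ ρ := by
  have e : (fun t => Ra (Law.mk Ω r (Y t)) (h t) ζ ρ) = fun t =>
      ∑ a : Ω × Ω, ∑ b : Ω × Ω, ∑ c : Ω × Ω,
        if ρ ^ 7 ≤ wt (axl (Law.mk Ω r (Y t)) a b c) ∧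
          sz (wd (h t) (axl (Law.mk Ω r (Y t)) a b c)) ≤ 4 * ζ
        then r a.1 * r a.2 * (r b.1 * r b.2) * (r c.1 * r c.2) else 0 := rfl
  rw [e]
  refine Finset.measurable_sum _ fun a _ => ?_
  refine Finset.measurable_sum _ fun b _ => ?_
  refine Finset.measurable_sum _ fun c _ => ?_
  exact Measurable.ite (Sect_set_Ra r hY hh ζ ρ a b c) measurable_const measurable_const

end meas

theorem Sect_Ra_nonneg {L : Law} (hL : L.Ok) (h : SU2) (ζ ρ : ℝ) : 0 ≤ Ra L h ζ ρ :=
  Finset.sum_nonneg fun a _ => Finset.sum_nonneg fun b _ => Finset.sum_nonneg fun c _ =>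
    LawL_ite_nonneg (mul_nonneg (mul_nonneg (mul_nonneg (hL.nn a.1) (hL.nn a.2))
      (mul_nonneg (hL.nn b.1) (hL.nn b.2))) (mul_nonneg (hL.nn c.1) (hL.nn c.2)))

theorem Sect_lev_update {k j : ℕ} (hj : j + 1 < k + 1) (B : ℕ) (w : Fin (k + 1) → SU2) (g : SU2) :
    lev (ext (Function.update w ⟨j + 1, hj⟩ g)) B j = lev (ext w) B j :=
  lev_congr B j fun i hi => by
    rw [ext_update, if_neg]
    show ¬ i = j + 1
    omega

theorem Sect_ext_update {k j : ℕ} (hj : j + 1 < k + 1) (w : Fin (k + 1) → SU2) (g : SU2) :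
    ext (Function.update w ⟨j + 1, hj⟩ g) (j + 1) = g := by
  rw [ext_update, if_pos rfl]

variable [MeasurableSpace SU2] [BorelSpace SU2] (m : Measure SU2) [m.IsHaarMeasure]
  [IsProbabilityMeasure m]

theorem Sect_B_Rr {L : Law} (hL : L.Ok) {i : ℕ} (hi : 1 ≤ i) {ρ ζ t : ℝ} (hζ : 0 ≤ ζ)
    (ht : 0 < t) (h3 : 3 * ρ ≤ t ^ (6 * i) * ζ) :
    Sect_B m (fun h => Rr L h i ρ ζ) (12 * i * t) := by
  have hb := ok_blk hL 1 i
  have hc : (0 : ℝ) ≤ 12 * i * t := by positivity
  unfold Rr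
  refine Sect_B_mono (Sect_B_sum _ fun u _ => Sect_B_sum _ fun u' _ => Sect_B_sum _ fun x _ =>
    Sect_B_sum _ fun x' _ => Sect_B_ite (c := 12 * i * t)
      (Sect_set_Rr (Y := fun _ => L.Y) (fun _ => continuous_const) continuous_id i ρ ζ u u' x x')
      (mul_nonneg (mul_nonneg (hb.nn u) (hb.nn u')) (mul_nonneg (hL.nn x) (hL.nn x'))) ?_)
    (Sect_wsum4 hb.nn hb.le hL.nn hL.le hc)
  by_cases hz : ζ < sz ((L.Y x')⁻¹ * L.Y x)
  · obtain ⟨l, hl, hw, he⟩ := exists_word_col L.Y hi u u' ((L.Y x')⁻¹ * L.Y x)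
    have hne : l ≠ [] := by
      rintro rfl
      simp only [List.length_nil] at hl
      omega
    have h4 : 3 * ρ ≤ t ^ (3 * l.length) * wt l := by
      rw [hl, hw, show 3 * (2 * i) = 6 * i by ring]
      exact h3.trans (mul_le_mul_of_nonneg_left hz.le (by positivity))
    have h5 := lemR m hne (by rw [hw]; exact hζ.trans_lt hz) ht h4
    rw [hl] at h5
    refine (measureReal_mono (fun h hh => ?_)).trans (h5.trans (le_of_eq ?_))
    · show sz (wd h l) ≤ ρ
      rw [he]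
      exact hh.2
    · push_cast
      ring
  · simp only [hz, false_and, Set.ofPred_false, measureReal_empty]
    exact hc

theorem meas_Rs {L : Law} (hL : L.Ok) (B : ℕ) {lam ρ t s : ℝ} (hρ : 0 < ρ) (hl : 1 ≤ lam)
    (ht : 0 < t) (ht1 : t ≤ 1) (h3 : 3 ≤ t ^ (6 * B) * lam) (hs : 0 < s) :
    m.real {h : SU2 | s ≤ Rs L h B lam ρ} ≤ 12 * (B : ℝ) ^ 2 * t / s := by
  have hl0 : 0 ≤ lam := zero_le_one.trans hl
  have hp : ∀ i, 0 < ρ * (1 + lam) ^ (B - 1 - i) := fun i => by positivity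
  refine Sect_markov ?_ (fun h => Finset.sum_nonneg fun i _ => Rr_nonneg hL h i _ _) hs
  unfold Rs
  refine Sect_B_mono (Sect_B_sum (c := fun _ => 12 * (B : ℝ) * t) _ fun i hi => ?_) (le_of_eq ?_)
  · have hiB : i ≤ B := (Finset.mem_range.1 hi).le
    rcases Nat.eq_zero_or_pos i with rfl | h0
    · simp only [Rr_zero L _ (le_mul_of_one_le_left (hp 0).le hl)]
      exact ⟨integrable_const _, by rw [integral_zero]; positivity⟩
    · refine Sect_B_mono (Sect_B_Rr m hL h0 (mul_nonneg hl0 (hp i).le) ht ?_) ?_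
      · rw [← mul_assoc (t ^ (6 * i))]
        refine mul_le_mul_of_nonneg_right (h3.trans (mul_le_mul_of_nonneg_right ?_ hl0)) (hp i).le
        exact pow_le_pow_of_le_one ht.le ht1 (by omega)
      · have : (i : ℝ) ≤ B := by exact_mod_cast hiB
        gcongr
  · rw [Finset.sum_const, Finset.card_range, nsmul_eq_mul]
    ring

theorem meas_Ra {L : Law} (hL : L.Ok) {ζ ρ t s : ℝ} (hρ : 0 < ρ) (ht : 0 < t)
    (h : 12 * ζ ≤ t ^ 24 * ρ ^ 7) (hs : 0 < s) :
    m.real {h : SU2 | s ≤ Ra L h ζ ρ} ≤ 48 * t / s := by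
  have hb := hL.chain hL
  have hc : (0 : ℝ) ≤ 48 * t := by positivity
  refine Sect_markov ?_ (fun h => Sect_Ra_nonneg hL h ζ ρ) hs
  unfold Ra
  refine Sect_B_mono (Sect_B_sum _ fun a _ => Sect_B_sum _ fun b _ => Sect_B_sum _ fun c _ =>
    Sect_B_ite (c := 48 * t)
      (Sect_set_Ra L.r (Y := fun _ => L.Y) (fun _ => continuous_const) continuous_id ζ ρ a b c)
      (mul_nonneg (mul_nonneg (hb.nn a) (hb.nn b)) (hb.nn c)) ?_)
    (Sect_wsum3 (a := fun a : L.Ω × L.Ω => L.r a.1 * L.r a.2) hb.nn hb.le hc)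
  by_cases hz : ρ ^ 7 ≤ wt (axl L a b c)
  · have hl : (axl L a b c).length = 8 := rfl
    have hne : axl L a b c ≠ [] := by
      intro e
      rw [e] at hl
      simp at hl
    have h4 : 3 * (4 * ζ) ≤ t ^ (3 * (axl L a b c).length) * wt (axl L a b c) := by
      rw [hl, ← mul_assoc]
      norm_num
      exact h.trans (mul_le_mul_of_nonneg_left hz (by positivity))
    have h5 := lemR m hne ((pow_pos hρ 7).trans_le hz) ht h4
    rw [hl] at h5
    refine (measureReal_mono (fun h hh => ?_)).trans (h5.trans (le_of_eq ?_))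
    · exact hh.2
    · push_cast
      ring
  · have : {x : SU2 | ρ ^ 7 ≤ wt (axl L a b c) ∧ sz (wd x (axl L a b c)) ≤ 4 * ζ} = ∅ := by
      simp only [hz, false_and, Set.ofPred_false]
    exact (le_of_eq (by rw [← measureReal_empty (μ := m), ← this]; rfl)).trans hc

theorem pi_section {k : ℕ} (i : Fin (k + 1)) {S : Set (Fin (k + 1) → SU2)} (hS : MeasurableSet S)
    {c : ℝ} (h : ∀ w, m.real {g : SU2 | Function.update w i g ∈ S} ≤ c) :
    (Measure.pi fun _ : Fin (k + 1) => m).real S ≤ c := by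
  have hc : 0 ≤ c := measureReal_nonneg.trans (h 1)
  have h1 := lintegral_le_of_lmarginal_le (μ := fun _ : Fin (k + 1) => m) {i}
    (f := S.indicator 1) (g := fun _ => ENNReal.ofReal c) (measurable_one.indicator hS)
    measurable_const (by
      rw [lmarginal_singleton, lmarginal_singleton]
      intro w
      have hm : MeasurableSet {g : SU2 | Function.update w i g ∈ S} := measurable_update w hS
      have e : (fun g : SU2 => S.indicator (1 : (Fin (k + 1) → SU2) → ENNReal)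
          (Function.update w i g)) = {g : SU2 | Function.update w i g ∈ S}.indicator 1 := rfl
      simp only [e, lintegral_indicator_one hm, lintegral_const, measure_univ, mul_one]
      rw [← ofReal_measureReal]
      exact ENNReal.ofReal_le_ofReal (h w))
  rw [lintegral_indicator_one hS, lintegral_const, measure_univ, mul_one] at h1
  exact ENNReal.toReal_le_of_le_ofReal hc h1

omit [m.IsHaarMeasure] [IsProbabilityMeasure m] in
theorem measurable_Rs (k B j : ℕ) (lam ρ : ℝ) : Measurable fun w : Fin (k + 1) → SU2 =>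
    Rs (lev (ext w) B j) (ext w (j + 1)) B lam ρ := by
  unfold Rs
  exact Finset.measurable_sum _ fun i _ => Sect_meas_Rr (levR B j)
    (Y := fun w : Fin (k + 1) → SU2 => levY (ext w) B j)
    (fun ω => (continuous_levY B j ω).comp (continuous_ext k))
    ((continuous_apply (j + 1)).comp (continuous_ext k)) i _ _

omit [m.IsHaarMeasure] [IsProbabilityMeasure m] in
theorem measurable_Ra (k B j : ℕ) (ζ ρ : ℝ) : Measurable fun w : Fin (k + 1) → SU2 =>
    Ra (lev (ext w) B j) (ext w (j + 1)) ζ ρ :=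
  Sect_meas_Ra (levR B j) (Y := fun w : Fin (k + 1) → SU2 => levY (ext w) B j)
    (fun ω => (continuous_levY B j ω).comp (continuous_ext k))
    ((continuous_apply (j + 1)).comp (continuous_ext k)) ζ ρ

theorem pi_Rs {k j : ℕ} (hj : j + 1 ≤ k) (B : ℕ) {lam ρ t s : ℝ} (hρ : 0 < ρ) (hl : 1 ≤ lam)
    (ht : 0 < t) (ht1 : t ≤ 1) (h3 : 3 ≤ t ^ (6 * B) * lam) (hs : 0 < s) :
    (Measure.pi fun _ : Fin (k + 1) => m).real
      {w | s ≤ Rs (lev (ext w) B j) (ext w (j + 1)) B lam ρ} ≤ 12 * (B : ℝ) ^ 2 * t / s := by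
  have hj' : j + 1 < k + 1 := Nat.lt_succ_of_le hj
  refine pi_section m ⟨j + 1, hj'⟩
    (measurableSet_le measurable_const (measurable_Rs k B j lam ρ)) fun w => ?_
  simp only [Set.mem_ofPred_eq, Sect_lev_update hj', Sect_ext_update hj']
  exact meas_Rs m (ok_lev _ B j) B hρ hl ht ht1 h3 hs

theorem pi_Ra {k j : ℕ} (hj : j + 1 ≤ k) (B : ℕ) {ζ ρ t s : ℝ} (hρ : 0 < ρ) (ht : 0 < t)
    (h : 12 * ζ ≤ t ^ 24 * ρ ^ 7) (hs : 0 < s) :
    (Measure.pi fun _ : Fin (k + 1) => m).real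
      {w | s ≤ Ra (lev (ext w) B j) (ext w (j + 1)) ζ ρ} ≤ 48 * t / s := by
  have hj' : j + 1 < k + 1 := Nat.lt_succ_of_le hj
  refine pi_section m ⟨j + 1, hj'⟩
    (measurableSet_le measurable_const (measurable_Ra k B j ζ ρ)) fun w => ?_
  simp only [Set.mem_ofPred_eq, Sect_lev_update hj', Sect_ext_update hj']
  exact meas_Ra m (ok_lev _ B j) hρ ht h hs

end Pool.Agent.P.MP_923088_al.AG
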