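import Pool.Agent.P.MP_923088_al.AG.Top
import Pool.Agent.P.MP_923088_al.AG.Golf
import Pool.Agent.P.MP_923088_al.AG.MixK
import Pool.Agent.P.MP_923088_al.AG.LevP

/-! The parameters of one window. -/

namespace Pool.Agent.P.MP_923088_al.AG

open MeasureTheory Real
open scoped Classical Quaternion

section num
variable {x u y N : ℝ}

theorem Step_lam (hx : 6000 ≤ x) (hy : 1 ≤ y) (hu : 1 ≤ u) (hN : N ≤ 128 * (y * x ^ 7)) :
    5 * (u * y * x ^ 14 + 1) + N * (u * x ^ 6 + 2) + 2 ≤ 6 * (u * y * x ^ 14) := by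
  have x0 : 0 < x := by linarith
  have x1 : 1 ≤ x := by linarith
  have h6 : 2 ≤ u * x ^ 6 := by
    have : x ≤ x ^ 6 := le_self_pow₀ x1 (by norm_num)
    nlinarith
  have h1 : N * (u * x ^ 6 + 2) ≤ 128 * (y * x ^ 7) * (2 * (u * x ^ 6)) :=
    mul_le_mul hN (by linarith) (by linarith) (by positivity)
  have h13 : 1 ≤ u * y * x ^ 13 :=
    one_le_mul_of_one_le_of_one_le (one_le_mul_of_one_le_of_one_le hu hy) (one_le_pow₀ x1)
  have e1 : 128 * (y * x ^ 7) * (2 * (u * x ^ 6)) = 256 * (u * y * x ^ 13) := by ring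
  have e2 : u * y * x ^ 14 = x * (u * y * x ^ 13) := by ring
  rw [e2]
  nlinarith

theorem Step_eps1 (hx : 6000 ≤ x) (hy : 1 ≤ y) (hu : y * x ^ 11 ≤ u) (hN1 : 1 ≤ N)
    (hN : N ≤ 128 * (y * x ^ 7)) :
    N * (20000 * N * exp (-(u * y * x ^ 8 / (4 * N))) + 2 * exp (-u)) ≤ exp (-(u / x)) := by
  have x0 : 0 < x := by linarith
  have x1 : 1 ≤ x := by linarith
  have y0 : 0 < y := by linarith
  have u0 : 0 < u := lt_of_lt_of_le (by positivity) hu
  have h1 : u ≤ u * y * x ^ 8 / (4 * N) := by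
    rw [le_div_iff₀ (by positivity)]
    have : 4 * N ≤ y * x ^ 8 := by
      have e : y * x ^ 8 = x * (y * x ^ 7) := by ring
      have : 0 < y * x ^ 7 := by positivity
      rw [e]; nlinarith
    calc u * (4 * N) ≤ u * (y * x ^ 8) := by gcongr
      _ = _ := by ring
  have h2 : exp (-(u * y * x ^ 8 / (4 * N))) ≤ exp (-u) := exp_le_exp.mpr (by linarith)
  have h3 : N * 401 ≤ u := by
    have h4 : x ^ 2 ≤ x ^ 4 := pow_le_pow_right₀ x1 (by norm_num)
    have h5 : 128 * 401 ≤ x ^ 4 := by nlinarith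
    have e : y * x ^ 11 = x ^ 4 * (y * x ^ 7) := by ring
    have : 0 < y * x ^ 7 := by positivity
    nlinarith
  have h4 : (u / 2) ^ 2 / 2 ≤ exp (u / 2) := by
    have := Real.pow_div_factorial_le_exp (u / 2) (by positivity) 2
    simpa using this
  have h5 : u / x ≤ u / 2 := div_le_div_of_nonneg_left u0.le (by norm_num) (by linarith)
  have h6 : exp (u / 2) * exp (-u) ≤ exp (-(u / x)) := by
    rw [← exp_add]; exact exp_le_exp.mpr (by linarith)
  have h7 : 20002 * N ^ 2 ≤ exp (u / 2) := by nlinarith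
  have e0 := exp_pos (-u)
  calc N * (20000 * N * exp (-(u * y * x ^ 8 / (4 * N))) + 2 * exp (-u))
      ≤ N * (20000 * N * exp (-u) + 2 * N * exp (-u)) := by
        gcongr
        linarith
    _ = 20002 * N ^ 2 * exp (-u) := by ring
    _ ≤ exp (u / 2) * exp (-u) := by gcongr
    _ ≤ _ := h6

theorem Step_eps2 {E : ℝ} (hE : 400020 ≤ E) : 20002 * exp (-(E / 4)) ≤ exp (-(E / 5)) := by
  have h := Real.add_one_le_exp (E / 20)
  have e : exp (-(E / 5)) = exp (E / 20) * exp (-(E / 4)) := by rw [← exp_add]; congr 1; ring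
  rw [e]
  gcongr
  linarith

theorem Step_kappa {k e2 : ℝ} (hx : 6000 ≤ x) (hk : 1 ≤ k) (hxk : 301989888 * k ^ 2 ≤ x)
    (hy : 1 ≤ y) (hu : y * x ^ 11 ≤ u) (hN1 : 0 ≤ N) (hN : N ≤ 128 * (y * x ^ 7)) (he0 : 0 ≤ e2)
    (he : e2 ≤ 1 / (y ^ 4 * x ^ 41)) :
    N * (8 * N ^ 2 * (2 * (u * y * x ^ 11) * (2 * (k * x) + 1) ^ 2 * e2) + 2) ≤ u / x ^ 3 := by
  have x0 : 0 < x := by linarith
  have x1 : 1 ≤ x := by linarith
  have y0 : 0 < y := by linarith
  have u0 : 0 < u := lt_of_lt_of_le (by positivity) hu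
  have h1 : 2 * (k * x) + 1 ≤ 3 * (k * x) := by nlinarith
  have h2 : N * (8 * N ^ 2 * (2 * (u * y * x ^ 11) * (2 * (k * x) + 1) ^ 2 * e2) + 2) ≤
      128 * (y * x ^ 7) * (8 * (128 * (y * x ^ 7)) ^ 2 *
        (2 * (u * y * x ^ 11) * (3 * (k * x)) ^ 2 * (1 / (y ^ 4 * x ^ 41))) + 2) := by
    gcongr
  have e : 128 * (y * x ^ 7) * (8 * (128 * (y * x ^ 7)) ^ 2 *
        (2 * (u * y * x ^ 11) * (3 * (k * x)) ^ 2 * (1 / (y ^ 4 * x ^ 41))) + 2) =
      301989888 * k ^ 2 * u / x ^ 7 + 256 * (y * x ^ 11) / x ^ 4 := by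
    field_simp
    ring
  have h3 : 301989888 * k ^ 2 * u / x ^ 7 ≤ u / (2 * x ^ 3) := by
    rw [div_le_div_iff₀ (by positivity) (by positivity)]
    have : 2 ≤ x ^ 3 := by
      have : x ≤ x ^ 3 := le_self_pow₀ x1 (by norm_num)
      linarith
    calc 301989888 * k ^ 2 * u * (2 * x ^ 3) ≤ x * u * (x ^ 3 * x ^ 3) := by gcongr
      _ = _ := by ring
  have h4 : 256 * (y * x ^ 11) / x ^ 4 ≤ u / (2 * x ^ 3) := by
    rw [div_le_div_iff₀ (by positivity) (by positivity)]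
    calc 256 * (y * x ^ 11) * (2 * x ^ 3) = (y * x ^ 11) * (512 * x ^ 3) := by ring
      _ ≤ u * (x * x ^ 3) := by gcongr; linarith
      _ = _ := by ring
  have e2 : u / x ^ 3 = u / (2 * x ^ 3) + u / (2 * x ^ 3) := by field_simp; ring
  linarith

theorem Step_final (hx : 6000 ≤ x) (hy : 1 ≤ y) (hu : y * x ^ 11 ≤ u) :
    -(1 - (2 * ((u / x ^ 3 + 1) / (u / x)) +
        2 * ((2 * (20 * (u * y * x ^ 7) + u / x ^ 3) + 1) / (u * y * x ^ 8 / 5)))) *
        (3 * (u * y * x ^ 15) - 8 * (6 * (u * y * x ^ 14)) - 22) +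
      4 * (20 * (u * y * x ^ 7) + u / x ^ 3) + 6561 ≤ -(11 / 4) * (u * y * x ^ 15) := by
  have x0 : 0 < x := by linarith
  have x1 : 1 ≤ x := by linarith
  have y0 : 0 < y := by linarith
  have u0 : 0 < u := lt_of_lt_of_le (by positivity) hu
  have ux : x ^ 2 ≤ u := by
    have h1 : x ^ 2 ≤ x ^ 11 := pow_le_pow_right₀ x1 (by norm_num)
    have h2 : x ^ 11 ≤ y * x ^ 11 := le_mul_of_one_le_left (by positivity) hy
    linarith
  have u1 : 1 ≤ u := le_trans (one_le_pow₀ x1) ux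
  have k1 : u / x ^ 3 ≤ u := div_le_self u0.le (one_le_pow₀ x1)
  have g1 : u ≤ u * y * x ^ 7 := by
    have : 1 ≤ y * x ^ 7 := one_le_mul_of_one_le_of_one_le hy (one_le_pow₀ x1)
    nlinarith
  have b1 : (u / x ^ 3 + 1) / (u / x) ≤ 2 / x := by
    rw [div_le_div_iff₀ (by positivity) x0]
    have h1 : u / x ^ 3 * x ≤ u / x := by
      rw [div_mul_eq_mul_div, div_le_div_iff₀ (by positivity) x0]
      have : x * x ≤ x ^ 3 := by nlinarith
      nlinarith
    have h2 : x ≤ u / x := by rw [le_div_iff₀ x0]; nlinarith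
    nlinarith
  have b2 : (2 * (20 * (u * y * x ^ 7) + u / x ^ 3) + 1) / (u * y * x ^ 8 / 5) ≤ 215 / x := by
    rw [div_le_div_iff₀ (by positivity) x0]
    have e : 215 * (u * y * x ^ 8 / 5) = 43 * (u * y * x ^ 7) * x := by ring
    rw [e]
    gcongr
    linarith
  set b := 2 * ((u / x ^ 3 + 1) / (u / x)) +
    2 * ((2 * (20 * (u * y * x ^ 7) + u / x ^ 3) + 1) / (u * y * x ^ 8 / 5)) with hb
  have b3 : b ≤ 434 / x := by
    have : 434 / x = 2 * (2 / x) + 2 * (215 / x) := by ring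
    rw [this]; linarith
  have b0 : 0 ≤ b := by positivity
  set s := u * y * x ^ 14 with hs
  have es : u * y * x ^ 15 = x * s := by rw [hs]; ring
  have s1 : x * (u * y * x ^ 7) ≤ s := by
    have : x ^ 8 ≤ x ^ 14 := pow_le_pow_right₀ x1 (by norm_num)
    calc x * (u * y * x ^ 7) = u * y * x ^ 8 := by ring
      _ ≤ _ := by rw [hs]; gcongr
  have s2 : 6000 * (u * y * x ^ 7) ≤ s := by nlinarith
  have s3 : 6000 * 6000 ≤ u := by nlinarith
  have s0 : 0 < s := by positivity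
  rw [es]
  have b4 : b * (3 * (x * s) - 8 * (6 * s) - 22) ≤ 1302 * s := by
    calc b * (3 * (x * s) - 8 * (6 * s) - 22) ≤ b * (3 * (x * s)) := by gcongr; linarith
      _ ≤ 434 / x * (3 * (x * s)) := by gcongr
      _ = 1302 * s := by field_simp; ring
  nlinarith

end num

variable [MeasurableSpace SU2] [BorelSpace SU2] (m : Measure SU2) [m.IsHaarMeasure]
  [IsProbabilityMeasure m]

theorem step {k a J : ℕ} (hk : k = a + J + 11) (ha : J + 11 ≤ a) :
    ∃ B₁ : ℕ, ∀ B : ℕ, B₁ ≤ B → ∀ w : Fin (k + 1) → SU2,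
      (lev (ext w) B k).AX (exp (-(B : ℝ) ^ (a + J + 14))) (exp (-(B : ℝ) ^ (a + J + 8))) →
      (lev (ext w) B (a + 3)).AX (exp (-(B : ℝ) ^ (a + 6))) (exp (-(B : ℝ) ^ a)) →
      ∀ (γ : ℝ) (n : ℕ), 0 < γ → γ ≤ 1 → Gap m (bark w) γ n →
      exp (3 * (B : ℝ) ^ (a + J + 15)) ≤ n → (n : ℝ) ≤ 2 * exp (3 * (B : ℝ) ^ (a + J + 15)) →
      ∀ (p : SU2 → ℝ) (e : ℝ), IsDens m p → (∀ i, Hel m p (w i) ≤ e) →
      e ^ 2 ≤ 1 / (B : ℝ) ^ (4 * J + 41) → e ^ 2 ≤ γ / (B : ℝ) ^ 8 →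
      ∀ t : ℝ, (B : ℝ) ^ (a + J + 15) ≤ t → t ≤ (B : ℝ) ^ (a + 2 * J + 15) →
      Hent m p (2 * exp (-(t + (B : ℝ) ^ (a + J + 15)))) - Hent m p (2 * exp (-t)) ≤
        -(11 / 4) * (B : ℝ) ^ (a + J + 15) := by
  refine ⟨301989888 * k ^ 2 + 6000, fun B hB w a1 a2 γ n γ0 γ1 hg n1 n2 p e hp he e1 e2 t t1 t2 => ?_⟩
  have hBr : (301989888 : ℝ) * (k : ℝ) ^ 2 + 6000 ≤ B := by exact_mod_cast hB
  have k1 : (1 : ℝ) ≤ k := by
    have : 1 ≤ k := by omega
    exact_mod_cast this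
  have pL := hasPat_lev hp he B k
  have pA := hasPat_lev hp he B (a + 3)
  have pG := fun mm => hasPat_pow hp (hasPat_bark hp w he) mm
  have ka : ((a + 3 : ℕ) : ℝ) ≤ k := by
    have : a + 3 ≤ k := by omega
    exact_mod_cast this
  set x : ℝ := (B : ℝ) with hxB
  have hx : 6000 ≤ x := by nlinarith [sq_nonneg (k : ℝ)]
  have hxk : 301989888 * (k : ℝ) ^ 2 ≤ x := by linarith
  have x0 : 0 < x := by linarith
  have x1 : 1 ≤ x := by linarith
  set u : ℝ := x ^ a with hu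
  set y : ℝ := x ^ J with hy
  have y1 : 1 ≤ y := one_le_pow₀ x1
  have u1 : 1 ≤ u := one_le_pow₀ x1
  have yu : y * x ^ 11 ≤ u := by
    rw [hy, ← pow_add]; exact pow_le_pow_right₀ x1 ha
  have q14 : x ^ (a + J + 14) = u * y * x ^ 14 := by rw [pow_add, pow_add]
  have q8 : x ^ (a + J + 8) = u * y * x ^ 8 := by rw [pow_add, pow_add]
  have q15 : x ^ (a + J + 15) = u * y * x ^ 15 := by rw [pow_add, pow_add]
  have q6 : x ^ (a + 6) = u * x ^ 6 := by rw [pow_add]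
  have qS : x ^ (a + 2 * J + 15) = y * (u * y * x ^ 15) := by rw [hu, hy]; ring
  have qk : x ^ k = u * y * x ^ 11 := by rw [hk, pow_add, pow_add]
  have q41 : x ^ (4 * J + 41) = y ^ 4 * x ^ 41 := by rw [hy]; ring
  rw [q14, q8] at a1
  rw [q6] at a2
  rw [q15] at n1 n2 t1 ⊢
  rw [qS] at t2
  rw [q41] at e1
  rw [qk] at pL
  have uy : 1 ≤ u * y := one_le_mul_of_one_le_of_one_le u1 y1
  have pw : ∀ i j : ℕ, i ≤ j → u * y * x ^ i ≤ u * y * x ^ j := fun i j h => by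
    have := pow_le_pow_right₀ x1 h
    gcongr
  have E1 : 400020 ≤ u * y * x ^ 8 := by
    have h1 : x ^ 2 ≤ x ^ 8 := pow_le_pow_right₀ x1 (by norm_num)
    have h2 : x ^ 8 ≤ u * y * x ^ 8 := le_mul_of_one_le_left (by positivity) uy
    nlinarith
  have hΔ : 3 * (6 * (u * y * x ^ 14)) + 8 ≤ u * y * x ^ 15 := by
    have e : u * y * x ^ 15 = x * (u * y * x ^ 14) := by ring
    have := pw 8 14 (by norm_num)
    rw [e]; nlinarith
  have s0 : 0 < u * y * x ^ 14 := by positivity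
  obtain ⟨M, M1, M2⟩ := exists_nat_pow_near (x := 128 * (y * x ^ 7)) (y := (2 : ℝ))
    (by have : 1 ≤ y * x ^ 7 := one_le_mul_of_one_le_of_one_le y1 (one_le_pow₀ x1)
        linarith) (by norm_num)
  have M3 : 64 * (y * x ^ 7) ≤ 2 ^ M := by rw [pow_succ (2 : ℝ) M] at M2; linarith
  have N1 : (1 : ℝ) ≤ 2 ^ M := one_le_pow₀ (by norm_num)
  have pA' : HasPat m p (lev (ext w) B (a + 3))
      (2 * (u * y * x ^ 11) * (2 * (k * x) + 1) ^ 2 * e ^ 2) := by
    refine pA.mono ?_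
    have : x ^ (a + 3) ≤ u * y * x ^ 11 := by
      rw [← qk]; exact pow_le_pow_right₀ x1 (by omega)
    gcongr
  have tops : ∀ s : ℝ, 0 < s → s ≤ 2 * (y * (u * y * x ^ 15)) →
      HasTop m p s (6 * (u * y * x ^ 14)) (u / x ^ 3) (exp (-(u / x)))
        (exp (-(u * y * x ^ 8 / 5))) := by
    intro s s0 s1
    have h := hasTop (M := M) (t := s) hp pL pA' a1 a2 (by linarith) (pw 8 14 (by norm_num))
      (by positivity) s0 (by
        calc s ≤ 64 * (y * x ^ 7) * (u * y * x ^ 8 / 32) := by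
              refine s1.trans (le_of_eq ?_); ring
          _ ≤ _ := by gcongr)
    refine h.mono (Step_lam hx y1 u1 M1) ?_ (Step_eps1 hx y1 yu N1 M1) (Step_eps2 E1)
    have e4 : (4 : ℝ) ^ M = (2 ^ M) ^ 2 := by rw [← pow_mul, mul_comm, pow_mul]; norm_num
    rw [e4]
    exact Step_kappa hx k1 hxk y1 yu (by positivity) M1 (sq_nonneg e) e1
  have Δ0 : 0 < u * y * x ^ 15 := by positivity
  have ΔS : u * y * x ^ 15 ≤ y * (u * y * x ^ 15) := le_mul_of_one_le_left Δ0.le y1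
  have mm1 : 9 * (u * y * x ^ 15) / γ ≤ (⌈9 * (u * y * x ^ 15) / γ⌉₊ : ℝ) := Nat.le_ceil _
  have mm2 : (⌈9 * (u * y * x ^ 15) / γ⌉₊ : ℝ) < 9 * (u * y * x ^ 15) / γ + 1 :=
    Nat.ceil_lt_add_one (by positivity)
  set mm := ⌈9 * (u * y * x ^ 15) / γ⌉₊ with hmm
  have Δ1 : 10 ≤ u * y * x ^ 15 := by linarith [pw 8 15 (by norm_num)]
  have mix := mixes_of_gap (mm := mm) (ok_bark w) (sum_bark w) γ1 hg Δ1 n1 n2
    (by rw [div_le_iff₀ γ0] at mm1; linarith)
  have pG' : HasPat m p (blk (bark w) 1 mm) (20 * (u * y * x ^ 7)) := by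
    refine (pG mm).mono ?_
    calc (mm : ℝ) * (2 * e ^ 2) ≤ (9 * (u * y * x ^ 15) / γ + 1) * (2 * (γ / x ^ 8)) := by gcongr
      _ = (18 * (u * y * x ^ 15) + 2 * γ) / x ^ 8 := by field_simp; ring
      _ ≤ 20 * (u * y * x ^ 15) / x ^ 8 := by gcongr; linarith
      _ = _ := by field_simp
  have G := golf hp pG' mix (tops t (by linarith) (by linarith))
    (tops (t + 6 * (u * y * x ^ 14) + 2) (by linarith) (by linarith)) (by linarith)
    (by positivity) hΔ (by positivity) (by positivity)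
  exact G.trans (Step_final hx y1 yu)

end Pool.Agent.P.MP_923088_al.AG
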