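import Pool.Agent.P.MP_923088_al.AG.Tree
import Pool.Agent.P.MP_923088_al.AG.Leaf

/-!
Small elements at a prescribed scale.
Plan. `Law.AX.conc` and `Conc.mono` give `L.Conc (exp (-(σ+1))) (exp (-E))`. Take two leaves on
`(L, q)` with `σ' = σ + 1`: `l` with `n = 2^M` and `y` with `n = 1`. `F K = fam p l A qa M K`,
`W K = node p y L q (F K)`, events `A K ω : (F K).τm ω.2.1 < t ∧ t ≤ (F K).τ ω.2.1`. The law is
`Law.mix (fun K => (W K).L) A` with pattern `mixQ` and mode `⟨K, (W K).χ ω⟩`. Forward identity: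
`node_qm`, `tree_identity` (the last term vanishes by `full_tau`) and `fwd` of the chain pattern;
backward identity: `conj_bwd`. Cost: `cost_mix`, `node_cost`, `fam_cost`, `card_Idx`, `log 2 ≤ 1`.
`b₁ ⟨K,ω⟩`: not `A K ω`, or not `(F K).In s ω.2.1 ω.2.2` (`P_mix`, `P_right`, `fam_good`).
`b₂`: different modes, or not `y.In σ'`, or `Cross` (`PP_mix_le`, `PP_left`, `PP_cross`). A convenient
form is `b₂ ω ω' := ¬ ∃ K u u', ω = ⟨K,u⟩ ∧ ω' = ⟨K,u'⟩ ∧ same mode ∧ In ∧ ¬ Cross`. Then `node_in`,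
`t ≤ τ_F ≤ τm_F + σ' < t + σ'`, `0 ≤ τ_y ≤ σ'`.
-/

namespace Pool.Agent.P.MP_923088_al.AG

open MeasureTheory Real
open scoped Classical Quaternion

variable [MeasurableSpace SU2] [BorelSpace SU2] {m : Measure SU2} [m.IsHaarMeasure]
  [IsProbabilityMeasure m] {p : SU2 → ℝ}

theorem hasTop (hp : IsDens m p) {L A : Law} {κ σ E σa εa t : ℝ} {M : ℕ}
    (hL : HasPat m p L κ) (hA : HasPat m p A κ) (aL : L.AX (exp (-σ)) (exp (-E)))
    (aA : A.AX (exp (-σa)) εa) (hE : 32 ≤ E) (hσ : E ≤ σ) (hσa : 0 ≤ σa) (ht : 0 < t)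
    (ht' : t ≤ 2 ^ M * (E / 32)) :
    HasTop m p t (5 * (σ + 1) + 2 ^ M * (σa + 2) + 2) (2 ^ M * (8 * 4 ^ M * κ + 2))
      (2 ^ M * (20000 * 2 ^ M * exp (-(E / (4 * 2 ^ M))) + 2 * εa))
      (20002 * exp (-(E / 4))) := by
  obtain ⟨q, hq, cq⟩ := hL
  obtain ⟨qa, hqa, ca⟩ := hA
  have κ0 : 0 ≤ κ := (cost_nonneg hp hq).trans cq
  have conc : L.Conc (exp (-(σ + 1))) (exp (-E)) := by
    refine (aL.conc hq.ok).mono hq.ok ?_ le_rfl
    have e : exp (-σ) = exp 1 * exp (-(σ + 1)) := by rw [← exp_add]; congr 1; ring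
    have h1 := Real.add_one_le_exp 1
    have h2 := exp_pos (-(σ + 1))
    rw [e]; nlinarith
  obtain ⟨X, χ, τ, i1, b1, g1⟩ := leaf hq.ok q (n := 2 ^ M) conc hE (by linarith)
    Nat.one_le_two_pow
  obtain ⟨X', χ', τ', i2, b2, g2⟩ := leaf hq.ok q (n := 1) conc hE (by linarith) le_rfl
  push_cast at g1 g2
  rw [div_one, mul_one, mul_one] at g2
  set l : Half := ⟨L, q, X, χ, τ, fun _ => 0⟩ with hl
  set y : Half := ⟨L, q, X', χ', τ', fun _ => 0⟩ with hy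
  have lok : l.Ok p := ⟨hq, i1, fun _ _ _ => rfl, fun _ => le_rfl,
    fun ω => le_trans (by linarith) (b1 ω).1⟩
  have yok : y.Ok p := ⟨hq, i2, fun _ _ _ => rfl, fun _ => le_rfl,
    fun ω => le_trans (by linarith) (b2 ω).1⟩
  have N0 : (0 : ℝ) < 2 ^ M := by positivity
  have N1 : (1 : ℝ) ≤ 2 ^ M := one_le_pow₀ (by norm_num)
  have εa0 : 0 ≤ εa := aA.nonneg hqa.ok
  let F : Idx M → Half := fun K => fam p l A qa M K
  have Fok : ∀ K, (F K).Ok p := fun K => fam_ok hp lok hqa M K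
  have Fg : ∀ K, (F K).Good (σ + 1 + 2 ^ M * (σa + 2))
      (2 ^ M * (20000 * 2 ^ M * exp (-(E / (4 * 2 ^ M))) + 2 * εa)) := by
    intro K
    refine (fam_good hp lok hqa (div_nonneg (by linarith) N0.le) hσa g1 aA M K).mono
      (Fok K).pat.ok ?_ ?_
    · rw [mul_div_cancel₀ _ N0.ne']; nlinarith
    · nlinarith
  have Fgap : ∀ K ω, (F K).τ ω ≤ (F K).τm ω + (σ + 1) := fun K =>
    fam_gap p A qa (l := l) (fun ω => le_trans (b1 ω).2 (zero_add _).ge) M K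
  let Wn : Idx M → Half := fun K => node p y L q (F K)
  have Wok : ∀ K, (Wn K).Ok p := fun K => node_ok hp yok hq (Fok K)
  let Av : ∀ K, (Wn K).L.Ω → Prop := fun K ω => (F K).τm ω.2.1 < t ∧ t ≤ (F K).τ ω.2.1
  have tid : ∀ b, ∑ K, qm (F K).L (F K).q b (fun ω => (F K).τm ω < t ∧ t ≤ (F K).τ ω) = p b := by
    intro b
    have h1 := tree_identity hp lok hqa (fun _ => rfl) M t ht b
    have h2 : qm (full p l A qa M).L (full p l A qa M).q b
        (fun ω => (full p l A qa M).τ ω < t) = 0 := by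
      unfold qm
      refine Finset.sum_eq_zero fun ω _ => if_neg ?_
      have := full_tau p A qa (l := l) (τ₀ := E / 32) (fun ω => (b1 ω).1) M ω
      linarith
    rwa [h2, add_zero] at h1
  have hf : ∀ a, ∑ K, qm (Wn K).L (Wn K).q a (Av K) = p a := by
    intro a
    have h1 : ∀ K, qm (Wn K).L (Wn K).q a (Av K) = _ := fun K =>
      node_qm hp yok hq (Fok K) a (fun _ ω => (F K).τm ω < t ∧ t ≤ (F K).τ ω)
    rw [Finset.sum_congr rfl fun K _ => h1 K, Finset.sum_comm, ← (yok.pat.chain hp hq).fwd a]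
    refine Finset.sum_congr rfl fun ω _ => ?_
    rw [← Finset.mul_sum, tid, div_mul_cancel₀ _ (hp.pos _).ne']
  have hinv : ∀ K (v v' : (F K).L.Ω), (F K).χ v = (F K).χ v' →
      ((F K).τm v < t ∧ t ≤ (F K).τ v) → ((F K).τm v' < t ∧ t ≤ (F K).τ v') := by
    intro K v v' h h'
    rwa [← (Fok K).inv v v' h, ← (Fok K).invm v v' h]
  have hb : ∀ b, ∑ K, ∑ ω : (Wn K).L.Ω,
      (@ite ℝ (Av K ω) (Classical.propDecidable _) ((Wn K).q (((Wn K).L.Y ω)⁻¹ * b) ω) 0) =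
      p b := by
    intro b
    rw [← hf b]
    exact Finset.sum_congr rfl fun K _ => conj_bwd (F K).χ b
      (fun _ ω => (F K).τm ω < t ∧ t ≤ (F K).τ ω) (fun _ v v' => hinv K v v')
  refine ⟨Law.mix (fun K => (Wn K).L) Av, mixQ _ Av fun K => (Wn K).q, Σ K, (Wn K).X,
    fun ω => ⟨ω.1, (Wn ω.1).χ ω.2⟩,
    fun ω => ¬ (Av ω.1 ω.2 ∧ (F ω.1).In (σ + 1 + 2 ^ M * (σa + 2)) ω.2.2.1 ω.2.2.2),
    fun ω ω' => ¬ ∃ K u u', ω = ⟨K, u⟩ ∧ ω' = ⟨K, u'⟩ ∧ (Wn K).χ u = (Wn K).χ u' ∧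
      y.In (σ + 1) u.1.1 u'.1.1 ∧ ¬ Cross p y L q (F K) (exp (-σ)) u u',
    isPat_mix (fun K => (Wok K).pat) Av hf hb, ?_, ?_, ?_, ?_⟩
  · refine (cost_mix hp (fun K => (Wok K).pat) Av hf).trans ?_
    have h1 : ∀ K, cost m p (Wn K).L (Wn K).q + 1 ≤ 8 * 4 ^ M * κ + 1 := by
      intro K
      have h2 := node_cost (m := m) hp yok hq (Fok K)
      have h3 := fam_cost hp lok hqa cq ca M K
      have h4 : (1 : ℝ) ≤ 4 ^ M := one_le_pow₀ (by norm_num)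
      have h5 : cost m p y.L y.q ≤ κ := cq
      have h6 : κ ≤ 4 ^ M * κ := le_mul_of_one_le_left κ0 h4
      have h7 : cost m p (Wn K).L (Wn K).q ≤ 2 * (κ + κ + 2 * 4 ^ M * κ) :=
        h2.trans (by gcongr)
      linarith
    have h2 := Finset.sum_le_card_nsmul Finset.univ _ _ fun K _ => h1 K
    rw [Finset.card_univ, card_Idx, nsmul_eq_mul] at h2
    rw [card_Idx]
    push_cast at h2 ⊢
    have h3 := Real.log_le_sub_one_of_pos N0
    linarith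
  · rw [Law.P_mix]
    have h1 : ∀ K, (Wn K).L.P (fun ω => Av K ω ∧ ¬ (Av K ω ∧
        (F K).In (σ + 1 + 2 ^ M * (σa + 2)) ω.2.1 ω.2.2)) / (Fintype.card (Idx M) : ℝ) ≤
        2 ^ M * (20000 * 2 ^ M * exp (-(E / (4 * 2 ^ M))) + 2 * εa) / 2 ^ M := by
      intro K
      rw [card_Idx]
      push_cast
      gcongr
      refine le_trans (Law.P_mono (Wok K).pat.ok fun ω h => ?_)
        ((P_right p y L q (F K) hq.ok hq.ok (Fok K).pat.ok
          fun v v' => ¬ (F K).In (σ + 1 + 2 ^ M * (σa + 2)) v v').trans (Fg K))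
      exact fun h' => h.2 ⟨h.1, h'⟩
    have h2 := Finset.sum_le_card_nsmul Finset.univ _ _ fun K _ => h1 K
    rw [Finset.card_univ, card_Idx M, nsmul_eq_mul] at h2
    refine le_trans (le_of_eq ?_) (h2.trans (le_of_eq ?_))
    · rw [card_Idx]
    · push_cast; field_simp
  · refine Law.PP_mix_le (fun K => (Wok K).pat.ok) Av (fun K => (Wn K).χ) ?_ _ (by positivity) ?_
    · intro K u u' h h'
      have e : u.2.1 = u'.2.1 := congrArg (fun z => z.2.2.1) h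
      simpa only [Av, ← e] using h'
    · intro K
      have h1 := PP_left p y L q (F K) hq.ok hq.ok (Fok K).pat.ok
        fun u u' => ¬ y.In (σ + 1) u u'
      have h2 := PP_cross p y L q (F K) hq.ok hq.ok (Fok K).pat.ok aL
      have h3 : exp (-E) ≤ exp (-(E / 4)) := exp_le_exp.mpr (by linarith)
      have h4 := Law.PP_or (Wok K).pat.ok (Wn K).χ (fun u u' => ¬ y.In (σ + 1) u.1.1 u'.1.1)
        (Cross p y L q (F K) (exp (-σ)))
      have h5 : y.L.PP y.χ (fun u u' => ¬ y.In (σ + 1) u u') ≤ _ := g2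
      refine le_trans (Law.PP_mono (Wok K).pat.ok _ fun u u' h h' => ?_) (h4.trans ?_)
      · by_contra hc
        rw [not_or, not_not] at hc
        exact h' ⟨K, u, u', rfl, rfl, h, hc.1, hc.2⟩
      · exact (add_le_add (h1.trans h5) h2).trans (by linarith)
  · intro ω ω' h1 h2
    rw [not_not] at h1 h2
    obtain ⟨K, u, u', rfl, rfl, c1, c2, c3⟩ := h2
    obtain ⟨⟨d1, d2⟩, d3⟩ := h1
    have y0 : 0 ≤ y.τ u.1.1 := (yok.nn _).trans (yok.le _)
    have y1 : y.τ u.1.1 ≤ σ + 1 := (b2 _).2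
    have h := node_in p y L q (F K) c1 y0 (by linarith) c2 d3 c3
    have g := Fgap K u.2.1
    refine ⟨le_trans (exp_le_exp.mpr ?_) h.1, h.2.trans (exp_le_exp.mpr ?_)⟩
    · change _ ≤ -(y.τ u.1.1 + (F K).τ u.2.1 + _)
      linarith
    · change -(y.τ u.1.1 + (F K).τ u.2.1) ≤ _
      linarith

theorem HasTop.mono {t Λ Λ' κ κ' ε₁ ε₁' ε₂ ε₂' : ℝ} (h : HasTop m p t Λ κ ε₁ ε₂) (hΛ : Λ ≤ Λ')
    (hκ : κ ≤ κ') (h₁ : ε₁ ≤ ε₁') (h₂ : ε₂ ≤ ε₂') : HasTop m p t Λ' κ' ε₁' ε₂' := by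
  obtain ⟨L, q, X, χ, b₁, b₂, a1, a2, a3, a4, a5⟩ := h
  exact ⟨L, q, X, χ, b₁, b₂, a1, a2.trans hκ, a3.trans h₁, a4.trans h₂, fun ω ω' c1 c2 =>
    ⟨le_trans (exp_le_exp.mpr (by linarith)) (a5 ω ω' c1 c2).1, (a5 ω ω' c1 c2).2⟩⟩

end Pool.Agent.P.MP_923088_al.AG
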