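import Pool.Agent.P.MP_923088_al.AG.Node

/-!
The binary tree of commutators. All proofs are inductions on `M`
(`Idx (M+1) = Idx M ⊕ Idx M`, `Fintype.sum_sum_type`).
`tree_identity`: for `inl K` use the induction hypothesis at `t`; for `inr K` and for `full (M+1)` use
`node_qm` and the induction hypothesis at the point `(y.L.chain A).Y ω * a` with `t - τ_y`; if
`t - τ_y ≤ 0` all events are empty because the clocks are non-negative; finish with `qm_chain_fst`.
-/

namespace Pool.Agent.P.MP_923088_al.AG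

open MeasureTheory Real
open scoped Classical Quaternion

theorem card_Idx (M : ℕ) : Fintype.card (Idx M) = 2 ^ M := by
  induction M with
  | zero => rfl
  | succ M ih =>
    have : Fintype.card (Idx (M + 1)) = Fintype.card (Idx M) + Fintype.card (Idx M) :=
      Fintype.card_sum
    rw [this, ih, pow_succ]; ring

instance (M : ℕ) : Nonempty (Idx M) :=
  Fintype.card_pos_iff.mp (by rw [card_Idx]; positivity)

theorem full_tau (p : SU2 → ℝ) {l : Half} (A : Law) (qa : SU2 → A.Ω → ℝ) {τ₀ : ℝ}
    (h : ∀ ω, τ₀ ≤ l.τ ω) (M : ℕ) : ∀ ω, 2 ^ M * τ₀ ≤ (full p l A qa M).τ ω := by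
  induction M with
  | zero => intro ω; rw [pow_zero, one_mul]; exact h ω
  | succ M ih =>
    intro ω
    have h1 := ih ω.1.1
    have h2 := ih ω.2.1
    change _ ≤ (full p l A qa M).τ ω.1.1 + (full p l A qa M).τ ω.2.1
    rw [pow_succ]; linarith

theorem fam_gap (p : SU2 → ℝ) {l : Half} (A : Law) (qa : SU2 → A.Ω → ℝ) {σ : ℝ}
    (h : ∀ ω, l.τ ω ≤ l.τm ω + σ) (M : ℕ) (K : Idx M) :
    ∀ ω, (fam p l A qa M K).τ ω ≤ (fam p l A qa M K).τm ω + σ := by
  induction M with
  | zero => exact h
  | succ M ih =>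
    rcases K with K | K
    · exact ih K
    · intro ω
      have h1 := ih K ω.2.1
      change (full p l A qa M).τ ω.1.1 + (fam p l A qa M K).τ ω.2.1 ≤
        (full p l A qa M).τ ω.1.1 + (fam p l A qa M K).τm ω.2.1 + σ
      linarith

variable [MeasurableSpace SU2] [BorelSpace SU2] {m : Measure SU2} [m.IsHaarMeasure]
  [IsProbabilityMeasure m] {p : SU2 → ℝ} {l : Half} {A : Law} {qa : SU2 → A.Ω → ℝ}

theorem full_ok (hp : IsDens m p) (hl : l.Ok p) (hA : IsPat p A qa) (M : ℕ) :
    (full p l A qa M).Ok p := by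
  induction M with
  | zero => exact hl
  | succ M ih => exact node_ok hp ih hA ih

theorem fam_ok (hp : IsDens m p) (hl : l.Ok p) (hA : IsPat p A qa) (M : ℕ) (K : Idx M) :
    (fam p l A qa M K).Ok p := by
  induction M with
  | zero => exact hl
  | succ M ih =>
    rcases K with K | K
    · exact ih K
    · exact node_ok hp (full_ok hp hl hA M) hA (ih K)

theorem Tree_full_cost (hp : IsDens m p) (hl : l.Ok p) (hA : IsPat p A qa) {κ : ℝ}
    (h1 : cost m p l.L l.q ≤ κ) (h2 : cost m p A qa ≤ κ) (M : ℕ) :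
    cost m p (full p l A qa M).L (full p l A qa M).q + 2 * κ / 3 ≤ 4 ^ M * (5 * κ / 3) := by
  induction M with
  | zero => change cost m p l.L l.q + _ ≤ _; linarith
  | succ M ih =>
    have h := node_cost (m := m) hp (full_ok hp hl hA M) hA (full_ok hp hl hA M)
    change cost m p (node p (full p l A qa M) A qa (full p l A qa M)).L
      (node p (full p l A qa M) A qa (full p l A qa M)).q + _ ≤ _
    rw [pow_succ]; linarith

theorem Tree_fam_cost (hp : IsDens m p) (hl : l.Ok p) (hA : IsPat p A qa) {κ : ℝ}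
    (h1 : cost m p l.L l.q ≤ κ) (h2 : cost m p A qa ≤ κ) (M : ℕ) (K : Idx M) :
    cost m p (fam p l A qa M K).L (fam p l A qa M K).q + 2 * κ / 3 ≤ 4 ^ M * (5 * κ / 3) := by
  have κ0 : 0 ≤ κ := (cost_nonneg hp hA).trans h2
  induction M with
  | zero => change cost m p l.L l.q + _ ≤ _; linarith
  | succ M ih =>
    rcases K with K | K
    · have h := ih K
      have h3 : 0 ≤ 4 ^ M * (5 * κ / 3) := by positivity
      change cost m p (fam p l A qa M K).L (fam p l A qa M K).q + _ ≤ _
      rw [pow_succ]; linarith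
    · have h := node_cost (m := m) hp (full_ok hp hl hA M) hA (fam_ok hp hl hA M K)
      have h3 := Tree_full_cost hp hl hA h1 h2 M
      have h4 := ih K
      change cost m p (node p (full p l A qa M) A qa (fam p l A qa M K)).L
        (node p (full p l A qa M) A qa (fam p l A qa M K)).q + _ ≤ _
      rw [pow_succ]; linarith

theorem full_cost (hp : IsDens m p) (hl : l.Ok p) (hA : IsPat p A qa) {κ : ℝ}
    (h1 : cost m p l.L l.q ≤ κ) (h2 : cost m p A qa ≤ κ) (M : ℕ) :
    cost m p (full p l A qa M).L (full p l A qa M).q ≤ 2 * 4 ^ M * κ := by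
  have κ0 : 0 ≤ κ := (cost_nonneg hp hA).trans h2
  have h := Tree_full_cost hp hl hA h1 h2 M
  have h3 : 0 ≤ 4 ^ M * κ := by positivity
  linarith

theorem fam_cost (hp : IsDens m p) (hl : l.Ok p) (hA : IsPat p A qa) {κ : ℝ}
    (h1 : cost m p l.L l.q ≤ κ) (h2 : cost m p A qa ≤ κ) (M : ℕ) (K : Idx M) :
    cost m p (fam p l A qa M K).L (fam p l A qa M K).q ≤ 2 * 4 ^ M * κ := by
  have κ0 : 0 ≤ κ := (cost_nonneg hp hA).trans h2
  have h := Tree_fam_cost hp hl hA h1 h2 M K
  have h3 : 0 ≤ 4 ^ M * κ := by positivity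
  linarith

theorem full_good (hp : IsDens m p) (hl : l.Ok p) (hA : IsPat p A qa) {s ε σ εa : ℝ}
    (g : l.Good s ε) (ha : A.AX (exp (-σ)) εa) (M : ℕ) :
    (full p l A qa M).Good (2 ^ M * s + (2 ^ M - 1) * (σ + 2))
      (2 ^ M * ε + (2 ^ M - 1) * (2 * εa)) := by
  induction M with
  | zero => exact g.mono hl.pat.ok (by simp) (by simp)
  | succ M ih =>
    have o := full_ok hp hl hA M
    exact (node_good (qa := qa) o hA.ok o ih ih ha).mono (node_ok hp o hA o).pat.ok
      (le_of_eq (by ring)) (le_of_eq (by ring))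

theorem fam_good (hp : IsDens m p) (hl : l.Ok p) (hA : IsPat p A qa) {s ε σ εa : ℝ}
    (hs : 0 ≤ s) (hσ : 0 ≤ σ) (g : l.Good s ε) (ha : A.AX (exp (-σ)) εa) (M : ℕ) (K : Idx M) :
    (fam p l A qa M K).Good (2 ^ M * s + (2 ^ M - 1) * (σ + 2))
      (2 ^ M * ε + (2 ^ M - 1) * (2 * εa)) := by
  have ε0 : 0 ≤ ε := (Law.PP_nonneg hl.pat.ok _ _).trans g
  have εa0 : 0 ≤ εa := ha.nonneg hA.ok
  induction M with
  | zero => exact g.mono hl.pat.ok (by simp) (by simp)
  | succ M ih =>
    rcases K with K | K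
    · have N0 : (0 : ℝ) < 2 ^ M := by positivity
      have h1 := mul_nonneg N0.le hs
      have h2 := mul_nonneg N0.le hσ
      have h3 := mul_nonneg N0.le ε0
      have h4 := mul_nonneg N0.le εa0
      exact (ih K).mono (fam_ok hp hl hA M K).pat.ok (by rw [pow_succ]; linarith)
        (by rw [pow_succ]; linarith)
    · have o := full_ok hp hl hA M
      have o' := fam_ok hp hl hA M K
      exact (node_good (qa := qa) o hA.ok o' (full_good hp hl hA g ha M) (ih K) ha).mono
        (node_ok hp o hA o').pat.ok (le_of_eq (by ring)) (le_of_eq (by ring))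

theorem tree_identity (hp : IsDens m p) (hl : l.Ok p) (hA : IsPat p A qa) (h0 : ∀ ω, l.τm ω = 0)
    (M : ℕ) : ∀ (t : ℝ), 0 < t → ∀ a : SU2,
      ∑ K : Idx M, qm (fam p l A qa M K).L (fam p l A qa M K).q a
          (fun ω => (fam p l A qa M K).τm ω < t ∧ t ≤ (fam p l A qa M K).τ ω) +
        qm (full p l A qa M).L (full p l A qa M).q a (fun ω => (full p l A qa M).τ ω < t) =
      p a := by
  induction M with
  | zero =>
    intro t ht a
    rw [← hl.pat.qm_add_not a fun ω => t ≤ l.τ ω]
    congr 1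
    · refine (Fintype.sum_unique (ι := Unit) _).trans ?_
      exact qm_congr l.L l.q a fun ω _ => ⟨fun h => h.2, fun h => ⟨(h0 ω).trans_lt ht, h⟩⟩
    · exact qm_congr l.L l.q a fun ω _ => not_le.symm
  | succ M ih =>
    intro t ht a
    have o := full_ok hp hl hA M
    have o' := fam_ok hp hl hA M
    set y := full p l A qa M with hy
    have e1 : ∀ K : Idx M, qm (fam p l A qa (M + 1) (Sum.inr K)).L
        (fam p l A qa (M + 1) (Sum.inr K)).q a
        (fun ω => (fam p l A qa (M + 1) (Sum.inr K)).τm ω < t ∧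
          t ≤ (fam p l A qa (M + 1) (Sum.inr K)).τ ω) = _ := fun K =>
      node_qm hp o hA (o' K) a fun u v => y.τ u + (fam p l A qa M K).τm v < t ∧
        t ≤ y.τ u + (fam p l A qa M K).τ v
    have e2 : qm (full p l A qa (M + 1)).L (full p l A qa (M + 1)).q a
        (fun ω => (full p l A qa (M + 1)).τ ω < t) = _ :=
      node_qm hp o hA o a fun u v => y.τ u + y.τ v < t
    have e3 := Fintype.sum_sum_type (α₁ := Idx M) (α₂ := Idx M) fun K : Idx (M + 1) =>
      qm (fam p l A qa (M + 1) K).L (fam p l A qa (M + 1) K).q a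
        (fun ω => (fam p l A qa (M + 1) K).τm ω < t ∧ t ≤ (fam p l A qa (M + 1) K).τ ω)
    refine Eq.trans ?_ (ih t ht a)
    refine (congrArg (· + _) e3).trans ?_
    rw [add_assoc]
    congr 1
    rw [Finset.sum_congr rfl fun K _ => e1 K, e2, Finset.sum_comm, ← Finset.sum_add_distrib,
      ← qm_chain_fst hp y.q hA a]
    unfold qm
    refine Finset.sum_congr rfl fun ω _ => ?_
    rw [← Finset.mul_sum, ← mul_add]
    by_cases h : y.τ ω.1 < t
    · rw [if_pos h]
      have h1 := ih (t - y.τ ω.1) (by linarith) ((y.L.chain A).Y ω * a)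
      have h2 := (hp.pos ((y.L.chain A).Y ω * a)).ne'
      refine Eq.trans ?_ (div_mul_cancel₀ _ h2)
      congr 1
      rw [← h1]
      unfold qm
      congr 1
      · refine Finset.sum_congr rfl fun K _ => Finset.sum_congr rfl fun v _ => ?_
        congr 1
        exact propext ⟨fun c => ⟨by linarith [c.1], by linarith [c.2]⟩,
          fun c => ⟨by linarith [c.1], by linarith [c.2]⟩⟩
      · refine Finset.sum_congr rfl fun v _ => ?_
        congr 1
        exact propext ⟨fun c => by linarith, fun c => by linarith⟩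
    · rw [if_neg h]
      refine mul_eq_zero_of_right _ ?_
      rw [Finset.sum_eq_zero, Finset.sum_eq_zero, add_zero]
      · intro v _
        have := (o.nn v).trans (o.le v)
        exact if_neg (by linarith [not_lt.mp h])
      · intro K _
        refine Finset.sum_eq_zero fun v _ => if_neg fun c => ?_
        have := (o' K).nn v
        linarith [not_lt.mp h, c.1]

end Pool.Agent.P.MP_923088_al.AG
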